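import Pool.Agent.Lib.MP_31392c_an.Defs

set_option autoImplicit false

open MeasureTheory Complex

namespace Pool.MP_31392c_an

private theorem norm_ray (θ : ℝ) {t : ℝ} (ht : 0 ≤ t) : ‖(t : ℂ) * exp ((θ : ℂ) * I)‖ = t := by
  rw [norm_mul, Complex.norm_exp_ofReal_mul_I, mul_one, Complex.norm_real, Real.norm_eq_abs,
    abs_of_nonneg ht]

private theorem near_ray (E : Set ℂ) {R0 ε : ℝ} (hR0 : ∀ z ∈ E, ‖z‖ ≤ R0) (θ ω : ℝ)
    (hω : R0 * ‖exp ((θ : ℂ) * I) - exp ((ω : ℂ) * I)‖ ≤ ε / 4) {t : ℝ} (ht : 0 ≤ t)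
    (htE : (t : ℂ) * exp ((θ : ℂ) * I) ∈ E) (s : ℝ) :
    Metric.infDist ((s : ℂ) * exp ((ω : ℂ) * I)) E ≤ |s - t| + ε / 4 := by
  have h1 : t ≤ R0 := by
    have := hR0 _ htE
    rwa [norm_ray θ ht] at this
  refine (Metric.infDist_le_dist_of_mem htE).trans ?_
  rw [dist_eq_norm]
  have h2 : (s : ℂ) * exp ((ω : ℂ) * I) - (t : ℂ) * exp ((θ : ℂ) * I) =
      ((s - t : ℝ) : ℂ) * exp ((ω : ℂ) * I) -
        (t : ℂ) * (exp ((θ : ℂ) * I) - exp ((ω : ℂ) * I)) := by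
    push_cast; ring
  rw [h2]
  refine (norm_sub_le _ _).trans ?_
  rw [norm_mul, norm_mul, Complex.norm_exp_ofReal_mul_I, mul_one, Complex.norm_real,
    Complex.norm_real, Real.norm_eq_abs, Real.norm_eq_abs, abs_of_nonneg ht]
  have h3 : t * ‖exp ((θ : ℂ) * I) - exp ((ω : ℂ) * I)‖ ≤
      R0 * ‖exp ((θ : ℂ) * I) - exp ((ω : ℂ) * I)‖ :=
    mul_le_mul_of_nonneg_right h1 (norm_nonneg _)
  linarith

/-- counting the nodes near `E` on the ray of direction `ω`, `ω` close to `θ` -/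
theorem geom (E : Set ℂ) (hE : IsCompact E) {ρ R0 δ ε : ℝ} (hρ : 0 < ρ)
    (hball : Metric.closedBall (0 : ℂ) ρ ⊆ E) (hR0 : ∀ z ∈ E, ‖z‖ ≤ R0) (hδ : 0 < δ)
    (hδε : 8 * δ ≤ ε) (L : ℕ) (hL : R0 + ε ≤ ρ + L * δ) (θ ω : ℝ)
    (hω : R0 * ‖exp ((θ : ℂ) * I) - exp ((ω : ℂ) * I)‖ ≤ ε / 4) :
    rayMeasure E θ + ε / 4 ≤ ρ + δ * (((Finset.Icc 1 L).filter (fun i : ℕ =>
      Metric.infDist (((ρ + i * δ : ℝ) : ℂ) * exp ((ω : ℂ) * I)) E ≤ ε)).card : ℝ) := by
  classical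
  have hε : 0 < ε := by linarith
  have hρE : (ρ : ℂ) * exp ((θ : ℂ) * I) ∈ E := by
    apply hball
    rw [Metric.mem_closedBall, dist_zero_right, norm_ray θ hρ.le]
  have hρR : ρ ≤ R0 := by
    have := hR0 _ hρE
    rwa [norm_ray θ hρ.le] at this
  have hL1 : 0 < L := by
    rcases Nat.eq_zero_or_pos L with h | h
    · subst h
      simp at hL
      linarith
    · exact h
  set J : Finset ℕ := (Finset.range L).filter (fun i : ℕ =>
    ∃ t : ℝ, t ∈ Set.Icc (ρ + i * δ) (ρ + (i + 1) * δ) ∧ (t : ℂ) * exp ((θ : ℂ) * I) ∈ E) with hJ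
  have h0J : 0 ∈ J := by
    rw [hJ, Finset.mem_filter]
    refine ⟨Finset.mem_range.2 hL1, ρ, ⟨by simp, by simp; exact hδ.le⟩, hρE⟩
  -- the measure bound
  have hmeas : rayMeasure E θ ≤ ρ + δ * (J.card : ℝ) := by
    have hsub : {t : ℝ | 0 ≤ t ∧ (t : ℂ) * exp ((θ : ℂ) * I) ∈ E} ⊆
        Set.Icc 0 ρ ∪ ⋃ i ∈ J, Set.Icc (ρ + (i : ℝ) * δ) (ρ + ((i : ℝ) + 1) * δ) := by
      rintro t ⟨ht0, htE⟩
      by_cases htρ : t ≤ ρ
      · exact Or.inl ⟨ht0, htρ⟩
      · right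
        push Not at htρ
        have htR : t ≤ R0 := by
          have := hR0 _ htE
          rwa [norm_ray θ ht0] at this
        have hq0 : 0 ≤ (t - ρ) / δ := div_nonneg (by linarith) hδ.le
        have hfl : ((⌊(t - ρ) / δ⌋₊ : ℕ) : ℝ) ≤ (t - ρ) / δ := Nat.floor_le hq0
        have hfl2 : (t - ρ) / δ < ((⌊(t - ρ) / δ⌋₊ : ℕ) : ℝ) + 1 := Nat.lt_floor_add_one _
        rw [le_div_iff₀ hδ] at hfl
        rw [div_lt_iff₀ hδ] at hfl2
        simp only [Set.mem_iUnion]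
        have hmem : t ∈ Set.Icc (ρ + ((⌊(t - ρ) / δ⌋₊ : ℕ) : ℝ) * δ)
            (ρ + (((⌊(t - ρ) / δ⌋₊ : ℕ) : ℝ) + 1) * δ) := ⟨by linarith, by linarith⟩
        refine ⟨⌊(t - ρ) / δ⌋₊, ?_, hmem⟩
        rw [hJ, Finset.mem_filter]
        refine ⟨?_, t, hmem, htE⟩
        rw [Finset.mem_range]
        have h5 : ((⌊(t - ρ) / δ⌋₊ : ℕ) : ℝ) * δ < (L : ℝ) * δ := by linarith
        have h6 : ((⌊(t - ρ) / δ⌋₊ : ℕ) : ℝ) < (L : ℝ) := lt_of_mul_lt_mul_right h5 hδ.le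
        exact_mod_cast h6
    have hvol : volume {t : ℝ | 0 ≤ t ∧ (t : ℂ) * exp ((θ : ℂ) * I) ∈ E} ≤
        ENNReal.ofReal (ρ + δ * (J.card : ℝ)) := by
      refine (measure_mono hsub).trans ((measure_union_le _ _).trans ?_)
      have h7 : volume (⋃ i ∈ J, Set.Icc (ρ + (i : ℝ) * δ) (ρ + ((i : ℝ) + 1) * δ)) ≤
          ENNReal.ofReal (δ * (J.card : ℝ)) := by
        refine (measure_biUnion_finset_le J _).trans ?_
        have h8 : ∀ i ∈ J, volume (Set.Icc (ρ + (i : ℝ) * δ) (ρ + ((i : ℝ) + 1) * δ)) =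
            ENNReal.ofReal δ := by
          intro i _
          rw [Real.volume_Icc]
          congr 1
          ring
        rw [Finset.sum_congr rfl h8, Finset.sum_const, nsmul_eq_mul,
          ENNReal.ofReal_mul hδ.le, ENNReal.ofReal_natCast, mul_comm]
      rw [ENNReal.ofReal_add hρ.le (by positivity), Real.volume_Icc, sub_zero]
      exact add_le_add le_rfl h7
    unfold rayMeasure
    refine ENNReal.toReal_le_of_le_ofReal (by positivity) hvol
  -- the counting bound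
  have hne : J.Nonempty := ⟨0, h0J⟩
  set m := J.max' hne with hm
  have hmJ : m ∈ J := J.max'_mem hne
  obtain ⟨hmL, ts, hts, htsE⟩ := (Finset.mem_filter.1 hmJ)
  rw [Finset.mem_range] at hmL
  have hts0 : 0 ≤ ts := by
    have h9 : (0 : ℝ) ≤ (m : ℝ) * δ := by positivity
    have := hts.1
    linarith
  have htsR : ts ≤ R0 := by
    have := hR0 _ htsE
    rwa [norm_ray θ hts0] at this
  set P := ⌊ε / (2 * δ)⌋₊ with hP
  have hPle : (P : ℝ) * (2 * δ) ≤ ε := by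
    have := Nat.floor_le (a := ε / (2 * δ)) (by positivity)
    rwa [le_div_iff₀ (by positivity)] at this
  have hPgt : ε < ((P : ℝ) + 1) * (2 * δ) := by
    have := Nat.lt_floor_add_one (ε / (2 * δ))
    rwa [div_lt_iff₀ (by positivity)] at this
  set F := (Finset.Icc 1 L).filter (fun i : ℕ =>
      Metric.infDist (((ρ + i * δ : ℝ) : ℂ) * exp ((ω : ℂ) * I)) E ≤ ε) with hF
  have hsub1 : J.image (fun i => i + 1) ⊆ F := by
    intro k hk
    obtain ⟨i, hi, rfl⟩ := Finset.mem_image.1 hk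
    obtain ⟨hiL, t, ht, htE⟩ := Finset.mem_filter.1 hi
    rw [Finset.mem_range] at hiL
    rw [hF, Finset.mem_filter]
    refine ⟨Finset.mem_Icc.2 ⟨by omega, by omega⟩, ?_⟩
    have ht0 : 0 ≤ t := by
      have h9 : (0 : ℝ) ≤ (i : ℝ) * δ := by positivity
      have := ht.1
      linarith
    refine (near_ray E hR0 θ ω hω ht0 htE _).trans ?_
    have h10 : |ρ + ((i + 1 : ℕ) : ℝ) * δ - t| ≤ δ := by
      push_cast
      rw [abs_le]
      constructor
      · have := ht.2; linarith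
      · have := ht.1; linarith
    linarith
  have hsub2 : Finset.Icc (m + 2) (m + 1 + P) ⊆ F := by
    intro k hk
    rw [Finset.mem_Icc] at hk
    obtain ⟨j, rfl⟩ : ∃ j, k = m + 1 + j := ⟨k - (m + 1), by omega⟩
    have hj1 : 1 ≤ j := by omega
    have hjP : j ≤ P := by omega
    have hjPr : (j : ℝ) ≤ P := by exact_mod_cast hjP
    have hjd : (j : ℝ) * δ ≤ ε / 2 := by
      have : (j : ℝ) * δ ≤ P * δ := mul_le_mul_of_nonneg_right hjPr hδ.le
      linarith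
    have hjd0 : (0 : ℝ) ≤ (j : ℝ) * δ := by positivity
    rw [hF, Finset.mem_filter]
    refine ⟨Finset.mem_Icc.2 ⟨by omega, ?_⟩, ?_⟩
    · have h11 : ((m + 1 + j : ℕ) : ℝ) * δ ≤ (L : ℝ) * δ := by
        push_cast
        have := hts.1
        linarith
      have h12 : ((m + 1 + j : ℕ) : ℝ) ≤ (L : ℝ) := le_of_mul_le_mul_right h11 hδ
      exact_mod_cast h12
    · refine (near_ray E hR0 θ ω hω hts0 htsE _).trans ?_
      have h10 : |ρ + ((m + 1 + j : ℕ) : ℝ) * δ - ts| ≤ δ + ε / 2 := by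
        push_cast
        rw [abs_le]
        constructor
        · have := hts.2; linarith
        · have := hts.1; linarith
      linarith
  have hdisj : Disjoint (J.image (fun i => i + 1)) (Finset.Icc (m + 2) (m + 1 + P)) := by
    rw [Finset.disjoint_left]
    intro k hk hk2
    obtain ⟨i, hi, rfl⟩ := Finset.mem_image.1 hk
    have h13 : i ≤ m := J.le_max' i hi
    rw [Finset.mem_Icc] at hk2
    omega
  have hcard : J.card + P ≤ F.card := by
    have h14 := Finset.card_le_card (Finset.union_subset hsub1 hsub2)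
    rw [Finset.card_union_of_disjoint hdisj, Finset.card_image_of_injective _
      (fun a b h => by simpa using h), Nat.card_Icc] at h14
    omega
  have hcardR : (J.card : ℝ) + P ≤ F.card := by exact_mod_cast hcard
  have h15 : δ * ((J.card : ℝ) + P) ≤ δ * F.card := mul_le_mul_of_nonneg_left hcardR hδ.le
  linarith

end Pool.MP_31392c_an
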