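import Pool.Agent.Lib.MP_31392c_an.Defs

set_option autoImplicit false

namespace Pool.MP_31392c_an

/-- the radial grid: arithmetic up to radius `ρ + L δ`, then geometric -/
noncomputable def gx (ρ δ : ℝ) (L : ℕ) (i : ℕ) : ℝ :=
  if i ≤ L then Real.log ((ρ + i * δ) / ρ)
  else Real.log ((ρ + L * δ) / ρ) +
    ((i : ℝ) - L) * Real.log ((ρ + L * δ) / (ρ + ((L : ℝ) - 1) * δ))

theorem gx_zero {ρ δ : ℝ} (hρ : 0 < ρ) (L : ℕ) : gx ρ δ L 0 = 0 := by
  unfold gx
  rw [if_pos (Nat.zero_le L)]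
  simp [hρ.ne']

private theorem gx_r_pos {ρ δ : ℝ} (hρ : 0 < ρ) (hδ : 0 < δ) (i : ℕ) : 0 < ρ + i * δ := by
  positivity

private theorem gx_r1_pos {ρ δ : ℝ} (hρ : 0 < ρ) (hδ : 0 < δ) {L : ℕ} (hL : 1 ≤ L) :
    0 < ρ + ((L : ℝ) - 1) * δ := by
  have : (1 : ℝ) ≤ L := by exact_mod_cast hL
  have h2 : 0 ≤ ((L : ℝ) - 1) * δ := mul_nonneg (by linarith) hδ.le
  linarith

private theorem gx_eq1 {ρ δ : ℝ} (hρ : 0 < ρ) (hδ : 0 < δ) {L i : ℕ} (hi : i ≤ L) :
    gx ρ δ L i = Real.log (ρ + i * δ) - Real.log ρ := by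
  unfold gx
  rw [if_pos hi, Real.log_div (gx_r_pos hρ hδ i).ne' hρ.ne']

private theorem gx_eq2 {ρ δ : ℝ} (hρ : 0 < ρ) (hδ : 0 < δ) {L i : ℕ} (hL : 1 ≤ L) (hi : L ≤ i) :
    gx ρ δ L i = Real.log (ρ + L * δ) - Real.log ρ +
      ((i : ℝ) - L) * (Real.log (ρ + L * δ) - Real.log (ρ + ((L : ℝ) - 1) * δ)) := by
  rcases Nat.eq_or_lt_of_le hi with h | h
  · subst h
    rw [gx_eq1 hρ hδ le_rfl]
    ring
  · unfold gx
    rw [if_neg (by omega), Real.log_div (gx_r_pos hρ hδ L).ne' hρ.ne',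
      Real.log_div (gx_r_pos hρ hδ L).ne' (gx_r1_pos hρ hδ hL).ne']

private theorem gx_h1 {ρ δ : ℝ} (hρ : 0 < ρ) (hδ : 0 < δ) {L i : ℕ} (hi : i + 1 ≤ L) :
    gx ρ δ L (i + 1) - gx ρ δ L i = Real.log (ρ + ((i : ℝ) + 1) * δ) - Real.log (ρ + i * δ) := by
  rw [gx_eq1 hρ hδ hi, gx_eq1 hρ hδ (by omega)]
  push_cast
  ring

private theorem gx_h2 {ρ δ : ℝ} (hρ : 0 < ρ) (hδ : 0 < δ) {L i : ℕ} (hL : 1 ≤ L)
    (hi : L ≤ i + 1) :
    gx ρ δ L (i + 1) - gx ρ δ L i =
      Real.log (ρ + L * δ) - Real.log (ρ + ((L : ℝ) - 1) * δ) := by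
  rcases Nat.eq_or_lt_of_le hi with h | h
  · rw [gx_h1 hρ hδ (by omega), h]
    push_cast
    ring_nf
  · rw [gx_eq2 hρ hδ hL (by omega), gx_eq2 hρ hδ hL (by omega)]
    push_cast
    ring

private theorem gx_h1_pos {ρ δ : ℝ} (hρ : 0 < ρ) (hδ : 0 < δ) {t : ℝ} (ht : 0 ≤ t) :
    0 < Real.log (ρ + (t + 1) * δ) - Real.log (ρ + t * δ) ∧
    Real.log (ρ + (t + 1) * δ) - Real.log (ρ + t * δ) ≤ δ / ρ := by
  have h1 : 0 < ρ + t * δ := by positivity
  have h2 : ρ + t * δ < ρ + (t + 1) * δ := by nlinarith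
  refine ⟨by have := Real.log_lt_log h1 h2; linarith, ?_⟩
  rw [← Real.log_div (by linarith) h1.ne']
  have h3 : Real.log ((ρ + (t + 1) * δ) / (ρ + t * δ)) ≤
      (ρ + (t + 1) * δ) / (ρ + t * δ) - 1 := Real.log_le_sub_one_of_pos (by positivity)
  refine h3.trans ?_
  have h4 : (ρ + (t + 1) * δ) / (ρ + t * δ) - 1 = δ / (ρ + t * δ) := by
    field_simp
    ring
  rw [h4]
  apply div_le_div_of_nonneg_left hδ.le hρ
  nlinarith [mul_nonneg ht hδ.le]

private theorem gx_h_anti {ρ δ : ℝ} (hρ : 0 < ρ) (hδ : 0 < δ) {t : ℝ} (ht : 0 ≤ t) :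
    Real.log (ρ + (t + 1 + 1) * δ) - Real.log (ρ + (t + 1) * δ) ≤
      Real.log (ρ + (t + 1) * δ) - Real.log (ρ + t * δ) := by
  have h1 : 0 < ρ + t * δ := by positivity
  have h2 : 0 < ρ + (t + 1) * δ := by positivity
  have h3 : 0 < ρ + (t + 1 + 1) * δ := by positivity
  have h4 : Real.log (ρ + (t + 1 + 1) * δ) + Real.log (ρ + t * δ) ≤
      Real.log (ρ + (t + 1) * δ) + Real.log (ρ + (t + 1) * δ) := by
    rw [← Real.log_mul h3.ne' h1.ne', ← Real.log_mul h2.ne' h2.ne']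
    apply Real.log_le_log (by positivity)
    nlinarith [sq_nonneg δ]
  linarith

theorem gx_lt {ρ δ : ℝ} (hρ : 0 < ρ) (hδ : 0 < δ) {L : ℕ} (hL : 1 ≤ L) (i : ℕ) :
    gx ρ δ L i < gx ρ δ L (i + 1) := by
  rcases le_total (i + 1) L with h | h
  · have h1 := gx_h1 hρ hδ h
    have h2 := (gx_h1_pos hρ hδ (Nat.cast_nonneg i)).1
    linarith
  · have h1 := gx_h2 hρ hδ hL h
    have hL' : (0 : ℝ) ≤ (L : ℝ) - 1 := by
      have : (1 : ℝ) ≤ L := by exact_mod_cast hL
      linarith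
    have h2 := (gx_h1_pos hρ hδ hL').1
    rw [sub_add_cancel] at h2
    linarith

theorem gx_step {ρ δ : ℝ} (hρ : 0 < ρ) (hδ : 0 < δ) {L : ℕ} (hL : 1 ≤ L) (i : ℕ) :
    gx ρ δ L (i + 1) - gx ρ δ L i ≤ δ / ρ := by
  rcases le_total (i + 1) L with h | h
  · have h1 := gx_h1 hρ hδ h
    have h2 := (gx_h1_pos hρ hδ (Nat.cast_nonneg i)).2
    linarith
  · have h1 := gx_h2 hρ hδ hL h
    have hL' : (0 : ℝ) ≤ (L : ℝ) - 1 := by
      have : (1 : ℝ) ≤ L := by exact_mod_cast hL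
      linarith
    have h2 := (gx_h1_pos hρ hδ hL').2
    rw [sub_add_cancel] at h2
    linarith

private theorem gx_h_le {ρ δ : ℝ} (hρ : 0 < ρ) (hδ : 0 < δ) {L : ℕ} (hL : 1 ≤ L) (i : ℕ) :
    gx ρ δ L (i + 2) - gx ρ δ L (i + 1) ≤ gx ρ δ L (i + 1) - gx ρ δ L i := by
  rcases le_or_gt (i + 1 + 1) L with h | h
  · have h1 := gx_h1 hρ hδ h
    have h2 := gx_h1 hρ hδ (show i + 1 ≤ L by omega)
    have h3 := gx_h_anti hρ hδ (Nat.cast_nonneg i)
    push_cast at h1 h2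
    have h4 : i + 1 + 1 = i + 2 := rfl
    rw [h4] at h1
    linarith
  · have h1 := gx_h2 hρ hδ hL (show L ≤ i + 1 + 1 by omega)
    have h2 := gx_h2 hρ hδ hL (show L ≤ i + 1 by omega)
    have h4 : i + 1 + 1 = i + 2 := rfl
    rw [h4] at h1
    linarith

private theorem gx_nonneg {ρ δ : ℝ} (hρ : 0 < ρ) (hδ : 0 < δ) {L : ℕ} (hL : 1 ≤ L) (i : ℕ) :
    0 ≤ gx ρ δ L i := by
  have h1 : Monotone (gx ρ δ L) := monotone_nat_of_le_succ fun i => (gx_lt hρ hδ hL i).le
  have h2 := h1 (Nat.zero_le i)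
  rwa [gx_zero hρ L] at h2

/-- weights of the network for the comparison function `g i = x i / η` -/
theorem gx_W1 {ρ δ : ℝ} (hρ : 0 < ρ) (hδ : 0 < δ) {L : ℕ} (hL : 1 ≤ L) (K : ℕ) [NeZero K]
    (i : ℕ) :
    cr (gx ρ δ L) K i * (gx ρ δ L i / (2 * Real.pi / (K : ℝ))) *
      (gx ρ δ L (i + 1) / (2 * Real.pi / (K : ℝ))) ≤
    cr (gx ρ δ L) K (i + 1) * (gx ρ δ L (i + 1) / (2 * Real.pi / (K : ℝ))) *
      (gx ρ δ L (i + 2) / (2 * Real.pi / (K : ℝ))) := by
  have hK : (0 : ℝ) < K := by exact_mod_cast Nat.pos_of_ne_zero (NeZero.ne K)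
  have hη : 0 < 2 * Real.pi / (K : ℝ) := by positivity
  unfold cr
  set η := 2 * Real.pi / (K : ℝ) with hηd
  have h0 := gx_nonneg hρ hδ hL i
  have h1 := gx_nonneg hρ hδ hL (i + 1)
  have h2 := gx_nonneg hρ hδ hL (i + 2)
  have h3 := gx_lt hρ hδ hL i
  have h4 : gx ρ δ L (i + 1) < gx ρ δ L (i + 2) := gx_lt hρ hδ hL (i + 1)
  have h5 := gx_h_le hρ hδ hL i
  have e1 : i + 1 + 1 = i + 2 := rfl
  rw [e1]
  have h6 : η / (gx ρ δ L (i + 1) - gx ρ δ L i) ≤ η / (gx ρ δ L (i + 2) - gx ρ δ L (i + 1)) :=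
    div_le_div_of_nonneg_left hη.le (by linarith) h5
  have h7 : 0 ≤ η / (gx ρ δ L (i + 1) - gx ρ δ L i) := div_nonneg hη.le (by linarith)
  have h8 : gx ρ δ L i / η ≤ gx ρ δ L (i + 2) / η := by
    apply div_le_div_of_nonneg_right _ hη.le
    linarith
  calc η / (gx ρ δ L (i + 1) - gx ρ δ L i) * (gx ρ δ L i / η) * (gx ρ δ L (i + 1) / η)
      ≤ η / (gx ρ δ L (i + 2) - gx ρ δ L (i + 1)) * (gx ρ δ L (i + 2) / η) *
        (gx ρ δ L (i + 1) / η) := by
        apply mul_le_mul_of_nonneg_right _ (div_nonneg h1 hη.le)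
        exact mul_le_mul h6 h8 (div_nonneg h0 hη.le) (h7.trans h6)
    _ = η / (gx ρ δ L (i + 2) - gx ρ δ L (i + 1)) * (gx ρ δ L (i + 1) / η) *
        (gx ρ δ L (i + 2) / η) := by ring

private theorem gx_f_mono {ρ δ r₁ r₂ B : ℝ} (hρ : 0 < ρ) (hδ : 0 < δ) (h1 : ρ + δ ≤ r₁)
    (h12 : r₁ ≤ r₂) (hB : Real.log r₂ - Real.log ρ ≤ B)
    (hB2 : B ≤ 2 * (1 - δ ^ 2 / ρ ^ 2)) :
    (Real.log (r₁ + δ) - Real.log (r₁ - δ)) * (Real.log r₁ - Real.log ρ) ^ 2 ≤
    (Real.log (r₂ + δ) - Real.log (r₂ - δ)) * (Real.log r₂ - Real.log ρ) ^ 2 := by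
  have key : MonotoneOn (fun r => (Real.log (r + δ) - Real.log (r - δ)) *
      (Real.log r - Real.log ρ) ^ 2) (Set.Icc (ρ + δ) r₂) := by
    have hder : ∀ r ∈ Set.Icc (ρ + δ) r₂, HasDerivAt
        (fun r => (Real.log (r + δ) - Real.log (r - δ)) * (Real.log r - Real.log ρ) ^ 2)
        ((1 / (r + δ) - 1 / (r - δ)) * (Real.log r - Real.log ρ) ^ 2 +
          (Real.log (r + δ) - Real.log (r - δ)) * (2 * (Real.log r - Real.log ρ) * (1 / r))) r := by
      intro r hr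
      have hr1 : ρ + δ ≤ r := hr.1
      have a1 : HasDerivAt (fun r => Real.log (r + δ)) (1 / (r + δ)) r := by
        have := ((hasDerivAt_id r).add_const δ).log (by simp only [id]; linarith)
        simpa using this
      have a2 : HasDerivAt (fun r => Real.log (r - δ)) (1 / (r - δ)) r := by
        have := ((hasDerivAt_id r).sub_const δ).log (by simp only [id]; linarith)
        simpa using this
      have a3 : HasDerivAt (fun r => Real.log r - Real.log ρ) (1 / r) r := by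
        have := (Real.hasDerivAt_log (show r ≠ 0 by linarith)).sub_const (Real.log ρ)
        simpa using this
      have a4 := (a1.sub a2).mul (a3.pow 2)
      refine HasDerivAt.congr_deriv a4 ?_
      show (1 / (r + δ) - 1 / (r - δ)) * (Real.log r - Real.log ρ) ^ 2 +
        (Real.log (r + δ) - Real.log (r - δ)) *
          (((2 : ℕ) : ℝ) * (Real.log r - Real.log ρ) ^ (2 - 1) * (1 / r)) = _
      push_cast
      ring
    apply monotoneOn_of_deriv_nonneg (convex_Icc _ _)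
    · intro r hr
      exact (hder r hr).continuousAt.continuousWithinAt
    · intro r hr
      rw [interior_Icc] at hr
      exact (hder r ⟨hr.1.le, hr.2.le⟩).differentiableAt.differentiableWithinAt
    · intro r hr
      rw [interior_Icc] at hr
      rw [(hder r ⟨hr.1.le, hr.2.le⟩).deriv]
      have hr1 : ρ + δ < r := hr.1
      have hrpos : 0 < r := by linarith
      have hrm : 0 < r - δ := by linarith
      have hrp : 0 < r + δ := by linarith
      set x := Real.log r - Real.log ρ with hx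
      have hx0 : 0 ≤ x := by
        have := Real.log_le_log hρ (show ρ ≤ r by linarith)
        linarith
      have hxB : x ≤ 2 * (1 - δ ^ 2 / r ^ 2) := by
        have b1 : Real.log r ≤ Real.log r₂ := Real.log_le_log hrpos hr.2.le
        have b2 : δ ^ 2 / r ^ 2 ≤ δ ^ 2 / ρ ^ 2 := by
          apply div_le_div_of_nonneg_left (by positivity) (by positivity)
          exact pow_le_pow_left₀ hρ.le (by linarith) 2
        linarith
      have hH : 2 * δ / r ≤ Real.log (r + δ) - Real.log (r - δ) := by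
        rw [← Real.log_div hrp.ne' hrm.ne']
        have c1 := Real.le_log_one_add_of_nonneg (x := 2 * δ / (r - δ)) (by positivity)
        have c2 : 1 + 2 * δ / (r - δ) = (r + δ) / (r - δ) := by
          field_simp
          ring
        have c3 : 2 * (2 * δ / (r - δ)) / (2 * δ / (r - δ) + 2) = 2 * δ / r := by
          field_simp
          ring
        rw [c2, c3] at c1
        exact c1
      have hd : 1 / (r + δ) - 1 / (r - δ) = -(2 * δ / (r ^ 2 - δ ^ 2)) := by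
        have : r ^ 2 - δ ^ 2 = (r + δ) * (r - δ) := by ring
        rw [this]
        field_simp
        ring
      have hr2 : 0 < r ^ 2 - δ ^ 2 := by
        have : r ^ 2 - δ ^ 2 = (r + δ) * (r - δ) := by ring
        rw [this]
        positivity
      rw [hd]
      have d1 : (2 * δ / r) * (2 * x * (1 / r)) ≤
          (Real.log (r + δ) - Real.log (r - δ)) * (2 * x * (1 / r)) :=
        mul_le_mul_of_nonneg_right hH (by positivity)
      have d2 : 2 * δ / (r ^ 2 - δ ^ 2) * x ^ 2 ≤ (2 * δ / r) * (2 * x * (1 / r)) := by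
        have e1 : x * r ^ 2 ≤ 2 * (r ^ 2 - δ ^ 2) := by
          have e2 : 2 * (1 - δ ^ 2 / r ^ 2) * r ^ 2 = 2 * (r ^ 2 - δ ^ 2) := by
            field_simp
          rw [← e2]
          exact mul_le_mul_of_nonneg_right hxB (by positivity)
        have e3 : 2 * δ / (r ^ 2 - δ ^ 2) * x ^ 2 = (2 * δ * x) * (x / (r ^ 2 - δ ^ 2)) := by
          ring
        have e4 : (2 * δ / r) * (2 * x * (1 / r)) = (2 * δ * x) * (2 / r ^ 2) := by
          field_simp
        rw [e3, e4]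
        apply mul_le_mul_of_nonneg_left _ (by positivity)
        rw [div_le_div_iff₀ hr2 (by positivity)]
        linarith
      linarith
  exact key ⟨h1, h12⟩ ⟨h1.trans h12, le_rfl⟩ h12

theorem gx_W2 {ρ δ : ℝ} (hρ : 0 < ρ) (hδ : 0 < δ) {L : ℕ} (hL : 1 ≤ L) (K : ℕ) [NeZero K]
    (hrange : Real.log ((ρ + L * δ) / ρ) ≤ 2 * (1 - δ ^ 2 / ρ ^ 2)) (i : ℕ) :
    ca (gx ρ δ L) K i * (gx ρ δ L i / (2 * Real.pi / (K : ℝ))) ^ 2 ≤
    ca (gx ρ δ L) K (i + 1) * (gx ρ δ L (i + 1) / (2 * Real.pi / (K : ℝ))) ^ 2 := by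
  have hK : (0 : ℝ) < K := by exact_mod_cast Nat.pos_of_ne_zero (NeZero.ne K)
  have hη : 0 < 2 * Real.pi / (K : ℝ) := by positivity
  unfold ca
  set η := 2 * Real.pi / (K : ℝ) with hηd
  have hmono : Monotone (gx ρ δ L) := monotone_nat_of_le_succ fun i => (gx_lt hρ hδ hL i).le
  -- reduction to the inequality without `η`
  have hmain : (gx ρ δ L (i + 1) - gx ρ δ L (i - 1)) * (gx ρ δ L i) ^ 2 ≤
      (gx ρ δ L (i + 1 + 1) - gx ρ δ L (i + 1 - 1)) * (gx ρ δ L (i + 1)) ^ 2 := by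
    rw [Nat.add_sub_cancel]
    rcases Nat.eq_zero_or_pos i with hi | hi
    · subst hi
      rw [gx_zero hρ L]
      have h1 : gx ρ δ L 0 ≤ gx ρ δ L (0 + 1 + 1) := hmono (by omega)
      rw [gx_zero hρ L] at h1
      have h2 : 0 ≤ (gx ρ δ L (0 + 1 + 1) - 0) * gx ρ δ L (0 + 1) ^ 2 := by
        apply mul_nonneg (by linarith) (sq_nonneg _)
      simpa using h2
    obtain ⟨k, rfl⟩ : ∃ k, i = k + 1 := ⟨i - 1, by omega⟩
    rw [Nat.add_sub_cancel]
    have hx1 := gx_nonneg hρ hδ hL (k + 1)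
    have hx12 : gx ρ δ L (k + 1) ≤ gx ρ δ L (k + 1 + 1) := hmono (by omega)
    rcases le_or_gt L (k + 1) with h | h
    · -- geometric part
      have h1 := gx_h2 hρ hδ hL (i := k) h
      have h2 := gx_h2 hρ hδ hL (i := k + 1) (by omega)
      have h3 := gx_h2 hρ hδ hL (i := k + 1 + 1) (by omega)
      have h4 : gx ρ δ L (k + 1 + 1 + 1) - gx ρ δ L (k + 1) =
          gx ρ δ L (k + 1 + 1) - gx ρ δ L k := by linarith
      rw [h4]
      apply mul_le_mul_of_nonneg_left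
      · exact pow_le_pow_left₀ hx1 hx12 2
      · have : gx ρ δ L k ≤ gx ρ δ L (k + 1 + 1) := hmono (by omega)
        linarith
    · -- arithmetic part
      have h1 := gx_h1 hρ hδ (L := L) (i := k) (by omega)
      have h2 := gx_h1 hρ hδ (L := L) (i := k + 1) (by omega)
      push_cast at h1 h2
      set r₁ : ℝ := ρ + ((k : ℝ) + 1) * δ with hr₁
      set r₂ : ℝ := ρ + ((k : ℝ) + 1 + 1) * δ with hr₂
      have hk : (0 : ℝ) ≤ k := Nat.cast_nonneg k
      have hkδ : 0 ≤ (k : ℝ) * δ := mul_nonneg hk hδ.le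
      have e1 : r₁ + δ = r₂ := by rw [hr₁, hr₂]; ring
      have e2 : r₁ - δ = ρ + (k : ℝ) * δ := by rw [hr₁]; ring
      have e3 : r₂ - δ = r₁ := by rw [← e1]; ring
      have hr₁pos : 0 < r₁ := by rw [hr₁]; nlinarith
      have hr₂pos : 0 < r₂ := by linarith
      have g1 : gx ρ δ L (k + 1 + 1) - gx ρ δ L k =
          Real.log (r₁ + δ) - Real.log (r₁ - δ) := by
        rw [e1, e2]; linarith
      have g2 : gx ρ δ L (k + 1) = Real.log r₁ - Real.log ρ := by
        rw [gx_eq1 hρ hδ (by omega)]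
        push_cast
        rfl
      have g3 : gx ρ δ L (k + 1 + 1) = Real.log r₂ - Real.log ρ := by
        rw [gx_eq1 hρ hδ (by omega)]
        push_cast
        rfl
      have g4 : Real.log (r₂ + δ) - Real.log (r₂ - δ) ≤
          gx ρ δ L (k + 1 + 1 + 1) - gx ρ δ L (k + 1) := by
        rcases le_or_gt (k + 1 + 1 + 1) L with h' | h'
        · have h3 := gx_h1 hρ hδ (L := L) (i := k + 1 + 1) h'
          push_cast at h3
          have e4 : r₂ + δ = ρ + ((k : ℝ) + 1 + 1 + 1) * δ := by rw [hr₂]; ring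
          rw [e4, e3]
          linarith
        · have hLk : L = k + 1 + 1 := by omega
          have h3 := gx_h2 hρ hδ hL (i := k + 1 + 1) (by omega)
          have e5 : ρ + (L : ℝ) * δ = r₂ := by rw [hLk, hr₂]; push_cast; ring
          have e6 : ρ + ((L : ℝ) - 1) * δ = r₁ := by rw [hLk, hr₁]; push_cast; ring
          rw [e5, e6] at h3
          rw [e3]
          have h5 : Real.log (r₂ + δ) + Real.log r₁ ≤ Real.log r₂ + Real.log r₂ := by
            rw [← Real.log_mul (by linarith) hr₁pos.ne', ← Real.log_mul hr₂pos.ne' hr₂pos.ne']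
            apply Real.log_le_log (by positivity)
            rw [← e3]
            nlinarith [sq_nonneg δ]
          linarith
      rw [g1, g3, g2]
      have hr₁ge : ρ + δ ≤ r₁ := by rw [hr₁]; nlinarith
      have hr₂L : r₂ ≤ ρ + (L : ℝ) * δ := by
        rw [hr₂]
        have : (k : ℝ) + 1 + 1 ≤ (L : ℝ) := by exact_mod_cast h
        nlinarith
      have hB : Real.log r₂ - Real.log ρ ≤ Real.log ((ρ + L * δ) / ρ) := by
        rw [Real.log_div (gx_r_pos hρ hδ L).ne' hρ.ne']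
        have := Real.log_le_log hr₂pos hr₂L
        linarith
      have hf := gx_f_mono hρ hδ hr₁ge (show r₁ ≤ r₂ by linarith) hB hrange
      refine hf.trans ?_
      apply mul_le_mul_of_nonneg_right _ (sq_nonneg _)
      rw [← g2]
      exact g4
  have e : ∀ a b : ℝ, a / (2 * η) * (b / η) ^ 2 = (a * b ^ 2) / (2 * η * η ^ 2) := by
    intro a b
    field_simp
  rw [e, e]
  exact div_le_div_of_nonneg_right hmain (by positivity)

end Pool.MP_31392c_an
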