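import Pool.Agent.Lib.MP_31392c_an.Defs

set_option autoImplicit false

namespace Pool.MP_31392c_an

open intervalIntegral MeasureTheory

/-- a trapezoid -/
private noncomputable def trap (a s : ℝ) : ℝ := max 0 (min 1 (min (s / a) ((1 - s) / a)))

private theorem trap_continuous (a : ℝ) : Continuous (trap a) := by
  unfold trap
  fun_prop

private theorem trap_nonneg (a s : ℝ) : 0 ≤ trap a s := le_max_left _ _

private theorem trap_le_one (a s : ℝ) : trap a s ≤ 1 :=
  max_le zero_le_one (min_le_left _ _)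

private theorem trap_symm (a s : ℝ) : trap a (1 - s) = trap a s := by
  unfold trap
  rw [show 1 - (1 - s) = s by ring, min_comm (s / a)]

private theorem trap_neg {a s : ℝ} (ha : 0 < a) (hs : s ≤ 0) : trap a s = 0 := by
  unfold trap
  apply max_eq_left
  exact (min_le_right _ _).trans ((min_le_left _ _).trans (div_nonpos_of_nonpos_of_nonneg hs ha.le))

private theorem trap_gt {a s : ℝ} (ha : 0 < a) (hs : 1 ≤ s) : trap a s = 0 := by
  rw [← trap_symm]
  exact trap_neg ha (by linarith)

private theorem trap_mid {a s : ℝ} (ha : 0 < a) (h1 : a ≤ s) (h2 : s ≤ 1 - a) : trap a s = 1 := by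
  unfold trap
  have h3 : 1 ≤ s / a := by rwa [le_div_iff₀ ha, one_mul]
  have h4 : 1 ≤ (1 - s) / a := by
    rw [le_div_iff₀ ha]
    linarith
  rw [min_eq_left (le_min h3 h4)]
  exact max_eq_right zero_le_one

private theorem trap_int {a : ℝ} (ha : 0 < a) (ha2 : 2 * a ≤ 1) :
    1 - 2 * a ≤ ∫ s in (0 : ℝ)..1, trap a s := by
  have hi : ∀ x y : ℝ, IntervalIntegrable (trap a) volume x y := fun x y =>
    (trap_continuous a).intervalIntegrable x y
  have h1 : ∫ s in (0 : ℝ)..1, trap a s = (∫ s in (0 : ℝ)..a, trap a s)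
      + (∫ s in a..(1 - a), trap a s) + ∫ s in (1 - a)..1, trap a s := by
    rw [integral_add_adjacent_intervals (hi _ _) (hi _ _),
      integral_add_adjacent_intervals (hi _ _) (hi _ _)]
  have h2 : 0 ≤ ∫ s in (0 : ℝ)..a, trap a s :=
    integral_nonneg ha.le fun s _ => trap_nonneg a s
  have h3 : 0 ≤ ∫ s in (1 - a)..1, trap a s :=
    integral_nonneg (by linarith) fun s _ => trap_nonneg a s
  have h4 : ∫ s in a..(1 - a), trap a s = 1 - 2 * a := by
    have : ∫ s in a..(1 - a), trap a s = ∫ s in a..(1 - a), (1 : ℝ) := by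
      apply integral_congr
      intro s hs
      rw [Set.uIcc_of_le (by linarith)] at hs
      exact trap_mid ha hs.1 hs.2
    rw [this, intervalIntegral.integral_const, smul_eq_mul, mul_one]
    ring
  linarith

theorem exists_step {κ : ℝ} (hκ : 0 < κ) : ∃ T : ℝ → ℝ, ContDiff ℝ 1 T ∧ (∀ s ≤ 0, T s = 0) ∧
    (∀ s, 1 ≤ s → T s = 1) ∧ (∀ s, 0 ≤ deriv T s) ∧ (∀ s, deriv T s ≤ 1 + κ) ∧
    (∀ s, T (1 - s) = 1 - T s) := by
  obtain ⟨a, ha, ha1⟩ : ∃ a : ℝ, 0 < a ∧ 1 - 2 * a = 1 / (1 + κ) := by
    refine ⟨κ / (2 * (1 + κ)), by positivity, ?_⟩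
    field_simp
    ring
  have hpos : 0 < 1 / (1 + κ) := by positivity
  set c : ℝ := ∫ s in (0 : ℝ)..1, trap a s with hc
  have hcge : 1 / (1 + κ) ≤ c := by
    rw [← ha1]
    exact trap_int ha (by linarith)
  have hcpos : 0 < c := lt_of_lt_of_le hpos hcge
  have hcont : Continuous fun s => trap a s / c := (trap_continuous a).div_const c
  have hi : ∀ x y : ℝ, IntervalIntegrable (fun s => trap a s / c) volume x y := fun x y =>
    hcont.intervalIntegrable x y
  have hderiv : ∀ s, HasDerivAt (fun s => ∫ x in (0 : ℝ)..s, trap a x / c) (trap a s / c) s :=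
    fun s => integral_hasDerivAt_right (hi _ _) (hcont.stronglyMeasurableAtFilter _ _)
      hcont.continuousAt
  have hder : deriv (fun s => ∫ x in (0 : ℝ)..s, trap a x / c) = fun s => trap a s / c :=
    funext fun s => (hderiv s).deriv
  have h01 : ∫ x in (0 : ℝ)..1, trap a x / c = 1 := by
    rw [intervalIntegral.integral_div, ← hc, div_self hcpos.ne']
  refine ⟨fun s => ∫ x in (0 : ℝ)..s, trap a x / c, ?_, ?_, ?_, ?_, ?_, ?_⟩
  · rw [contDiff_one_iff_deriv, hder]
    exact ⟨fun s => (hderiv s).differentiableAt, hcont⟩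
  · intro s hs
    have : ∫ x in (0 : ℝ)..s, trap a x / c = ∫ x in (0 : ℝ)..s, (0 : ℝ) := by
      apply integral_congr
      intro x hx
      rw [Set.uIcc_of_ge hs] at hx
      simp only
      rw [trap_neg ha hx.2, zero_div]
    simp only [this, intervalIntegral.integral_zero]
  · intro s hs
    have h1 : ∫ x in (1 : ℝ)..s, trap a x / c = ∫ x in (1 : ℝ)..s, (0 : ℝ) := by
      apply integral_congr
      intro x hx
      rw [Set.uIcc_of_le hs] at hx
      simp only
      rw [trap_gt ha hx.1, zero_div]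
    show ∫ x in (0 : ℝ)..s, trap a x / c = 1
    rw [← integral_add_adjacent_intervals (hi 0 1) (hi 1 s), h01, h1]
    simp
  · intro s
    rw [hder]
    exact div_nonneg (trap_nonneg a s) hcpos.le
  · intro s
    rw [hder]
    show trap a s / c ≤ 1 + κ
    rw [div_le_iff₀ hcpos]
    calc trap a s ≤ 1 := trap_le_one a s
      _ = (1 + κ) * (1 / (1 + κ)) := by field_simp
      _ ≤ (1 + κ) * c := by gcongr
  · intro s
    show ∫ x in (0 : ℝ)..(1 - s), trap a x / c = 1 - ∫ x in (0 : ℝ)..s, trap a x / c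
    have h1 : ∫ x in (1 - s)..1, trap a x / c = ∫ x in (0 : ℝ)..s, trap a x / c := by
      have := integral_comp_sub_left (a := 0) (b := s) (fun x => trap a x / c) 1
      rw [sub_zero] at this
      rw [← this]
      simp only [trap_symm]
    have h2 := integral_add_adjacent_intervals (hi 0 (1 - s)) (hi (1 - s) 1)
    rw [h01, h1] at h2
    linarith

end Pool.MP_31392c_an
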