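import Pool.Agent.Lib.MP_31392c_an.Polar
import Pool.Agent.Lib.MP_31392c_an.Step

set_option autoImplicit false

open MeasureTheory Complex

namespace Pool.MP_31392c_an

/-- properties of the step function used in the interpolation -/
structure InterpStep (κ : ℝ) (T : ℝ → ℝ) : Prop where
  smooth : ContDiff ℝ 1 T
  zero : ∀ s ≤ 0, T s = 0
  one : ∀ s, 1 ≤ s → T s = 1
  nonneg : ∀ s, 0 ≤ deriv T s
  le : ∀ s, deriv T s ≤ 1 + κ
  symm : ∀ s, T (1 - s) = 1 - T s

namespace InterpStep

variable {κ : ℝ} {T : ℝ → ℝ}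

theorem mono (h : InterpStep κ T) : Monotone T :=
  monotone_of_deriv_nonneg (h.smooth.differentiable (by norm_num)) h.nonneg

theorem T_nonneg (h : InterpStep κ T) (s : ℝ) : 0 ≤ T s := by
  have := h.mono (min_le_left s 0)
  rwa [h.zero _ (min_le_right s 0)] at this

theorem T_le_one (h : InterpStep κ T) (s : ℝ) : T s ≤ 1 := by
  have := h.mono (le_max_left s 1)
  rwa [h.one _ (le_max_right s 1)] at this

theorem cont_deriv (h : InterpStep κ T) : Continuous (deriv T) :=
  h.smooth.continuous_deriv (by norm_num)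

theorem deriv_zero (h : InterpStep κ T) {s : ℝ} (hs : s < 0) : deriv T s = 0 := by
  have : T =ᶠ[nhds s] fun _ => 0 := by
    filter_upwards [Iio_mem_nhds hs] with y hy
    exact h.zero y (le_of_lt hy)
  rw [this.deriv_eq]
  simp

theorem deriv_one (h : InterpStep κ T) {s : ℝ} (hs : 1 < s) : deriv T s = 0 := by
  have : T =ᶠ[nhds s] fun _ => 1 := by
    filter_upwards [Ioi_mem_nhds hs] with y hy
    exact h.one y (le_of_lt hy)
  rw [this.deriv_eq]
  simp

theorem hasDerivAt_scaled (h : InterpStep κ T) (a b y : ℝ) :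
    HasDerivAt (fun y => T ((y - a) / b)) (deriv T ((y - a) / b) / b) y := by
  have h1 : HasDerivAt (fun y : ℝ => (y - a) / b) (1 / b) y :=
    ((hasDerivAt_id y).sub_const a).div_const b
  have h2 : HasDerivAt T (deriv T ((y - a) / b)) ((y - a) / b) :=
    ((h.smooth.differentiable (by norm_num)) _).hasDerivAt
  have h3 := h2.comp y h1
  rw [mul_one_div] at h3
  exact h3

theorem cont_scaled (h : InterpStep κ T) (a b : ℝ) :
    Continuous (fun y => T ((y - a) / b)) :=
  h.smooth.continuous.comp ((continuous_id.sub continuous_const).div_const b)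

theorem cont_deriv_scaled (h : InterpStep κ T) (a b : ℝ) :
    Continuous (fun y => deriv T ((y - a) / b) / b) :=
  (h.cont_deriv.comp ((continuous_id.sub continuous_const).div_const b)).div_const b

theorem integral_T (h : InterpStep κ T) {a b : ℝ} (hab : a < b) :
    ∫ y in a..b, T ((y - a) / (b - a)) = (b - a) / 2 := by
  have hc : b - a ≠ 0 := by linarith
  have h1 : ∫ y in (0 : ℝ)..1, T (1 - y) = ∫ y in (0 : ℝ)..1, T y := by
    rw [intervalIntegral.integral_comp_sub_left (fun y => T y) 1]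
    norm_num
  have h2 : ∫ y in (0 : ℝ)..1, T (1 - y) = 1 - ∫ y in (0 : ℝ)..1, T y := by
    simp_rw [h.symm]
    rw [intervalIntegral.integral_sub (by simp) (h.smooth.continuous.intervalIntegrable _ _)]
    simp
  have h3 : ∫ y in (0 : ℝ)..1, T y = 1 / 2 := by linarith
  have h4 : ∫ y in a..b, T ((y - a) / (b - a)) = (b - a) • ∫ y in (0 : ℝ)..1, T y := by
    have := intervalIntegral.integral_comp_div_sub (a := a) (b := b) (fun y => T y) hc
      (a / (b - a))
    have e1 : a / (b - a) - a / (b - a) = 0 := sub_self _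
    have e2 : b / (b - a) - a / (b - a) = 1 := by field_simp
    rw [e1, e2] at this
    rw [← this]
    congr 1
    ext y
    congr 1
    ring
  rw [h4, h3, smul_eq_mul]
  ring

theorem integral_deriv_sq (h : InterpStep κ T) {a b : ℝ} (hab : a < b) :
    ∫ y in a..b, (deriv T ((y - a) / (b - a)) / (b - a)) ^ 2 ≤ (1 + κ) / (b - a) := by
  have hc : 0 < b - a := by linarith
  have h1 : ∫ y in a..b, deriv T ((y - a) / (b - a)) / (b - a) = 1 := by
    rw [intervalIntegral.integral_eq_sub_of_hasDerivAt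
      (fun y _ => h.hasDerivAt_scaled a (b - a) y)
      ((h.cont_deriv_scaled a (b - a)).intervalIntegrable _ _)]
    rw [div_self hc.ne', sub_self, zero_div, h.one 1 le_rfl, h.zero 0 le_rfl]
    norm_num
  have h2 : ∫ y in a..b, (deriv T ((y - a) / (b - a)) / (b - a)) ^ 2 ≤
      ∫ y in a..b, ((1 + κ) / (b - a)) * (deriv T ((y - a) / (b - a)) / (b - a)) := by
    apply intervalIntegral.integral_mono_on hab.le
    · exact ((h.cont_deriv_scaled a (b - a)).pow 2).intervalIntegrable _ _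
    · exact (continuous_const.mul (h.cont_deriv_scaled a (b - a))).intervalIntegrable _ _
    · intro y _
      rw [pow_two]
      apply mul_le_mul_of_nonneg_right
      · exact div_le_div_of_nonneg_right (h.le _) hc.le
      · exact div_nonneg (h.nonneg _) hc.le
  rw [intervalIntegral.integral_const_mul, h1, mul_one] at h2
  exact h2

end InterpStep

/-! ### the angular functions -/

/-- the interpolation formula on the arcs -/
def InterpCell (T : ℝ → ℝ) (K : ℕ) (c : ZMod K → ℝ) (g : ℝ → ℝ) : Prop :=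
  ∀ n : ℤ, ∀ θ : ℝ, 2 * Real.pi / K * n ≤ θ → θ ≤ 2 * Real.pi / K * (n + 1) →
    g θ = c n + T ((θ - 2 * Real.pi / K * n) / (2 * Real.pi / K)) * (c (n + 1) - c n)

theorem interp_exists_cell {κ : ℝ} {T : ℝ → ℝ} (h : InterpStep κ T) (K : ℕ) [NeZero K]
    (c : ZMod K → ℝ) : ∃ g : ℝ → ℝ, ContDiff ℝ 1 g ∧ (∀ θ, g (θ + 2 * Real.pi) = g θ) ∧
      InterpCell T K c g := by
  have hK : (0 : ℝ) < K := by exact_mod_cast Nat.pos_of_ne_zero (NeZero.ne K)
  set η : ℝ := 2 * Real.pi / K with hη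
  have hη0 : 0 < η := div_pos Real.two_pi_pos hK
  set g : ℝ → ℝ := fun θ => c (⌊θ / η⌋ : ℤ) +
    T (θ / η - ⌊θ / η⌋) * (c ((⌊θ / η⌋ : ℤ) + 1) - c (⌊θ / η⌋ : ℤ)) with hg
  have hcell : InterpCell T K c g := by
    intro n θ h1 h2
    rw [← hη] at h1 h2 ⊢
    have h1' : (n : ℝ) ≤ θ / η := by
      rw [le_div_iff₀ hη0]
      linarith
    have h2' : θ / η ≤ (n : ℝ) + 1 := by
      rw [div_le_iff₀ hη0]
      linarith
    have e : (θ - η * n) / η = θ / η - n := by
      field_simp
    rw [e]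
    rcases lt_or_eq_of_le h2' with h3 | h3
    · have hf : ⌊θ / η⌋ = n := by
        rw [Int.floor_eq_iff]
        exact ⟨h1', h3⟩
      simp only [hg, hf]
    · have hf : ⌊θ / η⌋ = n + 1 := by
        rw [h3]
        simp
      simp only [hg, hf]
      rw [h3]
      push_cast
      rw [h.zero (n + 1 - (n + 1)) (by linarith), h.one ((n : ℝ) + 1 - n) (by linarith)]
      ring
  refine ⟨g, ?_, ?_, hcell⟩
  · rw [contDiff_iff_contDiffAt]
    intro θ
    -- local formula on `(n - 1, n + 1)`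
    set n : ℤ := round (θ / η) with hn
    have hr : |θ / η - n| ≤ 1 / 2 := abs_sub_round _
    rw [abs_le] at hr
    have hloc : g =ᶠ[nhds θ] fun θ => c ((n - 1 : ℤ)) +
        T ((θ - η * ((n - 1 : ℤ) : ℝ)) / η) * (c n - c ((n - 1 : ℤ))) +
        T ((θ - η * (n : ℝ)) / η) * (c (n + 1) - c n) := by
      have hl : η * (n - 1) < θ := by
        have : (n : ℝ) - 1 < θ / η := by linarith
        rw [lt_div_iff₀ hη0] at this
        linarith
      have hu : θ < η * (n + 1) := by
        have : θ / η < (n : ℝ) + 1 := by linarith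
        rw [div_lt_iff₀ hη0] at this
        linarith
      filter_upwards [Ioo_mem_nhds hl hu] with t ht
      rcases le_total t (η * n) with h3 | h3
      · have h4 := hcell (n - 1) t (by push_cast; rw [← hη]; exact ht.1.le)
          (by push_cast; rw [← hη]; linarith)
        rw [h4]
        have e1 : ((n - 1 : ℤ) : ZMod K) + 1 = n := by push_cast; ring
        rw [e1, ← hη]
        have : T ((t - η * (n : ℝ)) / η) = 0 :=
          h.zero _ (div_nonpos_of_nonpos_of_nonneg (by linarith) hη0.le)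
        rw [this]
        ring
      · have h4 := hcell n t (by rw [← hη]; exact h3) (by rw [← hη]; exact ht.2.le)
        rw [h4, ← hη]
        have : T ((t - η * ((n - 1 : ℤ) : ℝ)) / η) = 1 := by
          apply h.one
          rw [le_div_iff₀ hη0]
          push_cast
          linarith
        rw [this]
        ring
    apply ContDiffAt.congr_of_eventuallyEq _ hloc
    have hs : ∀ a : ℝ, ContDiff ℝ 1 fun t : ℝ => T ((t - a) / η) := fun a =>
      h.smooth.comp ((contDiff_id.sub contDiff_const).div_const η)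
    exact ((contDiff_const.add ((hs _).mul contDiff_const)).add
      ((hs _).mul contDiff_const)).contDiffAt
  · intro θ
    have e : (θ + 2 * Real.pi) / η = θ / η + (K : ℤ) := by
      rw [hη]
      push_cast
      field_simp
    have hf : ⌊(θ + 2 * Real.pi) / η⌋ = ⌊θ / η⌋ + K := by
      rw [e, Int.floor_add_intCast]
    simp only [hg, hf]
    rw [e]
    push_cast
    simp

theorem InterpCell.deriv {κ : ℝ} {T : ℝ → ℝ} (h : InterpStep κ T) {K : ℕ} [NeZero K]
    {c : ZMod K → ℝ} {g : ℝ → ℝ} (hg : InterpCell T K c g) (n : ℤ) {θ : ℝ}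
    (h1 : 2 * Real.pi / K * n < θ) (h2 : θ < 2 * Real.pi / K * (n + 1)) :
    deriv g θ = deriv T ((θ - 2 * Real.pi / K * n) / (2 * Real.pi / K)) / (2 * Real.pi / K) *
      (c (n + 1) - c n) := by
  have hloc : g =ᶠ[nhds θ] fun θ => c n +
      T ((θ - 2 * Real.pi / K * n) / (2 * Real.pi / K)) * (c (n + 1) - c n) := by
    filter_upwards [Ioo_mem_nhds h1 h2] with t ht
    exact hg n t ht.1.le ht.2.le
  rw [hloc.deriv_eq]
  have h3 := ((h.hasDerivAt_scaled (2 * Real.pi / K * n) (2 * Real.pi / K) θ).mul_const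
    (c (n + 1) - c n)).const_add (c n)
  exact h3.deriv

theorem interp_sum_range {K : ℕ} [NeZero K] (f : ZMod K → ℝ) :
    ∑ n ∈ Finset.range K, f ((n : ℤ) : ZMod K) = ∑ k : ZMod K, f k := by
  refine Finset.sum_bij' (fun n _ => ((n : ℤ) : ZMod K)) (fun k _ => k.val) ?_ ?_ ?_ ?_ ?_
  · intro n _
    exact Finset.mem_univ _
  · intro k _
    exact Finset.mem_range.2 (ZMod.val_lt k)
  · intro n hn
    have : n < K := Finset.mem_range.1 hn
    simp [ZMod.val_natCast, Nat.mod_eq_of_lt this]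
  · intro k _
    simp
  · intro n _
    rfl

theorem interp_integral_split {K : ℕ} [NeZero K] {F : ℝ → ℝ} (hF : Continuous F) :
    ∫ θ in (0 : ℝ)..(2 * Real.pi), F θ = ∑ n ∈ Finset.range K,
      ∫ θ in (2 * Real.pi / K * ((n : ℤ) : ℝ))..(2 * Real.pi / K * (((n : ℤ) : ℝ) + 1)), F θ := by
  have hK : (0 : ℝ) < K := by exact_mod_cast Nat.pos_of_ne_zero (NeZero.ne K)
  have := intervalIntegral.sum_integral_adjacent_intervals (μ := volume) (f := F)
    (a := fun n : ℕ => 2 * Real.pi / K * (n : ℝ)) (n := K)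
    (fun k _ => hF.intervalIntegrable _ _)
  simp only [Nat.cast_zero, mul_zero] at this
  rw [div_mul_cancel₀ _ hK.ne'] at this
  rw [← this]
  apply Finset.sum_congr rfl
  intro n _
  push_cast
  rfl

theorem InterpCell.energy {κ : ℝ} {T : ℝ → ℝ} (h : InterpStep κ T) {K : ℕ} [NeZero K]
    {c : ZMod K → ℝ} {g : ℝ → ℝ} (hg : InterpCell T K c g) (hs : ContDiff ℝ 1 g) :
    ∫ θ in (0 : ℝ)..(2 * Real.pi), (_root_.deriv g θ) ^ 2 ≤
      (1 + κ) / (2 * Real.pi / K) * ∑ k : ZMod K, (c (k + 1) - c k) ^ 2 := by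
  have hK : (0 : ℝ) < K := by exact_mod_cast Nat.pos_of_ne_zero (NeZero.ne K)
  have hη0 : 0 < 2 * Real.pi / K := div_pos Real.two_pi_pos hK
  have hd : Continuous (_root_.deriv g) := hs.continuous_deriv (by norm_num)
  rw [interp_integral_split (K := K) (F := fun θ => (_root_.deriv g θ) ^ 2) (hd.pow 2),
    ← interp_sum_range, Finset.mul_sum]
  apply Finset.sum_le_sum
  intro n _
  set a : ℝ := 2 * Real.pi / K * ((n : ℤ) : ℝ) with ha
  set b : ℝ := 2 * Real.pi / K * (((n : ℤ) : ℝ) + 1) with hb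
  have hba : b - a = 2 * Real.pi / K := by rw [ha, hb]; ring
  have hab : a < b := by linarith
  have hI := h.integral_deriv_sq hab
  rw [hba] at hI
  have h2 : ∫ θ in a..b, (_root_.deriv g θ) ^ 2 ≤ ∫ θ in a..b,
      (_root_.deriv T ((θ - a) / (2 * Real.pi / K)) / (2 * Real.pi / K)) ^ 2 *
        (c (((n : ℤ) : ZMod K) + 1) - c ((n : ℤ) : ZMod K)) ^ 2 := by
    apply intervalIntegral.integral_mono_on_of_le_Ioo hab.le
    · exact (hd.pow 2).intervalIntegrable _ _
    · exact (((h.cont_deriv_scaled a _).pow 2).mul continuous_const).intervalIntegrable _ _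
    · intro θ hθ
      rw [hg.deriv h (n : ℤ) hθ.1 hθ.2, mul_pow]
  rw [intervalIntegral.integral_mul_const] at h2
  exact h2.trans (mul_le_mul_of_nonneg_right hI (sq_nonneg _))

theorem InterpCell.sq {κ : ℝ} {T : ℝ → ℝ} (h : InterpStep κ T) {K : ℕ} [NeZero K]
    {c : ZMod K → ℝ} {g : ℝ → ℝ} (hg : InterpCell T K c g) (hs : Continuous g) :
    ∫ θ in (0 : ℝ)..(2 * Real.pi), (g θ) ^ 2 ≤
      (2 * Real.pi / K) * ∑ k : ZMod K, (c k) ^ 2 := by
  have hK : (0 : ℝ) < K := by exact_mod_cast Nat.pos_of_ne_zero (NeZero.ne K)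
  have hη0 : 0 < 2 * Real.pi / K := div_pos Real.two_pi_pos hK
  have hshift : ∑ k : ZMod K, (c (k + 1)) ^ 2 = ∑ k : ZMod K, (c k) ^ 2 :=
    Equiv.sum_comp (Equiv.addRight (1 : ZMod K)) (fun k => (c k) ^ 2)
  have e0 : (2 * Real.pi / K) * ∑ k : ZMod K, (c k) ^ 2 =
      ∑ k : ZMod K, (2 * Real.pi / K) / 2 * ((c k) ^ 2 + (c (k + 1)) ^ 2) := by
    rw [← Finset.mul_sum, Finset.sum_add_distrib, hshift]
    ring
  rw [interp_integral_split (K := K) (F := fun θ => (g θ) ^ 2) (hs.pow 2), e0,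
    ← interp_sum_range (fun k => (2 * Real.pi / K) / 2 * ((c k) ^ 2 + (c (k + 1)) ^ 2))]
  apply Finset.sum_le_sum
  intro n _
  set a : ℝ := 2 * Real.pi / K * ((n : ℤ) : ℝ) with ha
  set b : ℝ := 2 * Real.pi / K * (((n : ℤ) : ℝ) + 1) with hb
  have hba : b - a = 2 * Real.pi / K := by rw [ha, hb]; ring
  have hab : a < b := by linarith
  have hI := h.integral_T hab
  rw [hba] at hI
  have h2 : ∫ θ in a..b, (g θ) ^ 2 ≤ ∫ θ in a..b,
      ((c ((n : ℤ) : ZMod K)) ^ 2 + T ((θ - a) / (2 * Real.pi / K)) *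
        ((c (((n : ℤ) : ZMod K) + 1)) ^ 2 - (c ((n : ℤ) : ZMod K)) ^ 2)) := by
    apply intervalIntegral.integral_mono_on_of_le_Ioo hab.le
    · exact (hs.pow 2).intervalIntegrable _ _
    · exact (continuous_const.add ((h.cont_scaled a _).mul
        continuous_const)).intervalIntegrable _ _
    · intro θ hθ
      rw [hg (n : ℤ) θ hθ.1.le hθ.2.le]
      have h0 := h.T_nonneg ((θ - a) / (2 * Real.pi / K))
      have h1 := h.T_le_one ((θ - a) / (2 * Real.pi / K))
      rw [← ha]
      set q := T ((θ - a) / (2 * Real.pi / K))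
      nlinarith [mul_nonneg (mul_nonneg h0 (sub_nonneg.2 h1))
        (sq_nonneg (c (((n : ℤ) : ZMod K) + 1) - c ((n : ℤ) : ZMod K)))]
  have hint : IntervalIntegrable (fun θ => T ((θ - a) / (2 * Real.pi / K)) *
      ((c (((n : ℤ) : ZMod K) + 1)) ^ 2 - (c ((n : ℤ) : ZMod K)) ^ 2)) volume a b :=
    ((h.cont_scaled a _).mul continuous_const).intervalIntegrable _ _
  rw [intervalIntegral.integral_add (by simp) hint,
    intervalIntegral.integral_mul_const, hI] at h2
  simp only [intervalIntegral.integral_const, smul_eq_mul, hba] at h2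
  refine h2.trans (le_of_eq ?_)
  ring

/-! ### descent to the plane -/

theorem interp_descend {H : ℂ → ℝ} (hH : ContDiff ℝ 1 H)
    (hper : ∀ w, H (w + 2 * Real.pi * I) = H w) {a : ℝ} (ha : ∀ w : ℂ, w.re ≤ a → H w = 1) :
    ∃ ψ : ℂ → ℝ, ContDiff ℝ 1 ψ ∧ ψ 0 = 1 ∧ ∀ w, ψ (exp w) = H w := by
  classical
  have hp : Function.Periodic H (2 * Real.pi * I) := hper
  set ψ : ℂ → ℝ := fun z => if z = 0 then 1 else H (log z) with hψ
  have hexp : ∀ w, ψ (exp w) = H w := by
    intro w
    have h1 : exp (log (exp w)) = exp w := exp_log (exp_ne_zero w)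
    obtain ⟨n, hn⟩ := exp_eq_exp_iff_exists_int.1 h1
    simp only [hψ, if_neg (exp_ne_zero w)]
    rw [hn]
    exact (hp.int_mul n) w
  refine ⟨ψ, ?_, by simp [hψ], hexp⟩
  rw [contDiff_iff_contDiffAt]
  intro z0
  by_cases hz : z0 = 0
  · subst hz
    have : ψ =ᶠ[nhds 0] fun _ => 1 := by
      filter_upwards [Metric.ball_mem_nhds (0 : ℂ) (Real.exp_pos a)] with z hz
      by_cases h0 : z = 0
      · simp [hψ, h0]
      · simp only [hψ, if_neg h0]
        apply ha
        rw [log_re]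
        have : ‖z‖ < Real.exp a := by simpa using hz
        rw [Real.log_le_iff_le_exp (norm_pos_iff.2 h0)]
        exact this.le
    exact contDiffAt_const.congr_of_eventuallyEq this
  · have : ψ =ᶠ[nhds z0] fun z => H (log z0 + log (z / z0)) := by
      filter_upwards [isOpen_ne.mem_nhds hz] with z hz'
      rw [← hexp, exp_add, exp_log hz, exp_log (div_ne_zero hz' hz)]
      congr 1
      field_simp
    refine ContDiffAt.congr_of_eventuallyEq ?_ this
    have h1 : ContDiffAt ℂ 1 (fun z : ℂ => log z0 + log (z / z0)) z0 := by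
      apply contDiffAt_const.add
      have h2 : ContDiffAt ℂ 1 log (z0 / z0) := by
        apply contDiffAt_log
        rw [div_self hz]
        exact one_mem_slitPlane
      exact ContDiffAt.comp (g := log) z0 h2 (contDiff_id.div_const z0).contDiffAt
    exact hH.contDiffAt.comp z0 (h1.restrict_scalars ℝ)

/-! ### the interpolation in both variables -/

/-- the interpolation in logarithmic polar coordinates -/
noncomputable def interpP (T : ℝ → ℝ) (x : ℕ → ℝ) (g : ℕ → ℝ → ℝ) (M : ℕ) (y θ : ℝ) : ℝ :=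
  g 0 θ + ∑ i ∈ Finset.range M, T ((y - x i) / (x (i + 1) - x i)) * (g (i + 1) θ - g i θ)

/-- its derivative in the radial variable -/
noncomputable def interpQ (T : ℝ → ℝ) (x : ℕ → ℝ) (g : ℕ → ℝ → ℝ) (M : ℕ) (y θ : ℝ) : ℝ :=
  ∑ i ∈ Finset.range M, deriv T ((y - x i) / (x (i + 1) - x i)) / (x (i + 1) - x i) *
    (g (i + 1) θ - g i θ)

theorem interpP_low {κ : ℝ} {T : ℝ → ℝ} (h : InterpStep κ T) {x : ℕ → ℝ}
    (hx : ∀ i, x i < x (i + 1)) (g : ℕ → ℝ → ℝ) (M : ℕ) {y : ℝ} (θ : ℝ) (hy : y ≤ x 0) :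
    interpP T x g M y θ = g 0 θ := by
  have hm : Monotone x := (strictMono_nat_of_lt_succ hx).monotone
  unfold interpP
  rw [Finset.sum_eq_zero, add_zero]
  intro i _
  rw [h.zero, zero_mul]
  have := hm (Nat.zero_le i)
  exact div_nonpos_of_nonpos_of_nonneg (by linarith) (by linarith [hx i])

theorem interpP_cell {κ : ℝ} {T : ℝ → ℝ} (h : InterpStep κ T) {x : ℕ → ℝ}
    (hx : ∀ i, x i < x (i + 1)) (g : ℕ → ℝ → ℝ) {M j : ℕ} (hj : j < M) {y : ℝ} (θ : ℝ)
    (h1 : x j ≤ y) (h2 : y ≤ x (j + 1)) :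
    interpP T x g M y θ =
      g j θ + T ((y - x j) / (x (j + 1) - x j)) * (g (j + 1) θ - g j θ) := by
  have hm : Monotone x := (strictMono_nat_of_lt_succ hx).monotone
  unfold interpP
  have e1 : ∑ i ∈ Finset.range M, T ((y - x i) / (x (i + 1) - x i)) * (g (i + 1) θ - g i θ) =
      ∑ i ∈ Finset.range (j + 1),
        T ((y - x i) / (x (i + 1) - x i)) * (g (i + 1) θ - g i θ) := by
    symm
    apply Finset.sum_subset
    · intro i hi
      rw [Finset.mem_range] at hi ⊢
      omega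
    · intro i _ hi
      rw [Finset.mem_range, not_lt] at hi
      have := hm hi
      rw [h.zero, zero_mul]
      exact div_nonpos_of_nonpos_of_nonneg (by linarith) (by linarith [hx i])
  have e2 : ∑ i ∈ Finset.range j, T ((y - x i) / (x (i + 1) - x i)) * (g (i + 1) θ - g i θ) =
      ∑ i ∈ Finset.range j, (g (i + 1) θ - g i θ) := by
    apply Finset.sum_congr rfl
    intro i hi
    have hi' : i + 1 ≤ j := Finset.mem_range.1 hi
    have := hm hi'
    have h0 := hx i
    rw [h.one, one_mul]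
    rw [le_div_iff₀ (by linarith)]
    linarith
  rw [e1, Finset.sum_range_succ, e2, Finset.sum_range_sub (fun i => g i θ)]
  ring

theorem interpP_high {κ : ℝ} {T : ℝ → ℝ} (h : InterpStep κ T) {x : ℕ → ℝ}
    (hx : ∀ i, x i < x (i + 1)) (g : ℕ → ℝ → ℝ) {M : ℕ} {y : ℝ} (θ : ℝ) (hy : x M ≤ y) :
    interpP T x g M y θ = g M θ := by
  have hm : Monotone x := (strictMono_nat_of_lt_succ hx).monotone
  unfold interpP
  have e2 : ∑ i ∈ Finset.range M, T ((y - x i) / (x (i + 1) - x i)) * (g (i + 1) θ - g i θ) =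
      ∑ i ∈ Finset.range M, (g (i + 1) θ - g i θ) := by
    apply Finset.sum_congr rfl
    intro i hi
    have hi' : i + 1 ≤ M := Finset.mem_range.1 hi
    have := hm hi'
    have h0 := hx i
    rw [h.one, one_mul]
    rw [le_div_iff₀ (by linarith)]
    linarith
  rw [e2, Finset.sum_range_sub (fun i => g i θ)]
  ring

theorem interpQ_cell {κ : ℝ} {T : ℝ → ℝ} (h : InterpStep κ T) {x : ℕ → ℝ}
    (hx : ∀ i, x i < x (i + 1)) (g : ℕ → ℝ → ℝ) {M j : ℕ} (hj : j < M) {y : ℝ} (θ : ℝ)
    (h1 : x j < y) (h2 : y < x (j + 1)) :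
    interpQ T x g M y θ =
      deriv T ((y - x j) / (x (j + 1) - x j)) / (x (j + 1) - x j) * (g (j + 1) θ - g j θ) := by
  have hm : Monotone x := (strictMono_nat_of_lt_succ hx).monotone
  unfold interpQ
  apply Finset.sum_eq_single_of_mem j (Finset.mem_range.2 hj)
  intro i _ hij
  have h0 := hx i
  rcases lt_or_gt_of_ne hij with h3 | h3
  · have := hm (show i + 1 ≤ j from h3)
    rw [h.deriv_one, zero_div, zero_mul]
    rw [lt_div_iff₀ (by linarith)]
    linarith
  · have := hm (show j + 1 ≤ i from h3)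
    rw [h.deriv_zero, zero_div, zero_mul]
    exact div_neg_of_neg_of_pos (by linarith) (by linarith)

theorem interpP_hasDerivAt_y {κ : ℝ} {T : ℝ → ℝ} (h : InterpStep κ T) (x : ℕ → ℝ)
    (g : ℕ → ℝ → ℝ) (M : ℕ) (y θ : ℝ) :
    HasDerivAt (fun y => interpP T x g M y θ) (interpQ T x g M y θ) y := by
  unfold interpP interpQ
  apply HasDerivAt.const_add
  apply HasDerivAt.fun_sum
  intro i _
  exact (h.hasDerivAt_scaled _ _ _).mul_const _

theorem interpP_hasDerivAt_θ (T : ℝ → ℝ) (x : ℕ → ℝ)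
    {g : ℕ → ℝ → ℝ} (hg : ∀ i, ContDiff ℝ 1 (g i)) (M : ℕ) (y θ : ℝ) :
    HasDerivAt (fun θ => interpP T x g M y θ)
      (interpP T x (fun i => deriv (g i)) M y θ) θ := by
  have hd : ∀ i, HasDerivAt (g i) (deriv (g i) θ) θ := fun i =>
    ((hg i).differentiable (by norm_num) θ).hasDerivAt
  unfold interpP
  apply (hd 0).add
  apply HasDerivAt.fun_sum
  intro i _
  exact ((hd (i + 1)).sub (hd i)).const_mul _

theorem interpP_continuous {κ : ℝ} {T : ℝ → ℝ} (h : InterpStep κ T) (x : ℕ → ℝ)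
    {g : ℕ → ℝ → ℝ} (hg : ∀ i, Continuous (g i)) (M : ℕ) :
    Continuous fun p : ℝ × ℝ => interpP T x g M p.1 p.2 := by
  unfold interpP
  apply ((hg 0).comp continuous_snd).add
  apply continuous_finsetSum
  intro i _
  exact ((h.cont_scaled _ _).comp continuous_fst).mul
    (((hg (i + 1)).comp continuous_snd).sub ((hg i).comp continuous_snd))

theorem interpQ_continuous {κ : ℝ} {T : ℝ → ℝ} (h : InterpStep κ T) (x : ℕ → ℝ)
    {g : ℕ → ℝ → ℝ} (hg : ∀ i, Continuous (g i)) (M : ℕ) :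
    Continuous fun p : ℝ × ℝ => interpQ T x g M p.1 p.2 := by
  unfold interpQ
  apply continuous_finsetSum
  intro i _
  exact ((h.cont_deriv_scaled _ _).comp continuous_fst).mul
    (((hg (i + 1)).comp continuous_snd).sub ((hg i).comp continuous_snd))

theorem interpP_contDiff {κ : ℝ} {T : ℝ → ℝ} (h : InterpStep κ T) (x : ℕ → ℝ)
    {g : ℕ → ℝ → ℝ} (hg : ∀ i, ContDiff ℝ 1 (g i)) (M : ℕ) (a : ℝ) :
    ContDiff ℝ 1 fun w : ℂ => interpP T x g M (w.re - a) w.im := by
  unfold interpP
  have him : ContDiff ℝ 1 fun w : ℂ => w.im := imCLM.contDiff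
  have hre : ContDiff ℝ 1 fun w : ℂ => w.re := reCLM.contDiff
  apply ((hg 0).comp him).add
  apply ContDiff.sum
  intro i _
  apply ContDiff.mul
  · exact h.smooth.comp (((hre.sub contDiff_const).sub contDiff_const).div_const _)
  · exact ((hg (i + 1)).comp him).sub ((hg i).comp him)

theorem interp_abel (x F : ℕ → ℝ) (M : ℕ) :
    ∑ j ∈ Finset.range M, (x (j + 1) - x j) * (F j + F (j + 1)) =
      ∑ j ∈ Finset.range M, (x (j + 1) - x (j - 1)) * F j + (x M - x (M - 1)) * F M := by
  induction M with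
  | zero => simp
  | succ M ih =>
    rw [Finset.sum_range_succ, ih, Finset.sum_range_succ, Nat.add_sub_cancel]
    ring

theorem interp_energy {κ : ℝ} {T : ℝ → ℝ} (h : InterpStep κ T) (hκ : 0 < κ) {K : ℕ} [NeZero K]
    {x : ℕ → ℝ} (hx : ∀ i, x i < x (i + 1)) (hx0 : x 0 = 0) {M : ℕ}
    {φ : ℕ → ZMod K → ℝ} (hMφ : ∀ k, φ M k = 0) {g : ℕ → ℝ → ℝ}
    (hg : ∀ i, ContDiff ℝ 1 (g i)) (hc : ∀ i, InterpCell T K (φ i) (g i)) :
    ∫ y in (0 : ℝ)..(x M), ∫ θ in (0 : ℝ)..(2 * Real.pi),
      ((interpQ T x g M y θ) ^ 2 + (interpP T x (fun i => deriv (g i)) M y θ) ^ 2) ≤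
      (1 + κ) * nE M K (cr x K) (ca x K) φ := by
  have hK : (0 : ℝ) < K := by exact_mod_cast Nat.pos_of_ne_zero (NeZero.ne K)
  have hη0 : 0 < 2 * Real.pi / K := div_pos Real.two_pi_pos hK
  have hgc : ∀ i, Continuous (g i) := fun i => (hg i).continuous
  have hgd : ∀ i, Continuous (deriv (g i)) := fun i => (hg i).continuous_deriv (by norm_num)
  have hcP := interpP_continuous h x (g := fun i => deriv (g i)) hgd M
  have hcQ := interpQ_continuous h x hgc M
  set J : ℝ → ℝ := fun y => ∫ θ in (0 : ℝ)..(2 * Real.pi),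
      ((interpQ T x g M y θ) ^ 2 + (interpP T x (fun i => deriv (g i)) M y θ) ^ 2) with hJ
  have hJc : Continuous J := by
    apply intervalIntegral.continuous_parametric_intervalIntegral_of_continuous'
    exact (hcQ.pow 2).add (hcP.pow 2)
  set A : ℕ → ℝ := fun i => ∑ k : ZMod K, (φ (i + 1) k - φ i k) ^ 2 with hA
  set F : ℕ → ℝ := fun i => ∑ k : ZMod K, (φ i (k + 1) - φ i k) ^ 2 with hF
  set η : ℝ := 2 * Real.pi / K with hη
  have hε : ∀ i, ∫ θ in (0 : ℝ)..(2 * Real.pi), (deriv (g i) θ) ^ 2 ≤ (1 + κ) / η * F i :=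
    fun i => (hc i).energy h (hg i)
  have hD : ∀ i, ∫ θ in (0 : ℝ)..(2 * Real.pi), (g (i + 1) θ - g i θ) ^ 2 ≤ η * A i := by
    intro i
    have hcell : InterpCell T K (fun k => φ (i + 1) k - φ i k) (fun θ => g (i + 1) θ - g i θ) := by
      intro n θ h1 h2
      simp only
      rw [hc (i + 1) n θ h1 h2, hc i n θ h1 h2]
      ring
    exact hcell.sq h ((hgc _).sub (hgc _))
  have hcell : ∀ j ∈ Finset.range M, ∫ y in (x j)..(x (j + 1)), J y ≤
      (1 + κ) * (η / (x (j + 1) - x j) * A j) +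
        (1 + κ) / (2 * η) * ((x (j + 1) - x j) * (F j + F (j + 1))) := by
    intro j hj
    have hjM : j < M := Finset.mem_range.1 hj
    have hxj := hx j
    have hpt : ∀ y ∈ Set.Ioo (x j) (x (j + 1)), J y ≤
        (deriv T ((y - x j) / (x (j + 1) - x j)) / (x (j + 1) - x j)) ^ 2 * (η * A j) +
        ((1 + κ) / η * F j + T ((y - x j) / (x (j + 1) - x j)) *
          ((1 + κ) / η * F (j + 1) - (1 + κ) / η * F j)) := by
      intro y hy
      have hcQy : Continuous fun θ => (interpQ T x g M y θ) ^ 2 :=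
        (hcQ.comp (Continuous.prodMk_right y)).pow 2
      have hcPy : Continuous fun θ => (interpP T x (fun i => deriv (g i)) M y θ) ^ 2 :=
        (hcP.comp (Continuous.prodMk_right y)).pow 2
      simp only [hJ]
      rw [intervalIntegral.integral_add (hcQy.intervalIntegrable _ _)
        (hcPy.intervalIntegrable _ _)]
      apply add_le_add
      · have e1 : ∀ θ, (interpQ T x g M y θ) ^ 2 =
            (deriv T ((y - x j) / (x (j + 1) - x j)) / (x (j + 1) - x j)) ^ 2 *
              (g (j + 1) θ - g j θ) ^ 2 := by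
          intro θ
          rw [interpQ_cell h hx g hjM θ hy.1 hy.2, mul_pow]
        simp_rw [e1]
        rw [intervalIntegral.integral_const_mul]
        exact mul_le_mul_of_nonneg_left (hD j) (sq_nonneg _)
      · set q := T ((y - x j) / (x (j + 1) - x j)) with hq
        have hq0 : 0 ≤ q := h.T_nonneg _
        have hq1 : q ≤ 1 := h.T_le_one _
        have h2 : ∫ θ in (0 : ℝ)..(2 * Real.pi),
            (interpP T x (fun i => deriv (g i)) M y θ) ^ 2 ≤
            ∫ θ in (0 : ℝ)..(2 * Real.pi),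
              ((1 - q) * (deriv (g j) θ) ^ 2 + q * (deriv (g (j + 1)) θ) ^ 2) := by
          apply intervalIntegral.integral_mono_on Real.two_pi_pos.le
          · exact hcPy.intervalIntegrable _ _
          · exact ((continuous_const.mul ((hgd j).pow 2)).add
              (continuous_const.mul ((hgd (j + 1)).pow 2))).intervalIntegrable _ _
          · intro θ _
            rw [interpP_cell h hx _ hjM θ hy.1.le hy.2.le, ← hq]
            nlinarith [mul_nonneg (mul_nonneg hq0 (sub_nonneg.2 hq1))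
              (sq_nonneg (deriv (g (j + 1)) θ - deriv (g j) θ))]
        have i1 : IntervalIntegrable (fun θ => (1 - q) * (deriv (g j) θ) ^ 2) volume 0
            (2 * Real.pi) := (continuous_const.mul ((hgd j).pow 2)).intervalIntegrable _ _
        have i2 : IntervalIntegrable (fun θ => q * (deriv (g (j + 1)) θ) ^ 2) volume 0
            (2 * Real.pi) := (continuous_const.mul ((hgd (j + 1)).pow 2)).intervalIntegrable _ _
        rw [intervalIntegral.integral_add i1 i2, intervalIntegral.integral_const_mul,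
          intervalIntegral.integral_const_mul] at h2
        have h3 := mul_le_mul_of_nonneg_left (hε j) (sub_nonneg.2 hq1)
        have h4 := mul_le_mul_of_nonneg_left (hε (j + 1)) hq0
        linarith
    have hmono : ∫ y in (x j)..(x (j + 1)), J y ≤ ∫ y in (x j)..(x (j + 1)),
        ((deriv T ((y - x j) / (x (j + 1) - x j)) / (x (j + 1) - x j)) ^ 2 * (η * A j) +
        ((1 + κ) / η * F j + T ((y - x j) / (x (j + 1) - x j)) *
          ((1 + κ) / η * F (j + 1) - (1 + κ) / η * F j))) := by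
      apply intervalIntegral.integral_mono_on_of_le_Ioo hxj.le
      · exact hJc.intervalIntegrable _ _
      · exact ((((h.cont_deriv_scaled _ _).pow 2).mul continuous_const).add
          (continuous_const.add ((h.cont_scaled _ _).mul
            continuous_const))).intervalIntegrable _ _
      · exact hpt
    have i1 : IntervalIntegrable (fun y => (deriv T ((y - x j) / (x (j + 1) - x j)) /
        (x (j + 1) - x j)) ^ 2 * (η * A j)) volume (x j) (x (j + 1)) :=
      (((h.cont_deriv_scaled _ _).pow 2).mul continuous_const).intervalIntegrable _ _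
    have i2 : IntervalIntegrable (fun y => (1 + κ) / η * F j +
        T ((y - x j) / (x (j + 1) - x j)) *
          ((1 + κ) / η * F (j + 1) - (1 + κ) / η * F j)) volume (x j) (x (j + 1)) :=
      (continuous_const.add ((h.cont_scaled _ _).mul continuous_const)).intervalIntegrable _ _
    have i3 : IntervalIntegrable (fun y => T ((y - x j) / (x (j + 1) - x j)) *
          ((1 + κ) / η * F (j + 1) - (1 + κ) / η * F j)) volume (x j) (x (j + 1)) :=
      ((h.cont_scaled _ _).mul continuous_const).intervalIntegrable _ _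
    have e8 : ∫ y in (x j)..(x (j + 1)), T ((y - x j) / (x (j + 1) - x j)) *
          ((1 + κ) / η * F (j + 1) - (1 + κ) / η * F j) = (x (j + 1) - x j) / 2 *
          ((1 + κ) / η * F (j + 1) - (1 + κ) / η * F j) := by
      rw [intervalIntegral.integral_mul_const, h.integral_T hxj]
    have e9 : ∫ y in (x j)..(x (j + 1)), (deriv T ((y - x j) / (x (j + 1) - x j)) /
        (x (j + 1) - x j)) ^ 2 * (η * A j) = (∫ y in (x j)..(x (j + 1)),
        (deriv T ((y - x j) / (x (j + 1) - x j)) / (x (j + 1) - x j)) ^ 2) * (η * A j) :=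
      intervalIntegral.integral_mul_const _ _
    rw [intervalIntegral.integral_add i1 i2, intervalIntegral.integral_add (by simp) i3,
      e8, e9] at hmono
    simp only [intervalIntegral.integral_const, smul_eq_mul] at hmono
    have hA0 : 0 ≤ A j := Finset.sum_nonneg fun k _ => sq_nonneg _
    have h5 := mul_le_mul_of_nonneg_right (h.integral_deriv_sq hxj) (mul_nonneg hη0.le hA0)
    refine hmono.trans ?_
    have e5 : (1 + κ) / (x (j + 1) - x j) * (η * A j) =
        (1 + κ) * (η / (x (j + 1) - x j) * A j) := by ring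
    rw [e5] at h5
    have e6 : (x (j + 1) - x j) * ((1 + κ) / η * F j) + (x (j + 1) - x j) / 2 *
        ((1 + κ) / η * F (j + 1) - (1 + κ) / η * F j) =
        (1 + κ) / (2 * η) * ((x (j + 1) - x j) * (F j + F (j + 1))) := by
      field_simp
      ring
    linarith
  have hsplit : ∫ y in (0 : ℝ)..(x M), J y = ∑ j ∈ Finset.range M,
      ∫ y in (x j)..(x (j + 1)), J y := by
    have := intervalIntegral.sum_integral_adjacent_intervals (μ := volume) (f := J)
      (a := x) (n := M) (fun k _ => hJc.intervalIntegrable _ _)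
    rw [this, hx0]
  rw [hsplit]
  refine (Finset.sum_le_sum hcell).trans (le_of_eq ?_)
  rw [Finset.sum_add_distrib, ← Finset.mul_sum, ← Finset.mul_sum, interp_abel]
  have hFM : F M = 0 := by
    simp only [hF, hMφ]
    simp
  rw [hFM, mul_zero, add_zero]
  unfold nE cr ca
  have e7 : ∀ i, ∑ k : ZMod K, ((2 * Real.pi / (K : ℝ)) / (x (i + 1) - x i) *
      (φ (i + 1) k - φ i k) ^ 2 + (x (i + 1) - x (i - 1)) / (2 * (2 * Real.pi / (K : ℝ))) *
      (φ i (k + 1) - φ i k) ^ 2) = η / (x (i + 1) - x i) * A i +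
        1 / (2 * η) * ((x (i + 1) - x (i - 1)) * F i) := by
    intro i
    rw [Finset.sum_add_distrib, ← Finset.mul_sum, ← Finset.mul_sum]
    simp only [hA, hF, hη]
    ring
  rw [Finset.sum_congr rfl fun i _ => e7 i, Finset.sum_add_distrib, ← Finset.mul_sum]
  ring

/-- smooth interpolation of node values -/
theorem interp {κ : ℝ} (hκ : 0 < κ) (K : ℕ) [NeZero K] (hK : 3 ≤ K) (x : ℕ → ℝ) (M : ℕ)
    (hM : 0 < M) {ρ : ℝ} (hρ : 0 < ρ) (hx0 : x 0 = 0) (hx : ∀ i, x i < x (i + 1))
    (φ : ℕ → ZMod K → ℝ) (h0 : ∀ k, φ 0 k = 1) (hMφ : ∀ k, φ M k = 0)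
    (h01 : ∀ i k, 0 ≤ φ i k ∧ φ i k ≤ 1) :
    ∃ ψ : ℂ → ℝ, ContDiff ℝ 1 ψ ∧ (∀ z, ‖z‖ ≤ ρ → ψ z = 1) ∧
      (∀ z, ρ * Real.exp (x M) ≤ ‖z‖ → ψ z = 0) ∧
      (∀ i, i < M → ∀ k : ZMod K, φ i k = 1 → φ (i + 1) k = 1 → φ i (k + 1) = 1 →
        φ (i + 1) (k + 1) = 1 → ∀ t θ : ℝ, x i ≤ t → t ≤ x (i + 1) →
        2 * Real.pi * (k.val : ℝ) / (K : ℝ) ≤ θ → θ ≤ 2 * Real.pi * ((k.val : ℝ) + 1) / (K : ℝ) →
        ψ ((ρ : ℂ) * exp ((t : ℂ) + (θ : ℂ) * I)) = 1) ∧
      (∫ z, ‖fderiv ℝ ψ z‖ ^ 2) ≤ (1 + κ) * nE M K (cr x K) (ca x K) φ := by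
  have hm : Monotone x := (strictMono_nat_of_lt_succ hx).monotone
  obtain ⟨T, hT1, hT2, hT3, hT4, hT5, hT6⟩ := exists_step hκ
  have hT : InterpStep κ T := ⟨hT1, hT2, hT3, hT4, hT5, hT6⟩
  choose g hg hper hc using fun i => interp_exists_cell hT K (φ i)
  have hη0 : (0 : ℝ) < K := by exact_mod_cast Nat.pos_of_ne_zero (NeZero.ne K)
  -- constant rows
  have hrow : ∀ i (a : ℝ), (∀ k, φ i k = a) → ∀ θ, g i θ = a := by
    intro i a ha θ
    have hη : 0 < 2 * Real.pi / K := div_pos Real.two_pi_pos hη0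
    have h1 : 2 * Real.pi / K * (⌊θ / (2 * Real.pi / K)⌋ : ℝ) ≤ θ := by
      have := Int.floor_le (θ / (2 * Real.pi / K))
      rw [le_div_iff₀ hη] at this
      linarith
    have h2 : θ ≤ 2 * Real.pi / K * ((⌊θ / (2 * Real.pi / K)⌋ : ℝ) + 1) := by
      have := (Int.lt_floor_add_one (θ / (2 * Real.pi / K))).le
      rw [div_le_iff₀ hη] at this
      linarith
    rw [hc i _ θ h1 h2, ha, ha]
    ring
  have hg0 := hrow 0 1 h0
  have hgM := hrow M 0 hMφ
  set H : ℂ → ℝ := fun w => interpP T x g M (w.re - Real.log ρ) w.im with hH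
  obtain ⟨ψ, hψ1, hψ2, hψ3⟩ := interp_descend (H := H) (a := Real.log ρ)
    (interpP_contDiff hT x hg M (Real.log ρ))
    (by
      intro w
      simp only [hH]
      have e1 : (w + 2 * Real.pi * I).re = w.re := by simp
      have e2 : (w + 2 * Real.pi * I).im = w.im + 2 * Real.pi := by simp
      rw [e1, e2]
      unfold interpP
      simp only [hper])
    (by
      intro w hw
      simp only [hH]
      rw [interpP_low hT hx g M _ (by rw [hx0]; linarith)]
      exact hg0 _)
  have hρc : (ρ : ℂ) = exp (Real.log ρ) := by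
    rw [← ofReal_exp, Real.exp_log hρ]
  have hval : ∀ y θ : ℝ, ψ ((ρ : ℂ) * exp ((y : ℂ) + (θ : ℂ) * I)) =
      interpP T x g M y θ := by
    intro y θ
    rw [hρc, ← exp_add, hψ3]
    simp only [hH]
    congr 1
    · simp
    · simp
  have hpol : ∀ z : ℂ, z ≠ 0 → ψ z = interpP T x g M (Real.log ‖z‖ - Real.log ρ) (arg z) := by
    intro z hz
    conv_lhs => rw [← exp_log hz]
    rw [hψ3]
    simp only [hH, log_re, log_im]
  have hone : ∀ z, ‖z‖ ≤ ρ → ψ z = 1 := by
    intro z hz
    by_cases h : z = 0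
    · rw [h, hψ2]
    · rw [hpol z h, interpP_low hT hx g M _ _, hg0]
      rw [hx0, sub_nonpos]
      exact Real.log_le_log (norm_pos_iff.2 h) hz
  have hzero : ∀ z, ρ * Real.exp (x M) ≤ ‖z‖ → ψ z = 0 := by
    intro z hz
    have hpos : 0 < ρ * Real.exp (x M) := mul_pos hρ (Real.exp_pos _)
    have h : z ≠ 0 := norm_pos_iff.1 (hpos.trans_le hz)
    rw [hpol z h, interpP_high hT hx g _ _, hgM]
    have := Real.log_le_log hpos hz
    rw [Real.log_mul hρ.ne' (Real.exp_pos _).ne', Real.log_exp] at this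
    linarith
  refine ⟨ψ, hψ1, hone, hzero, ?_, ?_⟩
  · intro i hi k h1 h2 h3 h4 t θ ht1 ht2 hθ1 hθ2
    rw [hval, interpP_cell hT hx g hi θ ht1 ht2]
    have hb1 : 2 * Real.pi / K * ((k.val : ℤ) : ℝ) ≤ θ := by
      refine le_trans (le_of_eq ?_) hθ1
      push_cast
      ring
    have hb2 : θ ≤ 2 * Real.pi / K * (((k.val : ℤ) : ℝ) + 1) := by
      refine hθ2.trans (le_of_eq ?_)
      push_cast
      ring
    have ek : (((k.val : ℤ)) : ZMod K) = k := by simp
    rw [hc i _ θ hb1 hb2, hc (i + 1) _ θ hb1 hb2, ek, h1, h2, h3, h4]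
    ring
  · have hxM : 0 ≤ x M := by
      have := hm (Nat.zero_le M)
      rwa [hx0] at this
    rw [polar_energy ψ hψ1 hρ hxM hone hzero]
    refine le_trans (le_of_eq ?_) (interp_energy hT hκ hx hx0 hMφ hg hc)
    congr 1
    ext y
    congr 1
    ext θ
    have e1 : (fun y : ℝ => ψ ((ρ : ℂ) * exp ((y : ℂ) + (θ : ℂ) * I))) =
        fun y => interpP T x g M y θ := by
      ext y
      exact hval y θ
    have e2 : (fun θ : ℝ => ψ ((ρ : ℂ) * exp ((y : ℂ) + (θ : ℂ) * I))) =
        fun θ => interpP T x g M y θ := by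
      ext θ
      exact hval y θ
    rw [e1, e2, (interpP_hasDerivAt_y hT x g M y θ).deriv,
      (interpP_hasDerivAt_θ T x hg M y θ).deriv]

end Pool.MP_31392c_an
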