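import Pool.Agent.Lib.MP_31392c_an.Defs

set_option autoImplicit false

namespace Pool.MP_31392c_an

open Finset

namespace Net

/-- the bilinear form of the energy -/
noncomputable def nB (M K : ℕ) [NeZero K] (r a : ℕ → ℝ) (u v : ℕ → ZMod K → ℝ) : ℝ :=
  ∑ i ∈ range M, ∑ k : ZMod K,
    (r i * (u (i + 1) k - u i k) * (v (i + 1) k - v i k)
      + a i * (u i (k + 1) - u i k) * (v i (k + 1) - v i k))

/-- the discrete Laplacian at level `i + 1` -/
noncomputable def nL (K : ℕ) [NeZero K] (r a : ℕ → ℝ) (u : ℕ → ZMod K → ℝ) (i : ℕ)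
    (k : ZMod K) : ℝ :=
  r (i + 1) * (u (i + 2) k - u (i + 1) k) - r i * (u (i + 1) k - u i k)
    + a (i + 1) * (u (i + 1) (k + 1) - 2 * u (i + 1) k + u (i + 1) (k - 1))

theorem abel (m : ℕ) (d v : ℕ → ℝ) (v0 : v 0 = 0) :
    ∑ i ∈ range (m + 1), d i * (v (i + 1) - v i)
      = d m * v (m + 1) - ∑ i ∈ range m, v (i + 1) * (d (i + 1) - d i) := by
  induction m with
  | zero => simp [v0]
  | succ m ih => rw [sum_range_succ, ih, sum_range_succ]; ring

theorem ang (K : ℕ) [NeZero K] (x y : ZMod K → ℝ) :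
    ∑ k : ZMod K, (x (k + 1) - x k) * (y (k + 1) - y k)
      = - ∑ k : ZMod K, y k * (x (k + 1) - 2 * x k + x (k - 1)) := by
  have h1 : ∑ k : ZMod K, y (k + 1) * (x (k + 1) - x k) = ∑ k : ZMod K, y k * (x k - x (k - 1)) := by
    rw [← Equiv.sum_comp (Equiv.addRight (1 : ZMod K)) (fun k => y k * (x k - x (k - 1)))]
    simp
  have h2 : ∑ k : ZMod K, (x (k + 1) - x k) * (y (k + 1) - y k)
      = ∑ k : ZMod K, y (k + 1) * (x (k + 1) - x k) - ∑ k : ZMod K, y k * (x (k + 1) - x k) := by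
    rw [← sum_sub_distrib]; exact sum_congr rfl fun k _ => by ring
  rw [h2, h1, ← sum_sub_distrib, ← sum_neg_distrib]
  exact sum_congr rfl fun k _ => by ring

theorem nB_parts (m K : ℕ) [NeZero K] (r a : ℕ → ℝ) (u v : ℕ → ZMod K → ℝ)
    (v0 : ∀ k, v 0 k = 0) :
    nB (m + 1) K r a u v = ∑ k : ZMod K, r m * (u (m + 1) k - u m k) * v (m + 1) k
      - ∑ i ∈ range m, ∑ k : ZMod K, v (i + 1) k * nL K r a u i k := by
  have e1 : nB (m + 1) K r a u v
      = (∑ i ∈ range (m + 1), ∑ k : ZMod K, r i * (u (i + 1) k - u i k) * (v (i + 1) k - v i k))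
        + ∑ i ∈ range (m + 1), ∑ k : ZMod K,
            a i * ((u i (k + 1) - u i k) * (v i (k + 1) - v i k)) := by
    rw [nB, ← sum_add_distrib]
    refine sum_congr rfl fun i _ => ?_
    rw [← sum_add_distrib]
    exact sum_congr rfl fun k _ => by ring
  have e2 : (∑ i ∈ range (m + 1), ∑ k : ZMod K,
        r i * (u (i + 1) k - u i k) * (v (i + 1) k - v i k))
      = ∑ k : ZMod K, (r m * (u (m + 1) k - u m k) * v (m + 1) k
          - ∑ i ∈ range m, v (i + 1) k
            * (r (i + 1) * (u (i + 2) k - u (i + 1) k) - r i * (u (i + 1) k - u i k))) := by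
    rw [sum_comm]
    refine sum_congr rfl fun k _ => ?_
    exact abel m (fun i => r i * (u (i + 1) k - u i k)) (fun i => v i k) (v0 k)
  have e3 : (∑ i ∈ range (m + 1), ∑ k : ZMod K,
            a i * ((u i (k + 1) - u i k) * (v i (k + 1) - v i k)))
      = - ∑ i ∈ range m, ∑ k : ZMod K, v (i + 1) k
          * (a (i + 1) * (u (i + 1) (k + 1) - 2 * u (i + 1) k + u (i + 1) (k - 1))) := by
    rw [sum_range_succ']
    have z : ∑ k : ZMod K, a 0 * ((u 0 (k + 1) - u 0 k) * (v 0 (k + 1) - v 0 k)) = 0 :=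
      sum_eq_zero fun k _ => by rw [v0, v0]; ring
    rw [z, add_zero, ← sum_neg_distrib]
    refine sum_congr rfl fun i _ => ?_
    rw [← mul_sum, ang K (u (i + 1)) (v (i + 1)), mul_neg, mul_sum]
    congr 1
    exact sum_congr rfl fun k _ => by ring
  rw [e1, e2, e3, sum_sub_distrib, sum_comm (s := (univ : Finset (ZMod K))) (t := range m)]
  have e4 : ∑ i ∈ range m, ∑ k : ZMod K, v (i + 1) k * nL K r a u i k
      = (∑ i ∈ range m, ∑ k : ZMod K, v (i + 1) k
            * (r (i + 1) * (u (i + 2) k - u (i + 1) k) - r i * (u (i + 1) k - u i k)))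
        + ∑ i ∈ range m, ∑ k : ZMod K, v (i + 1) k
          * (a (i + 1) * (u (i + 1) (k + 1) - 2 * u (i + 1) k + u (i + 1) (k - 1))) := by
    rw [← sum_add_distrib]
    refine sum_congr rfl fun i _ => ?_
    rw [← sum_add_distrib]
    exact sum_congr rfl fun k _ => by rw [nL]; ring
  rw [e4]; ring

theorem nE_add (M K : ℕ) [NeZero K] (r a : ℕ → ℝ) (u v : ℕ → ZMod K → ℝ) (s : ℝ) :
    nE M K r a (fun i k => u i k + s * v i k)
      = nE M K r a u + 2 * s * nB M K r a u v + s ^ 2 * nE M K r a v := by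
  rw [nE, nE, nE, nB, mul_sum, mul_sum, ← sum_add_distrib, ← sum_add_distrib]
  refine sum_congr rfl fun i _ => ?_
  rw [mul_sum, mul_sum, ← sum_add_distrib, ← sum_add_distrib]
  exact sum_congr rfl fun k _ => by ring

theorem nE_nonneg (M K : ℕ) [NeZero K] (r a : ℕ → ℝ) (hr : ∀ i < M, 0 < r i) (ha : ∀ i, 0 < a i)
    (u : ℕ → ZMod K → ℝ) : 0 ≤ nE M K r a u := by
  refine sum_nonneg fun i hi => sum_nonneg fun k _ => ?_
  have h1 := hr i (mem_range.1 hi)
  have h2 := ha i
  positivity

end Net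


namespace Net

theorem exists_min (M K : ℕ) [NeZero K] (r a : ℕ → ℝ) (m : ℕ) (h : ZMod K → ℕ)
    (hh : ∀ k, h k ≤ m) :
    ∃ G : ℕ → ZMod K → ℝ, (∀ i k, 0 ≤ G i k ∧ G i k ≤ 1) ∧ (∀ i k, i ≤ h k → G i k = 0) ∧
      (∀ i k, m + 1 ≤ i → G i k = 1) ∧
      ∀ G' : ℕ → ZMod K → ℝ, (∀ i k, 0 ≤ G' i k ∧ G' i k ≤ 1) → (∀ i k, i ≤ h k → G' i k = 0) →
        (∀ i k, m + 1 ≤ i → G' i k = 1) → nE M K r a G ≤ nE M K r a G' := by
  classical
  let T : ℕ → ZMod K → Set ℝ := fun i k =>
    if i ≤ h k then {0} else if m + 1 ≤ i then {1} else Set.Icc 0 1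
  let S : Set (ℕ → ZMod K → ℝ) := Set.pi Set.univ fun i => Set.pi Set.univ fun k => T i k
  have hT : ∀ i k, IsCompact (T i k) := by
    intro i k
    simp only [T]
    split_ifs
    · exact isCompact_singleton
    · exact isCompact_singleton
    · exact isCompact_Icc
  have hS : IsCompact S := isCompact_univ_pi fun i => isCompact_univ_pi fun k => hT i k
  have memS : ∀ G : ℕ → ZMod K → ℝ, G ∈ S ↔ ((∀ i k, 0 ≤ G i k ∧ G i k ≤ 1) ∧
      (∀ i k, i ≤ h k → G i k = 0) ∧ (∀ i k, m + 1 ≤ i → G i k = 1)) := by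
    intro G
    simp only [S, Set.mem_pi, Set.mem_univ, forall_true_left, T]
    constructor
    · intro hG
      refine ⟨fun i k => ?_, fun i k hi => ?_, fun i k hi => ?_⟩
      · have := hG i k
        split_ifs at this with h1 h2
        · rw [Set.mem_singleton_iff] at this; rw [this]; norm_num
        · rw [Set.mem_singleton_iff] at this; rw [this]; norm_num
        · exact this
      · have := hG i k
        rw [if_pos hi] at this; exact this
      · have := hG i k
        have h3 := hh k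
        rw [if_neg (by omega), if_pos hi] at this; exact this
    · rintro ⟨h1, h2, h3⟩ i k
      split_ifs with h4 h5
      · exact h2 i k h4
      · exact h3 i k h5
      · exact h1 i k
  have hne : S.Nonempty := by
    refine ⟨fun i k => if i ≤ h k then 0 else 1, (memS _).2 ⟨fun i k => ?_, fun i k hi => ?_,
      fun i k hi => ?_⟩⟩
    · show 0 ≤ (if i ≤ h k then (0 : ℝ) else 1) ∧ (if i ≤ h k then (0 : ℝ) else 1) ≤ 1
      split_ifs <;> norm_num
    · exact if_pos hi
    · have h3 := hh k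
      exact if_neg (by omega)
  have hc : Continuous (fun G : ℕ → ZMod K → ℝ => nE M K r a G) := by
    unfold nE
    refine continuous_finsetSum _ fun i _ => continuous_finsetSum _ fun k _ => ?_
    have c : ∀ (i : ℕ) (k : ZMod K), Continuous (fun G : ℕ → ZMod K → ℝ => G i k) := fun i k =>
      (continuous_apply k).comp (continuous_apply i)
    exact ((continuous_const.mul (((c _ _).sub (c _ _)).pow 2))).add
      (continuous_const.mul (((c _ _).sub (c _ _)).pow 2))
  obtain ⟨G, hG, hmin⟩ := hS.exists_isMinOn hne hc.continuousOn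
  obtain ⟨h1, h2, h3⟩ := (memS G).1 hG
  exact ⟨G, h1, h2, h3, fun G' a1 a2 a3 => hmin ((memS G').2 ⟨a1, a2, a3⟩)⟩

/-- existence of the discrete Green function -/
theorem exists_green (m K : ℕ) [NeZero K] (r a : ℕ → ℝ) (hr : ∀ i < m + 1, 0 < r i)
    (ha : ∀ i, 0 < a i) (h : ZMod K → ℕ) (hh : ∀ k, h k ≤ m) :
    ∃ G : ℕ → ZMod K → ℝ, (∀ i k, 0 ≤ G i k ∧ G i k ≤ 1) ∧ (∀ i k, i ≤ h k → G i k = 0) ∧
      (∀ i k, m + 1 ≤ i → G i k = 1) ∧
      (∀ i k, i < m → h k < i + 1 → nL K r a G i k = 0) := by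
  classical
  obtain ⟨G, h1, h2, h3, hmin⟩ := exists_min (m + 1) K r a m h hh
  refine ⟨G, h1, h2, h3, ?_⟩
  intro i k hi hk
  set δ : ℕ → ZMod K → ℝ := fun i' k' => if i' = i + 1 ∧ k' = k then 1 else 0 with hδ
  set ρ := nL K r a G i k with hρ
  have hB : nB (m + 1) K r a G δ = -ρ := by
    rw [nB_parts m K r a G δ (fun k' => by simp [hδ])]
    have z : ∑ k' : ZMod K, r m * (G (m + 1) k' - G m k') * δ (m + 1) k' = 0 := by
      refine sum_eq_zero fun k' _ => ?_
      have : δ (m + 1) k' = 0 := by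
        simp only [hδ]; rw [if_neg]; omega
      rw [this, mul_zero]
    rw [z, zero_sub, neg_inj]
    rw [sum_eq_single_of_mem i (mem_range.2 hi)]
    · rw [sum_eq_single_of_mem k (mem_univ k)]
      · simp [hδ, hρ]
      · intro k' _ hk'
        simp [hδ, hk']
    · intro j _ hj
      refine sum_eq_zero fun k' _ => ?_
      have : δ (j + 1) k' = 0 := by
        simp only [hδ]; rw [if_neg]; omega
      rw [this, zero_mul]
  set c := nE (m + 1) K r a δ with hc
  have hc0 : 0 ≤ c := nE_nonneg _ K r a hr ha δ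
  -- perturbation
  have hpert : ∀ s : ℝ, 0 ≤ G (i + 1) k + s → G (i + 1) k + s ≤ 1 →
      0 ≤ 2 * s * (-ρ) + s ^ 2 * c := by
    intro s s0 s1
    have := hmin (fun i k => G i k + s * δ i k) ?_ ?_ ?_
    · rw [nE_add, hB] at this
      linarith
    · intro i' k'
      by_cases hc : i' = i + 1 ∧ k' = k
      · simp only [hδ]; rw [if_pos hc, hc.1, hc.2, mul_one]; exact ⟨s0, s1⟩
      · simp only [hδ]; rw [if_neg hc, mul_zero, add_zero]; exact h1 i' k'
    · intro i' k' hi'
      have : ¬ (i' = i + 1 ∧ k' = k) := by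
        rintro ⟨rfl, rfl⟩; omega
      simp only [hδ]; rw [if_neg this, mul_zero, add_zero]; exact h2 i' k' hi'
    · intro i' k' hi'
      have : ¬ (i' = i + 1 ∧ k' = k) := by
        rintro ⟨rfl, rfl⟩; omega
      simp only [hδ]; rw [if_neg this, mul_zero, add_zero]; exact h3 i' k' hi'
  have r1 := hr i (by omega)
  have r2 := hr (i + 1) (by omega)
  have a1 := ha (i + 1)
  have n1 := h1 (i + 2) k
  have n2 := h1 i k
  have n3 := h1 (i + 1) (k + 1)
  have n4 := h1 (i + 1) (k - 1)
  have n5 := h1 (i + 1) k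
  by_contra hne
  rcases lt_or_gt_of_ne hne with hneg | hpos
  · -- ρ < 0
    have hG : 0 < G (i + 1) k := by
      rcases n5.1.lt_or_eq with h | h
      · exact h
      · exfalso
        have : 0 ≤ ρ := by
          rw [hρ, nL, ← h]
          have q1 : 0 ≤ r (i + 1) * (G (i + 2) k - 0) := mul_nonneg r2.le (by linarith)
          have q2 : 0 ≤ r i * (G i k - 0) := mul_nonneg r1.le (by linarith)
          have q3 : 0 ≤ a (i + 1) * (G (i + 1) (k + 1) - 2 * 0 + G (i + 1) (k - 1)) :=
            mul_nonneg a1.le (by linarith)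
          linarith
        linarith
    set s := min (G (i + 1) k) (-ρ / (c + 1)) with hs
    have s0 : 0 < s := lt_min hG (div_pos (by linarith) (by linarith))
    have s1 : s ≤ G (i + 1) k := min_le_left _ _
    have s2 : s * (c + 1) ≤ -ρ := by
      have : s ≤ -ρ / (c + 1) := min_le_right _ _
      rwa [le_div_iff₀ (by linarith)] at this
    have := hpert (-s) (by linarith) (by linarith)
    nlinarith
  · have hG : G (i + 1) k < 1 := by
      rcases n5.2.lt_or_eq with h | h
      · exact h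
      · exfalso
        have : ρ ≤ 0 := by
          rw [hρ, nL, h]
          have q1 : r (i + 1) * (G (i + 2) k - 1) ≤ 0 :=
            mul_nonpos_of_nonneg_of_nonpos r2.le (by linarith)
          have q2 : r i * (G i k - 1) ≤ 0 := mul_nonpos_of_nonneg_of_nonpos r1.le (by linarith)
          have q3 : a (i + 1) * (G (i + 1) (k + 1) - 2 * 1 + G (i + 1) (k - 1)) ≤ 0 :=
            mul_nonpos_of_nonneg_of_nonpos a1.le (by linarith)
          linarith
        linarith
    set s := min (1 - G (i + 1) k) (ρ / (c + 1)) with hs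
    have s0 : 0 < s := lt_min (by linarith) (div_pos (by linarith) (by linarith))
    have s1 : s ≤ 1 - G (i + 1) k := min_le_left _ _
    have s2 : s * (c + 1) ≤ ρ := by
      have : s ≤ ρ / (c + 1) := min_le_right _ _
      rwa [le_div_iff₀ (by linarith)] at this
    have := hpert s (by linarith) (by linarith)
    nlinarith

/-- positivity of the Green function -/
theorem green_pos (m K : ℕ) [NeZero K] (r a : ℕ → ℝ) (hr : ∀ i < m + 1, 0 < r i)
    (ha : ∀ i, 0 < a i) (h : ZMod K → ℕ) (G : ℕ → ZMod K → ℝ)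
    (h1 : ∀ i k, 0 ≤ G i k ∧ G i k ≤ 1) (h3 : ∀ i k, m + 1 ≤ i → G i k = 1)
    (h4 : ∀ i k, i < m → h k < i + 1 → nL K r a G i k = 0) :
    ∀ j i k, i + j = m + 1 → h k < i → 0 < G i k := by
  intro j
  induction j with
  | zero =>
    intro i k hi _
    rw [h3 i k (by omega)]; norm_num
  | succ j ih =>
    intro i k hi hk
    obtain ⟨i', rfl⟩ : ∃ i', i = i' + 1 := ⟨i - 1, by omega⟩
    have p := ih (i' + 2) k (by omega) (by omega)
    have e := h4 i' k (by omega) hk
    rcases (h1 (i' + 1) k).1.lt_or_eq with h | h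
    · exact h
    · exfalso
      rw [nL, ← h] at e
      have r1 := hr i' (by omega)
      have r2 := hr (i' + 1) (by omega)
      have a1 := ha (i' + 1)
      have q1 : 0 < r (i' + 1) * (G (i' + 2) k - 0) := mul_pos r2 (by linarith)
      have q2 : 0 ≤ r i' * (G i' k - 0) := mul_nonneg r1.le (by linarith [(h1 i' k).1])
      have q3 : 0 ≤ a (i' + 1) * (G (i' + 1) (k + 1) - 2 * 0 + G (i' + 1) (k - 1)) :=
        mul_nonneg a1.le (by linarith [(h1 (i' + 1) (k + 1)).1, (h1 (i' + 1) (k - 1)).1])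
      linarith

end Net


namespace Net

theorem g_pos (m : ℕ) (r g : ℕ → ℝ) (hr : ∀ i < m + 1, 0 < r i) (g0 : g 0 = 0)
    (hg : ∀ i < m + 1, r i * (g (i + 1) - g i) = 1) : ∀ i, i ≤ m → 0 ≤ g i ∧ 0 < g (i + 1) := by
  have key : ∀ i, i ≤ m → 0 ≤ g i → 0 < g (i + 1) := by
    intro i hi h
    have h1 := hr i (by omega)
    have h2 := hg i (by omega)
    have : 0 < g (i + 1) - g i := by
      by_contra h3
      have : r i * (g (i + 1) - g i) ≤ 0 := mul_nonpos_of_nonneg_of_nonpos h1.le (by linarith)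
      linarith
    linarith
  intro i
  induction i with
  | zero => intro _; exact ⟨g0.ge, key 0 (by omega) g0.ge⟩
  | succ i ih =>
    intro hi
    have := ih (by omega)
    exact ⟨this.2.le, key (i + 1) hi this.2.le⟩

/-- monotonicity of `G / g` -/
theorem green_mono (m K : ℕ) [NeZero K] (r a g : ℕ → ℝ) (hr : ∀ i < m + 1, 0 < r i)
    (ha : ∀ i, 0 < a i) (g0 : g 0 = 0) (hg : ∀ i < m + 1, r i * (g (i + 1) - g i) = 1)
    (h : ZMod K → ℕ) (G : ℕ → ZMod K → ℝ)
    (h1 : ∀ i k, 0 ≤ G i k ∧ G i k ≤ 1) (h2 : ∀ i k, i ≤ h k → G i k = 0)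
    (h3 : ∀ i k, m + 1 ≤ i → G i k = 1)
    (h4 : ∀ i k, i < m → h k < i + 1 → nL K r a G i k = 0) :
    ∀ i k, i ≤ m → g (i + 1) * G i k ≤ g i * G (i + 1) k := by
  classical
  have gp := g_pos m r g hr g0 hg
  set D : ℕ → ZMod K → ℝ := fun i k => r i * (g i * G (i + 1) k - g (i + 1) * G i k) with hD
  -- the equation at free nodes
  have eq1 : ∀ i k, i < m → h k < i + 1 →
      D (i + 1) k - D i k
        = -(a (i + 1) * g (i + 1) * (G (i + 1) (k + 1) - 2 * G (i + 1) k + G (i + 1) (k - 1))) := by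
    intro i k hi hk
    have e := h4 i k hi hk
    rw [nL] at e
    have e1 := hg i (by omega)
    have e2 := hg (i + 1) (by omega)
    simp only [hD]
    have x1 : r (i + 1) * (g (i + 1) * G (i + 1 + 1) k - g (i + 1 + 1) * G (i + 1) k)
        = r (i + 1) * g (i + 1) * (G (i + 2) k - G (i + 1) k)
          - (r (i + 1) * (g (i + 1 + 1) - g (i + 1))) * G (i + 1) k := by ring
    have x2 : r i * (g i * G (i + 1) k - g (i + 1) * G i k)
        = r i * g (i + 1) * (G (i + 1) k - G i k) - (r i * (g (i + 1) - g i)) * G (i + 1) k := by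
      ring
    rw [x1, x2, e1, e2]
    linear_combination g (i + 1) * e
  have alg : ∀ i k, D i (k + 1) + D i (k - 1) - 2 * D i k
      = r i * (g i * (G (i + 1) (k + 1) - 2 * G (i + 1) k + G (i + 1) (k - 1))
          - g (i + 1) * (G i (k + 1) - 2 * G i k + G i (k - 1))) := by
    intro i k; simp only [hD]; ring
  -- minimum
  have hDn : ∀ i k, i ≤ m → 0 ≤ D i k := by
    obtain ⟨p, hp, hpm⟩ := exists_min_image (range (m + 1) ×ˢ (univ : Finset (ZMod K)))
      (fun p => D p.1 p.2) ⟨(0, 0), by simp⟩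
    set μ := D p.1 p.2 with hμ
    have hmin : ∀ i k, i ≤ m → μ ≤ D i k := fun i k hi =>
      hpm (i, k) (by simp; omega)
    by_contra hcon
    push Not at hcon
    obtain ⟨i0, k0, hi0, hneg0⟩ := hcon
    have hμneg : μ < 0 := lt_of_le_of_lt (hmin i0 k0 hi0) hneg0
    have hpi : p.1 ≤ m := by
      have := (mem_product.1 hp).1
      rw [mem_range] at this; omega
    have desc : ∀ i, i ≤ m → ∀ k, D i k ≠ μ := by
      intro i
      induction i with
      | zero =>
        intro _ k hk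
        have : D 0 k = 0 := by simp only [hD]; rw [g0, h2 0 k (Nat.zero_le _)]; ring
        rw [this] at hk; linarith
      | succ i ih =>
        intro hi k hk
        by_cases hik : i + 1 ≤ h k
        · have : 0 ≤ D (i + 1) k := by
            simp only [hD]
            rw [h2 (i + 1) k hik]
            have q1 := (gp (i + 1) hi).1
            have q2 := (h1 (i + 1 + 1) k).1
            have q3 := hr (i + 1) (by omega)
            have := mul_nonneg q3.le (mul_nonneg q1 q2)
            simpa using this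
          linarith
        · have hik' : h k < i + 1 := by omega
          have e := eq1 i k (by omega) hik'
          have d1 := hmin i k (by omega)
          have d2 := hmin (i + 1) (k + 1) hi
          have d3 := hmin (i + 1) (k - 1) hi
          have al := alg (i + 1) k
          have a1 := ha (i + 1)
          have r1 := hr (i + 1) (by omega)
          have p1 := (gp i (by omega)).2
          have p2 := (gp (i + 1) hi).2
          set L1 := G (i + 1) (k + 1) - 2 * G (i + 1) k + G (i + 1) (k - 1) with hL1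
          have hag : 0 < a (i + 1) * g (i + 1) := mul_pos a1 p1
          have L1n : 0 ≤ L1 := by
            by_contra hc
            push Not at hc
            have : a (i + 1) * g (i + 1) * L1 < 0 := mul_neg_of_pos_of_neg hag hc
            rw [hk] at e; linarith
          have hR : 0 ≤ D (i + 1) (k + 1) + D (i + 1) (k - 1) - 2 * D (i + 1) k := by
            rw [hk]; linarith
          have L1z : L1 = 0 := by
            rcases Nat.lt_or_ge (i + 1) m with him | him
            · have e' := eq1 (i + 1) k him (by omega)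
              have d4 := hmin (i + 1 + 1) k (by omega)
              have a2 := ha (i + 1 + 1)
              set L2 := G (i + 1 + 1) (k + 1) - 2 * G (i + 1 + 1) k + G (i + 1 + 1) (k - 1)
                with hL2
              have L2n : L2 ≤ 0 := by
                by_contra hc
                push Not at hc
                have : 0 < a (i + 1 + 1) * g (i + 1 + 1) * L2 := mul_pos (mul_pos a2 p2) hc
                rw [hk] at e'; linarith
              rw [al] at hR
              have hR' : 0 ≤ g (i + 1) * L2 - g (i + 1 + 1) * L1 := by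
                by_contra hc
                push Not at hc
                have := mul_neg_of_pos_of_neg r1 hc
                linarith
              have : g (i + 1) * L2 ≤ 0 := mul_nonpos_of_nonneg_of_nonpos p1.le L2n
              have : g (i + 1 + 1) * L1 ≤ 0 := by linarith
              by_contra hc
              have : 0 < L1 := lt_of_le_of_ne L1n (Ne.symm hc)
              have := mul_pos p2 this
              linarith
            · have z : G (i + 1 + 1) (k + 1) - 2 * G (i + 1 + 1) k + G (i + 1 + 1) (k - 1) = 0 := by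
                rw [h3 _ _ (by omega), h3 _ _ (by omega), h3 _ _ (by omega)]; ring
              rw [al, z, mul_zero, zero_sub] at hR
              have hR' : 0 ≤ - (g (i + 1 + 1) * L1) := by
                by_contra hc
                push Not at hc
                have := mul_neg_of_pos_of_neg r1 hc
                linarith
              by_contra hc
              have : 0 < L1 := lt_of_le_of_ne L1n (Ne.symm hc)
              have := mul_pos p2 this
              linarith
          rw [L1z, mul_zero, neg_zero, hk] at e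
          exact ih (by omega) k (by linarith)
    exact desc p.1 hpi p.2 rfl
  intro i k hi
  have h5 := hDn i k hi
  have h6 := hr i (by omega)
  by_contra hc
  push Not at hc
  have := mul_neg_of_pos_of_neg h6 (show g i * G (i + 1) k - g (i + 1) * G i k < 0 by linarith)
  simp only [hD] at h5
  linarith

theorem R_mono (m K : ℕ) [NeZero K] (r g : ℕ → ℝ) (hr : ∀ i < m + 1, 0 < r i)
    (g0 : g 0 = 0) (hg : ∀ i < m + 1, r i * (g (i + 1) - g i) = 1)
    (W1 : ∀ i, i + 2 ≤ m + 1 → r i * g i * g (i + 1) ≤ r (i + 1) * g (i + 1) * g (i + 2))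
    (G : ℕ → ZMod K → ℝ) (h1 : ∀ i k, 0 ≤ G i k)
    (hm : ∀ i k, i ≤ m → g (i + 1) * G i k ≤ g i * G (i + 1) k) :
    ∀ i k, i < m → r i * G i k * G (i + 1) k ≤ r (i + 1) * G (i + 1) k * G (i + 2) k := by
  intro i k hi
  have p0 := (g_pos m r g hr g0 hg i (by omega)).1
  have p1 := (g_pos m r g hr g0 hg i (by omega)).2
  have p2 := (g_pos m r g hr g0 hg (i + 1) (by omega)).2
  have m1 := hm i k (by omega)
  have m2 := hm (i + 1) k (by omega)
  have w := W1 i (by omega)
  have r1 := hr i (by omega)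
  have r2 := hr (i + 1) (by omega)
  set x := G i k with hx
  set y := G (i + 1) k with hy
  have y0 : 0 ≤ y := h1 _ _
  have z0 : 0 ≤ G (i + 2) k := h1 _ _
  have m2' : g (i + 2) * y ≤ g (i + 1) * G (i + 2) k := m2
  set z := G (i + 2) k with hz
  set α := g i
  set β := g (i + 1)
  have p2' : 0 < g (i + 2) := p2
  set γ := g (i + 2)
  have w' : r i * α ≤ r (i + 1) * γ := by
    have : β * (r i * α) ≤ β * (r (i + 1) * γ) := by linarith
    exact le_of_mul_le_mul_left this p1
  have s1 : γ * x ≤ α * z := by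
    have t1 : γ * (β * x) ≤ γ * (α * y) := mul_le_mul_of_nonneg_left m1 p2'.le
    have t2 : α * (γ * y) ≤ α * (β * z) := mul_le_mul_of_nonneg_left m2' p0
    have : β * (γ * x) ≤ β * (α * z) := by linarith
    exact le_of_mul_le_mul_left this p1
  have s2 : r i * x ≤ r (i + 1) * z := by
    have t1 : r i * (γ * x) ≤ r i * (α * z) := mul_le_mul_of_nonneg_left s1 r1.le
    have t2 : (r i * α) * z ≤ (r (i + 1) * γ) * z := mul_le_mul_of_nonneg_right w' z0
    have : γ * (r i * x) ≤ γ * (r (i + 1) * z) := by linarith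
    exact le_of_mul_le_mul_left this p2'
  have := mul_le_mul_of_nonneg_right s2 y0
  linarith

theorem B_mono (m K : ℕ) [NeZero K] (r a g : ℕ → ℝ) (hr : ∀ i < m + 1, 0 < r i)
    (ha : ∀ i, 0 < a i)
    (g0 : g 0 = 0) (hg : ∀ i < m + 1, r i * (g (i + 1) - g i) = 1)
    (W2 : ∀ i, i + 2 ≤ m + 1 → a i * g i ^ 2 ≤ a (i + 1) * g (i + 1) ^ 2)
    (G : ℕ → ZMod K → ℝ) (h1 : ∀ i k, 0 ≤ G i k)
    (hm : ∀ i k, i ≤ m → g (i + 1) * G i k ≤ g i * G (i + 1) k) :
    ∀ i k, i < m → a i * G i k * G i (k + 1)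
      ≤ a (i + 1) * G (i + 1) k * G (i + 1) (k + 1) := by
  intro i k hi
  have p0 := (g_pos m r g hr g0 hg i (by omega)).1
  have p1 := (g_pos m r g hr g0 hg i (by omega)).2
  have m1 := hm i k (by omega)
  have m2 := hm i (k + 1) (by omega)
  have w := W2 i (by omega)
  have a1 := ha i
  have x0 := h1 i k
  have x0' := h1 i (k + 1)
  have y0 := h1 (i + 1) k
  have y0' := h1 (i + 1) (k + 1)
  have t1 : (g (i + 1) * G i k) * (g (i + 1) * G i (k + 1))
      ≤ (g i * G (i + 1) k) * (g i * G (i + 1) (k + 1)) :=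
    mul_le_mul m1 m2 (mul_nonneg p1.le x0') (mul_nonneg p0 y0)
  have t2 : a i * ((g (i + 1) * G i k) * (g (i + 1) * G i (k + 1)))
      ≤ a i * ((g i * G (i + 1) k) * (g i * G (i + 1) (k + 1))) :=
    mul_le_mul_of_nonneg_left t1 a1.le
  have t3 : (a i * g i ^ 2) * (G (i + 1) k * G (i + 1) (k + 1))
      ≤ (a (i + 1) * g (i + 1) ^ 2) * (G (i + 1) k * G (i + 1) (k + 1)) :=
    mul_le_mul_of_nonneg_right w (mul_nonneg y0 y0')
  have : g (i + 1) ^ 2 * (a i * G i k * G i (k + 1))
      ≤ g (i + 1) ^ 2 * (a (i + 1) * G (i + 1) k * G (i + 1) (k + 1)) := by linarith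
  exact le_of_mul_le_mul_left this (by positivity)

end Net


namespace Net

/-- energy after the `h`-transform -/
noncomputable def nF (M K : ℕ) [NeZero K] (r a : ℕ → ℝ) (G w : ℕ → ZMod K → ℝ) : ℝ :=
  ∑ i ∈ range M, ∑ k : ZMod K,
    (r i * G i k * G (i + 1) k * (w (i + 1) k - w i k) ^ 2
      + a i * G i k * G i (k + 1) * (w i (k + 1) - w i k) ^ 2)

theorem htrans (m K : ℕ) [NeZero K] (r a : ℕ → ℝ) (h : ZMod K → ℕ) (G : ℕ → ZMod K → ℝ)
    (h2 : ∀ i k, i ≤ h k → G i k = 0) (h3 : ∀ i k, m + 1 ≤ i → G i k = 1)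
    (h4 : ∀ i k, i < m → h k < i + 1 → nL K r a G i k = 0)
    (w : ℕ → ZMod K → ℝ) (hw : ∀ k, w (m + 1) k = 1) :
    nE (m + 1) K r a (fun i k => G i k * w i k)
      = ∑ k : ZMod K, r m * (1 - G m k) + nF (m + 1) K r a G w := by
  have e1 : nE (m + 1) K r a (fun i k => G i k * w i k)
      = nF (m + 1) K r a G w + nB (m + 1) K r a G (fun i k => G i k * w i k ^ 2) := by
    rw [nE, nF, nB, ← sum_add_distrib]
    refine sum_congr rfl fun i _ => ?_
    rw [← sum_add_distrib]
    exact sum_congr rfl fun k _ => by ring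
  rw [e1, nB_parts m K r a G _ (fun k => by rw [h2 0 k (Nat.zero_le _), zero_mul])]
  have z : ∑ i ∈ range m, ∑ k : ZMod K, G (i + 1) k * w (i + 1) k ^ 2 * nL K r a G i k = 0 := by
    refine sum_eq_zero fun i hi => sum_eq_zero fun k _ => ?_
    by_cases hk : h k < i + 1
    · rw [h4 i k (mem_range.1 hi) hk, mul_zero]
    · rw [h2 (i + 1) k (by omega), zero_mul, zero_mul]
  rw [z, sub_zero, add_comm]
  congr 1
  refine sum_congr rfl fun k _ => ?_
  rw [h3 (m + 1) k le_rfl, hw]; ring

theorem nF_shift (m K : ℕ) [NeZero K] (r a : ℕ → ℝ) (hr : ∀ i < m + 1, 0 < r i)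
    (ha : ∀ i, 0 < a i) (G : ℕ → ZMod K → ℝ) (h1 : ∀ i k, 0 ≤ G i k)
    (hR : ∀ i k, i < m → r i * G i k * G (i + 1) k ≤ r (i + 1) * G (i + 1) k * G (i + 2) k)
    (hB : ∀ i k, i < m → a i * G i k * G i (k + 1)
      ≤ a (i + 1) * G (i + 1) k * G (i + 1) (k + 1))
    (w : ℕ → ZMod K → ℝ) (hw : ∀ i k, m + 1 ≤ i → w i k = 1) :
    nF (m + 1) K r a G (fun i k => w (i + 1) k) ≤ nF (m + 1) K r a G w := by
  have f0 : 0 ≤ ∑ k : ZMod K, (r 0 * G 0 k * G (0 + 1) k * (w (0 + 1) k - w 0 k) ^ 2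
      + a 0 * G 0 k * G 0 (k + 1) * (w 0 (k + 1) - w 0 k) ^ 2) := by
    refine sum_nonneg fun k _ => ?_
    have r0 := hr 0 (by omega)
    have a0 := ha 0
    have q1 := h1 0 k
    have q2 := h1 (0 + 1) k
    have q3 := h1 0 (k + 1)
    positivity
  rw [nF, nF, sum_range_succ, sum_range_succ']
  have z : ∑ k : ZMod K, (r m * G m k * G (m + 1) k * (w (m + 1 + 1) k - w (m + 1) k) ^ 2
      + a m * G m k * G m (k + 1) * (w (m + 1) (k + 1) - w (m + 1) k) ^ 2) = 0 := by
    refine sum_eq_zero fun k _ => ?_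
    rw [hw (m + 1 + 1) k (by omega), hw (m + 1) k le_rfl, hw (m + 1) (k + 1) le_rfl]; ring
  rw [z, add_zero]
  have : ∑ i ∈ range m, ∑ k : ZMod K, (r i * G i k * G (i + 1) k
        * (w (i + 1 + 1) k - w (i + 1) k) ^ 2
      + a i * G i k * G i (k + 1) * (w (i + 1) (k + 1) - w (i + 1) k) ^ 2)
      ≤ ∑ i ∈ range m, ∑ k : ZMod K, (r (i + 1) * G (i + 1) k * G (i + 1 + 1) k
        * (w (i + 1 + 1) k - w (i + 1) k) ^ 2
      + a (i + 1) * G (i + 1) k * G (i + 1) (k + 1) * (w (i + 1) (k + 1) - w (i + 1) k) ^ 2) := by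
    refine sum_le_sum fun i hi => sum_le_sum fun k _ => ?_
    have q1 := hR i k (mem_range.1 hi)
    have q2 := hB i k (mem_range.1 hi)
    exact add_le_add (mul_le_mul_of_nonneg_right q1 (sq_nonneg _))
      (mul_le_mul_of_nonneg_right q2 (sq_nonneg _))
  linarith

theorem nE_congr (M K : ℕ) [NeZero K] (r a : ℕ → ℝ) (u v : ℕ → ZMod K → ℝ)
    (h : ∀ i k, i ≤ M → u i k = v i k) : nE M K r a u = nE M K r a v := by
  rw [nE, nE]
  refine sum_congr rfl fun i hi => sum_congr rfl fun k _ => ?_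
  have hi' := mem_range.1 hi
  rw [h i k (by omega), h (i + 1) k (by omega), h i (k + 1) (by omega)]

theorem step (m K : ℕ) [NeZero K] (r a g : ℕ → ℝ)
    (hr : ∀ i < m + 1, 0 < r i) (ha : ∀ i, 0 < a i) (g0 : g 0 = 0)
    (hg : ∀ i < m + 1, r i * (g (i + 1) - g i) = 1)
    (W1 : ∀ i, i + 2 ≤ m + 1 → r i * g i * g (i + 1) ≤ r (i + 1) * g (i + 1) * g (i + 2))
    (W2 : ∀ i, i + 2 ≤ m + 1 → a i * g i ^ 2 ≤ a (i + 1) * g (i + 1) ^ 2)
    (h : ZMod K → ℕ) (hh : ∀ k, h k ≤ m) (u : ℕ → ZMod K → ℝ)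
    (u0 : ∀ i k, i ≤ h k → u i k = 0) (u1 : ∀ k, u (m + 1) k = 1) :
    ∃ u' : ℕ → ZMod K → ℝ, (∀ i k, i ≤ h k → u' i k = 0) ∧ (∀ k, u' (m + 1) k = 1) ∧
      (∀ i k, i + 1 ≤ m → u (i + 1) k = 0 → u' i k = 0) ∧
      nE (m + 1) K r a u' ≤ nE (m + 1) K r a u := by
  classical
  obtain ⟨G, h1, h2, h3, h4⟩ := exists_green m K r a hr ha h hh
  have hpos := green_pos m K r a hr ha h G h1 h3 h4
  have hpos' : ∀ i k, i ≤ m + 1 → h k < i → 0 < G i k := fun i k hi hk =>
    hpos (m + 1 - i) i k (by omega) hk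
  have hm := green_mono m K r a g hr ha g0 hg h G h1 h2 h3 h4
  have h1' : ∀ i k, 0 ≤ G i k := fun i k => (h1 i k).1
  set w : ℕ → ZMod K → ℝ := fun i k => if m + 1 ≤ i then 1 else u i k / G i k with hw
  have w1 : ∀ i k, m + 1 ≤ i → w i k = 1 := fun i k hi => by simp only [hw]; rw [if_pos hi]
  have hu : ∀ i k, i ≤ m + 1 → G i k * w i k = u i k := by
    intro i k hi
    rcases Nat.lt_or_ge i (m + 1) with h5 | h5
    · simp only [hw]
      rw [if_neg (by omega)]
      by_cases hk : h k < i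
      · have := hpos' i k hi hk
        field_simp
      · rw [h2 i k (by omega), u0 i k (by omega), zero_mul]
    · rw [w1 i k h5, h3 i k h5]
      have : i = m + 1 := by omega
      rw [this, u1]; norm_num
  refine ⟨fun i k => G i k * w (i + 1) k, ?_, ?_, ?_, ?_⟩
  · intro i k hi
    show G i k * w (i + 1) k = 0
    rw [h2 i k hi, zero_mul]
  · intro k
    show G (m + 1) k * w (m + 1 + 1) k = 1
    rw [h3 (m + 1) k le_rfl, w1 _ _ (by omega), mul_one]
  · intro i k hi huz
    show G i k * w (i + 1) k = 0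
    simp only [hw]
    rw [if_neg (by omega), huz, zero_div, mul_zero]
  · rw [htrans m K r a h G h2 h3 h4 (fun i k => w (i + 1) k) (fun k => w1 _ _ (by omega)),
      ← nE_congr (m + 1) K r a (fun i k => G i k * w i k) u hu,
      htrans m K r a h G h2 h3 h4 w (fun k => w1 _ _ le_rfl)]
    have := nF_shift m K r a hr ha G h1' (R_mono m K r g hr g0 hg W1 G h1' hm)
      (B_mono m K r a g hr ha g0 hg W2 G h1' hm) w w1
    linarith

/-- iteration -/
theorem iter (m K : ℕ) [NeZero K] (r a g : ℕ → ℝ)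
    (hr : ∀ i < m + 1, 0 < r i) (ha : ∀ i, 0 < a i) (g0 : g 0 = 0)
    (hg : ∀ i < m + 1, r i * (g (i + 1) - g i) = 1)
    (W1 : ∀ i, i + 2 ≤ m + 1 → r i * g i * g (i + 1) ≤ r (i + 1) * g (i + 1) * g (i + 2))
    (W2 : ∀ i, i + 2 ≤ m + 1 → a i * g i ^ 2 ≤ a (i + 1) * g (i + 1) ^ 2) :
    ∀ (n : ℕ) (E : Finset (ℕ × ZMod K)), ∑ p ∈ E, p.1 ≤ n → (∀ p ∈ E, 1 ≤ p.1 ∧ p.1 < m + 1) →
      ∀ u : ℕ → ZMod K → ℝ, (∀ k, u 0 k = 0) → (∀ p ∈ E, u p.1 p.2 = 0) →
        (∀ k, u (m + 1) k = 1) →
      ∃ u' : ℕ → ZMod K → ℝ, (∀ k, u' 0 k = 0) ∧ (∀ k, u' (m + 1) k = 1) ∧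
        (∀ i k, i ≤ (E.filter (fun p => p.2 = k)).card → u' i k = 0) ∧
        nE (m + 1) K r a u' ≤ nE (m + 1) K r a u := by
  classical
  intro n
  induction n with
  | zero =>
    intro E hsum hE u u0 _ u1
    have hemp : E = ∅ := by
      rw [Finset.eq_empty_iff_forall_notMem]
      intro p hp
      have h1 := (hE p hp).1
      have h2 : p.1 ≤ ∑ p ∈ E, p.1 := single_le_sum (f := fun p : ℕ × ZMod K => p.1)
        (fun _ _ => Nat.zero_le _) hp
      omega
    refine ⟨u, u0, u1, fun i k hi => ?_, le_rfl⟩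
    rw [hemp] at hi
    simp only [filter_empty, card_empty, Nat.le_zero] at hi
    rw [hi]; exact u0 k
  | succ n ih =>
    intro E hsum hE u u0 uE u1
    have hex : ∀ k : ZMod K, ∃ j, (j + 1, k) ∉ E := fun k =>
      ⟨m, fun hc => by have := (hE _ hc).2; simp at this⟩
    set h : ZMod K → ℕ := fun k => Nat.find (hex k) with hh
    have hh1 : ∀ k, (h k + 1, k) ∉ E := fun k => Nat.find_spec (hex k)
    have hh2 : ∀ k j, j < h k → (j + 1, k) ∈ E := fun k j hj => by
      have := Nat.find_min (hex k) hj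
      push Not at this; exact this
    have hhm : ∀ k, h k ≤ m := fun k =>
      Nat.find_min' (hex k) (fun hc => by have := (hE _ hc).2; simp at this)
    have hu0 : ∀ i k, i ≤ h k → u i k = 0 := by
      intro i k hi
      rcases Nat.eq_zero_or_pos i with rfl | hip
      · exact u0 k
      · obtain ⟨j, rfl⟩ : ∃ j, i = j + 1 := ⟨i - 1, by omega⟩
        exact uE (j + 1, k) (hh2 k j (by omega))
    by_cases hU : ∀ p ∈ E, p.1 ≤ h p.2
    · refine ⟨u, u0, u1, fun i k hi => ?_, le_rfl⟩
      refine hu0 i k (hi.trans ?_)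
      have : (E.filter (fun p => p.2 = k)) ⊆ (Finset.Icc 1 (h k)).image (fun j => (j, k)) := by
        intro p hp
        rw [mem_filter] at hp
        rw [mem_image]
        refine ⟨p.1, ?_, ?_⟩
        · rw [mem_Icc]
          have := hU p hp.1
          rw [hp.2] at this
          exact ⟨(hE p hp.1).1, this⟩
        · rw [← hp.2]
      calc _ ≤ _ := card_le_card this
        _ ≤ (Finset.Icc 1 (h k)).card := card_image_le
        _ = h k := by simp
    · push Not at hU
      obtain ⟨p0, hp0, hp0h⟩ := hU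
      obtain ⟨u', v0, v1, v2, v3⟩ := step m K r a g hr ha g0 hg W1 W2 h hhm u hu0 u1
      set f : ℕ × ZMod K → ℕ × ZMod K := fun p => if p.1 ≤ h p.2 then p else (p.1 - 1, p.2)
        with hf
      have f2 : ∀ p, (f p).2 = p.2 := by
        intro p; simp only [hf]; split_ifs <;> rfl
      have finj : Set.InjOn f (E : Set (ℕ × ZMod K)) := by
        intro p hp q hq hpq
        have e2 : p.2 = q.2 := by rw [← f2 p, ← f2 q, hpq]
        have hp' : p ∈ E := hp
        have hq' : q ∈ E := hq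
        have p1 := (hE p hp').1
        have q1 := (hE q hq').1
        have np : p.1 ≠ h p.2 + 1 := fun hc => hh1 p.2 (by rw [← hc]; exact hp')
        have nq : q.1 ≠ h q.2 + 1 := fun hc => hh1 q.2 (by rw [← hc]; exact hq')
        have e1 : (f p).1 = (f q).1 := by rw [hpq]
        simp only [hf] at e1
        refine Prod.ext ?_ e2
        rw [e2] at np
        rw [e2] at e1
        split_ifs at e1 with c1 c2 c2
        · exact e1
        · simp only at e1; omega
        · simp only at e1; omega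
        · simp only at e1; omega
      have hsumf : ∑ p ∈ E.image f, p.1 = ∑ p ∈ E, (f p).1 :=
        sum_image (f := fun p : ℕ × ZMod K => p.1) finj
      have hlt : ∑ p ∈ E, (f p).1 < ∑ p ∈ E, p.1 := by
        refine sum_lt_sum (fun p hp => ?_) ⟨p0, hp0, ?_⟩
        · simp only [hf]; split_ifs
          · exact le_rfl
          · simp
        · simp only [hf]
          rw [if_neg (by omega)]
          have := (hE p0 hp0).1
          simp only; omega
      have hE' : ∀ p ∈ E.image f, 1 ≤ p.1 ∧ p.1 < m + 1 := by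
        intro p hp
        obtain ⟨q, hq, rfl⟩ := mem_image.1 hp
        have q1 := hE q hq
        have nq : q.1 ≠ h q.2 + 1 := fun hc => hh1 q.2 (by rw [← hc]; exact hq)
        simp only [hf]
        split_ifs with c
        · exact q1
        · simp only; omega
      have hu' : ∀ p ∈ E.image f, u' p.1 p.2 = 0 := by
        intro p hp
        obtain ⟨q, hq, rfl⟩ := mem_image.1 hp
        have q1 := hE q hq
        simp only [hf]
        split_ifs with c
        · exact v0 q.1 q.2 c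
        · refine v2 (q.1 - 1) q.2 (by omega) ?_
          have : q.1 - 1 + 1 = q.1 := by omega
          rw [this]; exact uE q hq
      have hs' : ∑ p ∈ E.image f, p.1 ≤ n := by omega
      obtain ⟨u'', w0, w1, w2, w3⟩ := ih (E.image f) hs' hE' u'
        (fun k => v0 0 k (Nat.zero_le _)) hu' v1
      · refine ⟨u'', w0, w1, fun i k hi => w2 i k (hi.trans (le_of_eq ?_)), w3.trans v3⟩
        have : (E.image f).filter (fun p => p.2 = k) = (E.filter (fun p => p.2 = k)).image f := by
          ext p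
          simp only [mem_filter, mem_image]
          constructor
          · rintro ⟨⟨q, hq, rfl⟩, hk⟩
            exact ⟨q, ⟨hq, by rw [← f2]; exact hk⟩, rfl⟩
          · rintro ⟨q, ⟨hq, hk⟩, rfl⟩
            exact ⟨⟨q, hq, rfl⟩, by rw [f2]; exact hk⟩
        rw [this, card_image_of_injOn]
        exact finj.mono (by intro p hp; exact (mem_filter.1 hp).1)

end Net

/-- network form of the radial rearrangement inequality -/
theorem net (M K : ℕ) [NeZero K] (hM : 0 < M) (r a g : ℕ → ℝ)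
    (hr : ∀ i < M, 0 < r i) (ha : ∀ i, 0 < a i) (g0 : g 0 = 0)
    (hg : ∀ i < M, r i * (g (i + 1) - g i) = 1)
    (W1 : ∀ i, i + 2 ≤ M → r i * g i * g (i + 1) ≤ r (i + 1) * g (i + 1) * g (i + 2))
    (W2 : ∀ i, i + 2 ≤ M → a i * g i ^ 2 ≤ a (i + 1) * g (i + 1) ^ 2)
    (E : Finset (ℕ × ZMod K)) (hE : ∀ p ∈ E, 1 ≤ p.1 ∧ p.1 < M)
    (φ : ℕ → ZMod K → ℝ) (h0 : ∀ k, φ 0 k = 1) (hEφ : ∀ p ∈ E, φ p.1 p.2 = 1)
    (hMφ : ∀ k, φ M k = 0) :
    ∃ φ' : ℕ → ZMod K → ℝ, (∀ k, φ' 0 k = 1) ∧ (∀ k, φ' M k = 0) ∧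
      (∀ i k, 0 ≤ φ' i k ∧ φ' i k ≤ 1) ∧
      (∀ i k, i ≤ (E.filter (fun p => p.2 = k)).card → φ' i k = 1) ∧
      nE M K r a φ' ≤ nE M K r a φ := by
  obtain ⟨m, rfl⟩ : ∃ m, M = m + 1 := ⟨M - 1, by omega⟩
  obtain ⟨u', v0, v1, v2, v3⟩ := Net.iter m K r a g hr ha g0 hg W1 W2 (∑ p ∈ E, p.1) E le_rfl hE
    (fun i k => 1 - φ i k) (fun k => by rw [h0]; norm_num) (fun p hp => by rw [hEφ p hp]; norm_num)
    (fun k => by rw [hMφ]; norm_num)
  refine ⟨fun i k => max 0 (min 1 (1 - u' i k)), fun k => ?_, fun k => ?_, fun i k => ⟨?_, ?_⟩,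
    fun i k hi => ?_, ?_⟩
  · show max 0 (min 1 (1 - u' 0 k)) = 1
    rw [v0]; norm_num
  · show max 0 (min 1 (1 - u' (m + 1) k)) = 0
    rw [v1]; norm_num
  · exact le_max_left _ _
  · exact max_le zero_le_one (min_le_left _ _)
  · show max 0 (min 1 (1 - u' i k)) = 1
    rw [v2 i k hi]; norm_num
  · have e : nE (m + 1) K r a (fun i k => 1 - φ i k) = nE (m + 1) K r a φ := by
      rw [nE, nE]
      exact sum_congr rfl fun i _ => sum_congr rfl fun k _ => by ring
    rw [e] at v3
    refine le_trans ?_ v3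
    rw [nE, nE]
    have lip : ∀ x y : ℝ, (max 0 (min 1 (1 - x)) - max 0 (min 1 (1 - y))) ^ 2 ≤ (x - y) ^ 2 := by
      intro x y
      apply sq_le_sq.2
      calc |max 0 (min 1 (1 - x)) - max 0 (min 1 (1 - y))|
          ≤ |min 1 (1 - x) - min 1 (1 - y)| := by
            have := abs_max_sub_max_le_abs (min 1 (1 - x)) (min 1 (1 - y)) 0
            rwa [max_comm _ (0 : ℝ), max_comm _ (0 : ℝ)] at this
        _ ≤ |(1 - x) - (1 - y)| := by
            have := abs_min_sub_min_le_max 1 (1 - x) 1 (1 - y)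
            simpa using this
        _ = |x - y| := by rw [show (1 - x) - (1 - y) = -(x - y) by ring, abs_neg]
    refine sum_le_sum fun i hi => sum_le_sum fun k _ => ?_
    have r1 := hr i (mem_range.1 hi)
    have a1 := ha i
    exact add_le_add (mul_le_mul_of_nonneg_left (lip _ _) r1.le)
      (mul_le_mul_of_nonneg_left (lip _ _) a1.le)


end Pool.MP_31392c_an
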