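import Pool.Agent.Lib.MP_31392c_an.Polar

set_option autoImplicit false

open MeasureTheory Complex

namespace Pool.MP_31392c_an

namespace SampleAux

theorem sum_zmod (K : ℕ) [NeZero K] (g : ZMod K → ℝ) :
    ∑ k : ZMod K, g k = ∑ j ∈ Finset.range K, g (j : ZMod K) := by
  symm
  refine Finset.sum_bij (fun (j : ℕ) _ => (j : ZMod K)) (fun _ _ => Finset.mem_univ _) ?_ ?_
    (fun _ _ => rfl)
  · intro a ha b hb hab
    have ha' := Finset.mem_range.1 ha
    have hb' := Finset.mem_range.1 hb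
    have := congrArg ZMod.val hab
    simpa [ZMod.val_natCast, Nat.mod_eq_of_lt ha', Nat.mod_eq_of_lt hb'] using this
  · intro b _
    exact ⟨b.val, Finset.mem_range.2 (ZMod.val_lt b), ZMod.natCast_zmod_val b⟩

/-- the logarithmic polar coordinates -/
noncomputable def w (ρ x t : ℝ) : ℂ := (ρ : ℂ) * exp ((x : ℂ) + (t : ℂ) * I)

theorem norm_w {ρ : ℝ} (hρ : 0 < ρ) (x t : ℝ) : ‖w ρ x t‖ = ρ * Real.exp x := by
  simp [w, Complex.norm_exp, abs_of_pos hρ]

theorem w_periodic (ρ x t : ℝ) : w ρ x (t + 2 * Real.pi) = w ρ x t := by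
  unfold w
  congr 1
  have : ((x : ℂ) + ((t + 2 * Real.pi : ℝ) : ℂ) * I) = ((x : ℂ) + (t : ℂ) * I) + 2 * Real.pi * I := by
    push_cast
    ring
  rw [this, Complex.exp_periodic]

theorem hasDerivAt_w_left (ρ x t : ℝ) :
    HasDerivAt (fun y : ℝ => (ρ : ℂ) * exp ((y : ℂ) + (t : ℂ) * I)) (w ρ x t) x := by
  have h1 : HasDerivAt (fun y : ℝ => ((y : ℂ) + (t : ℂ) * I)) 1 x :=
    (Complex.ofRealCLM.hasDerivAt (x := x)).add_const _
  have h2 := (h1.cexp).const_mul (ρ : ℂ)
  simpa [w] using h2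

theorem hasDerivAt_w_right (ρ x t : ℝ) :
    HasDerivAt (fun y : ℝ => (ρ : ℂ) * exp ((x : ℂ) + (y : ℂ) * I)) (w ρ x t * I) t := by
  have h1 : HasDerivAt (fun y : ℝ => ((x : ℂ) + (y : ℂ) * I)) I t := by
    have := ((Complex.ofRealCLM.hasDerivAt (x := t)).mul_const I).const_add (x : ℂ)
    simpa using this
  have h2 := (h1.cexp).const_mul (ρ : ℂ)
  simpa [w, mul_assoc] using h2

theorem continuous_w (ρ : ℝ) : Continuous fun p : ℝ × ℝ => w ρ p.1 p.2 := by
  unfold w
  fun_prop

theorem cell_bound {H : ℝ → ℝ → ℝ} (hH : Continuous (Function.uncurry H)) {a b s s' c : ℝ}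
    (hab : a ≤ b) (hs : s ≤ s') (h : ∀ x ∈ Set.Icc a b, ∀ t ∈ Set.Icc s s', c ≤ H x t) :
    c * (b - a) * (s' - s) ≤ ∫ x in a..b, ∫ t in s..s', H x t := by
  have hc : Continuous fun x => ∫ t in s..s', H x t :=
    intervalIntegral.continuous_parametric_intervalIntegral_of_continuous' hH s s'
  have h1 : (∫ x in a..b, (c * (s' - s))) ≤ ∫ x in a..b, ∫ t in s..s', H x t := by
    refine intervalIntegral.integral_mono_on hab (by simp) (hc.intervalIntegrable _ _) ?_
    intro x hx
    have h2 : (∫ t in s..s', c) ≤ ∫ t in s..s', H x t := by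
      refine intervalIntegral.integral_mono_on hs (by simp) ?_ ?_
      · exact (hH.comp (Continuous.prodMk_right x)).intervalIntegrable _ _
      · intro t ht
        exact h x hx t ht
    simpa [mul_comm] using h2
  calc c * (b - a) * (s' - s) = ∫ x in a..b, (c * (s' - s)) := by
        simp only [intervalIntegral.integral_const, smul_eq_mul]
        ring
    _ ≤ _ := h1

theorem cell_nonneg {H : ℝ → ℝ → ℝ} (hH0 : ∀ x t, 0 ≤ H x t) {a b s s' : ℝ}
    (hab : a ≤ b) (hs : s ≤ s') : 0 ≤ ∫ x in a..b, ∫ t in s..s', H x t :=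
  intervalIntegral.integral_nonneg hab fun x _ =>
    intervalIntegral.integral_nonneg hs fun t _ => hH0 x t

theorem cell_sum {H : ℝ → ℝ → ℝ} (hH : Continuous (Function.uncurry H)) (u t : ℕ → ℝ)
    (M K : ℕ) :
    ∑ i ∈ Finset.range M, ∑ k ∈ Finset.range K,
      (∫ x in (u i)..(u (i + 1)), ∫ y in (t k)..(t (k + 1)), H x y) =
      ∫ x in (u 0)..(u M), ∫ y in (t 0)..(t K), H x y := by
  have hc : ∀ s s' : ℝ, Continuous fun x => ∫ y in s..s', H x y := fun s s' =>
    intervalIntegral.continuous_parametric_intervalIntegral_of_continuous' hH s s'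
  have h1 : ∀ i, ∑ k ∈ Finset.range K,
      (∫ x in (u i)..(u (i + 1)), ∫ y in (t k)..(t (k + 1)), H x y) =
      ∫ x in (u i)..(u (i + 1)), ∫ y in (t 0)..(t K), H x y := by
    intro i
    rw [← intervalIntegral.integral_finset_sum]
    · refine intervalIntegral.integral_congr fun x _ => ?_
      exact intervalIntegral.sum_integral_adjacent_intervals fun k _ =>
        (hH.comp (Continuous.prodMk_right x)).intervalIntegrable _ _
    · intro k _
      exact (hc _ _).intervalIntegrable _ _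
  simp_rw [h1]
  exact intervalIntegral.sum_integral_adjacent_intervals fun k _ =>
    (hc _ _).intervalIntegrable _ _

end SampleAux

open SampleAux

/-- sampling a `C¹` function on a fine grid does not increase the energy by much -/
theorem sample (f : ℂ → ℝ) (hf : ContDiff ℝ 1 f) {ρ R : ℝ} (hρ : 0 < ρ) (hR : ρ < R)
    (h1 : ∀ z, ‖z‖ ≤ ρ → f z = 1) (h0 : ∀ z, R ≤ ‖z‖ → f z = 0) {κ : ℝ} (hκ : 0 < κ) :
    ∃ τ > 0, ∀ (K : ℕ) [NeZero K] (x : ℕ → ℝ) (M : ℕ), 2 * Real.pi / (K : ℝ) ≤ τ → x 0 = 0 →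
      (∀ i, x i < x (i + 1)) → (∀ i, x (i + 1) - x i ≤ τ) →
      nE M K (cr x K) (ca x K) (fun i k => f (node ρ x K i k)) ≤
        (∫ z, ‖fderiv ℝ f z‖ ^ 2) + κ := by
  classical
  have hpi : 0 < Real.pi := Real.pi_pos
  set X : ℝ := Real.log (R / ρ) with hXdef
  have hX : 0 < X := Real.log_pos ((one_lt_div hρ).2 hR)
  have hRX : ρ * Real.exp X = R := by
    rw [hXdef, Real.exp_log (div_pos (hρ.trans hR) hρ)]
    field_simp
  set X' : ℝ := X + 1 with hX'def
  have hX' : 0 < X' := by positivity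
  -- the two derivatives
  set F : ℝ → ℝ → ℝ := fun x t => f (w ρ x t) with hF
  set Fx : ℝ → ℝ → ℝ := fun x t => fderiv ℝ f (w ρ x t) (w ρ x t) with hFx
  set Ft : ℝ → ℝ → ℝ := fun x t => fderiv ℝ f (w ρ x t) (w ρ x t * I) with hFt
  have hdf : Differentiable ℝ f := hf.differentiable (by norm_num)
  have hcd : Continuous (fderiv ℝ f) := hf.continuous_fderiv (by norm_num)
  have hFxd : ∀ x t, HasDerivAt (fun y : ℝ => F y t) (Fx x t) x := by
    intro x t
    exact (hdf (w ρ x t)).hasFDerivAt.comp_hasDerivAt x (hasDerivAt_w_left ρ x t)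
  have hFtd : ∀ x t, HasDerivAt (fun y : ℝ => F x y) (Ft x t) t := by
    intro x t
    exact (hdf (w ρ x t)).hasFDerivAt.comp_hasDerivAt t (hasDerivAt_w_right ρ x t)
  have hFxc : Continuous (Function.uncurry Fx) := by
    have := continuous_w ρ
    exact (hcd.comp this).clm_apply this
  have hFtc : Continuous (Function.uncurry Ft) := by
    have := continuous_w ρ
    exact (hcd.comp this).clm_apply (this.mul continuous_const)
  -- values
  have hF0 : ∀ x t, X ≤ x → F x t = 0 := by
    intro x t hx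
    refine h0 _ ?_
    rw [norm_w hρ, ← hRX]
    exact mul_le_mul_of_nonneg_left (Real.exp_le_exp.2 hx) hρ.le
  have hF1 : ∀ t, F 0 t = 1 := by
    intro t
    refine h1 _ ?_
    rw [norm_w hρ]
    simp
  -- energy
  have hen : (∫ z, ‖fderiv ℝ f z‖ ^ 2) = ∫ x in (0 : ℝ)..X', ∫ θ in (0 : ℝ)..(2 * Real.pi),
      ((Fx x θ) ^ 2 + (Ft x θ) ^ 2) := by
    rw [polar_energy f hf hρ hX'.le h1]
    · refine intervalIntegral.integral_congr fun x _ => ?_
      refine intervalIntegral.integral_congr fun t _ => ?_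
      have e1 : deriv (fun y : ℝ => f ((ρ : ℂ) * exp ((y : ℂ) + (t : ℂ) * I))) x = Fx x t :=
        (hFxd x t).deriv
      have e2 : deriv (fun y : ℝ => f ((ρ : ℂ) * exp ((x : ℂ) + (y : ℂ) * I))) t = Ft x t :=
        (hFtd x t).deriv
      simp only [e1, e2]
    · intro z hz
      refine h0 z (le_trans ?_ hz)
      rw [← hRX]
      exact mul_le_mul_of_nonneg_left (Real.exp_le_exp.2 (by linarith)) hρ.le
  -- choice of μ and τ
  set μ : ℝ := κ / (4 * Real.pi * X') with hμdef
  have hμ : 0 < μ := by positivity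
  set S : Set (ℝ × ℝ) := Set.Icc 0 X' ×ˢ Set.Icc 0 (2 * Real.pi) with hS
  have hScomp : IsCompact S := isCompact_Icc.prod isCompact_Icc
  have hu1 : UniformContinuousOn (fun p : ℝ × ℝ => (Fx p.1 p.2) ^ 2) S :=
    hScomp.uniformContinuousOn_of_continuous (by
      have : Continuous fun p : ℝ × ℝ => (Fx p.1 p.2) ^ 2 := hFxc.pow 2
      exact this.continuousOn)
  have hu2 : UniformContinuousOn (fun p : ℝ × ℝ => (Ft p.1 p.2) ^ 2) S :=
    hScomp.uniformContinuousOn_of_continuous (by
      have : Continuous fun p : ℝ × ℝ => (Ft p.1 p.2) ^ 2 := hFtc.pow 2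
      exact this.continuousOn)
  obtain ⟨δ1, hδ1, hd1⟩ := Metric.uniformContinuousOn_iff.1 hu1 μ hμ
  obtain ⟨δ2, hδ2, hd2⟩ := Metric.uniformContinuousOn_iff.1 hu2 μ hμ
  set τ : ℝ := min 1 (min (δ1 / 2) (δ2 / 2)) with hτdef
  have hτ : 0 < τ := by positivity
  have hτ1 : τ ≤ 1 := min_le_left _ _
  have hτ2 : τ < δ1 := lt_of_le_of_lt ((min_le_right _ _).trans (min_le_left _ _)) (by linarith)
  have hτ3 : τ < δ2 := lt_of_le_of_lt ((min_le_right _ _).trans (min_le_right _ _)) (by linarith)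
  have key1 : ∀ x t x' t', x ∈ Set.Icc 0 X' → t ∈ Set.Icc 0 (2 * Real.pi) → x' ∈ Set.Icc 0 X' →
      t' ∈ Set.Icc 0 (2 * Real.pi) → |x - x'| ≤ τ → |t - t'| ≤ τ →
      (Fx x t) ^ 2 ≤ (Fx x' t') ^ 2 + μ := by
    intro x t x' t' hx ht hx' ht' hxx htt
    have hd : dist ((x, t) : ℝ × ℝ) (x', t') < δ1 := by
      rw [Prod.dist_eq]
      exact lt_of_le_of_lt (max_le (by simpa [Real.dist_eq] using hxx)
        (by simpa [Real.dist_eq] using htt)) hτ2
    have := hd1 (x, t) ⟨hx, ht⟩ (x', t') ⟨hx', ht'⟩ hd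
    rw [Real.dist_eq] at this
    have := (abs_lt.1 this).2
    simp only at this
    linarith
  have key2 : ∀ x t x' t', x ∈ Set.Icc 0 X' → t ∈ Set.Icc 0 (2 * Real.pi) → x' ∈ Set.Icc 0 X' →
      t' ∈ Set.Icc 0 (2 * Real.pi) → |x - x'| ≤ τ → |t - t'| ≤ τ →
      (Ft x t) ^ 2 ≤ (Ft x' t') ^ 2 + μ := by
    intro x t x' t' hx ht hx' ht' hxx htt
    have hd : dist ((x, t) : ℝ × ℝ) (x', t') < δ2 := by
      rw [Prod.dist_eq]
      exact lt_of_le_of_lt (max_le (by simpa [Real.dist_eq] using hxx)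
        (by simpa [Real.dist_eq] using htt)) hτ3
    have := hd2 (x, t) ⟨hx, ht⟩ (x', t') ⟨hx', ht'⟩ hd
    rw [Real.dist_eq] at this
    have := (abs_lt.1 this).2
    simp only at this
    linarith
  refine ⟨τ, hτ, ?_⟩
  intro K _ x M hK hx0 hxlt hxτ
  have hKpos : (0 : ℝ) < K := by exact_mod_cast Nat.pos_of_ne_zero (NeZero.ne K)
  set η : ℝ := 2 * Real.pi / (K : ℝ) with hη
  have hηpos : 0 < η := by positivity
  set t : ℕ → ℝ := fun k => 2 * Real.pi * (k : ℝ) / (K : ℝ) with ht
  have ht0 : t 0 = 0 := by simp [ht]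
  have htK : t K = 2 * Real.pi := by
    simp only [ht]
    field_simp
  have htsucc : ∀ k, t (k + 1) - t k = η := by
    intro k
    simp only [ht, hη]
    push_cast
    ring
  have htmem : ∀ k, k ≤ K → t k ∈ Set.Icc 0 (2 * Real.pi) := by
    intro k hk
    have hk' : (k : ℝ) ≤ K := by exact_mod_cast hk
    constructor
    · simp only [ht]; positivity
    · simp only [ht]
      rw [div_le_iff₀ hKpos]
      exact mul_le_mul_of_nonneg_left hk' (by positivity)
  -- node values
  have hnode : ∀ i, ∀ j ≤ K, f (node ρ x K i (j : ZMod K)) = F (x i) (t j) := by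
    intro i j hj
    rcases lt_or_eq_of_le hj with hj | hj
    · have hv : ((j : ZMod K)).val = j := by
        rw [ZMod.val_natCast, Nat.mod_eq_of_lt hj]
      simp only [hF, w, node, hv, ht]
    · subst hj
      have hv : ((j : ZMod j)).val = 0 := by
        rw [ZMod.natCast_self, ZMod.val_zero]
      have hper := w_periodic ρ (x i) 0
      simp only [hF, node, hv, htK]
      rw [zero_add] at hper
      rw [hper]
      simp [w]
  -- monotonicity of x
  have hxm : StrictMono x := strictMono_nat_of_lt_succ hxlt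
  have hx0' : ∀ i, 0 ≤ x i := fun i => hx0 ▸ hxm.monotone (Nat.zero_le i)
  set u : ℕ → ℝ := fun i => min (x i) X' with hu
  have hu0 : u 0 = 0 := by simp [hu, hx0, hX'.le]
  have huX : ∀ i, u i ≤ X' := fun i => min_le_right _ _
  have humono : ∀ i, u i ≤ u (i + 1) := fun i => min_le_min_right _ (hxlt i).le
  have hu00 : ∀ i, 0 ≤ u i := fun i => le_min (hx0' i) hX'.le
  have husmall : ∀ i, x i < X → u i = x i ∧ u (i + 1) = x (i + 1) ∧ x (i + 1) ≤ X' := by
    intro i hi
    have h2 : x (i + 1) ≤ X' := by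
      have := hxτ i
      linarith
    exact ⟨min_eq_left (by linarith), min_eq_left h2, h2⟩
  have htle : ∀ k, t k ≤ t (k + 1) := fun k => by linarith [htsucc k]
  -- cells
  set H1 : ℝ → ℝ → ℝ := fun x t => (Fx x t) ^ 2 + μ with hH1
  set H2 : ℝ → ℝ → ℝ := fun x t => (Ft x t) ^ 2 + μ with hH2
  have hH1c : Continuous (Function.uncurry H1) := by
    have : Continuous fun p : ℝ × ℝ => (Fx p.1 p.2) ^ 2 + μ := (hFxc.pow 2).add continuous_const
    exact this
  have hH2c : Continuous (Function.uncurry H2) := by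
    have : Continuous fun p : ℝ × ℝ => (Ft p.1 p.2) ^ 2 + μ := (hFtc.pow 2).add continuous_const
    exact this
  have hH10 : ∀ x t, 0 ≤ H1 x t := fun x t => by simp only [hH1]; positivity
  have hH20 : ∀ x t, 0 ≤ H2 x t := fun x t => by simp only [hH2]; positivity
  set c1 : ℕ → ℕ → ℝ := fun i k => ∫ y in (u i)..(u (i + 1)), ∫ s in (t k)..(t (k + 1)), H1 y s
    with hc1
  set c2 : ℕ → ℕ → ℝ := fun i k => ∫ y in (u i)..(u (i + 1)), ∫ s in (t k)..(t (k + 1)), H2 y s
    with hc2
  have hc10 : ∀ i k, 0 ≤ c1 i k := fun i k => cell_nonneg hH10 (humono i) (htle k)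
  have hc20 : ∀ i k, 0 ≤ c2 i k := fun i k => cell_nonneg hH20 (humono i) (htle k)
  -- radial edges
  have hrad : ∀ i, ∀ k < K, cr x K i * (F (x (i + 1)) (t k) - F (x i) (t k)) ^ 2 ≤ c1 i k := by
    intro i k hk
    have hh : 0 < x (i + 1) - x i := by linarith [hxlt i]
    by_cases hi : x i < X
    · obtain ⟨e1, e2, e3⟩ := husmall i hi
      obtain ⟨ξ, hξ, hξ'⟩ := exists_hasDerivAt_eq_slope (fun y => F y (t k)) (fun y => Fx y (t k))
        (hxlt i) (fun y _ => (hFxd y (t k)).continuousAt.continuousWithinAt)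
        (fun y _ => hFxd y (t k))
      have hdiff : F (x (i + 1)) (t k) - F (x i) (t k) = Fx ξ (t k) * (x (i + 1) - x i) := by
        rw [hξ']
        field_simp
      have hb := cell_bound hH1c (a := x i) (b := x (i + 1)) (s := t k) (s' := t (k + 1))
        (c := (Fx ξ (t k)) ^ 2) (hxlt i).le (htle k) (by
          intro y hy s hs
          have hxi := hx0' i
          have ht1 := (htmem k hk.le)
          have ht2 := (htmem (k + 1) hk)
          refine key1 ξ (t k) y s ⟨by linarith [hξ.1], by linarith [hξ.2]⟩ ht1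
            ⟨by linarith [hy.1], by linarith [hy.2]⟩ ⟨by linarith [hs.1, ht1.1], by
              linarith [hs.2, ht2.2]⟩ ?_ ?_
          · rw [abs_le]
            have := hxτ i
            constructor <;> linarith [hξ.1, hξ.2, hy.1, hy.2]
          · rw [abs_le]
            have := htsucc k
            constructor <;> linarith [hs.1, hs.2])
      have hcell : c1 i k = ∫ y in (x i)..(x (i + 1)), ∫ s in (t k)..(t (k + 1)), H1 y s := by
        simp only [hc1, e1, e2]
      rw [hcell]
      refine le_trans (le_of_eq ?_) hb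
      rw [hdiff, htsucc k]
      unfold cr
      rw [← hη]
      field_simp
    · push Not at hi
      rw [hF0 _ _ hi, hF0 _ _ (hi.trans (hxlt i).le)]
      simpa using hc10 i k
  -- angular edges
  have hmvt : ∀ i, ∀ k, ∃ ξ ∈ Set.Ioo (t k) (t (k + 1)),
      F (x i) (t (k + 1)) - F (x i) (t k) = Ft (x i) ξ * η := by
    intro i k
    obtain ⟨ξ, hξ, hξ'⟩ := exists_hasDerivAt_eq_slope (fun y => F (x i) y) (fun y => Ft (x i) y)
      (show t k < t (k + 1) by linarith [htsucc k])
      (fun y _ => (hFtd (x i) y).continuousAt.continuousWithinAt)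
      (fun y _ => hFtd (x i) y)
    refine ⟨ξ, hξ, ?_⟩
    rw [htsucc k] at hξ'
    rw [hξ']
    field_simp
  have hang0 : ∀ k, ca x K 0 * (F (x 0) (t (k + 1)) - F (x 0) (t k)) ^ 2 = 0 := by
    intro k
    rw [hx0, hF1, hF1]
    simp
  have hang : ∀ i, ∀ k < K, ca x K (i + 1) * (F (x (i + 1)) (t (k + 1)) - F (x (i + 1)) (t k)) ^ 2
      ≤ (c2 (i + 1) k + c2 i k) / 2 := by
    intro i k hk
    by_cases hi : x (i + 1) < X
    · obtain ⟨e1, e2, e3⟩ := husmall (i + 1) hi
      obtain ⟨e1', e2', e3'⟩ := husmall i ((hxlt i).trans hi)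
      obtain ⟨ξ, hξ, hξ'⟩ := hmvt (i + 1) k
      have ht1 := (htmem k hk.le)
      have ht2 := (htmem (k + 1) hk)
      have hb1 := cell_bound hH2c (a := x (i + 1)) (b := x (i + 1 + 1)) (s := t k) (s' := t (k + 1))
        (c := (Ft (x (i + 1)) ξ) ^ 2) (hxlt (i + 1)).le (htle k) (by
          intro y hy s hs
          have hxi := hx0' (i + 1)
          refine key2 (x (i + 1)) ξ y s ⟨hxi, by linarith⟩ ⟨by linarith [hξ.1, ht1.1], by
              linarith [hξ.2, ht2.2]⟩
            ⟨by linarith [hy.1], by linarith [hy.2]⟩ ⟨by linarith [hs.1, ht1.1], by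
              linarith [hs.2, ht2.2]⟩ ?_ ?_
          · rw [abs_le]
            have := hxτ (i + 1)
            constructor <;> linarith [hy.1, hy.2]
          · rw [abs_le]
            have := htsucc k
            constructor <;> linarith [hs.1, hs.2, hξ.1, hξ.2])
      have hb2 := cell_bound hH2c (a := x i) (b := x (i + 1)) (s := t k) (s' := t (k + 1))
        (c := (Ft (x (i + 1)) ξ) ^ 2) (hxlt i).le (htle k) (by
          intro y hy s hs
          have hxi := hx0' i
          have hxi' := hx0' (i + 1)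
          refine key2 (x (i + 1)) ξ y s ⟨hxi', by linarith⟩ ⟨by linarith [hξ.1, ht1.1], by
              linarith [hξ.2, ht2.2]⟩
            ⟨by linarith [hy.1], by linarith [hy.2]⟩ ⟨by linarith [hs.1, ht1.1], by
              linarith [hs.2, ht2.2]⟩ ?_ ?_
          · rw [abs_le]
            have := hxτ i
            constructor <;> linarith [hy.1, hy.2]
          · rw [abs_le]
            have := htsucc k
            constructor <;> linarith [hs.1, hs.2, hξ.1, hξ.2])
      have hcell1 : c2 (i + 1) k =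
          ∫ y in (x (i + 1))..(x (i + 1 + 1)), ∫ s in (t k)..(t (k + 1)), H2 y s := by
        simp only [hc2, e1, e2]
      have hcell2 : c2 i k = ∫ y in (x i)..(x (i + 1)), ∫ s in (t k)..(t (k + 1)), H2 y s := by
        simp only [hc2, e1', e2']
      rw [hcell1, hcell2]
      have : ca x K (i + 1) * (F (x (i + 1)) (t (k + 1)) - F (x (i + 1)) (t k)) ^ 2 =
          ((Ft (x (i + 1)) ξ) ^ 2 * (x (i + 1 + 1) - x (i + 1)) * (t (k + 1) - t k) +
          (Ft (x (i + 1)) ξ) ^ 2 * (x (i + 1) - x i) * (t (k + 1) - t k)) / 2 := by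
        rw [hξ', htsucc k]
        unfold ca
        rw [← hη, Nat.add_sub_cancel]
        field_simp
        ring
      rw [this]
      linarith
    · push Not at hi
      rw [hF0 _ _ hi, hF0 _ _ hi]
      have a1 := hc20 (i + 1) k
      have a2 := hc20 i k
      have : ca x K (i + 1) * ((0 : ℝ) - 0) ^ 2 = 0 := by ring
      rw [this]
      positivity
  -- rewrite nE
  have hnE : nE M K (cr x K) (ca x K) (fun i k => f (node ρ x K i k)) =
      ∑ i ∈ Finset.range M, ∑ k ∈ Finset.range K,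
        (cr x K i * (F (x (i + 1)) (t k) - F (x i) (t k)) ^ 2 +
          ca x K i * (F (x i) (t (k + 1)) - F (x i) (t k)) ^ 2) := by
    unfold nE
    refine Finset.sum_congr rfl fun i _ => ?_
    rw [sum_zmod]
    refine Finset.sum_congr rfl fun k hk => ?_
    have hk' := Finset.mem_range.1 hk
    have e1 := hnode i k hk'.le
    have e2 := hnode (i + 1) k hk'.le
    have e3 := hnode i (k + 1) hk'
    rw [Nat.cast_add, Nat.cast_one] at e3
    beta_reduce
    rw [e1, e2, e3]
  have hradsum : ∑ i ∈ Finset.range M, ∑ k ∈ Finset.range K,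
      (cr x K i * (F (x (i + 1)) (t k) - F (x i) (t k)) ^ 2) ≤
      ∑ i ∈ Finset.range M, ∑ k ∈ Finset.range K, c1 i k :=
    Finset.sum_le_sum fun i _ => Finset.sum_le_sum fun k hk => hrad i k (Finset.mem_range.1 hk)
  have hangsum : ∑ i ∈ Finset.range M, ∑ k ∈ Finset.range K,
      (ca x K i * (F (x i) (t (k + 1)) - F (x i) (t k)) ^ 2) ≤
      ∑ i ∈ Finset.range M, ∑ k ∈ Finset.range K, c2 i k := by
    rw [Finset.sum_comm, Finset.sum_comm (s := Finset.range M)]
    refine Finset.sum_le_sum fun k hk => ?_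
    have hk' := Finset.mem_range.1 hk
    rcases Nat.eq_zero_or_pos M with hM | hM
    · subst hM
      simp
    · obtain ⟨M', rfl⟩ := Nat.exists_eq_succ_of_ne_zero hM.ne'
      rw [Nat.succ_eq_add_one, Finset.sum_range_succ', hang0 k, add_zero]
      have h2 : ∑ i ∈ Finset.range M',
          ca x K (i + 1) * (F (x (i + 1)) (t (k + 1)) - F (x (i + 1)) (t k)) ^ 2 ≤
          ∑ i ∈ Finset.range M', (c2 (i + 1) k + c2 i k) / 2 :=
        Finset.sum_le_sum fun i _ => hang i k hk'
      have h3 : ∑ i ∈ Finset.range M', (c2 (i + 1) k + c2 i k) / 2 =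
          ((∑ i ∈ Finset.range M', c2 (i + 1) k) + ∑ i ∈ Finset.range M', c2 i k) / 2 := by
        rw [← Finset.sum_add_distrib, Finset.sum_div]
      have h4 : ∑ i ∈ Finset.range (M' + 1), c2 i k =
          (∑ i ∈ Finset.range M', c2 (i + 1) k) + c2 0 k := Finset.sum_range_succ' _ _
      have h5 : ∑ i ∈ Finset.range (M' + 1), c2 i k =
          (∑ i ∈ Finset.range M', c2 i k) + c2 M' k := Finset.sum_range_succ _ _
      have a1 := hc20 0 k
      have a2 := hc20 M' k
      linarith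
  have hs1 := cell_sum hH1c u t M K
  have hs2 := cell_sum hH2c u t M K
  rw [hu0, ht0, htK] at hs1 hs2
  have hext : ∀ {H : ℝ → ℝ → ℝ}, Continuous (Function.uncurry H) → (∀ x t, 0 ≤ H x t) →
      (∫ y in (0 : ℝ)..(u M), ∫ s in (0 : ℝ)..(2 * Real.pi), H y s) ≤
      ∫ y in (0 : ℝ)..X', ∫ s in (0 : ℝ)..(2 * Real.pi), H y s := by
    intro H hH hH0
    have hc : Continuous fun x => ∫ y in (0 : ℝ)..(2 * Real.pi), H x y :=
      intervalIntegral.continuous_parametric_intervalIntegral_of_continuous' hH _ _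
    have := intervalIntegral.integral_add_adjacent_intervals
      (hc.intervalIntegrable (μ := volume) 0 (u M)) (hc.intervalIntegrable (μ := volume) (u M) X')
    rw [← this]
    have h2 : 0 ≤ ∫ x in (u M)..X', ∫ y in (0 : ℝ)..(2 * Real.pi), H x y :=
      cell_nonneg hH0 (huX M) (by positivity)
    linarith
  have hs1' := hext hH1c hH10
  have hs2' := hext hH2c hH20
  have htot : (∫ y in (0 : ℝ)..X', ∫ s in (0 : ℝ)..(2 * Real.pi), H1 y s) +
      (∫ y in (0 : ℝ)..X', ∫ s in (0 : ℝ)..(2 * Real.pi), H2 y s) =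
      (∫ x in (0 : ℝ)..X', ∫ θ in (0 : ℝ)..(2 * Real.pi), ((Fx x θ) ^ 2 + (Ft x θ) ^ 2)) + κ := by
    have hcx : ∀ y, Continuous fun s => (Fx y s) ^ 2 := fun y =>
      (hFxc.comp (Continuous.prodMk_right y)).pow 2
    have hct : ∀ y, Continuous fun s => (Ft y s) ^ 2 := fun y =>
      (hFtc.comp (Continuous.prodMk_right y)).pow 2
    have hc1' : Continuous fun x => ∫ y in (0 : ℝ)..(2 * Real.pi), H1 x y :=
      intervalIntegral.continuous_parametric_intervalIntegral_of_continuous' hH1c _ _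
    have hc2' : Continuous fun x => ∫ y in (0 : ℝ)..(2 * Real.pi), H2 x y :=
      intervalIntegral.continuous_parametric_intervalIntegral_of_continuous' hH2c _ _
    have hc3 : Continuous (Function.uncurry fun x t => (Fx x t) ^ 2 + (Ft x t) ^ 2) := by
      have : Continuous fun p : ℝ × ℝ => (Fx p.1 p.2) ^ 2 + (Ft p.1 p.2) ^ 2 :=
        (hFxc.pow 2).add (hFtc.pow 2)
      exact this
    have hc3' : Continuous fun x => ∫ y in (0 : ℝ)..(2 * Real.pi), ((Fx x y) ^ 2 + (Ft x y) ^ 2) :=
      intervalIntegral.continuous_parametric_intervalIntegral_of_continuous' hc3 _ _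
    rw [← intervalIntegral.integral_add (hc1'.intervalIntegrable _ _)
      (hc2'.intervalIntegrable _ _)]
    have hinner : ∀ y, (∫ s in (0 : ℝ)..(2 * Real.pi), H1 y s) +
        (∫ s in (0 : ℝ)..(2 * Real.pi), H2 y s) =
        (∫ s in (0 : ℝ)..(2 * Real.pi), ((Fx y s) ^ 2 + (Ft y s) ^ 2)) + 4 * Real.pi * μ := by
      intro y
      have i1 : (∫ s in (0 : ℝ)..(2 * Real.pi), H1 y s) =
          (∫ s in (0 : ℝ)..(2 * Real.pi), (Fx y s) ^ 2) + 2 * Real.pi * μ := by
        simp only [hH1]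
        rw [intervalIntegral.integral_add ((hcx y).intervalIntegrable _ _) (by simp)]
        simp
      have i2 : (∫ s in (0 : ℝ)..(2 * Real.pi), H2 y s) =
          (∫ s in (0 : ℝ)..(2 * Real.pi), (Ft y s) ^ 2) + 2 * Real.pi * μ := by
        simp only [hH2]
        rw [intervalIntegral.integral_add ((hct y).intervalIntegrable _ _) (by simp)]
        simp
      rw [i1, i2, intervalIntegral.integral_add ((hcx y).intervalIntegrable _ _)
        ((hct y).intervalIntegrable _ _)]
      ring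
    have : (∫ y in (0 : ℝ)..X', ((∫ s in (0 : ℝ)..(2 * Real.pi), H1 y s) +
        (∫ s in (0 : ℝ)..(2 * Real.pi), H2 y s))) = ∫ y in (0 : ℝ)..X',
        ((∫ s in (0 : ℝ)..(2 * Real.pi), ((Fx y s) ^ 2 + (Ft y s) ^ 2)) + 4 * Real.pi * μ) :=
      intervalIntegral.integral_congr fun y _ => hinner y
    rw [this, intervalIntegral.integral_add (hc3'.intervalIntegrable _ _) (by simp)]
    congr 1
    simp only [intervalIntegral.integral_const, smul_eq_mul, sub_zero]
    rw [hμdef]
    field_simp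
  rw [hnE, hen]
  simp only [Finset.sum_add_distrib]
  linarith

end Pool.MP_31392c_an
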