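import Pool.Agent.Lib.MP_31392c_an.Ray
import Pool.Agent.Lib.MP_31392c_an.Net
import Pool.Agent.Lib.MP_31392c_an.Sample
import Pool.Agent.Lib.MP_31392c_an.Interp
import Pool.Agent.Lib.MP_31392c_an.Geom
import Pool.Agent.Lib.MP_31392c_an.Grid

set_option autoImplicit false

open MeasureTheory Complex Filter Topology

namespace Pool.MP_31392c_an

theorem exists_delta {ρ R0 ε b : ℝ} (hρ : 0 < ρ) (hR : ρ ≤ R0) (hε : 0 < ε) (hb : 0 < b)
    (hrange : R0 + ε < Real.exp 2 * ρ) :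
    ∃ δ, 0 < δ ∧ δ ≤ b ∧ Real.log ((R0 + ε + δ) / ρ) ≤ 2 * (1 - δ ^ 2 / ρ ^ 2) := by
  have hc : Tendsto (fun δ : ℝ => Real.log ((R0 + ε + δ) / ρ) - 2 * (1 - δ ^ 2 / ρ ^ 2))
      (𝓝[>] 0) (𝓝 (Real.log ((R0 + ε + 0) / ρ) - 2 * (1 - (0 : ℝ) ^ 2 / ρ ^ 2))) := by
    have hca : ContinuousAt (fun δ : ℝ => Real.log ((R0 + ε + δ) / ρ) - 2 * (1 - δ ^ 2 / ρ ^ 2)) 0 := by
      have hne : (R0 + ε + 0) / ρ ≠ 0 := by
        apply div_ne_zero _ hρ.ne'
        linarith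
      fun_prop (disch := assumption)
    exact hca.tendsto.mono_left nhdsWithin_le_nhds
  have hneg : Real.log ((R0 + ε + 0) / ρ) - 2 * (1 - (0 : ℝ) ^ 2 / ρ ^ 2) < 0 := by
    have : Real.log ((R0 + ε + 0) / ρ) < 2 := by
      rw [Real.log_lt_iff_lt_exp (div_pos (by linarith) hρ), div_lt_iff₀ hρ]
      linarith
    simp only [ne_eq, OfNat.ofNat_ne_zero, not_false_eq_true, zero_pow, zero_div, sub_zero]
    linarith
  have h1 := hc.eventually_lt_const hneg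
  have h2 : ∀ᶠ δ : ℝ in 𝓝[>] 0, δ ∈ Set.Ioc 0 b := Ioc_mem_nhdsGT hb
  obtain ⟨δ, hδ1, hδ2⟩ := (h1.and h2).exists
  exact ⟨δ, hδ2.1, hδ2.2, by linarith⟩

theorem gx_exp {ρ δ : ℝ} (hρ : 0 < ρ) (hδ : 0 < δ) {L i : ℕ} (hi : i ≤ L) :
    Real.exp (gx ρ δ L i) = (ρ + i * δ) / ρ := by
  unfold gx
  rw [if_pos hi, Real.exp_log]
  positivity

theorem gx_mono {ρ δ : ℝ} (hρ : 0 < ρ) (hδ : 0 < δ) {L : ℕ} (hL : 1 ≤ L) :
    StrictMono (gx ρ δ L) := strictMono_nat_of_lt_succ (gx_lt hρ hδ hL)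

theorem gx_unbounded {ρ δ : ℝ} (hρ : 0 < ρ) (hδ : 0 < δ) {L : ℕ} (hL : 1 ≤ L) (B : ℝ) :
    ∃ i, B ≤ gx ρ δ L i := by
  have hh : 0 < Real.log ((ρ + L * δ) / (ρ + ((L : ℝ) - 1) * δ)) := by
    apply Real.log_pos
    have h1 : (1 : ℝ) ≤ L := by exact_mod_cast hL
    have h2 : 0 < ρ + ((L : ℝ) - 1) * δ := by
      have : 0 ≤ ((L : ℝ) - 1) * δ := mul_nonneg (by linarith) hδ.le
      linarith
    rw [one_lt_div h2]
    nlinarith
  set h := Real.log ((ρ + L * δ) / (ρ + ((L : ℝ) - 1) * δ)) with hdef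
  obtain ⟨n, hn⟩ := exists_nat_ge (B / h)
  refine ⟨L + 1 + n, ?_⟩
  have e : gx ρ δ L (L + 1 + n) = Real.log ((ρ + L * δ) / ρ) + (1 + n) * h := by
    unfold gx
    rw [if_neg (by omega)]
    push_cast
    rw [← hdef]
    ring
  rw [e]
  have h3 : 0 ≤ Real.log ((ρ + L * δ) / ρ) := by
    apply Real.log_nonneg
    rw [one_le_div hρ]
    have : 0 ≤ (L : ℝ) * δ := by positivity
    linarith
  have h4 : B ≤ n * h := by
    rw [div_le_iff₀ hh] at hn
    exact hn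
  nlinarith

theorem exists_angles {c : ℝ} (hc : 0 < c) : ∃ K : ℕ, 3 ≤ K ∧ 2 * Real.pi / (K : ℝ) ≤ c := by
  refine ⟨max 3 ⌈2 * Real.pi / c⌉₊, le_max_left _ _, ?_⟩
  have h1 : 2 * Real.pi / c ≤ (max 3 ⌈2 * Real.pi / c⌉₊ : ℕ) := by
    refine (Nat.le_ceil _).trans ?_
    exact_mod_cast le_max_right 3 ⌈2 * Real.pi / c⌉₊
  have h2 : (0 : ℝ) < (max 3 ⌈2 * Real.pi / c⌉₊ : ℕ) := by
    exact_mod_cast lt_of_lt_of_le (by norm_num) (le_max_left 3 ⌈2 * Real.pi / c⌉₊)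
  rw [div_le_iff₀ h2]
  rw [div_le_iff₀ hc] at h1
  linarith

theorem norm_exp_sub_exp_le (a b : ℝ) :
    ‖exp ((a : ℂ) * I) - exp ((b : ℂ) * I)‖ ≤ |a - b| := by
  have e : exp ((a : ℂ) * I) - exp ((b : ℂ) * I) =
      exp ((b : ℂ) * I) * (exp (I * ((a - b : ℝ) : ℂ)) - 1) := by
    rw [mul_sub, ← Complex.exp_add, mul_one]
    congr 2
    push_cast; ring
  rw [e, norm_mul, Complex.norm_exp_ofReal_mul_I, one_mul]
  exact Real.norm_exp_I_mul_ofReal_sub_one_le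

theorem norm_node {ρ : ℝ} (hρ : 0 < ρ) (x : ℕ → ℝ) (K i : ℕ) (k : ZMod K) :
    ‖node ρ x K i k‖ = ρ * Real.exp (x i) := by
  unfold node
  rw [norm_mul, Complex.norm_real, Real.norm_eq_abs, abs_of_pos hρ, Complex.norm_exp]
  simp

theorem node_eq {ρ δ : ℝ} (hρ : 0 < ρ) (hδ : 0 < δ) {L i : ℕ} (hi : i ≤ L) (K : ℕ) (k : ZMod K) :
    node ρ (gx ρ δ L) K i k = ((ρ + i * δ : ℝ) : ℂ) *
      exp (((2 * Real.pi * (k.val : ℝ) / (K : ℝ) : ℝ) : ℂ) * I) := by
  unfold node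
  rw [Complex.exp_add, ← mul_assoc, ← Complex.ofReal_exp, gx_exp hρ hδ hi, ← Complex.ofReal_mul]
  congr 2
  field_simp


/-- polar form with angle in `[0,2π)` -/
theorem exists_polar (w : ℂ) : ∃ θ : ℝ, 0 ≤ θ ∧ θ < 2 * Real.pi ∧
    w = (‖w‖ : ℂ) * exp ((θ : ℂ) * I) := by
  by_cases h : 0 ≤ arg w
  · refine ⟨arg w, h, ?_, (norm_mul_exp_arg_mul_I w).symm⟩
    have := arg_le_pi w
    have := Real.pi_pos
    linarith
  · push Not at h
    refine ⟨arg w + 2 * Real.pi, ?_, by linarith, ?_⟩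
    · have := neg_pi_lt_arg w
      have := Real.pi_pos
      linarith
    · have : exp (((arg w + 2 * Real.pi : ℝ) : ℂ) * I) = exp ((arg w : ℂ) * I) := by
        push_cast
        rw [add_mul, Complex.exp_add, Complex.exp_two_pi_mul_I, mul_one]
      rw [this]
      exact (norm_mul_exp_arg_mul_I w).symm

/-- the set of nodes near `E` -/
noncomputable def nearNodes (E : Set ℂ) (ρ δ ε : ℝ) (L K : ℕ) [NeZero K] :
    Finset (ℕ × ZMod K) :=
  open Classical in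
  ((Finset.Icc 1 L) ×ˢ (Finset.univ : Finset (ZMod K))).filter
    (fun p => Metric.infDist (((ρ + p.1 * δ : ℝ) : ℂ) *
      exp (((2 * Real.pi * (p.2.val : ℝ) / (K : ℝ) : ℝ) : ℂ) * I)) E ≤ ε)

theorem card_nearNodes (E : Set ℂ) (ρ δ ε : ℝ) (L K : ℕ) [NeZero K] (k : ZMod K) :
    ((nearNodes E ρ δ ε L K).filter (fun p => p.2 = k)).card =
      ((Finset.Icc 1 L).filter (fun i : ℕ => Metric.infDist (((ρ + i * δ : ℝ) : ℂ) *
        exp (((2 * Real.pi * (k.val : ℝ) / (K : ℝ) : ℝ) : ℂ) * I)) E ≤ ε)).card := by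
  classical
  symm
  apply Finset.card_bij (fun i _ => ((i, k) : ℕ × ZMod K))
  · intro i hi
    simp only [Finset.mem_filter] at hi
    simp only [nearNodes, Finset.mem_filter, Finset.mem_product, Finset.mem_univ, and_true]
    exact ⟨hi.1, hi.2⟩
  · intro i _ j _ h
    exact (Prod.mk.inj h).1
  · rintro ⟨i, k'⟩ hp
    simp only [nearNodes, Finset.mem_filter, Finset.mem_product, Finset.mem_univ, and_true] at hp
    obtain ⟨⟨h1, h2⟩, rfl⟩ := hp
    exact ⟨i, by simp only [Finset.mem_filter]; exact ⟨h1, h2⟩, rfl⟩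

/-- one node column dominates the ray of direction `θ` -/
theorem column_bound (E : Set ℂ) (hE : IsCompact E) {ρ R0 δ ε : ℝ} (hρ : 0 < ρ)
    (hball : Metric.closedBall (0 : ℂ) ρ ⊆ E) (hR0 : ∀ z ∈ E, ‖z‖ ≤ R0) (hδ : 0 < δ)
    (hδε : 8 * δ ≤ ε) (L : ℕ) (hL : R0 + ε ≤ ρ + L * δ) (K : ℕ) [NeZero K] (k : ZMod K)
    (θ ω : ℝ) (hωk : exp ((ω : ℂ) * I) = exp (((2 * Real.pi * (k.val : ℝ) / (K : ℝ) : ℝ) : ℂ) * I))
    (hω : R0 * ‖exp ((θ : ℂ) * I) - exp ((ω : ℂ) * I)‖ ≤ ε / 4) (r s : ℝ)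
    (hr : r ≤ rayMeasure E θ) (hs : s ≤ r + ε / 8) (i : ℕ) (hi : ρ + i * δ ≤ s) :
    i + 1 ≤ ((nearNodes E ρ δ ε L K).filter (fun p => p.2 = k)).card := by
  rw [card_nearNodes]
  have h := geom E hE hρ hball hR0 hδ hδε L hL θ
    (2 * Real.pi * (k.val : ℝ) / (K : ℝ)) (by rw [← hωk]; exact hω)
  set n := ((Finset.Icc 1 L).filter (fun i : ℕ => Metric.infDist (((ρ + i * δ : ℝ) : ℂ) *
        exp (((2 * Real.pi * (k.val : ℝ) / (K : ℝ) : ℝ) : ℂ) * I)) E ≤ ε)).card with hn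
  have h2 : (i : ℝ) * δ ≤ δ * n - ε / 8 := by linarith
  have h3 : ((i : ℝ) + 1) * δ ≤ n * δ := by linarith
  have h4 : ((i : ℝ) + 1) ≤ n := le_of_mul_le_mul_right h3 hδ
  exact_mod_cast h4

theorem chain (E : Set ℂ) (hE : IsCompact E) {ρ R0 ε : ℝ} (hρ : 0 < ρ)
    (hball : Metric.closedBall (0 : ℂ) ρ ⊆ E) (hR0 : ∀ z ∈ E, ‖z‖ ≤ R0) (hε : 0 < ε)
    (hrange : R0 + ε < Real.exp 2 * ρ) (f : ℂ → ℝ) (hf : ContDiff ℝ 1 f)
    (hfE : ∀ z, Metric.infDist z E ≤ ε → f z = 1) {Rf : ℝ} (hRf : R0 + 2 * ε ≤ Rf)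
    (hf0 : ∀ z, Rf ≤ ‖z‖ → f z = 0) {κ : ℝ} (hκ : 0 < κ) :
    ∃ (ψ : ℂ → ℝ) (ε2 : ℝ), 0 < ε2 ∧ ContDiff ℝ 1 ψ ∧
      (∀ z, Rf * Real.exp κ ≤ ‖z‖ → ψ z = 0) ∧
      (∀ s ∈ LR E, ∀ w, ‖w - s‖ ≤ ε2 → ψ w = 1) ∧
      (∫ z, ‖fderiv ℝ ψ z‖ ^ 2) ≤ (1 + κ) * ((∫ z, ‖fderiv ℝ f z‖ ^ 2) + κ) := by
  have hρE : (ρ : ℂ) ∈ E := hball (by simp [abs_of_pos hρ])
  have hρR : ρ ≤ R0 := by
    have := hR0 _ hρE
    rwa [Complex.norm_real, Real.norm_eq_abs, abs_of_pos hρ] at this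
  have hR0pos : 0 < R0 := lt_of_lt_of_le hρ hρR
  have hf1 : ∀ z, ‖z‖ ≤ ρ → f z = 1 := by
    intro z hz
    apply hfE
    have : z ∈ E := hball (by simpa using hz)
    rw [Metric.infDist_zero_of_mem this]
    exact hε.le
  have hρRf : ρ < Rf := by linarith
  obtain ⟨τ, hτ, hsample⟩ := sample f hf hρ hρRf hf1 hf0 hκ
  obtain ⟨δ, hδ, hδb, hδlog⟩ := exists_delta (b := min (ε / 8) (min (ρ * τ) (ρ * κ))) hρ hρR hε
    (by positivity) hrange
  have hδε : 8 * δ ≤ ε := by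
    have := hδb.trans (min_le_left _ _)
    linarith
  have hδτ : δ / ρ ≤ τ := by
    rw [div_le_iff₀ hρ]
    have := hδb.trans ((min_le_right _ _).trans (min_le_left _ _))
    linarith
  have hδκ : δ / ρ ≤ κ := by
    rw [div_le_iff₀ hρ]
    have := hδb.trans ((min_le_right _ _).trans (min_le_right _ _))
    linarith
  -- levels
  obtain ⟨L, hLdef⟩ : ∃ L : ℕ, L = ⌈(R0 + ε - ρ) / δ⌉₊ := ⟨_, rfl⟩
  have hpos : 0 < (R0 + ε - ρ) / δ := div_pos (by linarith) hδ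
  have hL : R0 + ε ≤ ρ + L * δ := by
    have := Nat.le_ceil ((R0 + ε - ρ) / δ)
    rw [← hLdef, div_le_iff₀ hδ] at this
    linarith
  have hL2 : ρ + L * δ ≤ R0 + ε + δ := by
    have := (Nat.ceil_lt_add_one hpos.le).le
    rw [← hLdef] at this
    have h2 : (L : ℝ) * δ ≤ ((R0 + ε - ρ) / δ + 1) * δ := mul_le_mul_of_nonneg_right this hδ.le
    rw [add_mul, div_mul_cancel₀ _ hδ.ne'] at h2
    linarith
  have hL1 : 1 ≤ L := by
    rw [hLdef]
    exact Nat.ceil_pos.mpr hpos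
  have hrangeL : Real.log ((ρ + L * δ) / ρ) ≤ 2 * (1 - δ ^ 2 / ρ ^ 2) := by
    refine le_trans (Real.log_le_log (by positivity) ?_) hδlog
    exact div_le_div_of_nonneg_right hL2 hρ.le
  -- angles
  obtain ⟨K, hK3, hKc⟩ := exists_angles (c := min τ (ε / (8 * R0))) (by positivity)
  have hKpos : 0 < K := by omega
  have : NeZero K := ⟨hKpos.ne'⟩
  have hKR : (0 : ℝ) < K := by exact_mod_cast hKpos
  have hKτ : 2 * Real.pi / (K : ℝ) ≤ τ := hKc.trans (min_le_left _ _)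
  have hKε : R0 * (2 * Real.pi / (K : ℝ)) ≤ ε / 8 := by
    have := hKc.trans (min_le_right _ _)
    calc R0 * (2 * Real.pi / (K : ℝ)) ≤ R0 * (ε / (8 * R0)) := by gcongr
      _ = ε / 8 := by field_simp
  set η : ℝ := 2 * Real.pi / (K : ℝ) with hη
  have hηpos : 0 < η := by positivity
  set x : ℕ → ℝ := gx ρ δ L with hx
  have hx0 : x 0 = 0 := gx_zero hρ L
  have hxlt : ∀ i, x i < x (i + 1) := gx_lt hρ hδ hL1
  have hxstep : ∀ i, x (i + 1) - x i ≤ δ / ρ := gx_step hρ hδ hL1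
  have hxmono : StrictMono x := gx_mono hρ hδ hL1
  -- outer level
  have hex : ∃ i, Rf ≤ ρ * Real.exp (x i) := by
    obtain ⟨i, hi⟩ := gx_unbounded hρ hδ hL1 (Real.log (Rf / ρ))
    refine ⟨i, ?_⟩
    have h1 : Rf / ρ ≤ Real.exp (x i) := by
      rw [← Real.exp_log (show 0 < Rf / ρ from div_pos (by linarith) hρ)]
      exact Real.exp_le_exp.mpr hi
    rw [div_le_iff₀ hρ] at h1
    linarith
  classical
  obtain ⟨M, hMdef⟩ : ∃ M, M = Nat.find hex := ⟨_, rfl⟩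
  have hM1 : Rf ≤ ρ * Real.exp (x M) := by rw [hMdef]; exact Nat.find_spec hex
  have hML : L < M := by
    by_contra hcon
    push Not at hcon
    have h1 : ρ * Real.exp (x M) ≤ ρ + L * δ := by
      rw [hx, gx_exp hρ hδ hcon]
      have : (M : ℝ) ≤ L := by exact_mod_cast hcon
      have h3 : ρ * ((ρ + M * δ) / ρ) = ρ + M * δ := by field_simp
      rw [h3]
      have := mul_le_mul_of_nonneg_right this hδ.le
      linarith
    linarith
  have hMpos : 0 < M := by omega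
  have hM2 : ρ * Real.exp (x M) ≤ Rf * Real.exp κ := by
    have h1 : ρ * Real.exp (x (M - 1)) < Rf := by
      have := Nat.find_min hex (m := M - 1) (by omega)
      push Not at this
      exact this
    have h2 : x M ≤ x (M - 1) + κ := by
      have := hxstep (M - 1)
      rw [Nat.sub_add_cancel hMpos] at this
      linarith
    calc ρ * Real.exp (x M) ≤ ρ * Real.exp (x (M - 1) + κ) := by gcongr
      _ = (ρ * Real.exp (x (M - 1))) * Real.exp κ := by rw [Real.exp_add]; ring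
      _ ≤ Rf * Real.exp κ := by
        apply mul_le_mul_of_nonneg_right h1.le (Real.exp_pos κ).le
  -- sampled function
  have hsam := hsample K x M hKτ hx0 hxlt (fun i => (hxstep i).trans hδτ)
  set φ : ℕ → ZMod K → ℝ := fun i k => f (node ρ x K i k) with hφ
  have hφ0 : ∀ k, φ 0 k = 1 := by
    intro k
    apply hf1
    rw [norm_node hρ, hx0, Real.exp_zero, mul_one]
  have hφM : ∀ k, φ M k = 0 := by
    intro k
    apply hf0
    rw [norm_node hρ]
    exact hM1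
  set Ed := nearNodes E ρ δ ε L K with hEd
  have hEdmem : ∀ p ∈ Ed, 1 ≤ p.1 ∧ p.1 ≤ L ∧ Metric.infDist (((ρ + p.1 * δ : ℝ) : ℂ) *
      exp (((2 * Real.pi * (p.2.val : ℝ) / (K : ℝ) : ℝ) : ℂ) * I)) E ≤ ε := by
    intro p hp
    simp only [hEd, nearNodes, Finset.mem_filter, Finset.mem_product, Finset.mem_univ, and_true,
      Finset.mem_Icc] at hp
    exact ⟨hp.1.1, hp.1.2, hp.2⟩
  have hφE : ∀ p ∈ Ed, φ p.1 p.2 = 1 := by
    intro p hp
    obtain ⟨_, h2, h3⟩ := hEdmem p hp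
    apply hfE
    rw [hx, node_eq hρ hδ h2]
    exact h3
  obtain ⟨φ', hφ'0, hφ'M, hφ'01, hφ'E, hnet⟩ := net M K hMpos (cr x K) (ca x K)
    (fun i => x i / η)
    (by
      intro i _
      unfold cr
      have := hxlt i
      have h2 : 0 < x (i + 1) - x i := by linarith
      positivity)
    (by
      intro i
      unfold ca
      have : x (i - 1) < x (i + 1) := hxmono (by omega)
      have h2 : 0 < x (i + 1) - x (i - 1) := by linarith
      positivity)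
    (by simp [hx0])
    (by
      intro i _
      unfold cr
      have := hxlt i
      have h2 : x (i + 1) - x i ≠ 0 := by
        have : 0 < x (i + 1) - x i := by linarith
        exact this.ne'
      have h3 : η ≠ 0 := hηpos.ne'
      rw [← hη, ← sub_div]
      field_simp)
    (by
      intro i _
      exact gx_W1 hρ hδ hL1 K i)
    (by
      intro i _
      exact gx_W2 hρ hδ hL1 K hrangeL i)
    Ed (fun p hp => ⟨(hEdmem p hp).1, lt_of_le_of_lt (hEdmem p hp).2.1 hML⟩) φ hφ0 hφE hφM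
  obtain ⟨ψ, hψ, hψ1, hψ0, hψcell, hψE⟩ := interp hκ K hK3 x M hMpos hρ hx0 hxlt φ' hφ'0 hφ'M hφ'01
  refine ⟨ψ, min (ε / 8) (ε * ρ / (16 * R0)), by positivity, hψ, ?_, ?_, ?_⟩
  · intro z hz
    exact hψ0 z (hM2.trans hz)
  · rintro s ⟨r, θ, hr0, hr1, rfl⟩ w hw
    by_cases hwρ : ‖w‖ ≤ ρ
    · exact hψ1 w hwρ
    push Not at hwρ
    obtain ⟨θ', hθ0, hθ1, hwpol⟩ := exists_polar w
    set r' := ‖w‖ with hr'
    have hr'pos : 0 < r' := hρ.trans hwρ
    have hw8 : ‖w - (r : ℂ) * exp ((θ : ℂ) * I)‖ ≤ ε / 8 := hw.trans (min_le_left _ _)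
    have hw16 : ‖w - (r : ℂ) * exp ((θ : ℂ) * I)‖ ≤ ε * ρ / (16 * R0) := hw.trans (min_le_right _ _)
    have hr'r : r' ≤ r + ε / 8 := by
      have := norm_sub_norm_le w ((r : ℂ) * exp ((θ : ℂ) * I))
      rw [norm_polar r θ hr0] at this
      linarith
    have hang : R0 * ‖exp ((θ' : ℂ) * I) - exp ((θ : ℂ) * I)‖ ≤ ε / 8 := by
      have h1 : ‖(r' : ℂ) * exp ((θ' : ℂ) * I) - (r : ℂ) * exp ((θ : ℂ) * I)‖ ≤
          ε * ρ / (16 * R0) := by rw [← hwpol]; exact hw16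
      have h2 := norm_exp_sub_le hr0 hr'pos h1
      have h3 : 2 * (ε * ρ / (16 * R0)) / r' ≤ 2 * (ε * ρ / (16 * R0)) / ρ := by
        apply div_le_div_of_nonneg_left (by positivity) hρ hwρ.le
      have h4 : 2 * (ε * ρ / (16 * R0)) / ρ = ε / (8 * R0) := by
        field_simp
        ring
      calc R0 * ‖exp ((θ' : ℂ) * I) - exp ((θ : ℂ) * I)‖ ≤ R0 * (ε / (8 * R0)) := by
            apply mul_le_mul_of_nonneg_left _ hR0pos.le
            linarith
        _ = ε / 8 := by field_simp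
    -- the cell
    obtain ⟨j, hj⟩ : ∃ j : ℕ, j = ⌊θ' / η⌋₊ := ⟨_, rfl⟩
    have hj1 : η * j ≤ θ' := by
      have := Nat.floor_le (div_nonneg hθ0 hηpos.le)
      rw [← hj, le_div_iff₀ hηpos] at this
      linarith
    have hj2 : θ' < η * (j + 1) := by
      have := Nat.lt_floor_add_one (θ' / η)
      rw [← hj, div_lt_iff₀ hηpos] at this
      linarith
    have hjK : j < K := by
      have h1 : η * j < η * K := by
        have : η * K = 2 * Real.pi := by rw [hη]; field_simp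
        rw [this]
        linarith
      have := lt_of_mul_lt_mul_left h1 hηpos.le
      exact_mod_cast this
    have hjval : ((j : ZMod K)).val = j := ZMod.val_natCast_of_lt hjK
    obtain ⟨i, hi⟩ : ∃ i : ℕ, i = ⌊(r' - ρ) / δ⌋₊ := ⟨_, rfl⟩
    have hi1 : ρ + i * δ ≤ r' := by
      have := Nat.floor_le (div_nonneg (show 0 ≤ r' - ρ by linarith) hδ.le)
      rw [← hi, le_div_iff₀ hδ] at this
      linarith
    have hi2 : r' < ρ + (i + 1) * δ := by
      have := Nat.lt_floor_add_one ((r' - ρ) / δ)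
      rw [← hi, div_lt_iff₀ hδ] at this
      linarith
    -- columns j and j+1
    have hcol1 : i + 1 ≤ (Ed.filter (fun p => p.2 = (j : ZMod K))).card := by
      apply column_bound E hE hρ hball hR0 hδ hδε L hL K (j : ZMod K) θ (η * j) _ _ r r' hr1 hr'r i hi1
      · rw [hjval]
        congr 2
        push_cast
        rw [hη]
        push_cast
        ring
      · have h1 := norm_exp_sub_exp_le θ' (η * j)
        have h2 : |θ' - η * j| ≤ η := by
          rw [abs_le]; constructor <;> linarith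
        have h3 : ‖exp ((θ : ℂ) * I) - exp (((η * j : ℝ) : ℂ) * I)‖ ≤
            ‖exp ((θ' : ℂ) * I) - exp ((θ : ℂ) * I)‖ + ‖exp ((θ' : ℂ) * I) - exp (((η * j : ℝ) : ℂ) * I)‖ := by
          rw [norm_sub_rev (exp ((θ' : ℂ) * I)) (exp ((θ : ℂ) * I))]
          exact norm_sub_le_norm_sub_add_norm_sub _ _ _
        calc R0 * ‖exp ((θ : ℂ) * I) - exp (((η * j : ℝ) : ℂ) * I)‖
            ≤ R0 * (‖exp ((θ' : ℂ) * I) - exp ((θ : ℂ) * I)‖ + ‖exp ((θ' : ℂ) * I) - exp (((η * j : ℝ) : ℂ) * I)‖) := by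
              gcongr
          _ = R0 * ‖exp ((θ' : ℂ) * I) - exp ((θ : ℂ) * I)‖ + R0 * ‖exp ((θ' : ℂ) * I) - exp (((η * j : ℝ) : ℂ) * I)‖ := by ring
          _ ≤ ε / 8 + R0 * η := by
              have : R0 * ‖exp ((θ' : ℂ) * I) - exp (((η * j : ℝ) : ℂ) * I)‖ ≤ R0 * η := by
                apply mul_le_mul_of_nonneg_left _ hR0pos.le
                exact h1.trans h2
              linarith
          _ ≤ ε / 4 := by linarith
    have hcol2 : i + 1 ≤ (Ed.filter (fun p => p.2 = (j : ZMod K) + 1)).card := by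
      apply column_bound E hE hρ hball hR0 hδ hδε L hL K ((j : ZMod K) + 1) θ (η * (j + 1)) _ _ r r' hr1 hr'r i hi1
      · by_cases hjl : j + 1 < K
        · have hv : ((j : ZMod K) + 1).val = j + 1 := by
            have : ((j : ZMod K) + 1) = ((j + 1 : ℕ) : ZMod K) := by push_cast; ring
            rw [this]
            exact ZMod.val_natCast_of_lt hjl
          rw [hv]
          congr 2
          push_cast
          rw [hη]
          push_cast
          ring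
        · have hjK' : j + 1 = K := by omega
          have hv : ((j : ZMod K) + 1).val = 0 := by
            have : ((j : ZMod K) + 1) = ((j + 1 : ℕ) : ZMod K) := by push_cast; ring
            rw [this, hjK', ZMod.natCast_self, ZMod.val_zero]
          rw [hv]
          have e1 : η * ((j : ℝ) + 1) = 2 * Real.pi := by
            have : ((j : ℝ) + 1) = K := by exact_mod_cast hjK'
            rw [this, hη]; field_simp
          rw [e1]
          simp
      · have h1 := norm_exp_sub_exp_le θ' (η * (j + 1))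
        have h2 : |θ' - η * (j + 1)| ≤ η := by
          rw [abs_le]; constructor <;> linarith
        have h3 : ‖exp ((θ : ℂ) * I) - exp (((η * (j + 1) : ℝ) : ℂ) * I)‖ ≤
            ‖exp ((θ' : ℂ) * I) - exp ((θ : ℂ) * I)‖ + ‖exp ((θ' : ℂ) * I) - exp (((η * (j + 1) : ℝ) : ℂ) * I)‖ := by
          rw [norm_sub_rev (exp ((θ' : ℂ) * I)) (exp ((θ : ℂ) * I))]
          exact norm_sub_le_norm_sub_add_norm_sub _ _ _
        calc R0 * ‖exp ((θ : ℂ) * I) - exp (((η * (j + 1) : ℝ) : ℂ) * I)‖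
            ≤ R0 * (‖exp ((θ' : ℂ) * I) - exp ((θ : ℂ) * I)‖ + ‖exp ((θ' : ℂ) * I) - exp (((η * (j + 1) : ℝ) : ℂ) * I)‖) := by
              gcongr
          _ = R0 * ‖exp ((θ' : ℂ) * I) - exp ((θ : ℂ) * I)‖ + R0 * ‖exp ((θ' : ℂ) * I) - exp (((η * (j + 1) : ℝ) : ℂ) * I)‖ := by ring
          _ ≤ ε / 8 + R0 * η := by
              have : R0 * ‖exp ((θ' : ℂ) * I) - exp (((η * (j + 1) : ℝ) : ℂ) * I)‖ ≤ R0 * η := by
                apply mul_le_mul_of_nonneg_left _ hR0pos.le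
                exact h1.trans h2
              linarith
          _ ≤ ε / 4 := by linarith
    have hiL : i + 1 ≤ L := by
      refine hcol1.trans ?_
      rw [hEd, card_nearNodes]
      refine (Finset.card_filter_le _ _).trans ?_
      simp
    have hxi : x i ≤ Real.log (r' / ρ) := by
      rw [Real.le_log_iff_exp_le (div_pos hr'pos hρ), hx, gx_exp hρ hδ (by omega)]
      exact div_le_div_of_nonneg_right hi1 hρ.le
    have hxi1 : Real.log (r' / ρ) ≤ x (i + 1) := by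
      rw [Real.log_le_iff_le_exp (div_pos hr'pos hρ), hx, gx_exp hρ hδ (by omega)]
      apply div_le_div_of_nonneg_right _ hρ.le
      push_cast
      exact hi2.le
    have hcell := hψcell i (by omega) (j : ZMod K)
      (hφ'E _ _ (by omega)) (hφ'E _ _ hcol1) (hφ'E _ _ (by omega)) (hφ'E _ _ hcol2)
      (Real.log (r' / ρ)) θ' hxi hxi1
      (by rw [hjval]; rw [hη] at hj1; calc _ = 2 * Real.pi / (K : ℝ) * j := by ring
            _ ≤ _ := hj1)
      (by rw [hjval]; rw [hη] at hj2; calc _ ≤ 2 * Real.pi / (K : ℝ) * (j + 1) := hj2.le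
            _ = _ := by ring)
    have hwe : w = (ρ : ℂ) * exp (((Real.log (r' / ρ) : ℝ) : ℂ) + (θ' : ℂ) * I) := by
      rw [Complex.exp_add, ← Complex.ofReal_exp, Real.exp_log (div_pos hr'pos hρ), ← mul_assoc,
        ← Complex.ofReal_mul, mul_div_cancel₀ _ hρ.ne']
      exact hwpol
    rw [hwe]
    exact hcell
  · calc (∫ z, ‖fderiv ℝ ψ z‖ ^ 2) ≤ (1 + κ) * nE M K (cr x K) (ca x K) φ' := hψE
      _ ≤ (1 + κ) * nE M K (cr x K) (ca x K) φ := by gcongr
      _ ≤ (1 + κ) * ((∫ z, ‖fderiv ℝ f z‖ ^ 2) + κ) := by gcongr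

end Pool.MP_31392c_an
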