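import Pool.Agent.Lib.MP_31392c_an.Defs

set_option autoImplicit false

open MeasureTheory Complex

namespace Pool.MP_31392c_an

/-- the Vandermonde product -/
noncomputable def vdm (n : ℕ) (z : Fin (n + 2) → ℂ) : ℝ :=
  ∏ i : Fin (n + 2), ∏ j ∈ Finset.Ioi i, ‖z i - z j‖

theorem vdm_nonneg (n : ℕ) (z : Fin (n + 2) → ℂ) : 0 ≤ vdm n z :=
  Finset.prod_nonneg fun _ _ => Finset.prod_nonneg fun _ _ => norm_nonneg _

theorem vdm_continuous (n : ℕ) : Continuous (vdm n) := by
  unfold vdm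
  fun_prop

theorem vdm_le (n : ℕ) {z w : Fin (n + 2) → ℂ} (h : ∀ i j, ‖z i - z j‖ ≤ ‖w i - w j‖) :
    vdm n z ≤ vdm n w := by
  unfold vdm
  refine Finset.prod_le_prod (fun _ _ => Finset.prod_nonneg fun _ _ => norm_nonneg _) ?_
  intro i _
  exact Finset.prod_le_prod (fun _ _ => norm_nonneg _) fun j _ => h i j

theorem expo_pos (n : ℕ) : (0 : ℝ) < 2 / (((n : ℝ) + 2) * ((n : ℝ) + 1)) := by positivity

/-- the supremum of Vandermonde products -/
noncomputable def sv (n : ℕ) (K : Set ℂ) : ℝ :=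
  ⨆ z : Fin (n + 2) → {w : ℂ // w ∈ K}, vdm n (fun i => (z i : ℂ))

theorem dn_eq (n : ℕ) (K : Set ℂ) :
    dn n K = (sv n K) ^ ((2 : ℝ) / (((n : ℝ) + 2) * ((n : ℝ) + 1))) := rfl

theorem sv_nonneg (n : ℕ) (K : Set ℂ) : 0 ≤ sv n K :=
  Real.iSup_nonneg fun _ => vdm_nonneg _ _

theorem dn_nonneg (n : ℕ) (K : Set ℂ) : 0 ≤ dn n K := by
  rw [dn_eq]
  exact Real.rpow_nonneg (sv_nonneg n K) _

theorem tcap_nonneg (K : Set ℂ) : 0 ≤ tcap K :=
  Real.iInf_nonneg fun n => dn_nonneg n K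

theorem dn_bddBelow (K : Set ℂ) : BddBelow (Set.range fun n => dn n K) :=
  ⟨0, by rintro _ ⟨n, rfl⟩; exact dn_nonneg n K⟩

theorem tcap_le_dn (n : ℕ) (K : Set ℂ) : tcap K ≤ dn n K :=
  ciInf_le (dn_bddBelow K) n

theorem sv_bddAbove (n : ℕ) {K : Set ℂ} (hK : Bornology.IsBounded K) :
    BddAbove (Set.range fun z : Fin (n + 2) → {w : ℂ // w ∈ K} => vdm n (fun i => (z i : ℂ))) := by
  obtain ⟨D, hD⟩ := hK.exists_norm_le
  refine ⟨∏ i : Fin (n + 2), ∏ _j ∈ Finset.Ioi i, (D + D), ?_⟩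
  rintro _ ⟨z, rfl⟩
  refine Finset.prod_le_prod (fun _ _ => Finset.prod_nonneg fun _ _ => norm_nonneg _) ?_
  intro i _
  refine Finset.prod_le_prod (fun _ _ => norm_nonneg _) fun j _ => ?_
  exact (norm_sub_le _ _).trans (add_le_add (hD _ (z i).2) (hD _ (z j).2))

theorem vdm_le_sv (n : ℕ) {K : Set ℂ} (hK : Bornology.IsBounded K) (z : Fin (n + 2) → ℂ)
    (hz : ∀ i, z i ∈ K) : vdm n z ≤ sv n K :=
  le_ciSup (sv_bddAbove n hK) (fun i => (⟨z i, hz i⟩ : {w : ℂ // w ∈ K}))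

theorem sv_le (n : ℕ) {K : Set ℂ} {c : ℝ} (hc : 0 ≤ c)
    (h : ∀ z : Fin (n + 2) → ℂ, (∀ i, z i ∈ K) → vdm n z ≤ c) : sv n K ≤ c :=
  Real.iSup_le (fun z => h _ fun i => (z i).2) hc

theorem dn_le_of_sv (n : ℕ) {K L : Set ℂ} (h : sv n L ≤ sv n K) : dn n L ≤ dn n K := by
  rw [dn_eq, dn_eq]
  exact Real.rpow_le_rpow (sv_nonneg n L) h (expo_pos n).le

/-- `1`-Lipschitz images have smaller diameters -/
theorem dn_le_of_contraction (n : ℕ) {K L : Set ℂ} (hK : Bornology.IsBounded K) (T : ℂ → ℂ)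
    (hT : ∀ z ∈ K, ∀ w ∈ K, ‖T z - T w‖ ≤ ‖z - w‖) (hL : L ⊆ T '' K) : dn n L ≤ dn n K := by
  apply dn_le_of_sv
  refine sv_le n (sv_nonneg n K) ?_
  intro z hz
  choose w hw hwz using fun i => hL (hz i)
  refine le_trans (vdm_le n (w := w) ?_) (vdm_le_sv n hK w hw)
  intro i j
  rw [← hwz i, ← hwz j]
  exact hT _ (hw i) _ (hw j)

theorem tcap_le_of_contraction {K L : Set ℂ} (hK : Bornology.IsBounded K) (T : ℂ → ℂ)
    (hT : ∀ z ∈ K, ∀ w ∈ K, ‖T z - T w‖ ≤ ‖z - w‖) (hL : L ⊆ T '' K) : tcap L ≤ tcap K :=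
  ciInf_mono (dn_bddBelow L) fun n => dn_le_of_contraction n hK T hT hL

theorem tcap_mono {K L : Set ℂ} (hL : Bornology.IsBounded L) (h : K ⊆ L) : tcap K ≤ tcap L :=
  tcap_le_of_contraction hL id (fun _ _ _ _ => le_rfl) (by simpa using h)

theorem sum_card_Ioi (n : ℕ) :
    (∑ i : Fin (n + 2), ((Finset.Ioi i).card : ℝ)) = ((n : ℝ) + 2) * ((n : ℝ) + 1) / 2 := by
  have h1 : ∀ m : ℕ, (∑ i : Fin m, ((Finset.Ioi i).card : ℝ)) = (m : ℝ) * ((m : ℝ) - 1) / 2 := by
    intro m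
    have : ∀ i : Fin m, ((Finset.Ioi i).card : ℝ) = (m : ℝ) - 1 - (i : ℕ) := by
      intro i
      rw [Fin.card_Ioi]
      have := i.2
      have h2 : ((m - 1 - (i : ℕ) : ℕ) : ℝ) + ((i : ℕ) : ℝ) + 1 = (m : ℝ) := by
        exact_mod_cast (by omega : m - 1 - (i : ℕ) + (i : ℕ) + 1 = m)
      linarith
    rw [Finset.sum_congr rfl fun i _ => this i]
    rw [Fin.sum_univ_eq_sum_range (fun i => (m : ℝ) - 1 - (i : ℝ)) m]
    induction m with
    | zero => simp
    | succ k ih =>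
      clear this ih
      have : ∀ k : ℕ, ∀ c : ℝ, ∑ i ∈ Finset.range k, (c - (i : ℝ)) = (k : ℝ) * c - (k : ℝ) * ((k : ℝ) - 1) / 2 := by
        intro k c
        induction k with
        | zero => simp
        | succ k ih => rw [Finset.sum_range_succ, ih]; push_cast; ring
      rw [this]; push_cast; ring
  have := h1 (n + 2)
  rw [this]
  push_cast
  ring

theorem vdm_smul (n : ℕ) {c : ℝ} (hc : 0 < c) (z : Fin (n + 2) → ℂ) :
    vdm n (fun i => (c : ℂ) * z i) = c ^ (((n : ℝ) + 2) * ((n : ℝ) + 1) / 2) * vdm n z := by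
  unfold vdm
  have h1 : ∀ i : Fin (n + 2), ∏ j ∈ Finset.Ioi i, ‖(c : ℂ) * z i - (c : ℂ) * z j‖ =
      c ^ ((Finset.Ioi i).card : ℝ) * ∏ j ∈ Finset.Ioi i, ‖z i - z j‖ := by
    intro i
    have : ∀ j ∈ Finset.Ioi i, ‖(c : ℂ) * z i - (c : ℂ) * z j‖ = c * ‖z i - z j‖ := by
      intro j _
      rw [← mul_sub, norm_mul, Complex.norm_real, Real.norm_of_nonneg hc.le]
    rw [Finset.prod_congr rfl this, Finset.prod_mul_distrib, Finset.prod_const, Real.rpow_natCast]
  rw [Finset.prod_congr rfl fun i _ => h1 i, Finset.prod_mul_distrib]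
  congr 1
  rw [← sum_card_Ioi n]
  rw [Real.rpow_sum_of_pos hc]

theorem dn_smul_le (n : ℕ) {c : ℝ} (hc : 0 < c) {K : Set ℂ} (hK : Bornology.IsBounded K) :
    dn n ((fun z : ℂ => (c : ℂ) * z) '' K) ≤ c * dn n K := by
  have h1 : sv n ((fun z : ℂ => (c : ℂ) * z) '' K) ≤
      c ^ (((n : ℝ) + 2) * ((n : ℝ) + 1) / 2) * sv n K := by
    refine sv_le n (mul_nonneg (Real.rpow_nonneg hc.le _) (sv_nonneg n K)) ?_
    intro z hz
    choose w hw hwz using hz
    have h2 : z = fun i => (c : ℂ) * w i := by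
      funext i; exact (hwz i).symm
    rw [h2, vdm_smul n hc]
    exact mul_le_mul_of_nonneg_left (vdm_le_sv n hK w hw) (Real.rpow_nonneg hc.le _)
  rw [dn_eq, dn_eq]
  refine (Real.rpow_le_rpow (sv_nonneg _ _) h1 (expo_pos n).le).trans ?_
  rw [Real.mul_rpow (Real.rpow_nonneg hc.le _) (sv_nonneg _ _), ← Real.rpow_mul hc.le]
  have h3 : ((n : ℝ) + 2) * ((n : ℝ) + 1) / 2 * (2 / (((n : ℝ) + 2) * ((n : ℝ) + 1))) = 1 := by
    field_simp
  rw [h3, Real.rpow_one]

theorem dn_smul (n : ℕ) {c : ℝ} (hc : 0 < c) {K : Set ℂ} (hK : Bornology.IsBounded K) :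
    dn n ((fun z : ℂ => (c : ℂ) * z) '' K) = c * dn n K := by
  refine le_antisymm (dn_smul_le n hc hK) ?_
  have hb : Bornology.IsBounded ((fun z : ℂ => (c : ℂ) * z) '' K) := by
    obtain ⟨D, hD⟩ := hK.exists_norm_le
    refine (Metric.isBounded_iff_subset_closedBall (0 : ℂ)).2 ⟨c * D, ?_⟩
    rintro _ ⟨z, hz, rfl⟩
    simp only [Metric.mem_closedBall, dist_zero_right]
    rw [norm_mul, Complex.norm_real, Real.norm_of_nonneg hc.le]
    exact mul_le_mul_of_nonneg_left (hD z hz) hc.le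
  have h1 := dn_smul_le n (inv_pos.2 hc) hb
  have h2 : (fun z : ℂ => ((c⁻¹ : ℝ) : ℂ) * z) '' ((fun z : ℂ => (c : ℂ) * z) '' K) = K := by
    rw [Set.image_image]
    have hc' : (c : ℂ) ≠ 0 := by exact_mod_cast hc.ne'
    have : (fun z : ℂ => ((c⁻¹ : ℝ) : ℂ) * ((c : ℂ) * z)) = id := by
      funext z
      push_cast
      field_simp
      rfl
    rw [this, Set.image_id]
  rw [h2] at h1
  calc c * dn n K ≤ c * (c⁻¹ * dn n ((fun z : ℂ => (c : ℂ) * z) '' K)) :=
        mul_le_mul_of_nonneg_left h1 hc.le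
    _ = _ := by rw [← mul_assoc, mul_inv_cancel₀ hc.ne', one_mul]

/-- scaling -/
theorem tcap_smul (c : ℝ) (hc : 0 ≤ c) (K : Set ℂ) (hK : Bornology.IsBounded K) :
    tcap ((fun z : ℂ => (c : ℂ) * z) '' K) = c * tcap K := by
  rcases hc.eq_or_lt with h0 | hc
  · subst h0
    have h1 : tcap ((fun z : ℂ => ((0 : ℝ) : ℂ) * z) '' K) ≤ 0 := by
      refine (tcap_le_dn 0 _).trans ?_
      have h2 : sv 0 ((fun z : ℂ => ((0 : ℝ) : ℂ) * z) '' K) ≤ 0 := by
        refine sv_le 0 le_rfl ?_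
        intro z hz
        have h3 : ∀ i, z i = 0 := by
          intro i
          obtain ⟨w, _, hw⟩ := hz i
          rw [← hw]; simp
        unfold vdm
        refine le_of_eq ?_
        refine Finset.prod_eq_zero (Finset.mem_univ (0 : Fin 2)) ?_
        refine Finset.prod_eq_zero (i := (1 : Fin 2)) (by simp) ?_
        rw [h3, h3]; simp
      rw [dn_eq, le_antisymm h2 (sv_nonneg _ _)]
      rw [Real.zero_rpow (expo_pos 0).ne']
    rw [zero_mul]
    exact le_antisymm h1 (tcap_nonneg _)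
  · unfold tcap
    rw [Real.mul_iInf_of_nonneg hc.le]
    congr 1
    funext n
    exact dn_smul n hc hK

theorem vdm_pos (n : ℕ) {z : Fin (n + 2) → ℂ} (hz : Function.Injective z) : 0 < vdm n z := by
  unfold vdm
  refine Finset.prod_pos fun i _ => Finset.prod_pos fun j hj => ?_
  rw [norm_pos_iff, sub_ne_zero]
  intro h
  have := hz h
  subst this
  simp at hj

theorem vdm_injective (n : ℕ) {z : Fin (n + 2) → ℂ} (hz : 0 < vdm n z) :
    Function.Injective z := by
  have key : ∀ i j, i < j → z i ≠ z j := by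
    intro i j hij h
    apply hz.ne'
    unfold vdm
    refine Finset.prod_eq_zero (Finset.mem_univ i) ?_
    refine Finset.prod_eq_zero (i := j) (by simpa using hij) ?_
    rw [h]; simp
  intro i j h
  rcases lt_trichotomy i j with h1 | h1 | h1
  · exact absurd h (key i j h1)
  · exact h1
  · exact absurd h.symm (key j i h1)

theorem dn_pos (n : ℕ) {K : Set ℂ} (hK : Bornology.IsBounded K) (hinf : K.Infinite) :
    0 < dn n K := by
  let f := hinf.natEmbedding
  let z : Fin (n + 2) → ℂ := fun i => (f (i : ℕ) : ℂ)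
  have hz : ∀ i, z i ∈ K := fun i => (f (i : ℕ)).2
  have hinj : Function.Injective z := by
    intro i j h
    have h1 : f (i : ℕ) = f (j : ℕ) := Subtype.ext h
    exact Fin.ext (f.injective h1)
  rw [dn_eq]
  exact Real.rpow_pos_of_pos ((vdm_pos n hinj).trans_le (vdm_le_sv n hK z hz)) _

theorem log_vdm (n : ℕ) {z : Fin (n + 2) → ℂ} (hz : Function.Injective z) :
    ∑ i, ∑ j ∈ Finset.univ.erase i, Real.log ‖z i - z j‖ = 2 * Real.log (vdm n z) := by
  have hne : ∀ i j, i ≠ j → ‖z i - z j‖ ≠ 0 := by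
    intro i j h
    rw [norm_ne_zero_iff, sub_ne_zero]
    exact fun h' => h (hz h')
  have h1 : Real.log (vdm n z) = ∑ i, ∑ j ∈ Finset.Ioi i, Real.log ‖z i - z j‖ := by
    unfold vdm
    rw [Real.log_prod]
    · refine Finset.sum_congr rfl fun i _ => ?_
      rw [Real.log_prod]
      intro j hj
      have : i < j := by simpa using hj
      exact hne i j this.ne
    · intro i _
      refine Finset.prod_ne_zero_iff.2 fun j hj => ?_
      have : i < j := by simpa using hj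
      exact hne i j this.ne
  have h2 : ∀ i : Fin (n + 2), Finset.univ.erase i = Finset.Ioi i ∪ Finset.Iio i := by
    intro i
    ext j
    simp only [Finset.mem_erase, Finset.mem_univ, and_true, Finset.mem_union, Finset.mem_Ioi,
      Finset.mem_Iio]
    constructor
    · intro h
      rcases lt_trichotomy i j with h1 | h1 | h1
      · exact Or.inl h1
      · exact absurd h1.symm h
      · exact Or.inr h1
    · rintro (h | h)
      · exact h.ne'
      · exact h.ne
  have h3 : ∀ i : Fin (n + 2), ∑ j ∈ Finset.univ.erase i, Real.log ‖z i - z j‖ =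
      ∑ j ∈ Finset.Ioi i, Real.log ‖z i - z j‖ + ∑ j ∈ Finset.Iio i, Real.log ‖z i - z j‖ := by
    intro i
    rw [h2 i, Finset.sum_union]
    rw [Finset.disjoint_left]
    intro j hj hj'
    simp only [Finset.mem_Ioi, Finset.mem_Iio] at hj hj'
    exact absurd hj hj'.asymm
  rw [Finset.sum_congr rfl fun i _ => h3 i, Finset.sum_add_distrib, h1, two_mul]
  congr 1
  rw [Finset.sum_comm' (t' := Finset.univ) (s' := fun j => Finset.Ioi j)]
  · refine Finset.sum_congr rfl fun i _ => Finset.sum_congr rfl fun j _ => ?_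
    rw [norm_sub_rev]
  · intro x y
    simp

/-- existence of `n+2` points of `K` whose Vandermonde product is close to the supremum -/
theorem exists_points (n : ℕ) {K : Set ℂ} {c : ℝ} (hc : 0 < c) (h : c < dn n K) :
    ∃ z : Fin (n + 2) → ℂ, (∀ j, z j ∈ K) ∧ Function.Injective z ∧
      (((n : ℝ) + 2) * ((n : ℝ) + 1)) * Real.log c ≤
        ∑ i, ∑ j ∈ Finset.univ.erase i, Real.log ‖z i - z j‖ := by
  set N : ℝ := (((n : ℝ) + 2) * ((n : ℝ) + 1)) with hN
  have hNpos : 0 < N := by positivity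
  have h1 : c ^ (N / 2) < sv n K := by
    rw [dn_eq] at h
    have h2 := Real.rpow_lt_rpow hc.le h (by positivity : (0 : ℝ) < N / 2)
    rw [← Real.rpow_mul (sv_nonneg n K)] at h2
    have h3 : 2 / N * (N / 2) = 1 := by field_simp
    rw [h3, Real.rpow_one] at h2
    exact h2
  have hK : Nonempty (Fin (n + 2) → {w : ℂ // w ∈ K}) := by
    by_contra hne
    rw [not_nonempty_iff] at hne
    have : sv n K = 0 := by
      unfold sv
      exact Real.iSup_of_isEmpty _
    rw [this] at h1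
    exact absurd h1 (not_lt.2 (Real.rpow_nonneg hc.le _))
  obtain ⟨z, hz⟩ := exists_lt_of_lt_ciSup h1
  have hpos : 0 < vdm n (fun i => (z i : ℂ)) := (Real.rpow_pos_of_pos hc _).trans hz
  have hinj := vdm_injective n hpos
  refine ⟨fun i => (z i : ℂ), fun j => (z j).2, hinj, ?_⟩
  rw [log_vdm n hinj]
  have h4 := Real.log_le_log (Real.rpow_pos_of_pos hc _) hz.le
  rw [Real.log_rpow hc] at h4
  linarith

/-- upper semicontinuity of the diameters -/
theorem dn_cthickening (n : ℕ) {K : Set ℂ} (hK : IsCompact K) (hne : K.Nonempty) {κ : ℝ}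
    (hκ : 0 < κ) :
    ∃ ε0 > 0, ∀ ε, 0 < ε → ε ≤ ε0 → dn n (Metric.cthickening ε K) ≤ dn n K + κ := by
  set e : ℝ := (2 : ℝ) / (((n : ℝ) + 2) * ((n : ℝ) + 1)) with he
  have hepos : 0 < e := expo_pos n
  -- continuity of rpow at sv n K
  have hcont : ContinuousAt (fun t : ℝ => t ^ e) (sv n K) :=
    Real.continuousAt_rpow_const _ _ (Or.inr hepos.le)
  obtain ⟨δ, hδ, hδ'⟩ := Metric.continuousAt_iff.1 hcont κ hκ
  -- uniform continuity
  have hbig : IsCompact (Metric.cthickening 1 K) := hK.cthickening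
  have hpi : IsCompact (Set.univ.pi fun _ : Fin (n + 2) => Metric.cthickening 1 K) :=
    isCompact_univ_pi fun _ => hbig
  have huc := hpi.uniformContinuousOn_of_continuous (vdm_continuous n).continuousOn
  rw [Metric.uniformContinuousOn_iff] at huc
  obtain ⟨η, hη, hη'⟩ := huc (δ / 2) (by positivity)
  refine ⟨min 1 (η / 2), by positivity, ?_⟩
  intro ε hε hε0
  have hε1 : ε ≤ 1 := hε0.trans (min_le_left _ _)
  have hε2 : ε < η := (hε0.trans (min_le_right _ _)).trans_lt (by linarith)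
  have hsv : sv n (Metric.cthickening ε K) ≤ sv n K + δ / 2 := by
    refine sv_le n (add_nonneg (sv_nonneg n K) (by positivity)) ?_
    intro z hz
    have hz' : ∀ i, ∃ w ∈ K, dist (z i) w ≤ ε := by
      intro i
      obtain ⟨w, hw, hw'⟩ := hK.exists_infDist_eq_dist hne (z i)
      refine ⟨w, hw, ?_⟩
      rw [← hw']
      have h1 := hz i
      rw [Metric.mem_cthickening_iff] at h1
      rw [Metric.infDist]
      exact ENNReal.toReal_le_of_le_ofReal hε.le h1
    choose w hw hwz using hz'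
    have h1 : dist z w < η := by
      refine lt_of_le_of_lt ((dist_pi_le_iff hε.le).2 hwz) hε2
    have h2 := hη' z (fun i _ => Metric.cthickening_mono hε1 K (hz i)) w
      (fun i _ => Metric.self_subset_cthickening K (hw i)) h1
    rw [Real.dist_eq] at h2
    have h3 := (abs_lt.1 h2).2
    have h4 := vdm_le_sv n hK.isBounded w hw
    linarith
  have hge : sv n K ≤ sv n K + δ / 2 := by linarith
  have h5 : dist (sv n K + δ / 2) (sv n K) < δ := by
    rw [Real.dist_eq]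
    have : sv n K + δ / 2 - sv n K = δ / 2 := by ring
    rw [this, abs_of_pos (by positivity)]
    linarith
  have h6 := hδ' h5
  rw [Real.dist_eq] at h6
  have h7 := (abs_lt.1 h6).2
  rw [dn_eq, dn_eq]
  refine (Real.rpow_le_rpow (sv_nonneg _ _) hsv hepos.le).trans ?_
  linarith

end Pool.MP_31392c_an
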