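import Pool.Agent.Lib.MP_31392c_an.DualA
import Pool.Agent.Lib.MP_31392c_an.Dn

set_option autoImplicit false

open MeasureTheory Complex

namespace Pool.MP_31392c_an

theorem dualB_dn_empty (n : ℕ) : dn n (∅ : Set ℂ) = 0 := by
  unfold dn
  have : IsEmpty (Fin (n + 2) → {w : ℂ // w ∈ (∅ : Set ℂ)}) :=
    ⟨fun z => (z 0).2⟩
  rw [Real.iSup_of_isEmpty]
  exact Real.zero_rpow (by positivity)

/-- limit form: Fekete points of `S` -/
theorem dual_tcap (S : Set ℂ) {ε R0 Rs : ℝ} (hε : 0 < ε) (hS : ∀ s ∈ S, ‖s‖ ≤ R0)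
    (hpos : 0 < tcap S) (ψ : ℂ → ℝ) (hψ : ContDiff ℝ 1 ψ)
    (hsupp : ∀ w, Rs ≤ ‖w‖ → ψ w = 0) (hone : ∀ s ∈ S, ∀ w, ‖w - s‖ ≤ ε → ψ w = 1) :
    2 * Real.pi ≤ (∫ w, ‖fderiv ℝ ψ w‖ ^ 2) * (Real.log (Rs + R0) - Real.log (tcap S)) := by
  -- `S` is nonempty and `Rs + R0 > 0`
  have hne : S.Nonempty := by
    by_contra hcon
    rw [Set.not_nonempty_iff_eq_empty] at hcon
    subst hcon
    have h1 := tcap_le_dn 0 (∅ : Set ℂ)
    rw [dualB_dn_empty] at h1
    linarith
  obtain ⟨s0, hs0⟩ := hne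
  have hRs : 0 < Rs := by
    by_contra hcon
    have h1 : ψ s0 = 1 := hone s0 hs0 s0 (by simpa using hε.le)
    have h2 : ψ s0 = 0 := hsupp s0 (le_trans (not_lt.mp hcon) (norm_nonneg _))
    linarith
  have hR0 : 0 ≤ R0 := le_trans (norm_nonneg _) (hS s0 hs0)
  set E : ℝ := ∫ w, ‖fderiv ℝ ψ w‖ ^ 2 with hE
  have hE0 : 0 ≤ E := integral_nonneg (fun w => by positivity)
  set c : ℝ := tcap S with hc
  -- the inequality for every `n` and every `R2`
  have key : ∀ R2 : ℝ, Rs + R0 < R2 → ∀ n : ℕ,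
      2 * Real.pi ≤ E * (Real.log R2
        - (1 - 1 / (((n + 1 : ℕ) : ℝ) + 1)) * Real.log (c * (1 - 1 / (((n + 1 : ℕ) : ℝ) + 1)))
        + (1 / (((n + 1 : ℕ) : ℝ) + 1)) * (1 / 2 - Real.log ε)) := by
    intro R2 hR2 n
    have hm : (0 : ℝ) < ((n + 1 : ℕ) : ℝ) + 1 := by positivity
    set u : ℝ := 1 / (((n + 1 : ℕ) : ℝ) + 1) with hu
    have hu0 : 0 < u := by positivity
    have hu1 : u < 1 := by
      rw [hu, div_lt_one hm]
      push_cast
      have : (0 : ℝ) ≤ n := Nat.cast_nonneg n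
      linarith
    have hcn : 0 < c * (1 - u) := mul_pos hpos (by linarith)
    have hlt : c * (1 - u) < dn n S := by
      have h1 : c ≤ dn n S := tcap_le_dn n S
      have h2 : c * (1 - u) < c := by nlinarith
      linarith
    obtain ⟨z, hzS, hzinj, hz⟩ := exists_points n hcn hlt
    have hd := dual (n + 2) (by omega) z hzinj hε (fun j => hS _ (hzS j)) ψ hψ hsupp
      (fun j => hone _ (hzS j)) hR2
    refine le_trans hd (mul_le_mul_of_nonneg_left ?_ hE0)
    have hm2 : ((n + 2 : ℕ) : ℝ) = ((n + 1 : ℕ) : ℝ) + 1 := by push_cast; ring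
    rw [hm2, ← hu]
    have hn : (n : ℝ) + 2 = 1 / u := by
      rw [hu]; push_cast; field_simp; ring
    have hn1 : (n : ℝ) + 1 = 1 / u - 1 := by linarith
    have hsq : 1 / (((n + 1 : ℕ) : ℝ) + 1) ^ 2 = u ^ 2 := by
      rw [hu]; field_simp
    rw [hsq]
    rw [hn, hn1] at hz
    have h3 := mul_le_mul_of_nonneg_left hz (sq_nonneg u)
    have h4 : u ^ 2 * ((1 / u * (1 / u - 1)) * Real.log (c * (1 - u)))
        = (1 - u) * Real.log (c * (1 - u)) := by
      field_simp
    rw [h4] at h3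
    linarith
  -- limit `n → ∞`
  have key2 : ∀ R2 : ℝ, Rs + R0 < R2 → 2 * Real.pi ≤ E * (Real.log R2 - Real.log c) := by
    intro R2 hR2
    have hu : Filter.Tendsto (fun n : ℕ => 1 / (((n + 1 : ℕ) : ℝ) + 1)) Filter.atTop (nhds 0) :=
      (Filter.tendsto_add_atTop_iff_nat (f := fun n : ℕ => 1 / ((n : ℝ) + 1)) 1).2
        tendsto_one_div_add_atTop_nhds_zero_nat
    have hcont : ContinuousAt (fun u : ℝ => E * (Real.log R2
        - (1 - u) * Real.log (c * (1 - u)) + u * (1 / 2 - Real.log ε))) 0 := by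
      have h1 : ContinuousAt (fun u : ℝ => Real.log (c * (1 - u))) 0 := by
        apply ContinuousAt.log
        · fun_prop
        · simpa using hpos.ne'
      have h2 : ContinuousAt (fun u : ℝ => (1 - u)) 0 := by fun_prop
      exact continuousAt_const.mul ((continuousAt_const.sub (h2.mul h1)).add
        (continuousAt_id.mul continuousAt_const))
    have h3 := hcont.tendsto.comp hu
    have h4 : E * (Real.log R2 - (1 - (0 : ℝ)) * Real.log (c * (1 - (0 : ℝ)))
        + (0 : ℝ) * (1 / 2 - Real.log ε)) = E * (Real.log R2 - Real.log c) := by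
      simp
    rw [h4] at h3
    exact ge_of_tendsto' h3 (fun n => key R2 hR2 n)
  -- limit `R2 → Rs + R0`
  have hcont2 : ContinuousAt (fun R : ℝ => E * (Real.log R - Real.log c)) (Rs + R0) := by
    have h1 : ContinuousAt Real.log (Rs + R0) := Real.continuousAt_log (by linarith)
    exact continuousAt_const.mul (h1.sub continuousAt_const)
  have h5 : Filter.Tendsto (fun R : ℝ => E * (Real.log R - Real.log c))
      (nhdsWithin (Rs + R0) (Set.Ioi (Rs + R0))) (nhds (E * (Real.log (Rs + R0) - Real.log c))) :=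
    hcont2.tendsto.mono_left nhdsWithin_le_nhds
  refine ge_of_tendsto h5 ?_
  filter_upwards [self_mem_nhdsWithin] with R hR
  exact key2 R hR

end Pool.MP_31392c_an
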