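import Pool.Agent.Lib.MP_31392c_an.Slog
import Pool.Agent.Lib.MP_31392c_an.Dn

set_option autoImplicit false

open MeasureTheory Complex

namespace Pool.MP_31392c_an

/-- product of distances to the other points -/
noncomputable def fprod (n : ℕ) (z : Fin (n + 2) → ℂ) (k : Fin (n + 2)) (w : ℂ) : ℝ :=
  ∏ j ∈ Finset.univ.erase k, ‖w - z j‖

/-- full double product -/
noncomputable def dprod (n : ℕ) (z : Fin (n + 2) → ℂ) : ℝ :=
  ∏ i, ∏ j ∈ Finset.univ.erase i, ‖z i - z j‖

theorem dprod_eq (n : ℕ) (z : Fin (n + 2) → ℂ) : dprod n z = vdm n z ^ 2 := by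
  have h2 : ∀ i : Fin (n + 2), Finset.univ.erase i = Finset.Ioi i ∪ Finset.Iio i := by
    intro i
    ext j
    simp only [Finset.mem_erase, Finset.mem_univ, and_true, Finset.mem_union, Finset.mem_Ioi,
      Finset.mem_Iio]
    constructor
    · intro h
      rcases lt_trichotomy i j with h1 | h1 | h1
      · exact Or.inl h1
      · exact absurd h1.symm h
      · exact Or.inr h1
    · rintro (h | h)
      · exact h.ne'
      · exact h.ne
  have h3 : ∀ i : Fin (n + 2), ∏ j ∈ Finset.univ.erase i, ‖z i - z j‖ =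
      (∏ j ∈ Finset.Ioi i, ‖z i - z j‖) * ∏ j ∈ Finset.Iio i, ‖z i - z j‖ := by
    intro i
    rw [h2 i, Finset.prod_union]
    rw [Finset.disjoint_left]
    intro j hj hj'
    simp only [Finset.mem_Ioi, Finset.mem_Iio] at hj hj'
    exact absurd hj hj'.asymm
  unfold dprod
  rw [Finset.prod_congr rfl fun i _ => h3 i, Finset.prod_mul_distrib, sq]
  congr 1
  unfold vdm
  rw [Finset.prod_comm' (t' := Finset.univ) (s' := fun j => Finset.Ioi j)]
  · refine Finset.prod_congr rfl fun i _ => Finset.prod_congr rfl fun j _ => ?_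
    rw [norm_sub_rev]
  · intro x y
    simp

theorem dprod_split (n : ℕ) (z : Fin (n + 2) → ℂ) (k : Fin (n + 2)) :
    dprod n z = fprod n z k (z k) ^ 2 *
      ∏ i ∈ Finset.univ.erase k, ∏ j ∈ (Finset.univ.erase i).erase k, ‖z i - z j‖ := by
  unfold dprod
  rw [← Finset.mul_prod_erase Finset.univ _ (Finset.mem_univ k)]
  have h1 : ∀ i ∈ Finset.univ.erase k, ∏ j ∈ Finset.univ.erase i, ‖z i - z j‖ =
      ‖z k - z i‖ * ∏ j ∈ (Finset.univ.erase i).erase k, ‖z i - z j‖ := by
    intro i hi
    have hk : k ∈ Finset.univ.erase i := by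
      simp only [Finset.mem_erase, Finset.mem_univ, and_true] at hi ⊢
      exact hi.symm
    rw [← Finset.mul_prod_erase _ _ hk, norm_sub_rev]
  rw [Finset.prod_congr rfl h1, Finset.prod_mul_distrib]
  unfold fprod
  ring

theorem dprod_update (n : ℕ) (z : Fin (n + 2) → ℂ) (k : Fin (n + 2)) (w : ℂ) :
    dprod n (Function.update z k w) = fprod n z k w ^ 2 *
      ∏ i ∈ Finset.univ.erase k, ∏ j ∈ (Finset.univ.erase i).erase k, ‖z i - z j‖ := by
  rw [dprod_split n _ k]
  congr 1
  · congr 1
    unfold fprod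
    refine Finset.prod_congr rfl fun j hj => ?_
    have : j ≠ k := by simpa using hj
    rw [Function.update_self, Function.update_of_ne this]
  · refine Finset.prod_congr rfl fun i hi => Finset.prod_congr rfl fun j hj => ?_
    have h1 : i ≠ k := by simpa using hi
    have h2 : j ≠ k := by
      simp only [Finset.mem_erase] at hj
      exact hj.1
    rw [Function.update_of_ne h1, Function.update_of_ne h2]

/-- Fekete points -/
theorem fekete (n : ℕ) (K : Set ℂ) (hK : IsCompact K) (hpos : 0 < dn n K) :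
    ∃ z : Fin (n + 2) → ℂ, (∀ j, z j ∈ K) ∧ ∀ w ∈ K, ∏ j, ‖w - z j‖ ≤ (dn n K) ^ (n + 2) := by
  have hsv : 0 < sv n K := by
    rcases (sv_nonneg n K).eq_or_lt with h | h
    · rw [dn_eq, ← h, Real.zero_rpow (expo_pos n).ne'] at hpos
      exact absurd hpos (lt_irrefl _)
    · exact h
  have hne : K.Nonempty := by
    by_contra hne
    rw [Set.not_nonempty_iff_eq_empty] at hne
    subst hne
    have : sv n ∅ = 0 := by
      unfold sv
      have : IsEmpty (Fin (n + 2) → {w : ℂ // w ∈ (∅ : Set ℂ)}) :=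
        ⟨fun f => (f 0).2⟩
      exact Real.iSup_of_isEmpty _
    rw [this] at hsv
    exact absurd hsv (lt_irrefl _)
  have hpi : IsCompact (Set.univ.pi fun _ : Fin (n + 2) => K) :=
    isCompact_univ_pi fun _ => hK
  have hpine : (Set.univ.pi fun _ : Fin (n + 2) => K).Nonempty := by
    obtain ⟨a, ha⟩ := hne
    exact ⟨fun _ => a, fun _ _ => ha⟩
  obtain ⟨z, hz, hmax⟩ := hpi.exists_isMaxOn hpine (vdm_continuous n).continuousOn
  have hzK : ∀ i, z i ∈ K := fun i => hz i (Set.mem_univ i)
  have hsvz : sv n K = vdm n z := by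
    refine le_antisymm (sv_le n (vdm_nonneg n z) fun w hw => hmax (fun i _ => hw i)) ?_
    exact vdm_le_sv n hK.isBounded z hzK
  have hvpos : 0 < vdm n z := hsvz ▸ hsv
  have hinj := vdm_injective n hvpos
  have hne' : ∀ i j, i ≠ j → 0 < ‖z i - z j‖ := by
    intro i j h
    rw [norm_pos_iff, sub_ne_zero]
    exact fun h' => h (hinj h')
  refine ⟨z, hzK, fun w hw => ?_⟩
  have key : ∀ k, fprod n z k w ≤ fprod n z k (z k) := by
    intro k
    have h1 : dprod n (Function.update z k w) ≤ dprod n z := by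
      rw [dprod_eq, dprod_eq]
      refine pow_le_pow_left₀ (vdm_nonneg _ _) (hmax ?_) 2
      intro i _
      by_cases h : i = k
      · subst h; rw [Function.update_self]; exact hw
      · rw [Function.update_of_ne h]; exact hzK i
    rw [dprod_update, dprod_split n z k] at h1
    have hR : 0 < ∏ i ∈ Finset.univ.erase k, ∏ j ∈ (Finset.univ.erase i).erase k, ‖z i - z j‖ := by
      refine Finset.prod_pos fun i hi => Finset.prod_pos fun j hj => ?_
      apply hne'
      intro h
      subst h
      simp at hj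
    have h2 := le_of_mul_le_mul_right h1 hR
    have h0 : 0 ≤ fprod n z k (z k) := Finset.prod_nonneg fun _ _ => norm_nonneg _
    exact (pow_le_pow_iff_left₀ (Finset.prod_nonneg fun _ _ => norm_nonneg _) h0 two_ne_zero).1 h2
  have h3 : ∏ k, fprod n z k w ≤ dprod n z := by
    unfold dprod
    exact Finset.prod_le_prod (fun _ _ => Finset.prod_nonneg fun _ _ => norm_nonneg _)
      fun k _ => key k
  have h4 : ∏ k, fprod n z k w = (∏ j, ‖w - z j‖) ^ (n + 1) := by
    unfold fprod
    rw [Finset.prod_comm' (t' := Finset.univ) (s' := fun j => Finset.univ.erase j)]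
    · rw [← Finset.prod_pow]
      refine Finset.prod_congr rfl fun j _ => ?_
      rw [Finset.prod_const, Finset.card_erase_of_mem (Finset.mem_univ _), Finset.card_univ,
        Fintype.card_fin]
      rfl
    · intro x y
      simp only [Finset.mem_univ, Finset.mem_erase, and_true, true_and]
      exact ⟨fun h => h.symm, fun h => h.symm⟩
  have h5 : dprod n z = ((dn n K) ^ (n + 2)) ^ (n + 1) := by
    rw [dprod_eq, ← hsvz, dn_eq, ← pow_mul, ← Real.rpow_natCast, ← Real.rpow_natCast,
      ← Real.rpow_mul (sv_nonneg n K)]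
    congr 1
    push_cast
    field_simp
  rw [h4, h5] at h3
  exact (pow_le_pow_iff_left₀ (Finset.prod_nonneg fun _ _ => norm_nonneg _)
    (pow_nonneg hpos.le _) (Nat.succ_ne_zero n)).1 h3

theorem fek_slog (n : ℕ) (K : Set ℂ) (hK : IsCompact K) (hpos : 0 < dn n K) {ε : ℝ}
    (hε : 0 < ε) :
    ∃ z : Fin (n + 2) → ℂ, (∀ j, z j ∈ K) ∧ ∀ w, Metric.closedBall w ε ⊆ K →
      (1 / ((n + 2 : ℕ) : ℝ)) * ∑ j, slog ε ‖w - z j‖ ≤ Real.log (dn n K) := by
  obtain ⟨z, hz, hmax⟩ := fekete n K hK hpos
  refine ⟨z, hz, fun w hw => ?_⟩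
  have hint : ∀ j ∈ (Finset.univ : Finset (Fin (n + 2))),
      IntegrableOn (fun v : ℂ => Real.log ‖v - z j‖) (Metric.closedBall w ε) :=
    fun j _ => integrableOn_log_disc (z j) w ε
  have hfin : (volume (Metric.closedBall w ε)) ≠ ⊤ := measure_closedBall_lt_top.ne
  have h1 : ∫ v in Metric.closedBall w ε, ∑ j, Real.log ‖v - z j‖ ≤
      ∫ _v in Metric.closedBall w ε, ((n + 2 : ℕ) : ℝ) * Real.log (dn n K) := by
    refine setIntegral_mono_ae_restrict ?_ ?_ ?_
    · exact integrable_finsetSum _ hint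
    · exact integrableOn_const hfin
    · have hnull : volume (Set.range z) = 0 := (Set.finite_range z).measure_zero _
      have h2 : ∀ᵐ v ∂(volume.restrict (Metric.closedBall w ε)), v ∉ Set.range z := by
        refine ae_restrict_of_ae ?_
        exact measure_eq_zero_iff_ae_notMem.1 hnull
      filter_upwards [h2, ae_restrict_mem measurableSet_closedBall] with v hv hvb
      have hne : ∀ j ∈ (Finset.univ : Finset (Fin (n + 2))), ‖v - z j‖ ≠ 0 := by
        intro j _
        rw [norm_ne_zero_iff, sub_ne_zero]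
        exact fun h => hv ⟨j, h.symm⟩
      rw [← Real.log_prod hne, ← Real.log_pow]
      refine Real.log_le_log ?_ (hmax v (hw hvb))
      exact Finset.prod_pos fun j hj => lt_of_le_of_ne (norm_nonneg _) (hne j hj).symm
  rw [integral_finsetSum _ hint] at h1
  rw [Finset.sum_congr rfl fun j _ => integral_log_disc (z j) w hε] at h1
  rw [setIntegral_const, ← Finset.mul_sum, Measure.real, Complex.volume_closedBall] at h1
  have h3 : (ENNReal.ofReal ε ^ 2 * (NNReal.pi : ENNReal)).toReal = Real.pi * ε ^ 2 := by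
    rw [ENNReal.toReal_mul, ENNReal.toReal_pow, ENNReal.toReal_ofReal hε.le]
    simp [mul_comm]
  rw [h3, smul_eq_mul] at h1
  have h4 := le_of_mul_le_mul_left h1 (by positivity)
  rw [div_mul_eq_mul_div, one_mul, div_le_iff₀ (by positivity)]
  linarith

end Pool.MP_31392c_an
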