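import Pool.Agent.Lib.MP_31392c_an.Polar

set_option autoImplicit false

open MeasureTheory Complex

namespace Pool.MP_31392c_an

theorem IB_swap {G : ℝ → ℝ → ℝ} (hG : Continuous (Function.uncurry G)) (a b c d : ℝ) :
    ∫ r in a..b, ∫ θ in c..d, G r θ = ∫ θ in c..d, ∫ r in a..b, G r θ := by
  apply intervalIntegral_intervalIntegral_swap
  refine IntegrableOn.mono_set (t := Set.uIcc a b ×ˢ Set.uIcc c d) ?_ ?_
  · exact hG.continuousOn.integrableOn_compact (isCompact_uIcc.prod isCompact_uIcc)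
  · exact Set.prod_mono Set.uIoc_subset_uIcc Set.uIoc_subset_uIcc

theorem IB_vf_continuous {ε : ℝ} (hε : 0 < ε) (a : ℂ) : Continuous (vf ε a) := by
  unfold vf
  have h : ∀ z : ℂ, (max ‖z - a‖ ε) ^ 2 ≠ 0 := fun z => by positivity
  have h1 : Continuous fun z : ℂ => (1 / (max ‖z - a‖ ε) ^ 2 : ℝ) :=
    continuous_const.div (by fun_prop) h
  exact (Complex.continuous_ofReal.comp h1).mul (by fun_prop)

/-- the one-dimensional computation -/
theorem IB_ray {F : ℝ → ℝ} (hF : ContDiff ℝ 1 F) {ε R : ℝ} (hε : 0 < ε) (hR : ε ≤ R)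
    (hFR : F R = 0) :
    ∫ r in (0 : ℝ)..R, r * (r * deriv F r / (max r ε) ^ 2) =
      -(2 / ε ^ 2) * ∫ r in (0 : ℝ)..ε, r * F r := by
  have hF' : Continuous (deriv F) := hF.continuous_deriv_one
  have hd : ∀ x, HasDerivAt F (deriv F x) x := fun x =>
    (hF.differentiable one_ne_zero x).hasDerivAt
  have hcont : Continuous fun r : ℝ => r * (r * deriv F r / (max r ε) ^ 2) := by
    have h : ∀ r : ℝ, (max r ε) ^ 2 ≠ 0 := fun r => by
      have : 0 < max r ε := lt_max_of_lt_right hε
      positivity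
    exact continuous_id.mul ((continuous_id.mul hF').div (by fun_prop) h)
  rw [← intervalIntegral.integral_add_adjacent_intervals (b := ε)
    (hcont.intervalIntegrable _ _) (hcont.intervalIntegrable _ _)]
  have h1 : ∫ r in (0 : ℝ)..ε, r * (r * deriv F r / (max r ε) ^ 2) =
      ∫ r in (0 : ℝ)..ε, (r ^ 2 / ε ^ 2) * deriv F r := by
    refine intervalIntegral.integral_congr fun r hr => ?_
    rw [Set.uIcc_of_le hε.le] at hr
    show r * (r * deriv F r / (max r ε) ^ 2) = (r ^ 2 / ε ^ 2) * deriv F r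
    rw [max_eq_right hr.2]
    ring
  have h2 : ∫ r in ε..R, r * (r * deriv F r / (max r ε) ^ 2) = ∫ r in ε..R, deriv F r := by
    refine intervalIntegral.integral_congr fun r hr => ?_
    rw [Set.uIcc_of_le hR] at hr
    have hr0 : r ≠ 0 := (hε.trans_le hr.1).ne'
    show r * (r * deriv F r / (max r ε) ^ 2) = deriv F r
    rw [max_eq_left hr.1]
    field_simp
  have h3 : ∫ r in ε..R, deriv F r = F R - F ε :=
    intervalIntegral.integral_eq_sub_of_hasDerivAt (fun x _ => hd x)
      (hF'.intervalIntegrable _ _)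
  have h4 : ∫ r in (0 : ℝ)..ε, (r ^ 2 / ε ^ 2) * deriv F r =
      (ε ^ 2 / ε ^ 2) * F ε - (0 ^ 2 / ε ^ 2) * F 0 - ∫ r in (0 : ℝ)..ε, (2 * r / ε ^ 2) * F r := by
    refine intervalIntegral.integral_mul_deriv_eq_deriv_mul (u := fun r => r ^ 2 / ε ^ 2)
      (u' := fun r => 2 * r / ε ^ 2) (fun x _ => ?_) (fun x _ => hd x) ?_
      (hF'.intervalIntegrable _ _)
    · have := (hasDerivAt_pow 2 x).div_const (ε ^ 2)
      simpa using this
    · exact (Continuous.intervalIntegrable (by fun_prop) _ _)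
  have h5 : ∫ r in (0 : ℝ)..ε, (2 * r / ε ^ 2) * F r =
      (2 / ε ^ 2) * ∫ r in (0 : ℝ)..ε, r * F r := by
    rw [← intervalIntegral.integral_const_mul]
    refine intervalIntegral.integral_congr fun r _ => ?_
    ring
  rw [h1, h2, h3, h4, h5, hFR]
  have : ε ^ 2 / ε ^ 2 = 1 := div_self (by positivity)
  rw [this]
  ring

theorem IB_zero (f : ℂ → ℝ) (hf : ContDiff ℝ 1 f) (hc : HasCompactSupport f) {ε : ℝ}
    (hε : 0 < ε) :
    ∫ z, fderiv ℝ f z (vf ε 0 z) = -(2 / ε ^ 2) * ∫ z in Metric.ball 0 ε, f z := by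
  have hcf : Continuous (fderiv ℝ f) := hf.continuous_fderiv one_ne_zero
  have hg : Continuous fun z => fderiv ℝ f z (vf ε 0 z) := hcf.clm_apply (IB_vf_continuous hε 0)
  obtain ⟨R', hR'⟩ := hc.isCompact.isBounded.subset_ball (0 : ℂ)
  set R := max R' (ε + 1) with hR
  have hεR : ε ≤ R := le_trans (by linarith) (le_max_right _ _)
  have hR0 : 0 ≤ R := hε.le.trans hεR
  have hfR : ∀ z, R ≤ ‖z‖ → z ∉ tsupport f := by
    intro z hz h
    have := hR' h
    rw [mem_ball_zero_iff] at this
    exact absurd (this.trans_le (le_max_left _ _)) (not_lt.2 hz)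
  have hout : ∀ z ∉ Metric.ball (0 : ℂ) R, fderiv ℝ f z (vf ε 0 z) = 0 := by
    intro z hz
    rw [mem_ball_zero_iff, not_lt] at hz
    have h1 : z ∉ tsupport f := hfR z hz
    have h2 : fderiv ℝ f z = 0 := by
      by_contra hne
      exact h1 (support_fderiv_subset ℝ (f := f) hne)
    rw [h2]
    simp
  have hcg : Continuous (Function.uncurry fun r θ : ℝ =>
      r * fderiv ℝ f ((r : ℂ) * exp ((θ : ℂ) * I)) (vf ε 0 ((r : ℂ) * exp ((θ : ℂ) * I)))) := by
    have h := IB_vf_continuous hε 0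
    have hp : Continuous fun p : ℝ × ℝ => (p.1 : ℂ) * exp ((p.2 : ℂ) * I) := by fun_prop
    exact Continuous.mul continuous_fst ((hcf.comp hp).clm_apply (h.comp hp))
  have hcf2 : Continuous (Function.uncurry fun r θ : ℝ =>
      r * f ((r : ℂ) * exp ((θ : ℂ) * I))) := by
    have hp : Continuous fun p : ℝ × ℝ => (p.1 : ℂ) * exp ((p.2 : ℂ) * I) := by fun_prop
    exact Continuous.mul continuous_fst (hf.continuous.comp hp)
  rw [← setIntegral_eq_integral_of_forall_compl_eq_zero hout, PC_ball hg hR0,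
    PC_ball hf.continuous hε.le]
  have sw1 := IB_swap hcg 0 R (-Real.pi) Real.pi
  have sw2 := IB_swap hcf2 0 ε (-Real.pi) Real.pi
  rw [sw1, sw2, ← intervalIntegral.integral_const_mul]
  · refine intervalIntegral.integral_congr fun θ _ => ?_
    set F : ℝ → ℝ := fun r => f ((r : ℂ) * exp ((θ : ℂ) * I)) with hF
    have hFd : ∀ r : ℝ, HasDerivAt F (fderiv ℝ f ((r : ℂ) * exp ((θ : ℂ) * I))
        (exp ((θ : ℂ) * I))) r := by
      intro r
      have h1 : HasDerivAt (fun y : ℝ => (y : ℂ) * exp ((θ : ℂ) * I)) (exp ((θ : ℂ) * I)) r := by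
        have := (Complex.ofRealCLM.hasDerivAt (x := r)).mul_const (exp ((θ : ℂ) * I))
        simpa using this
      exact (hf.differentiable one_ne_zero _).hasFDerivAt.comp_hasDerivAt r h1
    have hFc : ContDiff ℝ 1 F := by
      refine hf.comp ?_
      exact Complex.ofRealCLM.contDiff.mul contDiff_const
    have hFR : F R = 0 := by
      have h9 : (R : ℂ) * exp ((θ : ℂ) * I) ∉ tsupport f := by
        apply hfR
        rw [norm_mul, Complex.norm_exp_ofReal_mul_I, mul_one, Complex.norm_real,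
          Real.norm_of_nonneg hR0]
      exact image_eq_zero_of_notMem_tsupport (f := f) h9
    have h1 := IB_ray hFc hε hεR hFR
    rw [← h1]
    refine intervalIntegral.integral_congr fun r hr => ?_
    rw [Set.uIcc_of_le hR0] at hr
    rw [(hFd r).deriv]
    congr 1
    have h2 : vf ε 0 ((r : ℂ) * exp ((θ : ℂ) * I)) = ((r / (max r ε) ^ 2 : ℝ) : ℂ) *
        exp ((θ : ℂ) * I) := by
      rw [vf, sub_zero, norm_mul, Complex.norm_exp_ofReal_mul_I, mul_one, Complex.norm_real,
        Real.norm_of_nonneg hr.1]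
      push_cast
      ring
    rw [h2]
    have h3 : ((r / (max r ε) ^ 2 : ℝ) : ℂ) * exp ((θ : ℂ) * I) =
        (r / (max r ε) ^ 2 : ℝ) • exp ((θ : ℂ) * I) := (Complex.real_smul).symm
    rw [h3, map_smul, smul_eq_mul]
    ring

/-- integration by parts against the field `vf ε a` (whose divergence is `2/ε²` on the disc of
radius `ε` around `a` and `0` outside) -/
theorem ib (f : ℂ → ℝ) (hf : ContDiff ℝ 1 f) (hc : HasCompactSupport f) (a : ℂ) {ε : ℝ}
    (hε : 0 < ε) :
    ∫ z, fderiv ℝ f z (vf ε a z) = -(2 / ε ^ 2) * ∫ z in Metric.ball a ε, f z := by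
  have h1 := IB_zero (fun z => f (z + a)) (hf.comp (contDiff_id.add contDiff_const))
    (hc.comp_homeomorph (Homeomorph.addRight a)) hε
  have h2 : ∫ z, fderiv ℝ f z (vf ε a z) =
      ∫ z, fderiv ℝ (fun z => f (z + a)) z (vf ε 0 z) := by
    rw [← integral_add_right_eq_self (μ := volume) (fun z => fderiv ℝ f z (vf ε a z)) a]
    congr 1
    ext z
    rw [fderiv_comp_add_right]
    congr 1
    simp [vf]
  have h3 : ∫ z in Metric.ball a ε, f z = ∫ z in Metric.ball (0 : ℂ) ε, f (z + a) := by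
    rw [← integral_indicator Metric.isOpen_ball.measurableSet,
      ← integral_indicator Metric.isOpen_ball.measurableSet,
      ← integral_add_right_eq_self (μ := volume) (fun z => (Metric.ball a ε).indicator f z) a]
    congr 1
    ext z
    by_cases hz : z ∈ Metric.ball (0 : ℂ) ε
    · rw [Set.indicator_of_mem hz, Set.indicator_of_mem]
      rw [Metric.mem_ball, dist_eq_norm, add_sub_cancel_right]
      rwa [mem_ball_zero_iff] at hz
    · rw [Set.indicator_of_notMem hz, Set.indicator_of_notMem]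
      rw [Metric.mem_ball, dist_eq_norm, add_sub_cancel_right]
      rwa [mem_ball_zero_iff] at hz
  rw [h2, h1, h3]

end Pool.MP_31392c_an
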