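import Pool.Agent.Lib.MP_31392c_an.Slog
import Pool.Agent.Lib.MP_31392c_an.IB
import Pool.Agent.Lib.MP_31392c_an.Step

set_option autoImplicit false

open MeasureTheory Complex

namespace Pool.MP_31392c_an

theorem pot (N : ℕ) (hN : 0 < N) (z : Fin N → ℂ) {ε δ R κ : ℝ} (hε : 0 < ε) (hδ : 0 < δ)
    (hδR : δ < R) (hκ : 0 < κ) :
    ∃ φ : ℂ → ℝ, ContDiff ℝ 1 φ ∧ HasCompactSupport φ ∧ (∀ w, 0 ≤ φ w ∧ φ w ≤ 1) ∧
      (∀ w, (1 / (N : ℝ)) * ∑ j, slog ε ‖w - z j‖ ≤ Real.log δ → φ w = 1) ∧
      (∀ w, Real.log R ≤ (1 / (N : ℝ)) * ∑ j, slog ε ‖w - z j‖ → φ w = 0) ∧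
      ∫ w, ‖fderiv ℝ φ w‖ ^ 2 ≤ 2 * Real.pi * (1 + κ) / (Real.log R - Real.log δ) := by
  obtain ⟨T, hT, hT0, hT1, hTd0, hTd1, -⟩ := exists_step hκ
  have hTdiff : Differentiable ℝ T := hT.differentiable (by norm_num)
  have hTcont : Continuous (deriv T) := hT.continuous_deriv (by norm_num)
  have hTmono : Monotone T := monotone_of_deriv_nonneg hTdiff hTd0
  have hTnn : ∀ s, 0 ≤ T s := by
    intro s
    have h1 := hTmono (min_le_left s 0)
    rwa [hT0 _ (min_le_right s 0)] at h1
  have hTle : ∀ s, T s ≤ 1 := by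
    intro s
    have h1 := hTmono (le_max_left s 1)
    rwa [hT1 _ (le_max_right s 1)] at h1
  have hTdzero : ∀ s < 0, deriv T s = 0 := by
    intro s hs
    have h1 : T =ᶠ[nhds s] fun _ => 0 := by
      filter_upwards [Iio_mem_nhds hs] with u hu
      exact hT0 u (le_of_lt hu)
    rw [h1.deriv_eq]
    simp
  -- the function `S`
  set S : ℝ → ℝ := fun s => ∫ u in (0 : ℝ)..s, (deriv T u) ^ 2 with hSdef
  have hcont2 : Continuous fun u => (deriv T u) ^ 2 := hTcont.pow 2
  have hSder : ∀ s, HasDerivAt S ((deriv T s) ^ 2) s := by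
    intro s
    exact intervalIntegral.integral_hasDerivAt_right (hcont2.intervalIntegrable _ _)
      (hcont2.stronglyMeasurableAtFilter _ _) hcont2.continuousAt
  have hS : ContDiff ℝ 1 S := by
    rw [contDiff_one_iff_deriv]
    refine ⟨fun s => (hSder s).differentiableAt, ?_⟩
    have : deriv S = fun s => (deriv T s) ^ 2 := funext fun s => (hSder s).deriv
    rw [this]
    exact hcont2
  have hSdiff : Differentiable ℝ S := hS.differentiable (by norm_num)
  have hS0' : S 0 = 0 := by simp [hSdef]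
  have hSzero : ∀ s ≤ 0, S s = 0 := by
    intro s hs
    rw [hSdef]
    simp only
    rw [intervalIntegral.integral_symm]
    rw [neg_eq_zero]
    apply intervalIntegral.integral_zero_ae
    have h0 : ∀ᵐ x : ℝ, x ≠ 0 := by
      have := MeasureTheory.Measure.ae_ne (volume : Measure ℝ) (0 : ℝ)
      exact this
    filter_upwards [h0] with x hx hxm
    rw [Set.uIoc_of_le hs] at hxm
    have : x < 0 := lt_of_le_of_ne hxm.2 hx
    rw [hTdzero x this]
    norm_num
  have hSle : ∀ s, S s ≤ 1 + κ := by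
    intro s
    -- `(1 + κ) T - S` is monotone
    have hmono : Monotone fun s => (1 + κ) * T s - S s := by
      apply monotone_of_deriv_nonneg
      · exact (hTdiff.const_mul _).sub hSdiff
      · intro u
        have h1 : HasDerivAt (fun s => (1 + κ) * T s - S s)
            ((1 + κ) * deriv T u - (deriv T u) ^ 2) u :=
          ((hTdiff u).hasDerivAt.const_mul _).sub (hSder u)
        rw [h1.deriv]
        have h2 := hTd0 u
        have h3 := hTd1 u
        nlinarith
    by_cases hs : s ≤ 0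
    · rw [hSzero s hs]; linarith
    · have h1 := hmono (le_of_lt (not_le.1 hs))
      simp only at h1
      rw [hT0 0 le_rfl, hS0'] at h1
      have h2 := hTle s
      nlinarith
  -- the potential
  set c : ℝ := Real.log R - Real.log δ with hc
  have hcpos : 0 < c := by
    have := Real.log_lt_log hδ hδR
    rw [hc]; linarith
  have hNpos : (0 : ℝ) < N := by exact_mod_cast hN
  set q : ℂ → ℝ := fun w => (1 / (N : ℝ)) * ∑ j, slog ε ‖w - z j‖ with hq
  set G : ℂ → ℂ := fun w => (1 / (N : ℝ)) • ∑ j, vf ε (z j) w with hG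
  have hqder : ∀ w, HasFDerivAt q (innerSL ℝ (G w)) w := by
    intro w
    have h1 : HasFDerivAt (fun w : ℂ => ∑ j, slog ε ‖w - z j‖)
        (∑ j, innerSL ℝ (vf ε (z j) w)) w := by
      have := HasFDerivAt.sum (u := Finset.univ) (A := fun (j : Fin N) (w : ℂ) => slog ε ‖w - z j‖)
        (A' := fun j => innerSL ℝ (vf ε (z j) w)) (x := w)
        (fun j _ => hasFDerivAt_slog hε (z j) w)
      refine this.congr_of_eventuallyEq (Filter.Eventually.of_forall fun w => ?_)
      simp
    have h2 := h1.const_mul (1 / (N : ℝ))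
    have h3 : innerSL ℝ (G w) = (1 / (N : ℝ)) • ∑ j, innerSL ℝ (vf ε (z j) w) := by
      rw [hG]
      simp only
      rw [map_smul, map_sum]
    rw [h3]
    exact h2
  have hqC : ContDiff ℝ 1 q := by
    rw [hq]
    exact contDiff_const.mul (ContDiff.sum fun j _ => contDiff_slog hε (z j))
  set σ : ℂ → ℝ := fun w => (Real.log R - q w) / c with hσ
  have hσC : ContDiff ℝ 1 σ := by
    rw [hσ]
    exact (contDiff_const.sub hqC).div_const c
  have hσder : ∀ w, HasFDerivAt σ (-(1 / c) • innerSL ℝ (G w)) w := by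
    intro w
    have h1 : HasFDerivAt (fun w => (1 / c) * (Real.log R - q w))
        ((1 / c) • (-(innerSL ℝ (G w)))) w := ((hqder w).const_sub (Real.log R)).const_mul (1 / c)
    have h2 : (fun w => (1 / c) * (Real.log R - q w)) = σ := by
      funext w; rw [hσ]; simp only; ring
    rw [h2] at h1
    have e : -(1 / c) • innerSL ℝ (G w) = (1 / c) • (-(innerSL ℝ (G w))) := by
      rw [smul_neg, neg_smul]
    rw [e]
    exact h1
  set φ : ℂ → ℝ := fun w => T (σ w) with hφ
  set f : ℂ → ℝ := fun w => S (σ w) with hf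
  have hφC : ContDiff ℝ 1 φ := hT.comp hσC
  have hfC : ContDiff ℝ 1 f := hS.comp hσC
  have hφder : ∀ w, HasFDerivAt φ (deriv T (σ w) • (-(1 / c) • innerSL ℝ (G w))) w := by
    intro w
    exact (hTdiff (σ w)).hasDerivAt.comp_hasFDerivAt w (hσder w)
  have hfder : ∀ w, HasFDerivAt f ((deriv T (σ w)) ^ 2 • (-(1 / c) • innerSL ℝ (G w))) w := by
    intro w
    exact (hSder (σ w)).comp_hasFDerivAt w (hσder w)
  -- compact support
  have hfar : ∃ r, ∀ w, w ∉ Metric.closedBall (0 : ℂ) r → σ w ≤ 0 := by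
    refine ⟨max R ε + ∑ j, ‖z j‖, fun w hw => ?_⟩
    rw [mem_closedBall_zero_iff, not_le] at hw
    have h1 : ∀ j, Real.log R ≤ slog ε ‖w - z j‖ := by
      intro j
      have h2 : ‖z j‖ ≤ ∑ j, ‖z j‖ :=
        Finset.single_le_sum (f := fun j => ‖z j‖) (fun _ _ => norm_nonneg _) (Finset.mem_univ j)
      have h3 : ‖w‖ - ‖z j‖ ≤ ‖w - z j‖ := norm_sub_norm_le w (z j)
      have h4 : R ≤ ‖w - z j‖ := by
        have := le_max_left R ε
        linarith
      have hRpos : 0 < R := lt_trans hδ hδR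
      exact le_trans (Real.log_le_log hRpos h4) (log_le_slog hε (lt_of_lt_of_le hRpos h4))
    have h2 : Real.log R ≤ q w := by
      rw [hq]
      simp only
      have h3 : ∑ _j : Fin N, Real.log R ≤ ∑ j, slog ε ‖w - z j‖ :=
        Finset.sum_le_sum fun j _ => h1 j
      rw [Finset.sum_const, Finset.card_univ, Fintype.card_fin, nsmul_eq_mul] at h3
      rw [one_div, inv_mul_eq_div, le_div_iff₀ hNpos]
      linarith
    rw [hσ]
    simp only
    exact div_nonpos_of_nonpos_of_nonneg (by linarith) hcpos.le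
  obtain ⟨r, hr⟩ := hfar
  have hφsupp : HasCompactSupport φ :=
    HasCompactSupport.intro (isCompact_closedBall (0 : ℂ) r) fun w hw => hT0 _ (hr w hw)
  have hfsupp : HasCompactSupport f :=
    HasCompactSupport.intro (isCompact_closedBall (0 : ℂ) r) fun w hw => hSzero _ (hr w hw)
  -- the energy
  have hnorm : ∀ w, ‖fderiv ℝ φ w‖ ^ 2 = -(1 / c) * (fderiv ℝ f w) (G w) := by
    intro w
    rw [(hφder w).fderiv, (hfder w).fderiv, norm_smul, norm_smul, innerSL_apply_norm]
    simp only [smul_apply, innerSL_apply_apply, smul_eq_mul,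
      real_inner_self_eq_norm_sq, Real.norm_eq_abs, mul_pow, sq_abs]
    ring
  have hGsum : ∀ w, (fderiv ℝ f w) (G w) =
      (1 / (N : ℝ)) * ∑ j, (fderiv ℝ f w) (vf ε (z j) w) := by
    intro w
    rw [hG]
    simp only
    rw [map_smul, map_sum, smul_eq_mul]
  have hdfcont : Continuous (fderiv ℝ f) := hfC.continuous_fderiv (by norm_num)
  have hdfsupp : HasCompactSupport (fderiv ℝ f) := hfsupp.fderiv ℝ
  have hint : ∀ j, Integrable fun w => (fderiv ℝ f w) (vf ε (z j) w) := by
    intro j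
    have hcnt : Continuous fun w => (fderiv ℝ f w) (vf ε (z j) w) :=
      hdfcont.clm_apply (continuous_vf hε (z j))
    apply hcnt.integrable_of_hasCompactSupport
    apply hdfsupp.mono
    intro w hw
    rw [Function.mem_support] at hw ⊢
    intro h0
    apply hw
    rw [h0]
    simp
  have hball : ∀ j, ∫ w in Metric.ball (z j) ε, f w ≤ (1 + κ) * (Real.pi * ε ^ 2) := by
    intro j
    have hvol : (volume (Metric.ball (z j) ε)).toReal = Real.pi * ε ^ 2 := by
      rw [Complex.volume_ball]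
      rw [ENNReal.toReal_mul, ENNReal.toReal_pow, ENNReal.toReal_ofReal hε.le]
      simp only [ENNReal.coe_toReal, NNReal.coe_real_pi]
      ring
    have h1 : ∫ w in Metric.ball (z j) ε, f w ≤ ∫ _w in Metric.ball (z j) ε, (1 + κ) := by
      apply setIntegral_mono_on
      · exact (hfC.continuous.integrable_of_hasCompactSupport hfsupp).integrableOn
      · exact integrableOn_const (Metric.isBounded_ball.measure_lt_top).ne enorm_ne_top
      · exact Metric.isOpen_ball.measurableSet
      · intro w _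
        exact hSle _
    rw [setIntegral_const, smul_eq_mul] at h1
    have h2 : (volume.real (Metric.ball (z j) ε)) = Real.pi * ε ^ 2 := hvol
    rw [h2] at h1
    linarith
  refine ⟨φ, hφC, hφsupp, fun w => ⟨hTnn _, hTle _⟩, ?_, ?_, ?_⟩
  · intro w hw
    apply hT1
    rw [hσ]
    simp only
    rw [le_div_iff₀ hcpos]
    rw [hc]
    have : q w ≤ Real.log δ := hw
    linarith
  · intro w hw
    apply hT0
    rw [hσ]
    simp only
    have : Real.log R ≤ q w := hw
    exact div_nonpos_of_nonpos_of_nonneg (by linarith) hcpos.le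
  · have h1 : ∫ w, ‖fderiv ℝ φ w‖ ^ 2 = -(1 / c) * ((1 / (N : ℝ)) *
        ∑ j, (-(2 / ε ^ 2) * ∫ w in Metric.ball (z j) ε, f w)) := by
      have h2 : (fun w => ‖fderiv ℝ φ w‖ ^ 2) = fun w => -(1 / c) * ((1 / (N : ℝ)) *
          ∑ j, (fderiv ℝ f w) (vf ε (z j) w)) := by
        funext w
        rw [hnorm w, hGsum w]
      rw [h2, integral_const_mul, integral_const_mul, integral_finsetSum _ fun j _ => hint j]
      congr 2
      refine Finset.sum_congr rfl fun j _ => ?_
      exact ib f hfC hfsupp (z j) hε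
    rw [h1]
    have h3 : -(1 / c) * ((1 / (N : ℝ)) *
        ∑ j, (-(2 / ε ^ 2) * ∫ w in Metric.ball (z j) ε, f w)) =
        (1 / c) * ((1 / (N : ℝ)) * ∑ j, ((2 / ε ^ 2) * ∫ w in Metric.ball (z j) ε, f w)) := by
      have h6 : ∀ j, (-(2 / ε ^ 2) * ∫ w in Metric.ball (z j) ε, f w) =
          -((2 / ε ^ 2) * ∫ w in Metric.ball (z j) ε, f w) := fun j => by ring
      rw [Finset.sum_congr rfl fun j _ => h6 j, Finset.sum_neg_distrib]
      ring
    rw [h3]
    have h4 : ∑ j, ((2 / ε ^ 2) * ∫ w in Metric.ball (z j) ε, f w) ≤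
        ∑ _j : Fin N, ((2 / ε ^ 2) * ((1 + κ) * (Real.pi * ε ^ 2))) := by
      refine Finset.sum_le_sum fun j _ => ?_
      exact mul_le_mul_of_nonneg_left (hball j) (by positivity)
    rw [Finset.sum_const, Finset.card_univ, Fintype.card_fin, nsmul_eq_mul] at h4
    have h5 : (1 / c) * ((1 / (N : ℝ)) * ((N : ℝ) * ((2 / ε ^ 2) *
        ((1 + κ) * (Real.pi * ε ^ 2))))) = 2 * Real.pi * (1 + κ) / c := by
      field_simp
    rw [← h5]
    apply mul_le_mul_of_nonneg_left _ (by positivity)
    exact mul_le_mul_of_nonneg_left h4 (by positivity)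

end Pool.MP_31392c_an
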