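import Pool.Agent.Lib.MP_31392c_an.Chain
import Pool.Agent.Lib.MP_31392c_an.Pot
import Pool.Agent.Lib.MP_31392c_an.Dual
import Pool.Agent.Lib.MP_31392c_an.Dn
import Pool.Agent.Lib.MP_31392c_an.Fek

set_option autoImplicit false

open MeasureTheory Complex Filter Topology

namespace Pool.MP_31392c_an

theorem mem_cthick {E : Set ℂ} (hne : E.Nonempty) {d : ℝ} (_hd : 0 ≤ d) {w : ℂ}
    (h : Metric.infDist w E ≤ d) : w ∈ Metric.cthickening d E := by
  rw [Metric.mem_cthickening_iff]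
  have hfin : Metric.infEDist w E ≠ ⊤ := Metric.infEDist_ne_top hne
  rw [← ENNReal.ofReal_toReal hfin]
  exact ENNReal.ofReal_le_ofReal h

theorem norm_le_cthick {E : Set ℂ} (hE : IsCompact E) {R d : ℝ} (hd : 0 ≤ d)
    (hR : ∀ z ∈ E, ‖z‖ ≤ R) : ∀ z ∈ Metric.cthickening d E, ‖z‖ ≤ R + d := by
  intro z hz
  rw [hE.cthickening_eq_biUnion_closedBall hd] at hz
  simp only [Set.mem_iUnion, Metric.mem_closedBall, exists_prop] at hz
  obtain ⟨x, hx, hzx⟩ := hz
  have h1 := hR x hx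
  have h2 : ‖z‖ ≤ ‖x‖ + dist z x := by
    rw [dist_eq_norm]
    have := norm_add_le x (z - x)
    rwa [add_sub_cancel] at this
  linarith

/-- the key estimate at a fixed outer radius `R1` and fixed error `κ` -/
theorem key1 (n : ℕ) (E : Set ℂ) (hE : IsCompact E) {ρ R0 ε : ℝ} (hρ : 0 < ρ)
    (hball : Metric.closedBall (0 : ℂ) ρ ⊆ E) (hR0 : ∀ z ∈ E, ‖z‖ ≤ R0) (hε : 0 < ε)
    (hrange : R0 + ε < Real.exp 2 * ρ) (hpos : 0 < tcap (LR E)) {R1 κ : ℝ} (hκ : 0 < κ)
    (hD : 0 < dn n (Metric.cthickening (2 * ε) E))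
    (hR1 : dn n (Metric.cthickening (2 * ε) E) < R1) :
    2 * Real.pi ≤ ((1 + κ) * (2 * Real.pi * (1 + κ) /
      (Real.log R1 - Real.log (dn n (Metric.cthickening (2 * ε) E))) + κ)) *
      (Real.log ((R1 + R0 + 2 * ε) * Real.exp κ + R0) - Real.log (tcap (LR E))) := by
  set K := Metric.cthickening (2 * ε) E with hK
  set D := dn n K with hDdef
  have hne : E.Nonempty := ⟨0, hball (by simp [hρ.le])⟩
  have hR0' : ρ ≤ R0 := by
    have := hR0 _ (hball (show (ρ : ℂ) ∈ Metric.closedBall 0 ρ by simp [abs_of_pos hρ]))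
    rwa [Complex.norm_real, Real.norm_eq_abs, abs_of_pos hρ] at this
  have hKc : IsCompact K := hE.cthickening
  have hR1pos : 0 < R1 := hD.trans hR1
  obtain ⟨z, hzK, hz⟩ := fek_slog n K hKc hD hε
  obtain ⟨φ, hφ, _, hφ01, hφ1, hφ0, hφE⟩ := pot (n + 2) (by omega) z hε hD hR1 hκ
  obtain ⟨ψ, ε2, hε2, hψ, hψ0, hψ1, hψE⟩ := chain E hE hρ hball hR0 hε hrange φ hφ
    (by
      intro w hw
      apply hφ1
      apply hz
      intro v hv
      apply mem_cthick hne (by positivity)
      rw [Metric.mem_closedBall] at hv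
      have := Metric.infDist_le_infDist_add_dist (s := E) (x := v) (y := w)
      linarith)
    (Rf := R1 + R0 + 2 * ε) (by linarith)
    (by
      intro w hw
      apply hφ0
      have hN : (0 : ℝ) < ((n + 2 : ℕ) : ℝ) := by positivity
      have hterm : ∀ j, Real.log R1 ≤ slog ε ‖w - z j‖ := by
        intro j
        have h1 := norm_le_cthick hE (by positivity : (0 : ℝ) ≤ 2 * ε) hR0 (z j) (hzK j)
        have h2 : R1 ≤ ‖w - z j‖ := by
          have := norm_sub_norm_le w (z j)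
          linarith
        exact (Real.log_le_log hR1pos h2).trans (log_le_slog hε (hR1pos.trans_le h2))
      have hsum : ((n + 2 : ℕ) : ℝ) * Real.log R1 ≤ ∑ j, slog ε ‖w - z j‖ := by
        have := Finset.card_nsmul_le_sum (Finset.univ : Finset (Fin (n + 2)))
          (fun j => slog ε ‖w - z j‖) (Real.log R1) (fun j _ => hterm j)
        simpa using this
      rw [one_div, inv_mul_eq_div, le_div_iff₀ hN]
      linarith)
    hκ
  have hdual := dual_tcap (LR E) (R0 := R0) hε2 (LR_norm_le (hρ.le.trans hR0') hR0) hpos ψ hψ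
    hψ0 hψ1
  have hbr : 0 < Real.log ((R1 + R0 + 2 * ε) * Real.exp κ + R0) - Real.log (tcap (LR E)) := by
    by_contra hcon
    push Not at hcon
    have h1 : 0 ≤ ∫ z, ‖fderiv ℝ ψ z‖ ^ 2 := integral_nonneg (fun _ => by positivity)
    have h2 := mul_nonpos_of_nonneg_of_nonpos h1 hcon
    have := Real.pi_pos
    linarith
  refine hdual.trans (mul_le_mul_of_nonneg_right ?_ hbr.le)
  refine hψE.trans ?_
  gcongr

/-- limit `κ → 0` -/
theorem key2 (n : ℕ) (E : Set ℂ) (hE : IsCompact E) {ρ R0 ε : ℝ} (hρ : 0 < ρ)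
    (hball : Metric.closedBall (0 : ℂ) ρ ⊆ E) (hR0 : ∀ z ∈ E, ‖z‖ ≤ R0) (hε : 0 < ε)
    (hrange : R0 + ε < Real.exp 2 * ρ) (hpos : 0 < tcap (LR E)) {R1 : ℝ}
    (hD : 0 < dn n (Metric.cthickening (2 * ε) E))
    (hR1 : dn n (Metric.cthickening (2 * ε) E) < R1) :
    Real.log (tcap (LR E)) ≤ Real.log (dn n (Metric.cthickening (2 * ε) E)) +
      (Real.log (R1 + 2 * R0 + 2 * ε) - Real.log R1) := by
  set D := dn n (Metric.cthickening (2 * ε) E) with hDdef
  have hR0' : ρ ≤ R0 := by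
    have := hR0 _ (hball (show (ρ : ℂ) ∈ Metric.closedBall 0 ρ by simp [abs_of_pos hρ]))
    rwa [Complex.norm_real, Real.norm_eq_abs, abs_of_pos hρ] at this
  have hR1pos : 0 < R1 := hD.trans hR1
  have hc : 0 < Real.log R1 - Real.log D := by
    have := Real.log_lt_log hD hR1
    linarith
  have hlim : Tendsto (fun κ : ℝ => ((1 + κ) * (2 * Real.pi * (1 + κ) /
      (Real.log R1 - Real.log D) + κ)) *
      (Real.log ((R1 + R0 + 2 * ε) * Real.exp κ + R0) - Real.log (tcap (LR E)))) (𝓝[>] 0)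
      (𝓝 (((1 + 0) * (2 * Real.pi * (1 + 0) / (Real.log R1 - Real.log D) + 0)) *
      (Real.log ((R1 + R0 + 2 * ε) * Real.exp 0 + R0) - Real.log (tcap (LR E))))) := by
    have hca : ContinuousAt (fun κ : ℝ => ((1 + κ) * (2 * Real.pi * (1 + κ) /
      (Real.log R1 - Real.log D) + κ)) *
      (Real.log ((R1 + R0 + 2 * ε) * Real.exp κ + R0) - Real.log (tcap (LR E)))) 0 := by
      have hne : (R1 + R0 + 2 * ε) * Real.exp 0 + R0 ≠ 0 := by
        rw [Real.exp_zero, mul_one]
        have : 0 < R1 + R0 + 2 * ε + R0 := by linarith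
        exact this.ne'
      have hne2 : Real.log R1 - Real.log D ≠ 0 := hc.ne'
      fun_prop (disch := assumption)
    exact hca.tendsto.mono_left nhdsWithin_le_nhds
  have hge := ge_of_tendsto hlim (by
    filter_upwards [self_mem_nhdsWithin] with κ hκ
    exact key1 n E hE hρ hball hR0 hε hrange hpos hκ hD hR1)
  rw [add_zero, mul_one, one_mul, Real.exp_zero, mul_one, add_zero] at hge
  have h3 : Real.log R1 - Real.log D ≤
      Real.log (R1 + R0 + 2 * ε + R0) - Real.log (tcap (LR E)) := by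
    have hpi := Real.pi_pos
    rw [div_mul_eq_mul_div, le_div_iff₀ hc] at hge
    exact le_of_mul_le_mul_left hge (by positivity)
  have h4 : R1 + R0 + 2 * ε + R0 = R1 + 2 * R0 + 2 * ε := by ring
  rw [h4] at h3
  linarith

theorem key3 (n : ℕ) (E : Set ℂ) (hE : IsCompact E) {ρ R0 ε : ℝ} (hρ : 0 < ρ)
    (hball : Metric.closedBall (0 : ℂ) ρ ⊆ E) (hR0 : ∀ z ∈ E, ‖z‖ ≤ R0) (hε : 0 < ε)
    (hrange : R0 + ε < Real.exp 2 * ρ) :
    tcap (LR E) ≤ dn n (Metric.cthickening (2 * ε) E) := by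
  rcases (tcap_nonneg (LR E)).eq_or_lt with h0 | hpos
  · rw [← h0]; exact dn_nonneg _ _
  have hR0' : ρ ≤ R0 := by
    have := hR0 _ (hball (show (ρ : ℂ) ∈ Metric.closedBall 0 ρ by simp [abs_of_pos hρ]))
    rwa [Complex.norm_real, Real.norm_eq_abs, abs_of_pos hρ] at this
  have hinf : (Metric.cthickening (2 * ε) E).Infinite := by
    have h1 : Set.Icc (0 : ℝ) ρ ⊆ (fun t : ℝ => (t : ℂ)) ⁻¹' (Metric.cthickening (2 * ε) E) := by
      intro t ht
      apply Metric.self_subset_cthickening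
      apply hball
      simp only [Metric.mem_closedBall, dist_zero_right, Complex.norm_real, Real.norm_eq_abs]
      rw [abs_of_nonneg ht.1]
      exact ht.2
    have h2 : (Set.Icc (0 : ℝ) ρ).Infinite := Set.Icc_infinite hρ
    have h3 := h2.image (f := fun t : ℝ => (t : ℂ)) (fun a _ b _ h => Complex.ofReal_injective h)
    exact h3.mono (by rintro _ ⟨t, ht, rfl⟩; exact h1 ht)
  have hD : 0 < dn n (Metric.cthickening (2 * ε) E) :=
    dn_pos n (hE.cthickening (r := 2 * ε)).isBounded hinf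
  set D := dn n (Metric.cthickening (2 * ε) E) with hDdef
  by_contra hcon
  push Not at hcon
  have hgap : 0 < Real.log (tcap (LR E)) - Real.log D := by
    have := Real.log_lt_log hD hcon
    linarith
  set gap := Real.log (tcap (LR E)) - Real.log D with hgapdef
  set A := 2 * R0 + 2 * ε with hA
  have hApos : 0 < A := by rw [hA]; linarith
  set R1 := D + A / gap + 1 with hR1
  have hq : 0 < A / gap := div_pos hApos hgap
  have hR1pos : 0 < R1 := by rw [hR1]; linarith
  have hk := key2 n E hE hρ hball hR0 hε hrange hpos hD (R1 := R1) (by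
    have : 0 < A / gap := hq
    linarith)
  have h1 : Real.log (R1 + 2 * R0 + 2 * ε) - Real.log R1 ≤ A / R1 := by
    have e : R1 + 2 * R0 + 2 * ε = R1 * (1 + A / R1) := by
      rw [hA]; field_simp; ring
    rw [e, Real.log_mul hR1pos.ne' (by positivity)]
    have := Real.log_le_sub_one_of_pos (show 0 < 1 + A / R1 by positivity)
    linarith
  have h2 : A / R1 < gap := by
    rw [div_lt_iff₀ hR1pos, hR1]
    have : gap * (A / gap) = A := by field_simp
    nlinarith
  linarith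

theorem core (E : Set ℂ) (hE : IsCompact E) {ρ R0 : ℝ} (hρ : 0 < ρ)
    (hball : Metric.closedBall (0 : ℂ) ρ ⊆ E) (hR0 : ∀ z ∈ E, ‖z‖ ≤ R0)
    (hrange : R0 < Real.exp 2 * ρ) : tcap (LR E) ≤ tcap E := by
  have hne : E.Nonempty := ⟨0, hball (by simp [hρ.le])⟩
  refine le_ciInf fun n => ?_
  refine le_of_forall_pos_le_add fun κ hκ => ?_
  obtain ⟨ε0, hε0, h⟩ := dn_cthickening n hE hne hκ
  have hpos : 0 < min (ε0 / 2) ((Real.exp 2 * ρ - R0) / 2) := by
    have : 0 < Real.exp 2 * ρ - R0 := by linarith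
    positivity
  set ε := min (ε0 / 2) ((Real.exp 2 * ρ - R0) / 2) with hε
  have h1 : 2 * ε ≤ ε0 := by
    have := min_le_left (ε0 / 2) ((Real.exp 2 * ρ - R0) / 2)
    rw [← hε] at this
    linarith
  have h2 : R0 + ε < Real.exp 2 * ρ := by
    have := min_le_right (ε0 / 2) ((Real.exp 2 * ρ - R0) / 2)
    rw [← hε] at this
    linarith
  exact (key3 n E hE hρ hball hR0 hpos h2).trans (h (2 * ε) (by positivity) h1)

end Pool.MP_31392c_an
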