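import Mathlib

set_option autoImplicit false

open MeasureTheory Complex

namespace Pool.MP_31392c_an

/-- the `(n+2)`-nd diameter of `K` (the quantity whose infimum over `n` is the transfinite
diameter, exactly as in the frozen statement) -/
noncomputable def dn (n : ℕ) (K : Set ℂ) : ℝ :=
  (⨆ z : Fin (n + 2) → {w : ℂ // w ∈ K},
    ∏ i : Fin (n + 2), ∏ j ∈ Finset.Ioi i, ‖((z i : ℂ) - (z j : ℂ))‖)
    ^ ((2 : ℝ) / (((n : ℝ) + 2) * ((n : ℝ) + 1)))

/-- logarithmic capacity (transfinite diameter) -/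
noncomputable def tcap (K : Set ℂ) : ℝ := ⨅ n : ℕ, dn n K

/-- `m(θ,E)`: the length of the part of `E` on the ray of direction `θ` -/
noncomputable def rayMeasure (E : Set ℂ) (θ : ℝ) : ℝ :=
  (volume {t : ℝ | 0 ≤ t ∧ (t : ℂ) * exp ((θ : ℂ) * I) ∈ E}).toReal

/-- the linear radial transformation -/
def LR (E : Set ℂ) : Set ℂ :=
  {x : ℂ | ∃ r θ : ℝ, 0 ≤ r ∧ r ≤ rayMeasure E θ ∧ x = (r : ℂ) * exp ((θ : ℂ) * I)}

/-- the regularised logarithm: average of `log |· - a|` over the disc of radius `ε` around a point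
at distance `s` from `a` -/
noncomputable def slog (ε s : ℝ) : ℝ :=
  if s ≤ ε then Real.log ε + (s ^ 2 / ε ^ 2 - 1) / 2 else Real.log s

/-- the gradient field of `w ↦ slog ε ‖w - a‖` -/
noncomputable def vf (ε : ℝ) (a z : ℂ) : ℂ := ((1 / (max ‖z - a‖ ε) ^ 2 : ℝ) : ℂ) * (z - a)

/-- the nodes of the logarithmic polar grid -/
noncomputable def node (ρ : ℝ) (x : ℕ → ℝ) (K : ℕ) (i : ℕ) (k : ZMod K) : ℂ :=
  (ρ : ℂ) * exp ((x i : ℂ) + ((2 * Real.pi * (k.val : ℝ) / (K : ℝ) : ℝ) : ℂ) * I)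

/-- radial conductances of the grid -/
noncomputable def cr (x : ℕ → ℝ) (K : ℕ) (i : ℕ) : ℝ :=
  (2 * Real.pi / (K : ℝ)) / (x (i + 1) - x i)

/-- angular conductances of the grid -/
noncomputable def ca (x : ℕ → ℝ) (K : ℕ) (i : ℕ) : ℝ :=
  (x (i + 1) - x (i - 1)) / (2 * (2 * Real.pi / (K : ℝ)))

/-- energy of the function `φ` on the nodes `(i,k)`, `0 ≤ i ≤ M`, `k : ZMod K` -/
noncomputable def nE (M K : ℕ) [NeZero K] (r a : ℕ → ℝ) (φ : ℕ → ZMod K → ℝ) : ℝ :=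
  ∑ i ∈ Finset.range M, ∑ k : ZMod K,
    (r i * (φ (i + 1) k - φ i k) ^ 2 + a i * (φ i (k + 1) - φ i k) ^ 2)

end Pool.MP_31392c_an
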