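import Pool.Agent.Lib.MP_31392c_an.Slog
import Pool.Agent.Lib.MP_31392c_an.IB

set_option autoImplicit false

open MeasureTheory Complex

namespace Pool.MP_31392c_an

/-- a continuous ramp from `0` to `1` on `[0,σ]` -/
noncomputable def ramp (σ t : ℝ) : ℝ := max 0 (min 1 (t / σ))

theorem ramp_continuous (σ : ℝ) : Continuous (ramp σ) := by
  unfold ramp
  exact continuous_const.max (continuous_const.min (continuous_id.div_const σ))

theorem ramp_nonneg (σ t : ℝ) : 0 ≤ ramp σ t := le_max_left _ _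

theorem ramp_le_one (σ t : ℝ) : ramp σ t ≤ 1 :=
  max_le zero_le_one (min_le_left _ _)

theorem ramp_of_nonpos {σ t : ℝ} (hσ : 0 < σ) (ht : t ≤ 0) : ramp σ t = 0 := by
  unfold ramp
  apply max_eq_left
  exact le_trans (min_le_right _ _) (div_nonpos_of_nonpos_of_nonneg ht hσ.le)

theorem ramp_of_ge {σ t : ℝ} (hσ : 0 < σ) (ht : σ ≤ t) : ramp σ t = 1 := by
  unfold ramp
  have h : 1 ≤ t / σ := by rwa [le_div_iff₀ hσ, one_mul]
  rw [min_eq_left h]
  exact max_eq_right zero_le_one

/-- the primitive of the ramp -/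
noncomputable def rampInt (σ s : ℝ) : ℝ := ∫ t in (0 : ℝ)..s, ramp σ t

theorem rampInt_hasDerivAt (σ s : ℝ) : HasDerivAt (rampInt σ) (ramp σ s) s :=
  intervalIntegral.integral_hasDerivAt_right ((ramp_continuous σ).intervalIntegrable _ _)
    ((ramp_continuous σ).stronglyMeasurableAtFilter _ _) (ramp_continuous σ).continuousAt

theorem rampInt_contDiff (σ : ℝ) : ContDiff ℝ 1 (rampInt σ) := by
  rw [contDiff_one_iff_deriv]
  refine ⟨fun s => (rampInt_hasDerivAt σ s).differentiableAt, ?_⟩
  have h : deriv (rampInt σ) = ramp σ := funext fun s => (rampInt_hasDerivAt σ s).deriv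
  rw [h]
  exact ramp_continuous σ

theorem rampInt_of_nonpos {σ s : ℝ} (hσ : 0 < σ) (hs : s ≤ 0) : rampInt σ s = 0 := by
  unfold rampInt
  have h : ∫ t in (0 : ℝ)..s, ramp σ t = ∫ t in (0 : ℝ)..s, (0 : ℝ) := by
    apply intervalIntegral.integral_congr
    intro t ht
    rw [Set.uIcc_of_ge hs] at ht
    exact ramp_of_nonpos hσ ht.2
  rw [h]
  simp

theorem rampInt_le {σ s : ℝ} (hs : 0 ≤ s) : rampInt σ s ≤ s := by
  unfold rampInt
  have h : ∫ t in (0 : ℝ)..s, ramp σ t ≤ ∫ t in (0 : ℝ)..s, (1 : ℝ) :=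
    intervalIntegral.integral_mono_on hs ((ramp_continuous σ).intervalIntegrable _ _)
      (continuous_const.intervalIntegrable _ _) (fun t _ => ramp_le_one σ t)
  simpa using h

theorem integrable_fderiv_vf {ε : ℝ} (hε : 0 < ε) (a : ℂ) (f : ℂ → ℝ) (hf : ContDiff ℝ 1 f)
    (hc : HasCompactSupport f) : Integrable (fun z => fderiv ℝ f z (vf ε a z)) := by
  apply Continuous.integrable_of_hasCompactSupport
  · exact (hf.continuous_fderiv one_ne_zero).clm_apply (continuous_vf hε a)
  · refine (hc.fderiv ℝ).mono ?_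
    intro z hz
    rw [Function.mem_support] at hz ⊢
    intro h0
    apply hz
    rw [h0]
    rfl

theorem ib_sum (m : ℕ) (s : Fin m → ℂ) {ε : ℝ} (hε : 0 < ε) (f : ℂ → ℝ)
    (hf : ContDiff ℝ 1 f) (hc : HasCompactSupport f) :
    ∫ z, fderiv ℝ f z ((1 / (m : ℝ)) • ∑ j, vf ε (s j) z) =
      -(2 / ε ^ 2) * ((1 / (m : ℝ)) * ∑ j, ∫ z in Metric.ball (s j) ε, f z) := by
  have h1 : ∀ z, fderiv ℝ f z ((1 / (m : ℝ)) • ∑ j, vf ε (s j) z) =
      (1 / (m : ℝ)) * ∑ j, fderiv ℝ f z (vf ε (s j) z) := by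
    intro z
    rw [map_smul, map_sum, smul_eq_mul]
  simp_rw [h1]
  rw [integral_const_mul, integral_finsetSum _ (fun j _ => integrable_fderiv_vf hε (s j) f hf hc)]
  simp_rw [fun j => ib f hf hc (s j) hε]
  rw [← Finset.mul_sum]
  ring

theorem volume_ball_toReal (a : ℂ) {ε : ℝ} (hε : 0 < ε) :
    (volume (Metric.ball a ε)).toReal = Real.pi * ε ^ 2 := by
  rw [Complex.volume_ball]
  rw [ENNReal.toReal_mul, ENNReal.toReal_pow, ENNReal.toReal_ofReal hε.le]
  simp [mul_comm]

theorem continuous_slog_dist {ε : ℝ} (hε : 0 < ε) (a : ℂ) :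
    Continuous (fun z : ℂ => slog ε ‖z - a‖) := (contDiff_slog hε a).continuous

theorem integrableOn_ball {f : ℂ → ℝ} (hf : Continuous f) (a : ℂ) (ε : ℝ) :
    IntegrableOn f (Metric.ball a ε) :=
  (hf.continuousOn.integrableOn_compact (isCompact_closedBall a ε)).mono_set
    Metric.ball_subset_closedBall

theorem slog_ball_offdiag {ε : ℝ} (hε : 0 < ε) (a b : ℂ) (hab : b ≠ a) :
    Real.pi * ε ^ 2 * Real.log ‖b - a‖ ≤
      ∫ z in Metric.ball b ε, slog ε ‖z - a‖ := by
  have hpos : 0 < ‖b - a‖ := norm_pos_iff.2 (sub_ne_zero.2 hab)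
  have h1 : Real.pi * ε ^ 2 * Real.log ‖b - a‖ ≤ Real.pi * ε ^ 2 * slog ε ‖b - a‖ :=
    mul_le_mul_of_nonneg_left (log_le_slog hε hpos) (by positivity)
  refine h1.trans ?_
  rw [← integral_log_disc a b hε]
  have h2 : ∫ w in Metric.closedBall b ε, Real.log ‖w - a‖ =
      ∫ w in Metric.ball b ε, Real.log ‖w - a‖ := by
    apply setIntegral_congr_set
    rw [ae_eq_set]
    constructor
    · rw [Metric.closedBall_sdiff_ball]
      exact Measure.addHaar_sphere volume b ε
    · rw [Set.sdiff_eq_empty.2 Metric.ball_subset_closedBall]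
      exact measure_empty
  rw [h2]
  apply integral_mono_ae
  · exact (integrableOn_log_disc a b ε).mono_set Metric.ball_subset_closedBall
  · exact integrableOn_ball (continuous_slog_dist hε a) b ε
  · have h3 : ∀ᵐ z : ℂ ∂(volume.restrict (Metric.ball b ε)), z ≠ a := by
      apply ae_restrict_of_ae
      rw [ae_iff]
      simp
    filter_upwards [h3] with z hz
    exact log_le_slog hε (norm_pos_iff.2 (sub_ne_zero.2 hz))

theorem slog_ball_diag {ε : ℝ} (hε : 0 < ε) (a b : ℂ) :
    Real.pi * ε ^ 2 * (Real.log ε - 1 / 2) ≤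
      ∫ z in Metric.ball b ε, slog ε ‖z - a‖ := by
  have h1 : ∫ _z in Metric.ball b ε, (Real.log ε - 1 / 2) =
      Real.pi * ε ^ 2 * (Real.log ε - 1 / 2) := by
    rw [setIntegral_const]
    rw [Measure.real, volume_ball_toReal b hε, smul_eq_mul]
  rw [← h1]
  apply integral_mono_ae
  · exact integrableOn_ball continuous_const b ε
  · exact integrableOn_ball (continuous_slog_dist hε a) b ε
  · exact Filter.Eventually.of_forall fun z => slog_ge hε (norm_nonneg _)

theorem dual (m : ℕ) (hm : 0 < m) (s : Fin m → ℂ) (hs : Function.Injective s)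
    {ε R0 Rs R2 : ℝ} (hε : 0 < ε) (hR0 : ∀ j, ‖s j‖ ≤ R0) (ψ : ℂ → ℝ) (hψ : ContDiff ℝ 1 ψ)
    (hsupp : ∀ w, Rs ≤ ‖w‖ → ψ w = 0) (hone : ∀ j, ∀ w, ‖w - s j‖ ≤ ε → ψ w = 1)
    (hR2 : Rs + R0 < R2) :
    2 * Real.pi ≤ (∫ w, ‖fderiv ℝ ψ w‖ ^ 2) *
      (Real.log R2 - (1 / (m : ℝ) ^ 2) * ∑ i, ∑ j ∈ Finset.univ.erase i, Real.log ‖s i - s j‖
        + (1 / (m : ℝ)) * (1 / 2 - Real.log ε)) := by
  have hpi := Real.pi_pos
  have hm' : (0 : ℝ) < m := by exact_mod_cast hm
  have hψc : HasCompactSupport ψ := by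
    apply HasCompactSupport.intro (isCompact_closedBall (0 : ℂ) Rs)
    intro z hz
    apply hsupp
    rw [Metric.mem_closedBall, dist_zero_right] at hz
    exact (not_le.1 hz).le
  -- the discs are inside the ball of radius `Rs`
  have hin : ∀ j, ∀ w, ‖w - s j‖ ≤ ε → ‖w‖ < Rs := by
    intro j w hw
    by_contra hcon
    have h1 := hone j w hw
    rw [hsupp w (not_lt.1 hcon)] at h1
    exact zero_ne_one h1
  have hsj : ∀ j, ‖s j‖ < Rs := fun j => hin j (s j) (by simpa using hε.le)
  obtain ⟨j0⟩ : Nonempty (Fin m) := ⟨⟨0, hm⟩⟩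
  have hRs : 0 < Rs := lt_of_le_of_lt (norm_nonneg _) (hsj j0)
  have hR00 : 0 ≤ R0 := (norm_nonneg _).trans (hR0 j0)
  have hR1 : 0 < Rs + R0 := by linarith
  have hR2' : 0 < R2 := by linarith
  have hεR : ε ≤ Rs + R0 := by
    have h1 : ‖s j0 + (ε : ℂ)‖ < Rs := by
      apply hin j0
      rw [add_sub_cancel_left]
      simp [abs_of_pos hε]
    have h2 : ε = ‖(s j0 + (ε : ℂ)) - s j0‖ := by
      rw [add_sub_cancel_left]
      simp [abs_of_pos hε]
    rw [h2]
    exact (norm_sub_le _ _).trans (by linarith [hR0 j0])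
  set σ : ℝ := Real.log R2 - Real.log (Rs + R0) with hσdef
  have hσ : 0 < σ := by
    have := Real.log_lt_log hR1 hR2
    linarith
  -- the potential and its gradient
  set G : ℂ → ℂ := fun z => (1 / (m : ℝ)) • ∑ j, vf ε (s j) z with hGdef
  set p : ℂ → ℝ := fun z => (1 / (m : ℝ)) * ∑ j, slog ε ‖z - s j‖ with hpdef
  have hGc : Continuous G := by
    have h0 : Continuous (fun z => ∑ j, vf ε (s j) z) :=
      continuous_finsetSum _ fun j _ => continuous_vf hε (s j)
    exact h0.const_smul (1 / (m : ℝ))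
  have hpd : ∀ z, HasFDerivAt p (innerSL ℝ (G z)) z := by
    intro z
    have h1 : HasFDerivAt (fun z => ∑ j, slog ε ‖z - s j‖)
        (∑ j, innerSL ℝ (vf ε (s j) z)) z := by
      apply HasFDerivAt.fun_sum
      intro j _
      exact hasFDerivAt_slog hε (s j) z
    have h2 := h1.const_mul (1 / (m : ℝ))
    have h3 : innerSL ℝ (G z) = (1 / (m : ℝ)) • ∑ j, innerSL ℝ (vf ε (s j) z) := by
      rw [hGdef]
      simp only [map_smul, map_sum]
    rw [h3]
    exact h2
  have hpc : ContDiff ℝ 1 p := by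
    apply ContDiff.mul contDiff_const
    exact ContDiff.sum fun j _ => contDiff_slog hε (s j)
  -- bounds for the potential
  have hple : ∀ z, ‖z‖ ≤ Rs → p z ≤ Real.log (Rs + R0) := by
    intro z hz
    have h1 : ∑ j, slog ε ‖z - s j‖ ≤ ∑ _j : Fin m, Real.log (Rs + R0) := by
      apply Finset.sum_le_sum
      intro j _
      apply slog_le_log hε (norm_nonneg _) _ hεR
      exact (norm_sub_le _ _).trans (add_le_add hz (hR0 j))
    rw [Finset.sum_const, Finset.card_univ, Fintype.card_fin, nsmul_eq_mul] at h1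
    calc p z = (1 / (m : ℝ)) * ∑ j, slog ε ‖z - s j‖ := rfl
      _ ≤ (1 / (m : ℝ)) * ((m : ℝ) * Real.log (Rs + R0)) :=
          mul_le_mul_of_nonneg_left h1 (by positivity)
      _ = Real.log (Rs + R0) := by field_simp
  have hpge : ∀ z, R2 + R0 ≤ ‖z‖ → Real.log R2 ≤ p z := by
    intro z hz
    have h1 : ∑ _j : Fin m, Real.log R2 ≤ ∑ j, slog ε ‖z - s j‖ := by
      apply Finset.sum_le_sum
      intro j _
      have h2 : R2 ≤ ‖z - s j‖ := by
        have := norm_sub_norm_le z (s j)
        linarith [hR0 j]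
      exact (Real.log_le_log hR2' h2).trans (log_le_slog hε (lt_of_lt_of_le hR2' h2))
    rw [Finset.sum_const, Finset.card_univ, Fintype.card_fin, nsmul_eq_mul] at h1
    calc Real.log R2 = (1 / (m : ℝ)) * ((m : ℝ) * Real.log R2) := by field_simp
      _ ≤ (1 / (m : ℝ)) * ∑ j, slog ε ‖z - s j‖ := mul_le_mul_of_nonneg_left h1 (by positivity)
      _ = p z := rfl
  -- the first integration by parts
  have h1 : ∫ z, fderiv ℝ ψ z (G z) = -(2 * Real.pi) := by
    rw [hGdef, ib_sum m s hε ψ hψ hψc]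
    have h2 : ∀ j, ∫ z in Metric.ball (s j) ε, ψ z = Real.pi * ε ^ 2 := by
      intro j
      have h3 : ∫ z in Metric.ball (s j) ε, ψ z = ∫ _z in Metric.ball (s j) ε, (1 : ℝ) := by
        apply setIntegral_congr_fun measurableSet_ball
        intro z hz
        rw [Metric.mem_ball, dist_eq_norm] at hz
        exact hone j z hz.le
      rw [h3, setIntegral_const, Measure.real, volume_ball_toReal _ hε, smul_eq_mul, mul_one]
    simp_rw [h2]
    rw [Finset.sum_const, Finset.card_univ, Fintype.card_fin, nsmul_eq_mul]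
    field_simp
  -- the truncated potential
  set H : ℂ → ℝ := fun z => rampInt σ (Real.log R2 - p z) with hHdef
  have hHc : ContDiff ℝ 1 H := (rampInt_contDiff σ).comp (contDiff_const.sub hpc)
  have hHs : HasCompactSupport H := by
    apply HasCompactSupport.intro (isCompact_closedBall (0 : ℂ) (R2 + R0))
    intro z hz
    rw [Metric.mem_closedBall, dist_zero_right] at hz
    apply rampInt_of_nonpos hσ
    have := hpge z (not_le.1 hz).le
    linarith
  have hHd : ∀ z, HasFDerivAt H (-(ramp σ (Real.log R2 - p z)) • innerSL ℝ (G z)) z := by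
    intro z
    have h2 : HasFDerivAt (fun z => Real.log R2 - p z) (-(innerSL ℝ (G z))) z :=
      (hpd z).const_sub (Real.log R2)
    have h3 := (rampInt_hasDerivAt σ (Real.log R2 - p z)).comp_hasFDerivAt z h2
    have h5 : -(ramp σ (Real.log R2 - p z)) • innerSL ℝ (G z) =
        ramp σ (Real.log R2 - p z) • (-(innerSL ℝ (G z))) := by
      rw [smul_neg, neg_smul]
    rw [h5]
    exact h3
  have hHG : ∀ z, fderiv ℝ H z (G z) = -(ramp σ (Real.log R2 - p z) * ‖G z‖ ^ 2) := by
    intro z
    rw [(hHd z).fderiv]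
    simp only [smul_apply, innerSL_apply_apply, smul_eq_mul,
      real_inner_self_eq_norm_sq]
    ring
  have h4 : ∫ z, ramp σ (Real.log R2 - p z) * ‖G z‖ ^ 2 =
      (2 / ε ^ 2) * ((1 / (m : ℝ)) * ∑ j, ∫ z in Metric.ball (s j) ε, H z) := by
    have h5 := ib_sum m s hε H hHc hHs
    have h6 : ∫ z, fderiv ℝ H z ((1 / (m : ℝ)) • ∑ j, vf ε (s j) z) =
        ∫ z, -(ramp σ (Real.log R2 - p z) * ‖G z‖ ^ 2) := by
      apply integral_congr_ae
      exact Filter.Eventually.of_forall hHG
    rw [h6, integral_neg] at h5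
    linarith
  set Q : ℝ := ∫ z in Metric.closedBall (0 : ℂ) Rs, ‖G z‖ ^ 2 with hQdef
  have hrc : Continuous (fun z => ramp σ (Real.log R2 - p z) * ‖G z‖ ^ 2) :=
    ((ramp_continuous σ).comp (continuous_const.sub hpc.continuous)).mul (hGc.norm.pow 2)
  have hri : Integrable (fun z => ramp σ (Real.log R2 - p z) * ‖G z‖ ^ 2) := by
    apply hrc.integrable_of_hasCompactSupport
    apply HasCompactSupport.intro (isCompact_closedBall (0 : ℂ) (R2 + R0))
    intro z hz
    rw [Metric.mem_closedBall, dist_zero_right] at hz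
    rw [ramp_of_nonpos hσ, zero_mul]
    have := hpge z (not_le.1 hz).le
    linarith
  have hQ1 : Q ≤ ∫ z, ramp σ (Real.log R2 - p z) * ‖G z‖ ^ 2 := by
    have h5 : Q = ∫ z in Metric.closedBall (0 : ℂ) Rs, ramp σ (Real.log R2 - p z) * ‖G z‖ ^ 2 := by
      apply setIntegral_congr_fun measurableSet_closedBall
      intro z hz
      rw [Metric.mem_closedBall, dist_zero_right] at hz
      have h6 : ramp σ (Real.log R2 - p z) = 1 := by
        apply ramp_of_ge hσ
        have := hple z hz
        linarith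
      simp only [h6, one_mul]
    rw [h5]
    apply setIntegral_le_integral hri
    exact Filter.Eventually.of_forall fun z => mul_nonneg (ramp_nonneg _ _) (by positivity)
  -- upper bound of the integrals of `H` over the discs
  set c : Fin m → Fin m → ℝ := fun j i => if i = j then Real.log ε - 1 / 2
    else Real.log ‖s j - s i‖ with hcdef
  have hHb : ∀ j, ∫ z in Metric.ball (s j) ε, H z ≤
      Real.pi * ε ^ 2 * (Real.log R2 - (1 / (m : ℝ)) * ∑ i, c j i) := by
    intro j
    have h5 : ∫ z in Metric.ball (s j) ε, H z ≤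
        ∫ z in Metric.ball (s j) ε, (Real.log R2 - p z) := by
      apply setIntegral_mono_on
      · exact integrableOn_ball hHc.continuous _ _
      · exact integrableOn_ball (continuous_const.sub hpc.continuous) _ _
      · exact measurableSet_ball
      · intro z hz
        rw [Metric.mem_ball, dist_eq_norm] at hz
        apply rampInt_le
        have := hple z (hin j z hz.le).le
        linarith
    refine h5.trans ?_
    have h6 : ∫ z in Metric.ball (s j) ε, (Real.log R2 - p z) =
        Real.pi * ε ^ 2 * Real.log R2 -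
          (1 / (m : ℝ)) * ∑ i, ∫ z in Metric.ball (s j) ε, slog ε ‖z - s i‖ := by
      rw [integral_sub (integrableOn_ball continuous_const _ _)
        (integrableOn_ball hpc.continuous _ _)]
      rw [setIntegral_const, Measure.real, volume_ball_toReal _ hε, smul_eq_mul]
      congr 1
      rw [hpdef]
      simp only
      rw [integral_const_mul, integral_finsetSum _ (fun i _ =>
        integrableOn_ball (continuous_slog_dist hε (s i)) (s j) ε)]
    rw [h6]
    have h7 : ∑ i, Real.pi * ε ^ 2 * c j i ≤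
        ∑ i, ∫ z in Metric.ball (s j) ε, slog ε ‖z - s i‖ := by
      apply Finset.sum_le_sum
      intro i _
      by_cases hij : i = j
      · simp only [hcdef, if_pos hij]
        exact slog_ball_diag hε (s i) (s j)
      · simp only [hcdef, if_neg hij]
        exact slog_ball_offdiag hε (s i) (s j) (fun h => hij (hs h).symm)
    rw [← Finset.mul_sum] at h7
    have h8 : (1 / (m : ℝ)) * (Real.pi * ε ^ 2 * ∑ i, c j i) ≤
        (1 / (m : ℝ)) * ∑ i, ∫ z in Metric.ball (s j) ε, slog ε ‖z - s i‖ :=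
      mul_le_mul_of_nonneg_left h7 (by positivity)
    calc _ ≤ Real.pi * ε ^ 2 * Real.log R2 - (1 / (m : ℝ)) * (Real.pi * ε ^ 2 * ∑ i, c j i) := by
          linarith
      _ = _ := by ring
  -- the bracket
  set Br : ℝ := Real.log R2 - (1 / (m : ℝ) ^ 2) * ∑ i, ∑ j ∈ Finset.univ.erase i,
    Real.log ‖s i - s j‖ + (1 / (m : ℝ)) * (1 / 2 - Real.log ε) with hBrdef
  have hcsum : ∑ j, ∑ i, c j i = (∑ i, ∑ j ∈ Finset.univ.erase i, Real.log ‖s i - s j‖) +
      (m : ℝ) * (Real.log ε - 1 / 2) := by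
    have h5 : ∀ j, ∑ i, c j i = (∑ i ∈ Finset.univ.erase j, Real.log ‖s j - s i‖) +
        (Real.log ε - 1 / 2) := by
      intro j
      rw [← Finset.sum_erase_add _ _ (Finset.mem_univ j)]
      congr 1
      · apply Finset.sum_congr rfl
        intro i hi
        simp only [hcdef, if_neg (Finset.ne_of_mem_erase hi)]
      · simp only [hcdef, if_true]
    simp_rw [h5]
    rw [Finset.sum_add_distrib, Finset.sum_const, Finset.card_univ, Fintype.card_fin,
      nsmul_eq_mul]
  have hQ2 : Q ≤ 2 * Real.pi * Br := by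
    have h5 : ∑ j, ∫ z in Metric.ball (s j) ε, H z ≤
        ∑ j, Real.pi * ε ^ 2 * (Real.log R2 - (1 / (m : ℝ)) * ∑ i, c j i) :=
      Finset.sum_le_sum fun j _ => hHb j
    have h6 : ∑ j, Real.pi * ε ^ 2 * (Real.log R2 - (1 / (m : ℝ)) * ∑ i, c j i) =
        Real.pi * ε ^ 2 * ((m : ℝ) * Real.log R2 - (1 / (m : ℝ)) * ∑ j, ∑ i, c j i) := by
      rw [← Finset.mul_sum, Finset.sum_sub_distrib, ← Finset.mul_sum, Finset.sum_const,
        Finset.card_univ, Fintype.card_fin, nsmul_eq_mul]
    rw [h6, hcsum] at h5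
    have h7 : (2 / ε ^ 2) * ((1 / (m : ℝ)) * ∑ j, ∫ z in Metric.ball (s j) ε, H z) ≤
        (2 / ε ^ 2) * ((1 / (m : ℝ)) * (Real.pi * ε ^ 2 * ((m : ℝ) * Real.log R2 -
          (1 / (m : ℝ)) * ((∑ i, ∑ j ∈ Finset.univ.erase i, Real.log ‖s i - s j‖) +
      (m : ℝ) * (Real.log ε - 1 / 2))))) := by
      apply mul_le_mul_of_nonneg_left _ (by positivity)
      exact mul_le_mul_of_nonneg_left h5 (by positivity)
    refine hQ1.trans (h4.le.trans (h7.trans (le_of_eq ?_)))
    rw [hBrdef]
    field_simp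
    ring
  -- Cauchy-Schwarz through the arithmetic-geometric inequality
  set E : ℝ := ∫ w, ‖fderiv ℝ ψ w‖ ^ 2 with hEdef
  have hE0 : 0 ≤ E := integral_nonneg fun w => by positivity
  have hψd : Continuous (fderiv ℝ ψ) := hψ.continuous_fderiv one_ne_zero
  have hE1 : Integrable (fun w => ‖fderiv ℝ ψ w‖ ^ 2) := by
    apply (hψd.norm.pow 2).integrable_of_hasCompactSupport
    refine (hψc.fderiv ℝ).mono ?_
    intro z hz
    rw [Function.mem_support] at hz ⊢
    intro h0
    apply hz
    simp [h0]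
  have hfz : ∀ z, z ∉ Metric.closedBall (0 : ℂ) Rs → fderiv ℝ ψ z = 0 := by
    intro z hz
    have h5 : ψ =ᶠ[nhds z] fun _ => 0 := by
      have h6 : (Metric.closedBall (0 : ℂ) Rs)ᶜ ∈ nhds z :=
        Metric.isClosed_closedBall.isOpen_compl.mem_nhds hz
      filter_upwards [h6] with w hw
      apply hsupp
      rw [Set.mem_compl_iff, Metric.mem_closedBall, dist_zero_right] at hw
      exact (not_le.1 hw).le
    rw [h5.fderiv_eq]
    simp
  have hind : Integrable ((Metric.closedBall (0 : ℂ) Rs).indicator (fun z => ‖G z‖ ^ 2)) := by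
    rw [integrable_indicator_iff measurableSet_closedBall]
    exact (hGc.norm.pow 2).continuousOn.integrableOn_compact (isCompact_closedBall _ _)
  have hQi : ∫ z, (Metric.closedBall (0 : ℂ) Rs).indicator (fun z => ‖G z‖ ^ 2) z = Q :=
    integral_indicator measurableSet_closedBall
  have hkey : ∀ t : ℝ, 0 < t → 2 * Real.pi ≤ t / 2 * E + 1 / (2 * t) * Q := by
    intro t ht
    have h5 : ∫ z, -(fderiv ℝ ψ z (G z)) ≤
        ∫ z, (t / 2 * ‖fderiv ℝ ψ z‖ ^ 2 +
          1 / (2 * t) * (Metric.closedBall (0 : ℂ) Rs).indicator (fun z => ‖G z‖ ^ 2) z) := by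
      apply integral_mono
      · apply Integrable.neg
        rw [hGdef]
        apply Continuous.integrable_of_hasCompactSupport
        · exact hψd.clm_apply hGc
        · refine (hψc.fderiv ℝ).mono ?_
          intro z hz
          rw [Function.mem_support] at hz ⊢
          intro h0
          apply hz
          rw [h0]
          rfl
      · exact (hE1.const_mul _).add (hind.const_mul _)
      · intro z
        show -(fderiv ℝ ψ z (G z)) ≤ t / 2 * ‖fderiv ℝ ψ z‖ ^ 2 +
          1 / (2 * t) * (Metric.closedBall (0 : ℂ) Rs).indicator (fun z => ‖G z‖ ^ 2) z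
        by_cases hz : z ∈ Metric.closedBall (0 : ℂ) Rs
        · rw [Set.indicator_of_mem hz]
          have h6 : -(fderiv ℝ ψ z (G z)) ≤ ‖fderiv ℝ ψ z‖ * ‖G z‖ := by
            refine le_trans (neg_le_abs _) ?_
            exact (fderiv ℝ ψ z).le_opNorm (G z)
          refine h6.trans ?_
          set x := ‖fderiv ℝ ψ z‖
          set y := ‖G z‖
          have h7 : 0 ≤ (t * x - y) ^ 2 / (2 * t) := by positivity
          have h8 : t / 2 * x ^ 2 + 1 / (2 * t) * y ^ 2 - x * y = (t * x - y) ^ 2 / (2 * t) := by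
            field_simp
            ring
          linarith
        · rw [Set.indicator_of_notMem hz, hfz z hz]
          simp
    rw [integral_neg, h1, neg_neg, integral_add (hE1.const_mul _) (hind.const_mul _),
      integral_const_mul, integral_const_mul, hQi] at h5
    exact h5
  rcases hE0.eq_or_lt with hE | hE
  · exfalso
    have h5 := hkey (|Br| + 1) (by positivity)
    rw [← hE] at h5
    have h6 : 1 / (2 * (|Br| + 1)) * Q ≤ 1 / (2 * (|Br| + 1)) * (2 * Real.pi * Br) :=
      mul_le_mul_of_nonneg_left hQ2 (by positivity)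
    have h7 : 1 / (2 * (|Br| + 1)) * (2 * Real.pi * Br) = Real.pi * (Br / (|Br| + 1)) := by
      field_simp
    have h8 : Br / (|Br| + 1) ≤ 1 := by
      rw [div_le_one (by positivity)]
      linarith [le_abs_self Br]
    have h9 : Real.pi * (Br / (|Br| + 1)) ≤ Real.pi * 1 := mul_le_mul_of_nonneg_left h8 hpi.le
    linarith
  · have h5 := hkey (2 * Real.pi / E) (by positivity)
    have h6 : 1 / (2 * (2 * Real.pi / E)) * Q ≤ 1 / (2 * (2 * Real.pi / E)) * (2 * Real.pi * Br) :=
      mul_le_mul_of_nonneg_left hQ2 (by positivity)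
    have h7 : 1 / (2 * (2 * Real.pi / E)) * (2 * Real.pi * Br) = E * Br / 2 := by
      field_simp
    have h8 : 2 * Real.pi / E / 2 * E = Real.pi := by
      field_simp
    rw [h8] at h5
    linarith

end Pool.MP_31392c_an
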