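import Pool.Agent.Lib.MP_31392c_an.Core

set_option autoImplicit false

open MeasureTheory Complex Filter Topology Pointwise

namespace Pool.MP_31392c_an

/-- radial map with profile `h` -/
noncomputable def radial (h : ℝ → ℝ) (z : ℂ) : ℂ := ((h ‖z‖ / ‖z‖ : ℝ) : ℂ) * z

theorem norm_radial {h : ℝ → ℝ} (h0 : h 0 = 0) (hn : ∀ r, 0 ≤ r → 0 ≤ h r) (z : ℂ) :
    ‖radial h z‖ = h ‖z‖ := by
  unfold radial
  rw [norm_mul, Complex.norm_real, Real.norm_eq_abs,
    abs_of_nonneg (div_nonneg (hn _ (norm_nonneg _)) (norm_nonneg _))]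
  by_cases hz : ‖z‖ = 0
  · rw [hz]; simp [h0]
  · field_simp

theorem radial_polar {h : ℝ → ℝ} (h0 : h 0 = 0) {r : ℝ} (hr : 0 ≤ r) (θ : ℝ) :
    radial h ((r : ℂ) * exp ((θ : ℂ) * I)) = (h r : ℂ) * exp ((θ : ℂ) * I) := by
  unfold radial
  have e : ‖(r : ℂ) * exp ((θ : ℂ) * I)‖ = r := by
    rw [norm_mul, Complex.norm_exp_ofReal_mul_I, mul_one, Complex.norm_real, Real.norm_eq_abs,
      abs_of_nonneg hr]
  rw [e, ← mul_assoc, ← Complex.ofReal_mul]
  by_cases hz : r = 0
  · rw [hz]; simp [h0]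
  · congr 2
    field_simp

/-- a radial map with a nondecreasing `1`-Lipschitz profile `h(r) ≤ r` is a contraction -/
theorem radial_contraction {h : ℝ → ℝ} (h0 : h 0 = 0)
    (hmono : ∀ r s, 0 ≤ r → r ≤ s → h r ≤ h s) (hlip : ∀ r s, 0 ≤ r → r ≤ s → h s - h r ≤ s - r)
    (z w : ℂ) : ‖radial h z - radial h w‖ ≤ ‖z - w‖ := by
  have hn : ∀ r, 0 ≤ r → 0 ≤ h r := fun r hr => by
    have := hmono 0 r le_rfl hr; rwa [h0] at this
  have hle : ∀ r, 0 ≤ r → h r ≤ r := fun r hr => by
    have := hlip 0 r le_rfl hr; rw [h0] at this; linarith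
  -- squares
  have key : ‖radial h z - radial h w‖ ^ 2 ≤ ‖z - w‖ ^ 2 := by
    have e1 : ‖radial h z - radial h w‖ ^ 2 =
        (h ‖z‖ - h ‖w‖) ^ 2 + 2 * (h ‖z‖ * h ‖w‖ - inner ℝ (radial h z) (radial h w)) := by
      rw [norm_sub_sq_real, norm_radial h0 hn, norm_radial h0 hn]; ring
    have e2 : ‖z - w‖ ^ 2 = (‖z‖ - ‖w‖) ^ 2 + 2 * (‖z‖ * ‖w‖ - inner ℝ z w) := by
      rw [norm_sub_sq_real]; ring
    have e3 : (h ‖z‖ - h ‖w‖) ^ 2 ≤ (‖z‖ - ‖w‖) ^ 2 := by
      rw [sq_le_sq]
      rcases le_total ‖z‖ ‖w‖ with hc | hc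
      · have h1 := hmono _ _ (norm_nonneg z) hc
        have h2 := hlip _ _ (norm_nonneg z) hc
        rw [abs_of_nonpos (by linarith), abs_of_nonpos (by linarith)]
        linarith
      · have h1 := hmono _ _ (norm_nonneg w) hc
        have h2 := hlip _ _ (norm_nonneg w) hc
        rw [abs_of_nonneg (by linarith), abs_of_nonneg (by linarith)]
        linarith
    have e4 : h ‖z‖ * h ‖w‖ - inner ℝ (radial h z) (radial h w) ≤
        ‖z‖ * ‖w‖ - inner ℝ z w := by
      have hin : inner ℝ (radial h z) (radial h w) =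
          (h ‖z‖ / ‖z‖) * (h ‖w‖ / ‖w‖) * inner ℝ z w := by
        have r1 : radial h z = (h ‖z‖ / ‖z‖) • z := by
          unfold radial; rw [Complex.real_smul]
        have r2 : radial h w = (h ‖w‖ / ‖w‖) • w := by
          unfold radial; rw [Complex.real_smul]
        rw [r1, r2, real_inner_smul_left, real_inner_smul_right]; ring
      rw [hin]
      by_cases hz : ‖z‖ = 0
      · rw [hz]; simp only [h0, zero_mul, zero_div, sub_zero, zero_sub]
        have : inner ℝ z w = 0 := by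
          rw [norm_eq_zero] at hz; rw [hz]; simp
        rw [this]; simp
      by_cases hw : ‖w‖ = 0
      · rw [hw]; simp only [h0, mul_zero, zero_div, zero_mul, sub_zero, zero_sub]
        have : inner ℝ z w = 0 := by
          rw [norm_eq_zero] at hw; rw [hw]; simp
        rw [this]; simp
      have hz' : 0 < ‖z‖ := lt_of_le_of_ne (norm_nonneg z) (Ne.symm hz)
      have hw' : 0 < ‖w‖ := lt_of_le_of_ne (norm_nonneg w) (Ne.symm hw)
      have c1 : h ‖z‖ / ‖z‖ ≤ 1 := by rw [div_le_one hz']; exact hle _ hz'.le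
      have c2 : h ‖w‖ / ‖w‖ ≤ 1 := by rw [div_le_one hw']; exact hle _ hw'.le
      have c1' : 0 ≤ h ‖z‖ / ‖z‖ := div_nonneg (hn _ hz'.le) hz'.le
      have c2' : 0 ≤ h ‖w‖ / ‖w‖ := div_nonneg (hn _ hw'.le) hw'.le
      have hprod : h ‖z‖ * h ‖w‖ = (h ‖z‖ / ‖z‖) * (h ‖w‖ / ‖w‖) * (‖z‖ * ‖w‖) := by
        field_simp
      rw [hprod, ← mul_sub]
      have hnn : 0 ≤ ‖z‖ * ‖w‖ - inner ℝ z w := by
        have := real_inner_le_norm z w
        linarith
      have hc : (h ‖z‖ / ‖z‖) * (h ‖w‖ / ‖w‖) ≤ 1 := mul_le_one₀ c1 c2' c2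
      calc (h ‖z‖ / ‖z‖) * (h ‖w‖ / ‖w‖) * (‖z‖ * ‖w‖ - inner ℝ z w)
          ≤ 1 * (‖z‖ * ‖w‖ - inner ℝ z w) := mul_le_mul_of_nonneg_right hc hnn
        _ = _ := one_mul _
    rw [e1, e2]
    linarith
  exact (pow_le_pow_iff_left₀ (norm_nonneg _) (norm_nonneg _) two_ne_zero).mp key

theorem continuous_radial {h : ℝ → ℝ} (h0 : h 0 = 0)
    (hmono : ∀ r s, 0 ≤ r → r ≤ s → h r ≤ h s) (hlip : ∀ r s, 0 ≤ r → r ≤ s → h s - h r ≤ s - r) :
    Continuous (radial h) := by
  have : LipschitzWith 1 (radial h) := LipschitzWith.of_dist_le_mul fun z w => by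
    rw [dist_eq_norm, dist_eq_norm, NNReal.coe_one, one_mul]
    exact radial_contraction h0 hmono hlip z w
  exact this.continuous

theorem rayMeasure_smul {c : ℝ} (hc : 0 < c) (E : Set ℂ) (θ : ℝ) :
    rayMeasure ((fun z : ℂ => (c : ℂ) * z) '' E) θ = c * rayMeasure E θ := by
  unfold rayMeasure
  have e : {t : ℝ | 0 ≤ t ∧ (t : ℂ) * exp ((θ : ℂ) * I) ∈ (fun z : ℂ => (c : ℂ) * z) '' E} =
      c • {t : ℝ | 0 ≤ t ∧ (t : ℂ) * exp ((θ : ℂ) * I) ∈ E} := by
    ext t
    simp only [Set.mem_ofPred_eq, Set.mem_image, Set.mem_smul_set, smul_eq_mul]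
    constructor
    · rintro ⟨ht, z, hz, hzt⟩
      refine ⟨t / c, ⟨div_nonneg ht hc.le, ?_⟩, by field_simp⟩
      have hcc : (c : ℂ) ≠ 0 := by exact_mod_cast hc.ne'
      have : ((t / c : ℝ) : ℂ) * exp ((θ : ℂ) * I) = z := by
        push_cast
        rw [div_mul_eq_mul_div, ← hzt]
        field_simp
      rw [this]; exact hz
    · rintro ⟨s, ⟨hs, hsE⟩, rfl⟩
      refine ⟨mul_nonneg hc.le hs, _, hsE, ?_⟩
      push_cast; ring
  rw [e, Measure.addHaar_smul]
  simp [ENNReal.toReal_mul, abs_of_pos hc, hc.le]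

theorem LR_smul {c : ℝ} (hc : 0 < c) (E : Set ℂ) :
    (fun z : ℂ => (c : ℂ) * z) '' (LR E) ⊆ LR ((fun z : ℂ => (c : ℂ) * z) '' E) := by
  rintro _ ⟨_, ⟨r, θ, h0, h1, rfl⟩, rfl⟩
  refine ⟨c * r, θ, mul_nonneg hc.le h0, ?_, ?_⟩
  · rw [rayMeasure_smul hc]
    exact mul_le_mul_of_nonneg_left h1 hc.le
  · push_cast; ring

/-- the range `R0 = e² ρ` -/
theorem core_closed (E : Set ℂ) (hE : IsCompact E) {ρ R0 : ℝ} (hρ : 0 < ρ)
    (hball : Metric.closedBall (0 : ℂ) ρ ⊆ E) (hR0 : ∀ z ∈ E, ‖z‖ ≤ R0)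
    (hrange : R0 ≤ Real.exp 2 * ρ) : tcap (LR E) ≤ tcap E := by
  have hR0' : ρ ≤ R0 := by
    have := hR0 _ (hball (show (ρ : ℂ) ∈ Metric.closedBall 0 ρ by simp [abs_of_pos hρ]))
    rwa [Complex.norm_real, Real.norm_eq_abs, abs_of_pos hρ] at this
  have main : ∀ c : ℝ, 0 < c → c < 1 → c * tcap (LR E) ≤ tcap E := by
    intro c hc hc1
    set S : ℂ → ℂ := fun z : ℂ => (c : ℂ) * z with hS
    set F := S '' E ∪ Metric.closedBall (0 : ℂ) ρ with hF
    have hScont : Continuous S := by fun_prop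
    have hFc : IsCompact F := (hE.image hScont).union (isCompact_closedBall _ _)
    have hnormS : ∀ z, ‖S z‖ = c * ‖z‖ := by
      intro z
      rw [hS]; simp only [norm_mul, Complex.norm_real, Real.norm_eq_abs, abs_of_pos hc]
    have hFR : ∀ z ∈ F, ‖z‖ ≤ max (c * R0) ρ := by
      rintro z (⟨w, hw, rfl⟩ | hz)
      · rw [hnormS]
        exact (mul_le_mul_of_nonneg_left (hR0 w hw) hc.le).trans (le_max_left _ _)
      · exact (by simpa using hz : ‖z‖ ≤ ρ).trans (le_max_right _ _)
    have hFlt : max (c * R0) ρ < Real.exp 2 * ρ := by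
      apply max_lt
      · have : c * R0 < 1 * R0 := mul_lt_mul_of_pos_right hc1 (by linarith)
        linarith
      · have : (1 : ℝ) < Real.exp 2 := by
          have := Real.add_one_lt_exp (show (2 : ℝ) ≠ 0 by norm_num)
          linarith
        nlinarith
    have h1 : tcap (LR F) ≤ tcap F := core F hFc hρ Set.subset_union_right hFR hFlt
    have h2 : c * tcap (LR E) ≤ tcap (LR F) := by
      rw [← tcap_smul c hc.le (LR E) (LR_bounded hE.isBounded)]
      apply tcap_mono (LR_bounded hFc.isBounded)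
      exact (LR_smul hc E).trans (LR_mono hFc.isBounded Set.subset_union_left)
    -- `F` is contained in a contraction of `E`
    have h3 : tcap F ≤ tcap E := by
      set h : ℝ → ℝ := fun r => min r (max ρ (c * r)) with hh
      have h0 : h 0 = 0 := by
        simp only [hh, mul_zero]
        rw [min_eq_left]
        exact hρ.le.trans (le_max_left _ _)
      have hmono : ∀ r s, 0 ≤ r → r ≤ s → h r ≤ h s := by
        intro r s _ hrs
        simp only [hh]
        have : c * r ≤ c * s := mul_le_mul_of_nonneg_left hrs hc.le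
        exact min_le_min hrs (max_le_max le_rfl this)
      have hlip : ∀ r s, 0 ≤ r → r ≤ s → h s - h r ≤ s - r := by
        intro r s _ hrs
        simp only [hh]
        have hcs : c * s - c * r ≤ s - r := by nlinarith
        rcases min_choice r (max ρ (c * r)) with hm | hm
        · rw [hm]
          have := min_le_left s (max ρ (c * s))
          linarith
        · rw [hm]
          have h5 := min_le_right s (max ρ (c * s))
          rcases max_choice ρ (c * s) with hm2 | hm2
          · have := le_max_left ρ (c * r)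
            linarith
          · have := le_max_right ρ (c * r)
            linarith
      apply tcap_le_of_contraction hE.isBounded (radial h)
        (fun z _ w _ => radial_contraction h0 hmono hlip z w)
      rintro z (⟨w, hw, rfl⟩ | hz)
      · by_cases hcase : ‖S w‖ ≤ ρ
        · -- fixed by the radial map
          refine ⟨S w, hball (by simpa using hcase), ?_⟩
          unfold radial
          have : h ‖S w‖ = ‖S w‖ := by
            simp only [hh]
            rw [min_eq_left]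
            exact hcase.trans (le_max_left _ _)
          rw [this]
          by_cases hz0 : ‖S w‖ = 0
          · rw [norm_eq_zero] at hz0
            rw [hz0]; simp
          · rw [div_self hz0]; simp
        · push Not at hcase
          refine ⟨w, hw, ?_⟩
          rw [hnormS] at hcase
          have hw0 : 0 < ‖w‖ := by
            by_contra hcon
            have : ‖w‖ = 0 := le_antisymm (not_lt.mp hcon) (norm_nonneg _)
            rw [this] at hcase
            linarith
          have e : h ‖w‖ = c * ‖w‖ := by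
            simp only [hh]
            rw [max_eq_right hcase.le, min_eq_right]
            nlinarith
          unfold radial
          rw [e, hS]
          simp only
          rw [mul_div_assoc, div_self hw0.ne', mul_one]
      · refine ⟨z, hball hz, ?_⟩
        have hzρ : ‖z‖ ≤ ρ := by simpa using hz
        unfold radial
        have : h ‖z‖ = ‖z‖ := by
          simp only [hh]
          rw [min_eq_left]
          exact hzρ.trans (le_max_left _ _)
        rw [this]
        by_cases hz0 : ‖z‖ = 0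
        · rw [norm_eq_zero] at hz0
          rw [hz0]; simp
        · rw [div_self hz0]; simp
    exact h2.trans (h1.trans h3)
  -- let c → 1
  have hlim : Tendsto (fun c : ℝ => c * tcap (LR E)) (𝓝[<] 1) (𝓝 (1 * tcap (LR E))) := by
    have : ContinuousAt (fun c : ℝ => c * tcap (LR E)) 1 := by fun_prop
    exact this.tendsto.mono_left nhdsWithin_le_nhds
  have := le_of_tendsto hlim (by
    have h1 : ∀ᶠ c : ℝ in 𝓝[<] 1, c ∈ Set.Ioo (0 : ℝ) 1 := Ioo_mem_nhdsLT (by norm_num)
    filter_upwards [h1] with c hc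
    exact main c hc.1 hc.2)
  rwa [one_mul] at this

/-- main theorem, annulus form -/
theorem annulus (E : Set ℂ) (hE : IsCompact E) {ρ R₁ R₂ : ℝ} (hρ : 0 < ρ) (hρR : ρ ≤ R₁)
    (hR : R₂ ≤ R₁ + (Real.exp 2 - 1) * ρ)
    (hsub : ∀ z ∈ E, ‖z‖ ≤ ρ ∨ (R₁ ≤ ‖z‖ ∧ ‖z‖ ≤ R₂)) :
    tcap (LR E) ≤ tcap (E ∪ Metric.closedBall 0 ρ) := by
  set F := E ∪ Metric.closedBall (0 : ℂ) ρ with hF
  have hFc : IsCompact F := hE.union (isCompact_closedBall _ _)
  have hFsub : ∀ z ∈ F, ‖z‖ ≤ ρ ∨ (R₁ ≤ ‖z‖ ∧ ‖z‖ ≤ R₂) := by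
    rintro z (hz | hz)
    · exact hsub z hz
    · left; simpa using hz
  set d := R₁ - ρ with hd
  have hd0 : 0 ≤ d := by rw [hd]; linarith
  set h : ℝ → ℝ := fun r => min r (max ρ (r - d)) with hh
  have h0 : h 0 = 0 := by
    simp only [hh]
    rw [min_eq_left]
    exact hρ.le.trans (le_max_left _ _)
  have hmono : ∀ r s, 0 ≤ r → r ≤ s → h r ≤ h s := by
    intro r s _ hrs
    simp only [hh]
    exact min_le_min hrs (max_le_max le_rfl (by linarith))
  have hlip : ∀ r s, 0 ≤ r → r ≤ s → h s - h r ≤ s - r := by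
    intro r s _ hrs
    simp only [hh]
    rcases min_choice r (max ρ (r - d)) with hm | hm
    · rw [hm]
      have := min_le_left s (max ρ (s - d))
      linarith
    · rw [hm]
      have h5 := min_le_right s (max ρ (s - d))
      rcases max_choice ρ (s - d) with hm2 | hm2
      · have := le_max_left ρ (r - d)
        linarith
      · have := le_max_right ρ (r - d)
        linarith
  have hsmall : ∀ r, r ≤ ρ → h r = r := by
    intro r hr
    simp only [hh]
    rw [min_eq_left]
    exact hr.trans (le_max_left _ _)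
  have hlarge : ∀ r, R₁ ≤ r → h r = r - d := by
    intro r hr
    simp only [hh]
    have : ρ ≤ r - d := by rw [hd]; linarith
    rw [max_eq_right this, min_eq_right]
    linarith
  set G := radial h '' F with hG
  have hcont := continuous_radial h0 hmono hlip
  have hGc : IsCompact G := hFc.image hcont
  have hn : ∀ r, 0 ≤ r → 0 ≤ h r := fun r hr => by
    have := hmono 0 r le_rfl hr; rwa [h0] at this
  have hfix : ∀ z : ℂ, ‖z‖ ≤ ρ → radial h z = z := by
    intro z hz
    unfold radial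
    rw [hsmall _ hz]
    by_cases hz0 : ‖z‖ = 0
    · rw [norm_eq_zero] at hz0
      rw [hz0]; simp
    · rw [div_self hz0]; simp
  have hGball : Metric.closedBall (0 : ℂ) ρ ⊆ G := by
    intro z hz
    exact ⟨z, Or.inr hz, hfix z (by simpa using hz)⟩
  have hGR : ∀ z ∈ G, ‖z‖ ≤ Real.exp 2 * ρ := by
    have he : (1 : ℝ) ≤ Real.exp 2 := Real.one_le_exp (by norm_num)
    rintro _ ⟨z, hz, rfl⟩
    rw [norm_radial h0 hn]
    rcases hFsub z hz with h1 | ⟨h1, h2⟩
    · rw [hsmall _ h1]
      nlinarith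
    · rw [hlarge _ h1, hd]
      nlinarith
  have hcoreG : tcap (LR G) ≤ tcap G := core_closed G hGc hρ hGball hGR le_rfl
  have hGF : tcap G ≤ tcap F := tcap_le_of_contraction hFc.isBounded (radial h)
    (fun z _ w _ => radial_contraction h0 hmono hlip z w) le_rfl
  have hLR : LR E ⊆ LR G := by
    rintro _ ⟨r, θ, hr0, hr1, rfl⟩
    refine ⟨r, θ, hr0, hr1.trans ?_, rfl⟩
    -- compare ray measures
    unfold rayMeasure
    apply ENNReal.toReal_mono (raySet_lt_top hGc.isBounded θ).ne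
    set A := {t : ℝ | 0 ≤ t ∧ (t : ℂ) * exp ((θ : ℂ) * I) ∈ E} with hA
    set B := {t : ℝ | 0 ≤ t ∧ (t : ℂ) * exp ((θ : ℂ) * I) ∈ G} with hB
    have hAsub : A ⊆ Set.Icc 0 ρ ∪ (A ∩ Set.Ici R₁) := by
      rintro t ⟨ht0, htE⟩
      have := hsub _ htE
      rw [norm_polar t θ ht0] at this
      rcases this with h1 | ⟨h1, _⟩
      · exact Or.inl ⟨ht0, h1⟩
      · exact Or.inr ⟨⟨ht0, htE⟩, h1⟩
    have hBsup : Set.Ico 0 ρ ∪ ((fun t => t - d) '' (A ∩ Set.Ici R₁)) ⊆ B := by
      rintro t (⟨h1, h2⟩ | ⟨s, ⟨⟨hs0, hsE⟩, hs1⟩, rfl⟩)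
      · refine ⟨h1, hGball ?_⟩
        rw [Metric.mem_closedBall, dist_zero_right, norm_polar t θ h1]
        exact h2.le
      · have hs1' : R₁ ≤ s := hs1
        refine ⟨by simp only; rw [hd]; linarith, ?_⟩
        refine ⟨(s : ℂ) * exp ((θ : ℂ) * I), Or.inl hsE, ?_⟩
        rw [radial_polar h0 hs0, hlarge _ hs1']
    have hdisj : Disjoint (Set.Ico 0 ρ) ((fun t => t - d) '' (A ∩ Set.Ici R₁)) := by
      rw [Set.disjoint_left]
      rintro t ⟨_, h2⟩ ⟨s, ⟨_, hs1⟩, hst⟩
      have hs1' : R₁ ≤ s := hs1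
      simp only at hst
      rw [hd] at hst
      linarith
    calc volume A ≤ volume (Set.Icc 0 ρ ∪ (A ∩ Set.Ici R₁)) := measure_mono hAsub
      _ ≤ volume (Set.Icc 0 ρ) + volume (A ∩ Set.Ici R₁) := measure_union_le _ _
      _ = volume (Set.Ico 0 ρ) + volume ((fun t => t - d) '' (A ∩ Set.Ici R₁)) := by
          rw [Real.volume_Icc, Real.volume_Ico]
          congr 1
          have : (fun t : ℝ => t - d) '' (A ∩ Set.Ici R₁) =
              (fun t : ℝ => t + d) ⁻¹' (A ∩ Set.Ici R₁) := by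
            ext t
            simp only [Set.mem_image, Set.mem_preimage]
            constructor
            · rintro ⟨s, hs, rfl⟩
              rwa [sub_add_cancel]
            · intro ht
              exact ⟨t + d, ht, by ring⟩
          rw [this, measure_preimage_add_right]
      _ = volume (Set.Ico 0 ρ ∪ ((fun t => t - d) '' (A ∩ Set.Ici R₁))) := by
          rw [measure_union' hdisj measurableSet_Ico]
      _ ≤ volume B := measure_mono hBsup
  calc tcap (LR E) ≤ tcap (LR G) := tcap_mono (LR_bounded hGc.isBounded) hLR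
    _ ≤ tcap G := hcoreG
    _ ≤ tcap F := hGF

end Pool.MP_31392c_an
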