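import Pool.Agent.Lib.MP_31392c_an.Defs

set_option autoImplicit false

open MeasureTheory Complex

namespace Pool.MP_31392c_an

theorem integrableOn_log_disc (a z : ℂ) (ε : ℝ) :
    IntegrableOn (fun w : ℂ => Real.log ‖w - a‖) (Metric.closedBall z ε) := by
  have h1 : IntegrableOn (fun w : ℂ => Real.log ‖w‖) (Metric.ball 0 (ε + ‖z - a‖ + 1)) := by
    rw [integrableOn_fun_norm_addHaar, Complex.finrank_real_complex]
    have hc : Continuous fun y : ℝ => y ^ (2 - 1) • Real.log y := by
      have : (fun y : ℝ => y ^ (2 - 1) • Real.log y) = fun y => y * Real.log y := by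
        funext y
        simp
      rw [this]
      exact Real.continuous_mul_log
    exact (hc.continuousOn.integrableOn_Icc (a := 0) (b := ε + ‖z - a‖ + 1)).mono_set
      Set.Ioo_subset_Icc_self
  have h2 := ((measurePreserving_sub_right (volume : Measure ℂ) a).integrableOn_comp_preimage
    (measurableEmbedding_subRight a)).2 h1
  refine h2.mono_set ?_
  intro w hw
  rw [Metric.mem_closedBall, dist_eq_norm] at hw
  show w - a ∈ Metric.ball (0 : ℂ) _
  rw [mem_ball_zero_iff]
  calc ‖w - a‖ = ‖(w - z) + (z - a)‖ := by ring_nf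
    _ ≤ ‖w - z‖ + ‖z - a‖ := norm_add_le _ _
    _ < ε + ‖z - a‖ + 1 := by linarith

/-- the integral over a circle -/
private theorem inner_integral (a z : ℂ) {r : ℝ} (hr : 0 < r) :
    ∫ θ in Set.Ioo (-Real.pi) Real.pi, Real.log ‖circleMap z r θ - a‖
      = 2 * Real.pi * (Real.log r + Real.posLog (r⁻¹ * ‖z - a‖)) := by
  rw [← circleAverage_log_norm_sub_const_eq_log_radius_add_posLog hr.ne', Real.circleAverage_def,
    smul_eq_mul, ← mul_assoc, mul_inv_cancel₀ (by positivity), one_mul,
    ← integral_Ioc_eq_integral_Ioo, ← intervalIntegral.integral_of_le (by linarith [Real.pi_pos])]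
  have hp : Function.Periodic (fun θ : ℝ => Real.log ‖circleMap z r θ - a‖) (2 * Real.pi) := by
    intro θ
    simp only [periodic_circleMap z r θ]
  have := hp.intervalIntegral_add_eq (-Real.pi) 0
  rw [show -Real.pi + 2 * Real.pi = Real.pi by ring, zero_add] at this
  exact this

/-- the one-dimensional integral -/
private theorem radial_integral (s : ℝ) (hs : 0 ≤ s) {ε : ℝ} (hε : 0 < ε) :
    ∫ r in Set.Ioc 0 ε, r * (2 * Real.pi * (Real.log r + Real.posLog (r⁻¹ * s)))
      = Real.pi * ε ^ 2 * slog ε s := by
  have hlarge : ∀ r, 0 < r → r ≤ s → Real.log r + Real.posLog (r⁻¹ * s) = Real.log s := by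
    intro r hr hrs
    have hs' : 0 < s := lt_of_lt_of_le hr hrs
    rw [Real.posLog_eq_log, Real.log_mul (by positivity) hs'.ne', Real.log_inv]
    · ring
    · rw [abs_of_nonneg (by positivity), ← div_eq_inv_mul, le_div_iff₀ hr]
      linarith
  have hsmall : ∀ r, 0 < r → s ≤ r → Real.log r + Real.posLog (r⁻¹ * s) = Real.log r := by
    intro r hr hrs
    rw [(Real.posLog_eq_zero_iff _).2, add_zero]
    rw [abs_of_nonneg (by positivity), ← div_eq_inv_mul, div_le_one hr]
    exact hrs
  have hlin : ∀ b : ℝ, 0 ≤ b → ∀ c : ℝ, ∫ r in (0 : ℝ)..b, r * (2 * Real.pi * c)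
      = Real.pi * b ^ 2 * c := by
    intro b _ c
    rw [intervalIntegral.integral_mul_const, integral_id]
    ring
  rcases le_or_gt ε s with h | h
  · have h1 : ∫ r in Set.Ioc 0 ε, r * (2 * Real.pi * (Real.log r + Real.posLog (r⁻¹ * s)))
        = ∫ r in (0 : ℝ)..ε, r * (2 * Real.pi * Real.log s) := by
      rw [intervalIntegral.integral_of_le hε.le]
      refine setIntegral_congr_fun measurableSet_Ioc ?_
      intro r hr
      simp only
      rw [hlarge r hr.1 (hr.2.trans h)]
    rw [h1, hlin ε hε.le]
    congr 1
    unfold slog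
    split_ifs with h2
    · have : s = ε := le_antisymm h2 h
      subst this
      rw [div_self (by positivity)]
      simp
    · rfl
  · have hcont : Continuous fun r : ℝ => r * (2 * Real.pi * Real.log r) := by
      have : (fun r : ℝ => r * (2 * Real.pi * Real.log r))
          = fun r => (2 * Real.pi) * (r * Real.log r) := by
        funext r
        ring
      rw [this]
      exact continuous_const.mul Real.continuous_mul_log
    have h1 : ∫ r in Set.Ioc 0 s, r * (2 * Real.pi * (Real.log r + Real.posLog (r⁻¹ * s)))
        = Real.pi * s ^ 2 * Real.log s := by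
      rw [← hlin s hs, intervalIntegral.integral_of_le hs]
      refine setIntegral_congr_fun measurableSet_Ioc ?_
      intro r hr
      simp only
      rw [hlarge r hr.1 hr.2]
    have h2 : ∫ r in Set.Ioc s ε, r * (2 * Real.pi * (Real.log r + Real.posLog (r⁻¹ * s)))
        = Real.pi * ε ^ 2 * (Real.log ε - 1 / 2) - Real.pi * s ^ 2 * (Real.log s - 1 / 2) := by
      have h3 : ∫ r in Set.Ioc s ε, r * (2 * Real.pi * (Real.log r + Real.posLog (r⁻¹ * s)))
          = ∫ r in s..ε, r * (2 * Real.pi * Real.log r) := by
        rw [intervalIntegral.integral_of_le h.le]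
        refine setIntegral_congr_fun measurableSet_Ioc ?_
        intro r hr
        simp only
        rw [hsmall r (lt_of_le_of_lt hs hr.1) hr.1.le]
      rw [h3, intervalIntegral.integral_eq_sub_of_hasDerivAt_of_le h.le
        (f := fun r => Real.pi * r ^ 2 * (Real.log r - 1 / 2))]
      · refine Continuous.continuousOn ?_
        have : (fun r : ℝ => Real.pi * r ^ 2 * (Real.log r - 1 / 2))
            = fun r => Real.pi * r * (r * Real.log r) - Real.pi * r ^ 2 * (1 / 2) := by
          funext r
          ring
        rw [this]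
        exact ((by fun_prop : Continuous fun r : ℝ => Real.pi * r).mul
          Real.continuous_mul_log).sub (by fun_prop)
      · intro r hr
        have hr0 : r ≠ 0 := (lt_of_le_of_lt hs hr.1).ne'
        have h4 : HasDerivAt (fun r => Real.pi * r ^ 2 * (Real.log r - 1 / 2))
            (Real.pi * (((2 : ℕ) : ℝ) * r ^ (2 - 1)) * (Real.log r - 1 / 2)
              + Real.pi * r ^ 2 * r⁻¹) r :=
          (((hasDerivAt_pow 2 r).const_mul Real.pi).mul
            ((Real.hasDerivAt_log hr0).sub_const (1 / 2)))
        refine h4.congr_deriv ?_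
        push_cast
        field_simp
        ring
      · exact hcont.intervalIntegrable _ _
    have hi : IntegrableOn (fun r => r * (2 * Real.pi * (Real.log r + Real.posLog (r⁻¹ * s))))
        (Set.Ioc 0 ε) := by
      rw [← Set.Ioc_union_Ioc_eq_Ioc hs h.le]
      refine IntegrableOn.union ?_ ?_
      · have h5 : IntegrableOn (fun r => r * (2 * Real.pi * Real.log s)) (Set.Ioc 0 s) :=
          ((by fun_prop : Continuous fun r : ℝ => r * (2 * Real.pi * Real.log s)
            ).continuousOn.integrableOn_Icc (a := 0) (b := s)).mono_set Set.Ioc_subset_Icc_self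
        refine h5.congr_fun ?_ measurableSet_Ioc
        intro r hr
        simp only
        rw [hlarge r hr.1 hr.2]
      · have h5 : IntegrableOn (fun r => r * (2 * Real.pi * Real.log r)) (Set.Ioc s ε) :=
          (hcont.continuousOn.integrableOn_Icc (a := s) (b := ε)).mono_set
            Set.Ioc_subset_Icc_self
        refine h5.congr_fun ?_ measurableSet_Ioc
        intro r hr
        simp only
        rw [hsmall r (lt_of_le_of_lt hs hr.1) hr.1.le]
    rw [← Set.Ioc_union_Ioc_eq_Ioc hs h.le, setIntegral_union ?_ measurableSet_Ioc ?_ ?_, h1, h2]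
    · unfold slog
      rw [if_pos h.le]
      field_simp
      ring
    · rw [Set.disjoint_left]
      intro x hx hx'
      exact absurd hx'.1 (not_lt.2 hx.2)
    · exact hi.mono_set (Set.Ioc_subset_Ioc_right h.le)
    · exact hi.mono_set (Set.Ioc_subset_Ioc_left hs)

private theorem polar_circle (z : ℂ) (r θ : ℝ) :
    z + Complex.polarCoord.symm (r, θ) = circleMap z r θ := by
  rw [Complex.polarCoord_symm_apply, circleMap, Complex.exp_mul_I]
  push_cast
  rfl

/-- the average of `log ‖· - a‖` over the disc of radius `ε` around `z` is `slog ε ‖z - a‖` -/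
theorem integral_log_disc (a z : ℂ) {ε : ℝ} (hε : 0 < ε) :
    ∫ w in Metric.closedBall z ε, Real.log ‖w - a‖ = Real.pi * ε ^ 2 * slog ε ‖z - a‖ := by
  set F : ℂ → ℝ := fun u => (Metric.closedBall (0 : ℂ) ε).indicator
    (fun u => Real.log ‖z + u - a‖) u with hF
  have hFeq : ∀ u, F u = (Metric.closedBall z ε).indicator
      (fun w => Real.log ‖w - a‖) (z + u) := by
    intro u
    simp only [hF, Set.indicator, Metric.mem_closedBall, dist_eq_norm, sub_zero,
      add_sub_cancel_left]
  have hGint : Integrable ((Metric.closedBall z ε).indicator (fun w => Real.log ‖w - a‖)) :=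
    (integrable_indicator_iff Metric.isClosed_closedBall.measurableSet).2
      (integrableOn_log_disc a z ε)
  have hFint : Integrable F := by
    have : F = fun u => (Metric.closedBall z ε).indicator (fun w => Real.log ‖w - a‖) (z + u) :=
      funext hFeq
    rw [this]
    exact hGint.comp_add_left z
  have h1 : ∫ w in Metric.closedBall z ε, Real.log ‖w - a‖ = ∫ u, F u := by
    rw [← integral_indicator Metric.isClosed_closedBall.measurableSet]
    simp_rw [hFeq]
    rw [integral_add_left_eq_self]
  have hmeas : Measurable F := by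
    refine Measurable.indicator ?_ Metric.isClosed_closedBall.measurableSet
    exact Real.measurable_log.comp (by fun_prop)
  have hFin : ∀ r θ : ℝ, 0 < r → r ≤ ε →
      F (Complex.polarCoord.symm (r, θ)) = Real.log ‖circleMap z r θ - a‖ := by
    intro r θ hr hrε
    have hmem : Complex.polarCoord.symm (r, θ) ∈ Metric.closedBall (0 : ℂ) ε := by
      rw [mem_closedBall_zero_iff, Complex.norm_polarCoord_symm, abs_of_pos hr]
      exact hrε
    simp only [hF, Set.indicator_of_mem hmem, polar_circle]
  have hFout : ∀ r θ : ℝ, ε < r → F (Complex.polarCoord.symm (r, θ)) = 0 := by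
    intro r θ hr
    have hmem : Complex.polarCoord.symm (r, θ) ∉ Metric.closedBall (0 : ℂ) ε := by
      rw [mem_closedBall_zero_iff, Complex.norm_polarCoord_symm, abs_of_pos (hε.trans hr)]
      exact not_le.2 hr
    simp only [hF, Set.indicator_of_notMem hmem]
  have hpint : IntegrableOn (fun p : ℝ × ℝ => p.1 • F (Complex.polarCoord.symm p))
      (Set.Ioi (0 : ℝ) ×ˢ Set.Ioo (-Real.pi) Real.pi) (volume.prod volume) := by
    constructor
    · refine Measurable.aestronglyMeasurable ?_
      refine measurable_fst.smul (hmeas.comp ?_)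
      have : (fun p : ℝ × ℝ => Complex.polarCoord.symm p)
          = fun p : ℝ × ℝ => (p.1 : ℂ) * (Real.cos p.2 + Real.sin p.2 * Complex.I) := by
        funext p
        exact Complex.polarCoord_symm_apply p
      change Measurable (fun p : ℝ × ℝ => Complex.polarCoord.symm p)
      rw [this]
      fun_prop
    · have h2 := Complex.lintegral_comp_polarCoord_symm (fun u => ‖F u‖ₑ)
      have h3 : ∫⁻ u, ‖F u‖ₑ < ⊤ := hFint.2
      rw [← h2] at h3
      refine lt_of_le_of_lt (le_of_eq ?_) h3
      refine setLIntegral_congr_fun (measurableSet_Ioi.prod measurableSet_Ioo) ?_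
      intro p hp
      have hp1 : 0 < p.1 := hp.1
      simp only
      rw [enorm_smul, Real.enorm_of_nonneg hp1.le, smul_eq_mul]
  rw [h1, ← Complex.integral_comp_polarCoord_symm, ← radial_integral ‖z - a‖ (norm_nonneg _) hε]
  have h4 : ∫ p in polarCoord.target, p.1 • F (Complex.polarCoord.symm p)
      = ∫ r in Set.Ioi (0 : ℝ), ∫ θ in Set.Ioo (-Real.pi) Real.pi,
        r • F (Complex.polarCoord.symm (r, θ)) :=
    setIntegral_prod _ hpint
  rw [h4, setIntegral_eq_of_subset_of_forall_sdiff_eq_zero measurableSet_Ioi
    (Set.Ioc_subset_Ioi_self : Set.Ioc 0 ε ⊆ Set.Ioi 0)]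
  · refine setIntegral_congr_fun measurableSet_Ioc ?_
    intro r hr
    simp only
    rw [← inner_integral a z hr.1, ← integral_const_mul]
    refine setIntegral_congr_fun measurableSet_Ioo ?_
    intro θ _
    simp only [smul_eq_mul]
    rw [hFin r θ hr.1 hr.2]
  · intro r hr
    have hrε : ε < r := by
      by_contra hcon
      exact hr.2 ⟨hr.1, not_lt.1 hcon⟩
    simp only [hFout r _ hrε, smul_zero, integral_zero]

end Pool.MP_31392c_an
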