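import Pool.Agent.Lib.MP_31392c_an.Defs

set_option autoImplicit false

open MeasureTheory Complex

namespace Pool.MP_31392c_an

theorem log_le_slog {ε s : ℝ} (hε : 0 < ε) (hs : 0 < s) : Real.log s ≤ slog ε s := by
  unfold slog
  split_ifs with h
  · have h1 : 0 < s ^ 2 / ε ^ 2 := by positivity
    have h2 := Real.log_le_sub_one_of_pos h1
    rw [Real.log_div (by positivity) (by positivity), Real.log_pow, Real.log_pow] at h2
    push_cast at h2
    linarith
  · exact le_refl _

theorem slog_ge {ε s : ℝ} (hε : 0 < ε) (hs : 0 ≤ s) : Real.log ε - 1 / 2 ≤ slog ε s := by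
  unfold slog
  split_ifs with h
  · have h1 : 0 ≤ s ^ 2 / ε ^ 2 := by positivity
    linarith
  · push Not at h
    have := Real.log_le_log hε h.le
    linarith

theorem slog_mono {ε s t : ℝ} (hε : 0 < ε) (hs : 0 ≤ s) (hst : s ≤ t) : slog ε s ≤ slog ε t := by
  unfold slog
  split_ifs with h1 h2 h2
  · have : s ^ 2 / ε ^ 2 ≤ t ^ 2 / ε ^ 2 := by gcongr
    linarith
  · push Not at h2
    have h3 : s ^ 2 / ε ^ 2 ≤ 1 := by
      rw [div_le_one (by positivity)]
      gcongr
    have := Real.log_le_log hε h2.le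
    linarith
  · exfalso
    linarith
  · exact Real.log_le_log (by linarith) hst

theorem slog_le_log {ε s R : ℝ} (hε : 0 < ε) (hs : 0 ≤ s) (hsR : s ≤ R) (hεR : ε ≤ R) :
    slog ε s ≤ Real.log R := by
  refine (slog_mono hε hs hsR).trans ?_
  unfold slog
  split_ifs with h
  · have : R = ε := le_antisymm h hεR
    subst this
    rw [div_self (by positivity)]
    simp
  · exact le_refl _

theorem continuous_vf {ε : ℝ} (hε : 0 < ε) (a : ℂ) : Continuous (vf ε a) := by
  unfold vf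
  refine Continuous.mul ?_ (by fun_prop)
  refine Complex.continuous_ofReal.comp ?_
  refine Continuous.div continuous_const (by fun_prop) ?_
  intro z
  have : 0 < max ‖z - a‖ ε := lt_max_of_lt_right hε
  positivity

private theorem vf_eq (ε : ℝ) (a z : ℂ) : vf ε a z = (1 / (max ‖z - a‖ ε) ^ 2) • (z - a) := by
  rw [vf, Complex.real_smul]

private theorem hasFDerivAt_sq (a z : ℂ) :
    HasFDerivAt (fun w : ℂ => ‖w - a‖ ^ 2) ((2 : ℝ) • innerSL ℝ (z - a)) z := by
  have h1 : HasFDerivAt (fun w : ℂ => w - a) (ContinuousLinearMap.id ℝ ℂ) z :=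
    (hasFDerivAt_id z).sub_const a
  have h2 := h1.norm_sq
  refine h2.congr_fderiv ?_
  ext w
  simp [two_smul]

private theorem hasFDerivAt_in (ε : ℝ) (a z : ℂ) :
    HasFDerivAt (fun w : ℂ => Real.log ε + (‖w - a‖ ^ 2 / ε ^ 2 - 1) / 2)
      ((1 / ε ^ 2) • innerSL ℝ (z - a)) z := by
  have h1 := (((hasFDerivAt_sq a z).mul_const ((ε ^ 2)⁻¹)).sub_const 1).mul_const (2⁻¹ : ℝ)
  have h2 := h1.const_add (Real.log ε)
  refine h2.congr_fderiv ?_
  rw [smul_smul, smul_smul]
  congr 1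
  field_simp

private theorem hasFDerivAt_out (a z : ℂ) (h : z - a ≠ 0) :
    HasFDerivAt (fun w : ℂ => Real.log ‖w - a‖)
      ((1 / ‖z - a‖ ^ 2) • innerSL ℝ (z - a)) z := by
  have hn : ‖z - a‖ ^ 2 ≠ 0 := by
    have := norm_pos_iff.2 h
    positivity
  have h1 := ((hasFDerivAt_sq a z).log hn).mul_const (2⁻¹ : ℝ)
  have h2 : (fun w : ℂ => Real.log ‖w - a‖) = fun w : ℂ => Real.log (‖w - a‖ ^ 2) * 2⁻¹ := by
    funext w
    rw [Real.log_pow]
    push_cast
    ring
  rw [h2]
  refine h1.congr_fderiv ?_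
  rw [smul_smul, smul_smul]
  congr 1
  field_simp

private theorem hasFDerivAt_glue {f F₁ F₂ : ℂ → ℝ} {L : ℂ →L[ℝ] ℝ} {z : ℂ}
    (h1 : HasFDerivAt F₁ L z) (h2 : HasFDerivAt F₂ L z) (e1 : f z = F₁ z) (e2 : f z = F₂ z)
    (h : ∀ w, f w = F₁ w ∨ f w = F₂ w) : HasFDerivAt f L z := by
  have g1 : HasFDerivWithinAt f L {w | f w = F₁ w} z :=
    h1.hasFDerivWithinAt.congr (fun w hw => hw) e1
  have g2 : HasFDerivWithinAt f L {w | f w = F₂ w} z :=
    h2.hasFDerivWithinAt.congr (fun w hw => hw) e2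
  have g3 := g1.union g2
  have g4 : {w | f w = F₁ w} ∪ {w | f w = F₂ w} = Set.univ := by
    ext w
    simpa using h w
  rwa [g4, hasFDerivWithinAt_univ] at g3

theorem hasFDerivAt_slog {ε : ℝ} (hε : 0 < ε) (a z : ℂ) :
    HasFDerivAt (fun w : ℂ => slog ε ‖w - a‖) (innerSL ℝ (vf ε a z)) z := by
  rw [vf_eq, map_smul]
  have hcont : Continuous fun w : ℂ => ‖w - a‖ := by fun_prop
  rcases lt_trichotomy ‖z - a‖ ε with h | h | h
  · rw [max_eq_right h.le]
    refine (hasFDerivAt_in ε a z).congr_of_eventuallyEq ?_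
    filter_upwards [hcont.continuousAt.eventually (Iio_mem_nhds h)] with w hw
    have hw' : ‖w - a‖ ≤ ε := le_of_lt hw
    simp only [slog, if_pos hw']
  · rw [max_eq_left h.ge]
    have hne : z - a ≠ 0 := by
      intro h0
      rw [h0, norm_zero] at h
      exact hε.ne h
    refine hasFDerivAt_glue (F₁ := fun w : ℂ => Real.log ε + (‖w - a‖ ^ 2 / ε ^ 2 - 1) / 2)
      (F₂ := fun w : ℂ => Real.log ‖w - a‖) ?_ (hasFDerivAt_out a z hne) ?_ ?_ ?_
    · rw [h]
      exact hasFDerivAt_in ε a z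
    · simp only [slog, if_pos h.le]
    · simp only [slog, if_pos h.le]
      rw [h, div_self (by positivity)]
      simp
    · intro w
      by_cases hw : ‖w - a‖ ≤ ε
      · left
        simp only [slog, if_pos hw]
      · right
        simp only [slog, if_neg hw]
  · rw [max_eq_left h.le]
    have hne : z - a ≠ 0 := by
      intro h0
      rw [h0, norm_zero] at h
      linarith
    refine (hasFDerivAt_out a z hne).congr_of_eventuallyEq ?_
    filter_upwards [hcont.continuousAt.eventually (Ioi_mem_nhds h)] with w hw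
    have hw' : ¬ ‖w - a‖ ≤ ε := not_le.2 hw
    simp only [slog, if_neg hw']

theorem contDiff_slog {ε : ℝ} (hε : 0 < ε) (a : ℂ) :
    ContDiff ℝ 1 (fun w : ℂ => slog ε ‖w - a‖) := by
  rw [contDiff_one_iff_hasFDerivAt]
  exact ⟨fun z => innerSL ℝ (vf ε a z), (innerSL ℝ).continuous.comp (continuous_vf hε a),
    hasFDerivAt_slog hε a⟩

end Pool.MP_31392c_an
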