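import Pool.Agent.Lib.MP_31392c_an.Defs

set_option autoImplicit false

open MeasureTheory Complex

namespace Pool.MP_31392c_an

theorem PC_integral_prod {G : ℝ × ℝ → ℝ} (hG : Continuous G) {R : ℝ} (hR : 0 ≤ R) :
    ∫ p in (Set.Ioo 0 R) ×ˢ (Set.Ioo (-Real.pi) Real.pi), G p =
      ∫ r in (0 : ℝ)..R, ∫ θ in (-Real.pi)..Real.pi, G (r, θ) := by
  have hint : IntegrableOn G ((Set.Ioo 0 R) ×ˢ (Set.Ioo (-Real.pi) Real.pi))
      ((volume : Measure ℝ).prod volume) := by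
    refine IntegrableOn.mono_set (t := Set.Icc 0 R ×ˢ Set.Icc (-Real.pi) Real.pi) ?_ ?_
    · exact hG.continuousOn.integrableOn_compact (isCompact_Icc.prod isCompact_Icc)
    · exact Set.prod_mono Set.Ioo_subset_Icc_self Set.Ioo_subset_Icc_self
  rw [Measure.volume_eq_prod, setIntegral_prod _ hint, intervalIntegral.integral_of_le hR,
    integral_Ioc_eq_integral_Ioo]
  refine setIntegral_congr_fun measurableSet_Ioo fun r _ => ?_
  rw [intervalIntegral.integral_of_le (by linarith [Real.pi_pos]), integral_Ioc_eq_integral_Ioo]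

/-- integral over a disc in polar coordinates -/
theorem PC_ball {g : ℂ → ℝ} (hg : Continuous g) {R : ℝ} (hR : 0 ≤ R) :
    ∫ z in Metric.ball (0 : ℂ) R, g z =
      ∫ r in (0 : ℝ)..R, ∫ θ in (-Real.pi)..Real.pi, r * g ((r : ℂ) * exp ((θ : ℂ) * I)) := by
  have h1 : ∫ z in Metric.ball (0 : ℂ) R, g z =
      ∫ z, (Metric.ball (0 : ℂ) R).indicator g z := (integral_indicator Metric.isOpen_ball.measurableSet).symm
  rw [h1, ← Complex.integral_comp_polarCoord_symm]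
  have h2 : ∀ p ∈ polarCoord.target, p.1 • (Metric.ball (0 : ℂ) R).indicator g
      (Complex.polarCoord.symm p) =
      (Set.Iio R ×ˢ (Set.univ : Set ℝ)).indicator
        (fun p : ℝ × ℝ => p.1 * g ((p.1 : ℂ) * exp ((p.2 : ℂ) * I))) p := by
    intro p hp
    rw [polarCoord_target, Set.mem_prod, Set.mem_Ioi] at hp
    have h3 : Complex.polarCoord.symm p = (p.1 : ℂ) * exp ((p.2 : ℂ) * I) := by
      rw [Complex.polarCoord_symm_apply, Complex.exp_mul_I]
      push_cast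
      rfl
    have h4 : ‖Complex.polarCoord.symm p‖ = p.1 := by
      rw [h3, norm_mul, Complex.norm_exp_ofReal_mul_I, mul_one, Complex.norm_real,
        Real.norm_of_nonneg hp.1.le]
    by_cases h5 : p.1 < R
    · rw [Set.indicator_of_mem, Set.indicator_of_mem, h3, smul_eq_mul]
      · exact ⟨h5, Set.mem_univ _⟩
      · rw [mem_ball_zero_iff, h4]
        exact h5
    · rw [Set.indicator_of_notMem, Set.indicator_of_notMem, smul_zero]
      · exact fun h => h5 h.1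
      · rw [mem_ball_zero_iff, h4]
        exact h5
  rw [setIntegral_congr_fun (by
    rw [polarCoord_target]
    exact measurableSet_Ioi.prod measurableSet_Ioo) h2]
  rw [setIntegral_indicator (measurableSet_Iio.prod MeasurableSet.univ), polarCoord_target]
  have h6 : (Set.Ioi (0 : ℝ) ×ˢ Set.Ioo (-Real.pi) Real.pi) ∩ (Set.Iio R ×ˢ (Set.univ : Set ℝ)) =
      Set.Ioo 0 R ×ˢ Set.Ioo (-Real.pi) Real.pi := by
    ext p
    simp only [Set.mem_inter_iff, Set.mem_prod, Set.mem_Ioi, Set.mem_Ioo, Set.mem_Iio,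
      Set.mem_univ, and_true]
    tauto
  rw [h6, PC_integral_prod _ hR]
  fun_prop

theorem PC_norm_sq (L : ℂ →L[ℝ] ℝ) (z : ℂ) :
    (L z) ^ 2 + (L (z * I)) ^ 2 = ‖z‖ ^ 2 * ‖L‖ ^ 2 := by
  obtain ⟨v, rfl⟩ := (InnerProductSpace.toDual ℝ ℂ).surjective L
  rw [LinearIsometryEquiv.norm_map, InnerProductSpace.toDual_apply_apply,
    InnerProductSpace.toDual_apply_apply, Complex.inner, Complex.inner, ← Complex.normSq_eq_norm_sq,
    ← Complex.normSq_eq_norm_sq]
  simp only [Complex.mul_re, Complex.conj_re, Complex.conj_im, Complex.mul_im, Complex.I_re,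
    Complex.I_im, Complex.normSq_apply]
  ring

theorem PC_deriv_x {f : ℂ → ℝ} (hf : ContDiff ℝ 1 f) (ρ x θ : ℝ) :
    deriv (fun y : ℝ => f ((ρ : ℂ) * exp ((y : ℂ) + (θ : ℂ) * I))) x =
      fderiv ℝ f ((ρ : ℂ) * exp ((x : ℂ) + (θ : ℂ) * I))
        ((ρ : ℂ) * exp ((x : ℂ) + (θ : ℂ) * I)) := by
  have h1 : HasDerivAt (fun y : ℝ => (ρ : ℂ) * exp ((y : ℂ) + (θ : ℂ) * I))
      ((ρ : ℂ) * exp ((x : ℂ) + (θ : ℂ) * I)) x := by
    have h2 : HasDerivAt (fun y : ℝ => (y : ℂ) + (θ : ℂ) * I) 1 x :=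
      (Complex.ofRealCLM.hasDerivAt (x := x)).add_const _
    have h3 := (h2.cexp).const_mul (ρ : ℂ)
    simpa using h3
  exact ((hf.differentiable one_ne_zero _).hasFDerivAt.comp_hasDerivAt x h1).deriv

theorem PC_deriv_θ {f : ℂ → ℝ} (hf : ContDiff ℝ 1 f) (ρ x θ : ℝ) :
    deriv (fun y : ℝ => f ((ρ : ℂ) * exp ((x : ℂ) + (y : ℂ) * I))) θ =
      fderiv ℝ f ((ρ : ℂ) * exp ((x : ℂ) + (θ : ℂ) * I))
        ((ρ : ℂ) * exp ((x : ℂ) + (θ : ℂ) * I) * I) := by
  have h1 : HasDerivAt (fun y : ℝ => (ρ : ℂ) * exp ((x : ℂ) + (y : ℂ) * I))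
      ((ρ : ℂ) * exp ((x : ℂ) + (θ : ℂ) * I) * I) θ := by
    have h2 : HasDerivAt (fun y : ℝ => (x : ℂ) + (y : ℂ) * I) (1 * I) θ :=
      ((Complex.ofRealCLM.hasDerivAt (x := θ)).mul_const I).const_add _
    have h3 := (h2.cexp).const_mul (ρ : ℂ)
    simpa [mul_assoc] using h3
  exact ((hf.differentiable one_ne_zero _).hasFDerivAt.comp_hasDerivAt θ h1).deriv

/-- Dirichlet energy in logarithmic polar coordinates -/
theorem polar_energy (f : ℂ → ℝ) (hf : ContDiff ℝ 1 f) {ρ X : ℝ} (hρ : 0 < ρ) (hX : 0 ≤ X)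
    (h1 : ∀ z, ‖z‖ ≤ ρ → f z = 1) (h0 : ∀ z, ρ * Real.exp X ≤ ‖z‖ → f z = 0) :
    (∫ z, ‖fderiv ℝ f z‖ ^ 2) = ∫ x in (0 : ℝ)..X, ∫ θ in (0 : ℝ)..(2 * Real.pi),
      ((deriv (fun y : ℝ => f ((ρ : ℂ) * exp ((y : ℂ) + (θ : ℂ) * I))) x) ^ 2 +
       (deriv (fun y : ℝ => f ((ρ : ℂ) * exp ((x : ℂ) + (y : ℂ) * I))) θ) ^ 2) := by
  have hcf : Continuous (fderiv ℝ f) := hf.continuous_fderiv one_ne_zero
  have hg : Continuous (fun z => ‖fderiv ℝ f z‖ ^ 2) := (hcf.norm).pow 2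
  set R := ρ * Real.exp X with hR
  have hR0 : 0 < R := by positivity
  have hρR : ρ ≤ R := by
    rw [hR]
    have := Real.one_le_exp hX
    nlinarith
  -- the derivative vanishes outside
  have hout : ∀ z ∉ Metric.ball (0 : ℂ) R, ‖fderiv ℝ f z‖ ^ 2 = 0 := by
    intro z hz
    have hcl : IsClosed {z : ℂ | ‖fderiv ℝ f z‖ ^ 2 = 0} := isClosed_eq hg continuous_const
    have hsub : (Metric.closedBall (0 : ℂ) R)ᶜ ⊆ {z : ℂ | ‖fderiv ℝ f z‖ ^ 2 = 0} := by
      intro w hw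
      have h2 : f =ᶠ[nhds w] fun _ => (0 : ℝ) := by
        filter_upwards [Metric.isClosed_closedBall.isOpen_compl.mem_nhds hw] with u hu
        apply h0
        rw [Set.mem_compl_iff, mem_closedBall_zero_iff, not_le] at hu
        exact hu.le
      change ‖fderiv ℝ f w‖ ^ 2 = 0
      rw [h2.fderiv_eq]
      simp
    have h3 := hcl.closure_subset_iff.2 hsub
    apply h3
    rw [closure_compl, interior_closedBall _ hR0.ne']
    exact hz
  have hin : ∀ z ∈ Metric.ball (0 : ℂ) ρ, ‖fderiv ℝ f z‖ ^ 2 = 0 := by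
    intro z hz
    have h2 : f =ᶠ[nhds z] fun _ => (1 : ℝ) := by
      filter_upwards [Metric.isOpen_ball.mem_nhds hz] with u hu
      apply h1
      rw [mem_ball_zero_iff] at hu
      exact hu.le
    rw [h2.fderiv_eq]
    simp
  rw [← setIntegral_eq_integral_of_forall_compl_eq_zero hout, PC_ball hg hR0.le]
  set G : ℝ → ℝ := fun r => ∫ θ in (-Real.pi)..Real.pi,
    r * ‖fderiv ℝ f ((r : ℂ) * exp ((θ : ℂ) * I))‖ ^ 2 with hG
  have hGc : Continuous G := by
    refine intervalIntegral.continuous_parametric_intervalIntegral_of_continuous' ?_ _ _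
    fun_prop
  have hsplit : ∫ r in (0 : ℝ)..R, G r = ∫ r in ρ..R, G r := by
    rw [← intervalIntegral.integral_add_adjacent_intervals (b := ρ)
      (hGc.intervalIntegrable _ _) (hGc.intervalIntegrable _ _)]
    have h2 : ∫ r in (0 : ℝ)..ρ, G r = 0 := by
      rw [intervalIntegral.integral_of_le hρ.le, integral_Ioc_eq_integral_Ioo]
      refine (setIntegral_congr_fun (g := fun _ => (0 : ℝ)) measurableSet_Ioo fun r hr => ?_).trans
        (by simp)
      simp only [hG]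
      refine (intervalIntegral.integral_congr (g := fun _ => (0 : ℝ)) fun θ _ => ?_).trans
        (by simp)
      simp only
      rw [hin, mul_zero]
      rw [mem_ball_zero_iff, norm_mul, Complex.norm_exp_ofReal_mul_I, mul_one, Complex.norm_real,
        Real.norm_of_nonneg hr.1.le]
      exact hr.2
    rw [h2, zero_add]
  change ∫ r in (0 : ℝ)..R, G r = _
  rw [hsplit]
  have hu : ∀ x ∈ Set.uIcc 0 X, HasDerivAt (fun x => ρ * Real.exp x) (ρ * Real.exp x) x :=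
    fun x _ => (Real.hasDerivAt_exp x).const_mul ρ
  have hsub := intervalIntegral.integral_comp_mul_deriv' (g := G) hu
    (by fun_prop) hGc.continuousOn
  simp only [Real.exp_zero, mul_one] at hsub
  rw [← hsub]
  refine intervalIntegral.integral_congr fun x _ => ?_
  simp only [Function.comp, hG]
  rw [← intervalIntegral.integral_mul_const]
  have hpt : ∀ θ : ℝ, (ρ * Real.exp x) * ‖fderiv ℝ f (((ρ * Real.exp x : ℝ) : ℂ) *
      exp ((θ : ℂ) * I))‖ ^ 2 * (ρ * Real.exp x) =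
      ((deriv (fun y : ℝ => f ((ρ : ℂ) * exp ((y : ℂ) + (θ : ℂ) * I))) x) ^ 2 +
       (deriv (fun y : ℝ => f ((ρ : ℂ) * exp ((x : ℂ) + (y : ℂ) * I))) θ) ^ 2) := by
    intro θ
    have h2 : ((ρ * Real.exp x : ℝ) : ℂ) * exp ((θ : ℂ) * I) =
        (ρ : ℂ) * exp ((x : ℂ) + (θ : ℂ) * I) := by
      rw [Complex.exp_add, Complex.ofReal_mul, Complex.ofReal_exp]
      ring
    rw [PC_deriv_x hf, PC_deriv_θ hf, PC_norm_sq, h2]
    have h3 : ‖(ρ : ℂ) * exp ((x : ℂ) + (θ : ℂ) * I)‖ = ρ * Real.exp x := by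
      rw [← h2, norm_mul, Complex.norm_exp_ofReal_mul_I, mul_one, Complex.norm_real,
        Real.norm_of_nonneg (by positivity)]
    rw [h3]
    ring
  rw [intervalIntegral.integral_congr (g := fun θ =>
      ((deriv (fun y : ℝ => f ((ρ : ℂ) * exp ((y : ℂ) + (θ : ℂ) * I))) x) ^ 2 +
       (deriv (fun y : ℝ => f ((ρ : ℂ) * exp ((x : ℂ) + (y : ℂ) * I))) θ) ^ 2))
      (fun θ _ => hpt θ)]
  have hper : Function.Periodic (fun θ : ℝ =>
      ((deriv (fun y : ℝ => f ((ρ : ℂ) * exp ((y : ℂ) + (θ : ℂ) * I))) x) ^ 2 +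
       (deriv (fun y : ℝ => f ((ρ : ℂ) * exp ((x : ℂ) + (y : ℂ) * I))) θ) ^ 2))
      (2 * Real.pi) := by
    intro θ
    have h2 : (ρ : ℂ) * exp ((x : ℂ) + ((θ + 2 * Real.pi : ℝ) : ℂ) * I) =
        (ρ : ℂ) * exp ((x : ℂ) + (θ : ℂ) * I) := by
      have : (x : ℂ) + ((θ + 2 * Real.pi : ℝ) : ℂ) * I =
          ((x : ℂ) + (θ : ℂ) * I) + 2 * Real.pi * I := by
        push_cast
        ring
      rw [this, Complex.exp_add, Complex.exp_two_pi_mul_I, mul_one]
    simp only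
    rw [PC_deriv_x hf, PC_deriv_θ hf, PC_deriv_x hf, PC_deriv_θ hf, h2]
  have h3 := hper.intervalIntegral_add_eq (-Real.pi) 0
  have e1 : -Real.pi + 2 * Real.pi = Real.pi := by ring
  have e2 : 0 + 2 * Real.pi = 2 * Real.pi := by ring
  rw [e1, e2] at h3
  exact h3

end Pool.MP_31392c_an
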