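import Pool.Agent.Lib.MP_31392c_an.Defs

set_option autoImplicit false

open MeasureTheory Complex

namespace Pool.MP_31392c_an

theorem norm_polar (r θ : ℝ) (hr : 0 ≤ r) : ‖(r : ℂ) * exp ((θ : ℂ) * I)‖ = r := by
  rw [norm_mul, Complex.norm_exp_ofReal_mul_I, mul_one, Complex.norm_real, Real.norm_eq_abs,
    abs_of_nonneg hr]

theorem raySet_subset {E : Set ℂ} {R : ℝ} (hR : ∀ z ∈ E, ‖z‖ ≤ R) (θ : ℝ) :
    {t : ℝ | 0 ≤ t ∧ (t : ℂ) * exp ((θ : ℂ) * I) ∈ E} ⊆ Set.Icc 0 R := by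
  rintro t ⟨h0, h1⟩
  have := hR _ h1
  rw [norm_polar t θ h0] at this
  exact ⟨h0, this⟩

theorem rayMeasure_nonneg (E : Set ℂ) (θ : ℝ) : 0 ≤ rayMeasure E θ := ENNReal.toReal_nonneg

theorem rayMeasure_le {E : Set ℂ} {R : ℝ} (hR0 : 0 ≤ R) (hR : ∀ z ∈ E, ‖z‖ ≤ R) (θ : ℝ) :
    rayMeasure E θ ≤ R := by
  have h := measure_mono (μ := volume) (raySet_subset hR θ)
  rw [Real.volume_Icc, sub_zero] at h
  have := ENNReal.toReal_mono ENNReal.ofReal_ne_top h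
  rwa [ENNReal.toReal_ofReal hR0] at this

theorem raySet_lt_top {E : Set ℂ} (hE : Bornology.IsBounded E) (θ : ℝ) :
    volume {t : ℝ | 0 ≤ t ∧ (t : ℂ) * exp ((θ : ℂ) * I) ∈ E} < ⊤ := by
  obtain ⟨R, hR⟩ := hE.exists_norm_le
  refine lt_of_le_of_lt (measure_mono (raySet_subset hR θ)) ?_
  rw [Real.volume_Icc]
  exact ENNReal.ofReal_lt_top

theorem rayMeasure_mono {E F : Set ℂ} (hF : Bornology.IsBounded F) (h : E ⊆ F) (θ : ℝ) :
    rayMeasure E θ ≤ rayMeasure F θ := by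
  apply ENNReal.toReal_mono (raySet_lt_top hF θ).ne
  apply measure_mono
  rintro t ⟨h0, h1⟩
  exact ⟨h0, h h1⟩

theorem LR_norm_le {E : Set ℂ} {R : ℝ} (hR0 : 0 ≤ R) (hR : ∀ z ∈ E, ‖z‖ ≤ R) :
    ∀ z ∈ LR E, ‖z‖ ≤ R := by
  rintro z ⟨r, θ, h0, h1, rfl⟩
  rw [norm_polar r θ h0]
  exact h1.trans (rayMeasure_le hR0 hR θ)

theorem LR_bounded {E : Set ℂ} (hE : Bornology.IsBounded E) : Bornology.IsBounded (LR E) := by
  obtain ⟨R, hR⟩ := hE.exists_norm_le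
  rw [isBounded_iff_forall_norm_le]
  exact ⟨max R 0, LR_norm_le (le_max_right _ _) (fun z hz => (hR z hz).trans (le_max_left _ _))⟩

theorem LR_mono {E F : Set ℂ} (hF : Bornology.IsBounded F) (h : E ⊆ F) : LR E ⊆ LR F := by
  rintro z ⟨r, θ, h0, h1, rfl⟩
  exact ⟨r, θ, h0, h1.trans (rayMeasure_mono hF h θ), rfl⟩

/-- points close to a point of `LR E` in polar form -/
theorem norm_exp_sub_le {r r' θ θ' d : ℝ} (hr : 0 ≤ r) (hr' : 0 < r')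
    (h : ‖(r' : ℂ) * exp ((θ' : ℂ) * I) - (r : ℂ) * exp ((θ : ℂ) * I)‖ ≤ d) :
    ‖exp ((θ' : ℂ) * I) - exp ((θ : ℂ) * I)‖ ≤ 2 * d / r' := by
  have e1 : ((r' : ℂ)) * (exp ((θ' : ℂ) * I) - exp ((θ : ℂ) * I)) =
      ((r' : ℂ) * exp ((θ' : ℂ) * I) - (r : ℂ) * exp ((θ : ℂ) * I)) +
        (((r - r' : ℝ) : ℂ)) * exp ((θ : ℂ) * I) := by
    push_cast; ring
  have e2 : |r - r'| ≤ d := by
    have := abs_norm_sub_norm_le ((r' : ℂ) * exp ((θ' : ℂ) * I)) ((r : ℂ) * exp ((θ : ℂ) * I))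
    rw [norm_polar r' θ' hr'.le, norm_polar r θ hr] at this
    rw [abs_sub_comm]
    exact this.trans h
  have e3 : r' * ‖exp ((θ' : ℂ) * I) - exp ((θ : ℂ) * I)‖ ≤ 2 * d := by
    have : ‖((r' : ℂ)) * (exp ((θ' : ℂ) * I) - exp ((θ : ℂ) * I))‖ =
        r' * ‖exp ((θ' : ℂ) * I) - exp ((θ : ℂ) * I)‖ := by
      rw [norm_mul, Complex.norm_real, Real.norm_eq_abs, abs_of_pos hr']
    rw [← this, e1]
    refine (norm_add_le _ _).trans ?_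
    have : ‖(((r - r' : ℝ) : ℂ)) * exp ((θ : ℂ) * I)‖ = |r - r'| := by
      rw [norm_mul, Complex.norm_exp_ofReal_mul_I, mul_one, Complex.norm_real, Real.norm_eq_abs]
    rw [this]
    linarith
  rw [le_div_iff₀ hr']
  linarith

end Pool.MP_31392c_an
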